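import Mathlib

/-!
# Weighted `ℓ¹` norms of power series
-/

set_option autoImplicit false

namespace Pool.Agent.Helper341_polar

open MvPowerSeries ENNReal

variable {σ : Type}

/-- the weight of a multiindex -/
noncomputable def wt (ρ : σ → ℝ≥0∞) (α : σ →₀ ℕ) : ℝ≥0∞ := α.prod fun i k => ρ i ^ k

theorem wt_zero (ρ : σ → ℝ≥0∞) : wt ρ 0 = 1 := by simp [wt]

theorem wt_add (ρ : σ → ℝ≥0∞) (α β : σ →₀ ℕ) : wt ρ (α + β) = wt ρ α * wt ρ β := by
  classical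
  unfold wt
  exact Finsupp.prod_add_index' (fun _ => pow_zero _) (fun _ _ _ => pow_add _ _ _)

theorem wt_single (ρ : σ → ℝ≥0∞) (i : σ) (k : ℕ) : wt ρ (Finsupp.single i k) = ρ i ^ k := by
  unfold wt
  exact Finsupp.prod_single_index (pow_zero _)

theorem wt_mono {ρ ρ' : σ → ℝ≥0∞} (h : ∀ i, ρ i ≤ ρ' i) (α : σ →₀ ℕ) : wt ρ α ≤ wt ρ' α := by
  unfold wt Finsupp.prod
  exact Finset.prod_le_prod' fun i _ => pow_le_pow_left' (h i) _

/-- the weighted norm -/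
noncomputable def wn (ρ : σ → ℝ≥0∞) (f : MvPowerSeries σ ℂ) : ℝ≥0∞ :=
  ∑' α, ‖coeff α f‖ₑ * wt ρ α

theorem wn_zero (ρ : σ → ℝ≥0∞) : wn ρ 0 = 0 := by simp [wn]

theorem wn_add_le (ρ : σ → ℝ≥0∞) (f g : MvPowerSeries σ ℂ) : wn ρ (f + g) ≤ wn ρ f + wn ρ g := by
  unfold wn
  rw [← ENNReal.tsum_add]
  apply ENNReal.tsum_le_tsum
  intro α
  rw [← add_mul, map_add]
  gcongr
  exact enorm_add_le _ _

theorem wn_neg (ρ : σ → ℝ≥0∞) (f : MvPowerSeries σ ℂ) : wn ρ (-f) = wn ρ f := by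
  unfold wn
  simp only [map_neg, enorm_neg]

theorem wn_sub_le (ρ : σ → ℝ≥0∞) (f g : MvPowerSeries σ ℂ) : wn ρ (f - g) ≤ wn ρ f + wn ρ g := by
  rw [sub_eq_add_neg]
  refine (wn_add_le ρ f (-g)).trans ?_
  rw [wn_neg]

theorem wn_sum_le {ι : Type} (s : Finset ι) (ρ : σ → ℝ≥0∞) (f : ι → MvPowerSeries σ ℂ) :
    wn ρ (∑ i ∈ s, f i) ≤ ∑ i ∈ s, wn ρ (f i) := by
  classical
  induction s using Finset.induction_on with
  | empty => simp [wn_zero]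
  | insert a s ha ih =>
    rw [Finset.sum_insert ha, Finset.sum_insert ha]
    exact (wn_add_le _ _ _).trans (add_le_add_right ih _)

theorem wn_mul_le (ρ : σ → ℝ≥0∞) (f g : MvPowerSeries σ ℂ) : wn ρ (f * g) ≤ wn ρ f * wn ρ g := by
  classical
  have h1 : wn ρ f * wn ρ g = ∑' p : (σ →₀ ℕ) × (σ →₀ ℕ),
      (‖coeff p.1 f‖ₑ * wt ρ p.1) * (‖coeff p.2 g‖ₑ * wt ρ p.2) := by
    rw [ENNReal.tsum_prod (f := fun a b => (‖coeff a f‖ₑ * wt ρ a) * (‖coeff b g‖ₑ * wt ρ b))]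
    simp_rw [ENNReal.tsum_mul_left, ENNReal.tsum_mul_right]
    rfl
  rw [h1, ← (Finset.HasAntidiagonal.sigmaAntidiagonalEquivProd (A := σ →₀ ℕ)).tsum_eq, ENNReal.tsum_sigma']
  unfold wn
  apply ENNReal.tsum_le_tsum
  intro α
  rw [tsum_fintype, coeff_mul]
  calc ‖∑ p ∈ Finset.HasAntidiagonal.antidiagonal α, coeff p.1 f * coeff p.2 g‖ₑ * wt ρ α
      ≤ (∑ p ∈ Finset.HasAntidiagonal.antidiagonal α, ‖coeff p.1 f * coeff p.2 g‖ₑ) * wt ρ α := by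
        gcongr
        exact enorm_sum_le _ _
    _ = ∑ p ∈ Finset.HasAntidiagonal.antidiagonal α, (‖coeff p.1 f‖ₑ * wt ρ p.1) * (‖coeff p.2 g‖ₑ * wt ρ p.2) := by
        rw [Finset.sum_mul]
        apply Finset.sum_congr rfl
        intro p hp
        rw [Finset.HasAntidiagonal.mem_antidiagonal] at hp
        rw [enorm_mul, ← hp, wt_add]
        ring
    _ = _ := (Finset.sum_coe_sort (Finset.HasAntidiagonal.antidiagonal α)
        (fun p => (‖coeff p.1 f‖ₑ * wt ρ p.1) * (‖coeff p.2 g‖ₑ * wt ρ p.2))).symm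

theorem wn_monomial (ρ : σ → ℝ≥0∞) (α : σ →₀ ℕ) (c : ℂ) :
    wn ρ (monomial α c) = ‖c‖ₑ * wt ρ α := by
  classical
  unfold wn
  rw [tsum_eq_single α]
  · rw [coeff_monomial_same]
  · intro β hβ
    rw [coeff_monomial_ne hβ, enorm_zero, zero_mul]

theorem wn_C (ρ : σ → ℝ≥0∞) (c : ℂ) : wn ρ (C c) = ‖c‖ₑ := by
  have h : (C c : MvPowerSeries σ ℂ) = monomial 0 c := rfl
  rw [h, wn_monomial, wt_zero, mul_one]

theorem wn_one (ρ : σ → ℝ≥0∞) : wn ρ (1 : MvPowerSeries σ ℂ) = 1 := by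
  have h : (1 : MvPowerSeries σ ℂ) = C 1 := (map_one C).symm
  rw [h, wn_C, enorm_one]

theorem wn_X (ρ : σ → ℝ≥0∞) (i : σ) : wn ρ (X i) = ρ i := by
  have h : (X i : MvPowerSeries σ ℂ) = monomial (Finsupp.single i 1) 1 := rfl
  rw [h, wn_monomial, wt_single, enorm_one, one_mul, pow_one]

theorem wn_mono {ρ ρ' : σ → ℝ≥0∞} (h : ∀ i, ρ i ≤ ρ' i) (f : MvPowerSeries σ ℂ) :
    wn ρ f ≤ wn ρ' f := by
  unfold wn
  apply ENNReal.tsum_le_tsum
  intro α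
  gcongr
  exact wt_mono h α

theorem wn_pow_le (ρ : σ → ℝ≥0∞) (f : MvPowerSeries σ ℂ) (k : ℕ) : wn ρ (f ^ k) ≤ wn ρ f ^ k := by
  induction k with
  | zero => rw [pow_zero, pow_zero, wn_one]
  | succ k ih =>
    rw [pow_succ, pow_succ]
    exact (wn_mul_le _ _ _).trans (mul_le_mul_left ih _)

theorem coeff_le_wn (ρ : σ → ℝ≥0∞) (f : MvPowerSeries σ ℂ) (α : σ →₀ ℕ) :
    ‖coeff α f‖ₑ * wt ρ α ≤ wn ρ f :=
  ENNReal.le_tsum (f := fun α => ‖coeff α f‖ₑ * wt ρ α) α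

/-- Fatou's lemma -/
theorem wn_le_of_eventually {ρ : σ → ℝ≥0∞} {M : ℝ≥0∞} {f : MvPowerSeries σ ℂ}
    {F : ℕ → MvPowerSeries σ ℂ} (hF : ∀ N, wn ρ (F N) ≤ M)
    (h : ∀ α, ∃ N₀, ∀ N ≥ N₀, coeff α (F N) = coeff α f) : wn ρ f ≤ M := by
  classical
  unfold wn
  rw [ENNReal.tsum_eq_iSup_sum]
  apply iSup_le
  intro s
  choose N₀ hN₀ using h
  obtain ⟨N, hN⟩ : ∃ N, ∀ α ∈ s, N₀ α ≤ N := ⟨s.sup N₀, fun α hα => Finset.le_sup hα⟩
  calc ∑ α ∈ s, ‖coeff α f‖ₑ * wt ρ α = ∑ α ∈ s, ‖coeff α (F N)‖ₑ * wt ρ α := by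
        apply Finset.sum_congr rfl
        intro α hα
        rw [hN₀ α N (hN α hα)]
    _ ≤ wn ρ (F N) := ENNReal.sum_le_tsum s
    _ ≤ M := hF N

/-- scaling the radii of a series without constant term -/
theorem wn_smul_le {ρ : σ → ℝ≥0∞} {s : ℝ≥0∞} (hs : s ≤ 1) {f : MvPowerSeries σ ℂ}
    (hf : constantCoeff f = 0) : wn (fun i => s * ρ i) f ≤ s * wn ρ f := by
  classical
  unfold wn
  rw [← ENNReal.tsum_mul_left]
  apply ENNReal.tsum_le_tsum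
  intro α
  by_cases hα : α = 0
  · rw [hα, coeff_zero_eq_constantCoeff_apply, hf, enorm_zero, zero_mul]
    exact bot_le
  · have h1 : wt (fun i => s * ρ i) α ≤ s * wt ρ α := by
      obtain ⟨i, hi⟩ : ∃ i, α i ≠ 0 := by
        by_contra hcon
        push Not at hcon
        exact hα (Finsupp.ext hcon)
      have h2 : α = (α - Finsupp.single i 1) + Finsupp.single i 1 := by
        rw [tsub_add_cancel_of_le]
        rw [Finsupp.single_le_iff]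
        omega
      rw [h2, wt_add, wt_add, wt_single, wt_single, pow_one, pow_one]
      calc wt (fun i => s * ρ i) (α - Finsupp.single i 1) * (s * ρ i)
          ≤ wt ρ (α - Finsupp.single i 1) * (s * ρ i) := by
            gcongr
            apply wt_mono
            intro j
            calc s * ρ j ≤ 1 * ρ j := by gcongr
              _ = ρ j := one_mul _
        _ = s * (wt ρ (α - Finsupp.single i 1) * ρ i) := by ring
    calc ‖coeff α f‖ₑ * wt (fun i => s * ρ i) α ≤ ‖coeff α f‖ₑ * (s * wt ρ α) := by gcongr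
      _ = s * (‖coeff α f‖ₑ * wt ρ α) := by ring

end Pool.Agent.Helper341_polar
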