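import Mathlib
import Pool.Agent.Helper341_polar.Wn

/-!
# Convergent power series
-/

set_option autoImplicit false

namespace Pool.Agent.Helper341_polar

open MvPowerSeries ENNReal

variable {σ : Type}

/-- constant weights -/
abbrev cw (σ : Type) (r : ℝ≥0∞) : σ → ℝ≥0∞ := fun _ => r

/-- the ring of convergent power series -/
noncomputable def Cv (σ : Type) : Subalgebra ℂ (MvPowerSeries σ ℂ) where
  carrier := {f | ∃ r : ℝ≥0∞, r ≠ 0 ∧ wn (cw σ r) f ≠ ∞}
  mul_mem' := by
    rintro f g ⟨r, hr, hf⟩ ⟨s, hs, hg⟩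
    refine ⟨min r s, (lt_min (pos_iff_ne_zero.2 hr) (pos_iff_ne_zero.2 hs)).ne', ?_⟩
    refine ne_top_of_le_ne_top (ENNReal.mul_ne_top hf hg) ((wn_mul_le _ _ _).trans ?_)
    gcongr
    · exact wn_mono (fun _ => min_le_left _ _) _
    · exact wn_mono (fun _ => min_le_right _ _) _
  add_mem' := by
    rintro f g ⟨r, hr, hf⟩ ⟨s, hs, hg⟩
    refine ⟨min r s, (lt_min (pos_iff_ne_zero.2 hr) (pos_iff_ne_zero.2 hs)).ne', ?_⟩
    refine ne_top_of_le_ne_top (ENNReal.add_ne_top.2 ⟨hf, hg⟩) ((wn_add_le _ _ _).trans ?_)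
    gcongr
    · exact wn_mono (fun _ => min_le_left _ _) _
    · exact wn_mono (fun _ => min_le_right _ _) _
  algebraMap_mem' := by
    intro c
    refine ⟨1, one_ne_zero, ?_⟩
    have h : algebraMap ℂ (MvPowerSeries σ ℂ) c = C c := rfl
    rw [h, wn_C]
    exact enorm_ne_top

theorem mem_Cv {f : MvPowerSeries σ ℂ} : f ∈ Cv σ ↔ ∃ r : ℝ≥0∞, r ≠ 0 ∧ wn (cw σ r) f ≠ ∞ := Iff.rfl

theorem C_mem_Cv (c : ℂ) : (C c : MvPowerSeries σ ℂ) ∈ Cv σ := (Cv σ).algebraMap_mem c

theorem monomial_mem_Cv (α : σ →₀ ℕ) (c : ℂ) : (monomial α c : MvPowerSeries σ ℂ) ∈ Cv σ := by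
  refine ⟨1, one_ne_zero, ?_⟩
  rw [wn_monomial]
  have : wt (cw σ 1) α = 1 := by
    unfold wt Finsupp.prod
    simp
  rw [this, mul_one]
  exact enorm_ne_top

theorem X_mem_Cv (i : σ) : (X i : MvPowerSeries σ ℂ) ∈ Cv σ := monomial_mem_Cv _ _

/-- common radius for finitely many convergent series -/
theorem exists_common_radius {ι : Type} (s : Finset ι) {f : ι → MvPowerSeries σ ℂ}
    (hf : ∀ i ∈ s, f i ∈ Cv σ) :
    ∃ r : ℝ≥0∞, r ≠ 0 ∧ r ≤ 1 ∧ ∀ i ∈ s, wn (cw σ r) (f i) ≠ ∞ := by
  classical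
  induction s using Finset.induction_on with
  | empty => exact ⟨1, one_ne_zero, le_rfl, by simp⟩
  | insert a s ha ih =>
    obtain ⟨r, hr, hr1, h⟩ := ih fun i hi => hf i (Finset.mem_insert_of_mem hi)
    obtain ⟨t, ht, h'⟩ := hf a (Finset.mem_insert_self a s)
    refine ⟨min r t, (lt_min (pos_iff_ne_zero.2 hr) (pos_iff_ne_zero.2 ht)).ne',
      (min_le_left _ _).trans hr1, ?_⟩
    intro i hi
    rw [Finset.mem_insert] at hi
    rcases hi with rfl | hi
    · exact ne_top_of_le_ne_top h' (wn_mono (fun _ => min_le_right _ _) _)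
    · exact ne_top_of_le_ne_top (h i hi) (wn_mono (fun _ => min_le_left _ _) _)

theorem exists_small {A B : ℝ≥0∞} (hA : A ≠ ∞) (hB : B ≠ 0) :
    ∃ s : ℝ≥0∞, s ≠ 0 ∧ s ≤ 1 ∧ s * A ≤ B := by
  by_cases hA0 : A = 0
  · exact ⟨1, one_ne_zero, le_rfl, by rw [hA0, mul_zero]; exact bot_le⟩
  · refine ⟨min 1 (B / A), ?_, min_le_left _ _, ?_⟩
    · apply (lt_min one_pos _).ne'
      exact ENNReal.div_pos hB hA
    · calc min 1 (B / A) * A ≤ (B / A) * A := by gcongr; exact min_le_right _ _
        _ ≤ B := ENNReal.div_mul_cancel hA0 hA |>.le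

/-- Solutions of polynomial fixed point equations with convergent coefficients are convergent. -/
theorem mem_Cv_of_fixed {d : ℕ} {h : ℕ → MvPowerSeries σ ℂ} (hh : ∀ k, h k ∈ Cv σ)
    (h0 : constantCoeff (h 0) = 0) (h1 : constantCoeff (h 1) = 0)
    {u : MvPowerSeries σ ℂ} (hu0 : constantCoeff u = 0)
    (hu : u = ∑ k ∈ Finset.range (d + 1), h k * u ^ k) : u ∈ Cv σ := by
  classical
  -- norms
  obtain ⟨r₀, hr₀, -, hfin⟩ := exists_common_radius (Finset.range (d + 2)) (f := h) fun i _ => hh i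
  set M : ℝ≥0∞ := ∑ k ∈ Finset.range (d + 2), wn (cw σ r₀) (h k) with hM
  have hMfin : M ≠ ∞ := by
    rw [hM]
    exact ENNReal.sum_ne_top.2 hfin
  obtain ⟨δ, hδ0, hδ1, hδ⟩ := exists_small (A := M) (B := 1 / 4) hMfin (by norm_num)
  obtain ⟨s, hs0, hs1, hs⟩ := exists_small (A := M) (B := δ / 4) hMfin
    (ENNReal.div_pos hδ0 (by norm_num)).ne'
  set ρ : σ → ℝ≥0∞ := cw σ (s * r₀) with hρ
  have hρle : ∀ f : MvPowerSeries σ ℂ, wn ρ f ≤ wn (cw σ r₀) f := fun f => wn_mono (fun _ => by
    calc s * r₀ ≤ 1 * r₀ := by gcongr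
      _ = r₀ := one_mul _) f
  have hle : ∀ k ∈ Finset.range (d + 2), wn (cw σ r₀) (h k) ≤ M := fun k hk =>
    Finset.single_le_sum (f := fun k => wn (cw σ r₀) (h k)) (fun _ _ => bot_le) hk
  have hn0 : wn ρ (h 0) ≤ δ / 4 := by
    calc wn ρ (h 0) ≤ s * wn (cw σ r₀) (h 0) := wn_smul_le hs1 h0
      _ ≤ s * M := by gcongr; exact hle 0 (by simp)
      _ ≤ δ / 4 := hs
  have hn1 : wn ρ (h 1) ≤ 1 / 4 := by
    calc wn ρ (h 1) ≤ s * wn (cw σ r₀) (h 1) := wn_smul_le hs1 h1
      _ ≤ s * M := by gcongr; exact hle 1 (by simp)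
      _ ≤ δ / 4 := hs
      _ ≤ 1 / 4 := by gcongr
  -- the iteration
  let F : ℕ → MvPowerSeries σ ℂ := fun N =>
    Nat.rec 0 (fun _ v => ∑ k ∈ Finset.range (d + 1), h k * v ^ k) N
  have hF0 : F 0 = 0 := rfl
  have hFs : ∀ N, F (N + 1) = ∑ k ∈ Finset.range (d + 1), h k * F N ^ k := fun N => rfl
  have hFn : ∀ N, wn ρ (F N) ≤ δ := by
    intro N
    induction N with
    | zero => rw [hF0, wn_zero]; exact bot_le
    | succ N ih =>
      rw [hFs]
      have hterm : ∀ k ∈ Finset.range (d + 1), wn ρ (h k * F N ^ k) ≤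
          (if k = 0 then δ / 4 else 0) + (if k = 1 then δ / 4 else 0) +
            δ * (δ * wn (cw σ r₀) (h k)) := by
        intro k hk
        have h2 : wn ρ (h k * F N ^ k) ≤ wn ρ (h k) * δ ^ k := by
          refine (wn_mul_le _ _ _).trans ?_
          gcongr
          exact (wn_pow_le _ _ _).trans (pow_le_pow_left' ih k)
        refine h2.trans ?_
        rcases Nat.lt_or_ge k 2 with hk2 | hk2
        · interval_cases k
          · simp only [if_true, pow_zero, mul_one]
            calc wn ρ (h 0) ≤ δ / 4 := hn0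
              _ ≤ _ := le_self_add
              _ ≤ _ := le_self_add
          · have h3 : wn ρ (h 1) * δ ^ 1 ≤ δ / 4 := by
              rw [pow_one]
              calc wn ρ (h 1) * δ ≤ 1 / 4 * δ := by gcongr
                _ = δ / 4 := by rw [one_div, mul_comm, div_eq_mul_inv]
            simp only [one_ne_zero, if_false, if_true, zero_add]
            exact h3.trans le_self_add
        · calc wn ρ (h k) * δ ^ k ≤ wn (cw σ r₀) (h k) * δ ^ 2 := by
                gcongr ?_ * ?_
                · exact hρle _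
                · exact pow_le_pow_right_of_le_one' hδ1 hk2
            _ = δ * (δ * wn (cw σ r₀) (h k)) := by ring
            _ ≤ _ := le_add_self
      calc wn ρ (∑ k ∈ Finset.range (d + 1), h k * F N ^ k)
          ≤ ∑ k ∈ Finset.range (d + 1), wn ρ (h k * F N ^ k) := wn_sum_le _ _ _
        _ ≤ ∑ k ∈ Finset.range (d + 1), ((if k = 0 then δ / 4 else 0) +
            (if k = 1 then δ / 4 else 0) + δ * (δ * wn (cw σ r₀) (h k))) := Finset.sum_le_sum hterm
        _ ≤ δ / 4 + δ / 4 + δ * (δ * M) := by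
            rw [Finset.sum_add_distrib, Finset.sum_add_distrib, ← Finset.mul_sum, ← Finset.mul_sum]
            gcongr
            · rw [Finset.sum_ite_eq']
              split_ifs
              · exact le_rfl
              · exact bot_le
            · rw [Finset.sum_ite_eq']
              split_ifs
              · exact le_rfl
              · exact bot_le
            · rw [hM]
              exact Finset.sum_le_sum_of_subset (by
                intro k hk
                rw [Finset.mem_range] at hk ⊢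
                omega)
        _ ≤ δ / 4 + δ / 4 + δ * (1 / 4) := by gcongr
        _ ≤ δ := by
            rw [one_div, ← div_eq_mul_inv]
            have h4 : δ / 4 + δ / 4 + δ / 4 + δ / 4 = δ := by
              have h5 : δ / 4 + δ / 4 + δ / 4 + δ / 4 = 4 * (δ / 4) := by ring
              rw [h5, ENNReal.mul_div_cancel (by norm_num) (by norm_num)]
            calc δ / 4 + δ / 4 + δ / 4 ≤ δ / 4 + δ / 4 + δ / 4 + δ / 4 := le_self_add
              _ = δ := h4
  -- formal convergence
  have hFc : ∀ N, constantCoeff (F N) = 0 := by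
    intro N
    induction N with
    | zero => rw [hF0, map_zero]
    | succ N ih =>
      rw [hFs, map_sum]
      apply Finset.sum_eq_zero
      intro k hk
      rw [map_mul, map_pow, ih]
      rcases Nat.eq_zero_or_pos k with rfl | hk0
      · rw [h0, zero_mul]
      · rw [zero_pow hk0.ne', mul_zero]
  have hFo : ∀ N : ℕ, ((N + 1 : ℕ) : ℕ∞) ≤ (F N - u).order := by
    intro N
    induction N with
    | zero =>
      rw [hF0, zero_sub, order_neg]
      exact one_le_order_iff_constCoeff_eq_zero.2 hu0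
    | succ N ih =>
      have h2 : F (N + 1) - u = ∑ k ∈ Finset.range (d + 1), h k * (F N ^ k - u ^ k) := by
        conv_lhs => rw [hu]
        rw [hFs, ← Finset.sum_sub_distrib]
        apply Finset.sum_congr rfl
        intro k _
        ring
      rw [h2]
      have h3 : ∀ k ∈ Finset.range (d + 1), ((N + 2 : ℕ) : ℕ∞) ≤ (h k * (F N ^ k - u ^ k)).order := by
        intro k _
        rcases Nat.lt_or_ge k 2 with hk2 | hk2
        · interval_cases k
          · rw [pow_zero, pow_zero, sub_self, mul_zero, order_zero]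
            exact le_top
          · rw [pow_one, pow_one]
            refine le_trans ?_ le_order_mul
            have h4 : (1 : ℕ∞) ≤ (h 1).order := one_le_order_iff_constCoeff_eq_zero.2 h1
            calc ((N + 2 : ℕ) : ℕ∞) = 1 + ((N + 1 : ℕ) : ℕ∞) := by push_cast; ring
              _ ≤ _ := add_le_add h4 ih
        · obtain ⟨k, rfl⟩ := Nat.exists_eq_add_of_le hk2
          rw [← Commute.mul_geom_sum₂ (Commute.all (F N) u), ← mul_assoc]
          refine le_trans ?_ le_order_mul
          have h4 : (1 : ℕ∞) ≤ (∑ i ∈ Finset.range (2 + k), F N ^ i * u ^ (2 + k - 1 - i)).order := by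
            rw [one_le_order_iff_constCoeff_eq_zero, map_sum]
            apply Finset.sum_eq_zero
            intro i hi
            rw [map_mul, map_pow, map_pow, hFc, hu0]
            rcases Nat.eq_zero_or_pos i with rfl | hi0
            · rw [Nat.sub_zero, zero_pow (show 2 + k - 1 ≠ 0 by omega), mul_zero]
            · rw [zero_pow hi0.ne', zero_mul]
          have h5 : ((N + 1 : ℕ) : ℕ∞) ≤ (h (2 + k) * (F N - u)).order := by
            refine le_trans ?_ le_order_mul
            exact ih.trans le_add_self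
          calc ((N + 2 : ℕ) : ℕ∞) = ((N + 1 : ℕ) : ℕ∞) + 1 := by push_cast; ring
            _ ≤ _ := add_le_add h5 h4
      apply le_order
      intro α hα
      rw [map_sum]
      apply Finset.sum_eq_zero
      intro k hk
      exact coeff_of_lt_order (lt_of_lt_of_le hα (h3 k hk))
  refine ⟨s * r₀, mul_ne_zero hs0 hr₀, ?_⟩
  refine ne_top_of_le_ne_top (lt_of_le_of_lt hδ1 ENNReal.one_lt_top).ne
    (wn_le_of_eventually (F := F) hFn fun α => ⟨α.degree, fun N hN => ?_⟩)
  have h2 : coeff α (F N - u) = 0 := by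
    apply coeff_of_lt_order
    refine lt_of_lt_of_le ?_ (hFo N)
    exact_mod_cast Nat.lt_succ_of_le hN
  rwa [map_sub, sub_eq_zero] at h2

end Pool.Agent.Helper341_polar
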