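import Mathlib
import Pool.Agent.Helper341_polar.Cv

/-!
# Formal power series in one variable which are algebraic over the convergent ones
-/

set_option autoImplicit false

namespace Pool.Agent.Helper341_polar

open MvPowerSeries ENNReal

theorem wn_X_mul_ge {σ : Type} (ρ : σ → ℝ≥0∞) (i : σ) (g : MvPowerSeries σ ℂ) :
    ρ i * wn ρ g ≤ wn ρ (X i * g) := by
  classical
  unfold wn
  rw [← ENNReal.tsum_mul_left]
  have hinj : Function.Injective (fun α : σ →₀ ℕ => α + Finsupp.single i 1) :=
    add_left_injective _
  refine le_trans ?_ (ENNReal.tsum_comp_le_tsum_of_injective hinj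
    (fun α => ‖coeff α (X i * g)‖ₑ * wt ρ α))
  apply ENNReal.tsum_le_tsum
  intro α
  have h1 : coeff (α + Finsupp.single i 1) (X i * g) = coeff α g := by
    rw [mul_comm]
    exact coeff_add_mul_monomial α (Finsupp.single i 1) g 1 |>.trans (mul_one _)
  rw [h1, wt_add, wt_single, pow_one]
  apply le_of_eq
  ring

theorem Cv_of_X_mul {σ : Type} {i : σ} {g : MvPowerSeries σ ℂ} (h : X i * g ∈ Cv σ) : g ∈ Cv σ := by
  obtain ⟨r, hr, hfin⟩ := h
  by_cases hrt : r = ∞
  · refine ⟨1, one_ne_zero, ?_⟩
    have h1 : wn (cw σ 1) (X i * g) ≠ ∞ :=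
      ne_top_of_le_ne_top hfin (wn_mono (fun _ => by rw [hrt]; exact le_top) _)
    refine ne_top_of_le_ne_top h1 (le_trans ?_ (wn_X_mul_ge _ i g))
    rw [one_mul]
  · refine ⟨r, hr, ?_⟩
    intro htop
    have h1 := wn_X_mul_ge (cw σ r) i g
    rw [htop, ENNReal.mul_top hr, top_le_iff] at h1
    exact hfin h1

theorem Cv_of_X_pow_mul {σ : Type} {i : σ} {k : ℕ} {g : MvPowerSeries σ ℂ}
    (h : X i ^ k * g ∈ Cv σ) : g ∈ Cv σ := by
  induction k with
  | zero => simpa using h
  | succ k ih =>
    apply ih
    apply Cv_of_X_mul (i := i)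
    rwa [← mul_assoc, ← pow_succ']

/-- the convergent power series in one variable -/
noncomputable abbrev R1 : Subalgebra ℂ (MvPowerSeries Unit ℂ) := Cv Unit

theorem R1_torsionFree : IsAddTorsionFree R1 := by
  letI : Module ℚ R1 := Module.compHom R1 (algebraMap ℚ ℂ)
  exact IsAddTorsionFree.of_module_rat (M := R1)

/-- splitting off a power of the variable -/
theorem exists_X_pow_mul {w : MvPowerSeries Unit ℂ} (hw : w ≠ 0) :
    ∃ (e : ℕ) (v : MvPowerSeries Unit ℂ), w = X () ^ e * v ∧ constantCoeff v ≠ 0 := by
  obtain ⟨k, u, hu⟩ := IsDiscreteValuationRing.associated_pow_irreducible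
    (R := PowerSeries ℂ) hw (PowerSeries.X_irreducible (R := ℂ))
  refine ⟨k, (↑(u⁻¹) : PowerSeries ℂ), ?_, ?_⟩
  · have h1 : w = (PowerSeries.X : PowerSeries ℂ) ^ k * ↑(u⁻¹) := by
      rw [← hu, mul_assoc, Units.mul_inv, mul_one]
    exact h1
  · have h1 : IsUnit ((↑(u⁻¹) : PowerSeries ℂ)) := Units.isUnit _
    have h2 := h1.map (MvPowerSeries.constantCoeff (σ := Unit) (R := ℂ))
    exact h2.ne_zero

/-- **Algebraic formal power series in one variable are convergent.** -/
theorem mem_R1_of_root {y : MvPowerSeries Unit ℂ} {p : Polynomial R1} (hp : p ≠ 0)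
    (h : (p.map (algebraMap R1 (MvPowerSeries Unit ℂ))).eval y = 0) : y ∈ R1 := by
  classical
  have htf := R1_torsionFree
  set ι := algebraMap R1 (MvPowerSeries Unit ℂ) with hι
  have hιinj : Function.Injective ι := Subtype.val_injective
  -- minimal degree
  obtain ⟨d, hd⟩ : ∃ d, p.natDegree = d := ⟨_, rfl⟩
  induction d using Nat.strong_induction_on generalizing p with
  | _ d ih =>
    by_cases hder0 : ((Polynomial.derivative p).map ι).eval y = 0
    · by_cases hder : Polynomial.derivative p = 0
      · have h1 : p.natDegree = 0 := Polynomial.derivative_eq_zero.1 hder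
        rw [Polynomial.eq_C_of_natDegree_eq_zero h1, Polynomial.map_C, Polynomial.eval_C] at h
        exfalso
        apply hp
        rw [Polynomial.eq_C_of_natDegree_eq_zero h1]
        have : p.coeff 0 = 0 := hιinj (by rw [h, map_zero])
        rw [this, Polynomial.C_0]
      · have h1 : (Polynomial.derivative p).natDegree < d := by
          rw [← hd]
          apply Polynomial.natDegree_derivative_lt
          intro h0
          apply hder
          rw [Polynomial.eq_C_of_natDegree_eq_zero h0, Polynomial.derivative_C]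
        exact ih _ h1 hder hder0 rfl
    · obtain ⟨e, w, hw, hwc⟩ := exists_X_pow_mul hder0
      -- truncation
      set Yp : MvPowerSeries Unit ℂ :=
        ∑ k ∈ Finset.range (e + 1), monomial (Finsupp.single () k) (coeff (Finsupp.single () k) y)
        with hYp
      have hYm : Yp ∈ R1 := Subalgebra.sum_mem _ fun k _ => monomial_mem_Cv _ _
      have hdvd : X () ^ (e + 1) ∣ y - Yp := by
        rw [X_pow_dvd_iff]
        intro m hm
        have hm2 : m = Finsupp.single () (m ()) := by
          ext
          simp
        rw [map_sub, hYp, map_sum, Finset.sum_eq_single (m ())]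
        · rw [← hm2, coeff_monomial_same, sub_self]
        · intro k _ hk
          rw [coeff_monomial_ne]
          intro h0
          apply hk
          rw [h0]
          simp
        · intro h0
          exact absurd (Finset.mem_range.2 hm) h0
      obtain ⟨v, hv⟩ := hdvd
      set u : MvPowerSeries Unit ℂ := X () * v with hu
      have hu0 : constantCoeff u = 0 := by
        rw [hu, map_mul, constantCoeff_X, zero_mul]
      have hyu : y = Yp + X () ^ e * u := by
        rw [hu, ← mul_assoc, ← pow_succ, ← hv]
        ring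
      -- the Taylor expansion
      set Y : R1 := ⟨Yp, hYm⟩ with hY
      set q : Polynomial R1 := Polynomial.taylor Y p with hq
      set c : ℕ → MvPowerSeries Unit ℂ := fun k => ι (q.coeff k) with hc
      have hcm : ∀ k, c k ∈ R1 := fun k => (q.coeff k).2
      have hev : ∑ k ∈ Finset.range (q.natDegree + 1), c k * (X () ^ e * u) ^ k = 0 := by
        have h1 : (q.map ι).eval (X () ^ e * u) = 0 := by
          rw [hq, Polynomial.map_taylor, Polynomial.taylor_eval]
          have : X () ^ e * u + ι Y = y := by
            rw [hyu]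
            change X () ^ e * u + Yp = _
            ring
          rw [this]
          exact h
        rw [← h1, Polynomial.eval_map, Polynomial.eval₂_eq_sum_range]
      have hdeg : q.natDegree ≠ 0 := by
        rw [hq, Polynomial.natDegree_taylor]
        intro h0
        apply hder0
        rw [Polynomial.eq_C_of_natDegree_eq_zero h0, Polynomial.derivative_C, Polynomial.map_zero,
          Polynomial.eval_zero]
      obtain ⟨D, hD⟩ := Nat.exists_eq_succ_of_ne_zero hdeg
      have hD : q.natDegree = D + 1 := hD
      -- the linear coefficient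
      have hc1 : ∃ w₁, c 1 = X () ^ e * w₁ ∧ constantCoeff w₁ ≠ 0 := by
        have h1 : c 1 = ((Polynomial.derivative p).map ι).eval Yp := by
          rw [hc]
          change ι (q.coeff 1) = _
          rw [hq, Polynomial.taylor_coeff_one, Polynomial.eval_map]
          exact (Polynomial.hom_eval₂ (Polynomial.derivative p) (RingHom.id _) ι Y)
        have h2 : y - Yp ∣ ((Polynomial.derivative p).map ι).eval y -
            ((Polynomial.derivative p).map ι).eval Yp := Polynomial.sub_dvd_eval_sub _ _ _
        obtain ⟨t, ht⟩ := h2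
        rw [hw, ← h1, hv] at ht
        refine ⟨w - X () * v * t, ?_, ?_⟩
        · have : c 1 = X () ^ e * w - X () ^ (e + 1) * v * t := by
            rw [← ht]; ring
          rw [this, pow_succ]
          ring
        · rw [map_sub, map_mul, map_mul, constantCoeff_X, zero_mul, zero_mul, sub_zero]
          exact hwc
      obtain ⟨w₁, hw₁, hw₁c⟩ := hc1
      have hw₁m : w₁ ∈ R1 := Cv_of_X_pow_mul (i := ()) (k := e) (by rw [← hw₁]; exact hcm 1)
      set g₀ : MvPowerSeries Unit ℂ :=
        -(w₁ * u + ∑ k ∈ Finset.range D, c (k + 2) * X () ^ (e * k) * u ^ (k + 2)) with hg₀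
      have hg₀c : c 0 = X () ^ (2 * e) * g₀ := by
        rw [hD, Finset.sum_range_succ', Finset.sum_range_succ', pow_zero, mul_one, zero_add, pow_one,
          hw₁] at hev
        have h1 : ∑ k ∈ Finset.range D, c (k + 1 + 1) * (X () ^ e * u) ^ (k + 1 + 1) =
            X () ^ (2 * e) * ∑ k ∈ Finset.range D, c (k + 2) * X () ^ (e * k) * u ^ (k + 2) := by
          rw [Finset.mul_sum]
          apply Finset.sum_congr rfl
          intro k _
          rw [mul_pow, ← pow_mul]
          have : (X () : MvPowerSeries Unit ℂ) ^ (e * (k + 1 + 1)) = X () ^ (2 * e) * X () ^ (e * k) := by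
            rw [← pow_add]; congr 1; ring
          rw [this]
          ring
        rw [h1] at hev
        rw [hg₀, two_mul, pow_add] at *
        linear_combination hev
      have hg₀m : g₀ ∈ R1 := Cv_of_X_pow_mul (i := ()) (k := 2 * e) (by rw [← hg₀c]; exact hcm 0)
      have hg₀0 : constantCoeff g₀ = 0 := by
        rw [hg₀, map_neg, map_add, map_mul, hu0, mul_zero, map_sum, zero_add, neg_eq_zero]
        apply Finset.sum_eq_zero
        intro k _
        rw [map_mul, map_pow, hu0, zero_pow (Nat.succ_ne_zero _), mul_zero]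
      -- the fixed point equation
      set a : ℂ := constantCoeff w₁ with ha
      have hCa : (C a⁻¹ : MvPowerSeries Unit ℂ) * C a = 1 := by
        rw [← map_mul, inv_mul_cancel₀ hw₁c, map_one]
      set hh : ℕ → MvPowerSeries Unit ℂ := fun k =>
        match k with
        | 0 => -(C a⁻¹ * g₀)
        | 1 => -(C a⁻¹ * (w₁ - C a))
        | k + 2 => -(C a⁻¹ * (c (k + 2) * X () ^ (e * k))) with hhh
      have hum : u ∈ R1 := by
        apply mem_Cv_of_fixed (d := D + 1) (h := hh)
        · intro k
          match k with
          | 0 => exact Subalgebra.neg_mem _ (Subalgebra.mul_mem _ (C_mem_Cv _) hg₀m)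
          | 1 => exact Subalgebra.neg_mem _ (Subalgebra.mul_mem _ (C_mem_Cv _)
              (Subalgebra.sub_mem _ hw₁m (C_mem_Cv _)))
          | k + 2 => exact Subalgebra.neg_mem _ (Subalgebra.mul_mem _ (C_mem_Cv _)
              (Subalgebra.mul_mem _ (hcm _) (Subalgebra.pow_mem _ (X_mem_Cv _) _)))
        · change constantCoeff (-(C a⁻¹ * g₀)) = 0
          rw [map_neg, map_mul, hg₀0, mul_zero, neg_zero]
        · change constantCoeff (-(C a⁻¹ * (w₁ - C a))) = 0
          rw [map_neg, map_mul, map_sub, constantCoeff_C, constantCoeff_C, sub_self, mul_zero,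
            neg_zero]
        · exact hu0
        · rw [Finset.sum_range_succ', Finset.sum_range_succ']
          change u = ∑ k ∈ Finset.range D, -(C a⁻¹ * (c (k + 2) * X () ^ (e * k))) * u ^ (k + 2) +
            -(C a⁻¹ * (w₁ - C a)) * u ^ (0 + 1) + -(C a⁻¹ * g₀) * u ^ 0
          have h1 : ∑ k ∈ Finset.range D, -(C a⁻¹ * (c (k + 2) * X () ^ (e * k))) * u ^ (k + 2) =
              -(C a⁻¹ * ∑ k ∈ Finset.range D, c (k + 2) * X () ^ (e * k) * u ^ (k + 2)) := by
            rw [Finset.mul_sum, ← Finset.sum_neg_distrib]
            apply Finset.sum_congr rfl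
            intro k _
            ring
          rw [h1, hg₀]
          linear_combination (-u) * hCa
      rw [hyu]
      exact Subalgebra.add_mem _ hYm (Subalgebra.mul_mem _ (Subalgebra.pow_mem _ (X_mem_Cv _) _) hum)

end Pool.Agent.Helper341_polar
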