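import Mathlib

/-!
# The associativity formula for multiplicities in dimension one
-/

set_option autoImplicit false

namespace Pool.Agent.Helper341_polar

open IsLocalRing

section snake

variable {A : Type} [CommRing A] (g : A)

/-- multiplication by `g` -/
abbrev mulg (N : Type) [AddCommGroup N] [Module A N] : N →ₗ[A] N := LinearMap.lsmul A N g

/-- length of the kernel of `g` -/
noncomputable def kl (N : Type) [AddCommGroup N] [Module A N] : ℕ∞ :=
  Module.length A (LinearMap.ker (mulg g N))

/-- length of the cokernel of `g` -/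
noncomputable def cok (N : Type) [AddCommGroup N] [Module A N] : ℕ∞ :=
  Module.length A (N ⧸ LinearMap.range (mulg g N))

variable {N₁ N₂ N₃ : Type} [AddCommGroup N₁] [Module A N₁] [AddCommGroup N₂] [Module A N₂]
  [AddCommGroup N₃] [Module A N₃]

theorem length_range_add {M N : Type} [AddCommGroup M] [Module A M] [AddCommGroup N] [Module A N]
    (f : M →ₗ[A] N) : Module.length A M =
      Module.length A (LinearMap.ker f) + Module.length A (LinearMap.range f) :=
  Module.length_eq_add_of_exact (LinearMap.ker f).subtype f.rangeRestrict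
    (Submodule.subtype_injective _) f.surjective_rangeRestrict (by
      rw [LinearMap.exact_iff, LinearMap.ker_rangeRestrict, Submodule.range_subtype])

theorem snake_add (f : N₁ →ₗ[A] N₂) (p : N₂ →ₗ[A] N₃) (hf : Function.Injective f)
    (hp : Function.Surjective p) (hfp : Function.Exact f p) :
    cok g N₂ + (kl g N₁ + kl g N₃) = kl g N₂ + (cok g N₁ + cok g N₃) ∧
      kl g N₂ ≤ kl g N₁ + kl g N₃ := by
  -- the maps between the kernels
  let F₁ : LinearMap.ker (mulg g N₁) →ₗ[A] LinearMap.ker (mulg g N₂) :=
    f.restrict (fun x hx => by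
      rw [LinearMap.mem_ker] at hx ⊢
      change g • f x = 0
      rw [← map_smul]
      change f ((mulg g N₁) x) = 0
      rw [hx, map_zero])
  let F₂ : LinearMap.ker (mulg g N₂) →ₗ[A] LinearMap.ker (mulg g N₃) :=
    p.restrict (fun x hx => by
      rw [LinearMap.mem_ker] at hx ⊢
      change g • p x = 0
      rw [← map_smul]
      change p ((mulg g N₂) x) = 0
      rw [hx, map_zero])
  have hG₁ : LinearMap.range (mulg g N₁) ≤ (LinearMap.range (mulg g N₂)).comap f := by
    rintro _ ⟨x, rfl⟩
    exact ⟨f x, (map_smul f g x).symm⟩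
  have hG₂ : LinearMap.range (mulg g N₂) ≤ (LinearMap.range (mulg g N₃)).comap p := by
    rintro _ ⟨x, rfl⟩
    exact ⟨p x, (map_smul p g x).symm⟩
  let G₁ : (N₁ ⧸ LinearMap.range (mulg g N₁)) →ₗ[A] (N₂ ⧸ LinearMap.range (mulg g N₂)) :=
    Submodule.mapQ _ _ f hG₁
  let G₂ : (N₂ ⧸ LinearMap.range (mulg g N₂)) →ₗ[A] (N₃ ⧸ LinearMap.range (mulg g N₃)) :=
    Submodule.mapQ _ _ p hG₂
  have hF₁ : Function.Injective F₁ := by
    intro x y h
    apply Subtype.ext
    apply hf
    exact congrArg Subtype.val h
  have hF : Function.Exact F₁ F₂ := by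
    intro x
    constructor
    · intro h
      have h1 : p x.1 = 0 := congrArg Subtype.val h
      obtain ⟨y, hy⟩ := (hfp x.1).1 h1
      refine ⟨⟨y, ?_⟩, Subtype.ext hy⟩
      rw [LinearMap.mem_ker]
      apply hf
      rw [map_zero]
      change f (g • y) = 0
      rw [map_smul, hy]
      exact x.2
    · rintro ⟨y, rfl⟩
      apply Subtype.ext
      exact hfp.apply_apply_eq_zero y.1
  have hG₂s : Function.Surjective G₂ := by
    intro x
    obtain ⟨x, rfl⟩ := Submodule.Quotient.mk_surjective _ x
    obtain ⟨y, rfl⟩ := hp x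
    exact ⟨Submodule.Quotient.mk y, rfl⟩
  have hG : Function.Exact G₁ G₂ := by
    intro x
    obtain ⟨x, rfl⟩ := Submodule.Quotient.mk_surjective _ x
    constructor
    · intro h
      have h1 : Submodule.Quotient.mk (p := LinearMap.range (mulg g N₃)) (p x) = 0 := h
      rw [Submodule.Quotient.mk_eq_zero] at h1
      obtain ⟨z, hz⟩ := h1
      obtain ⟨y, rfl⟩ := hp z
      have h2 : p (x - g • y) = 0 := by
        rw [map_sub, map_smul]
        have : g • p y = p x := hz
        rw [this, sub_self]
      obtain ⟨w, hw⟩ := (hfp _).1 h2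
      refine ⟨Submodule.Quotient.mk w, ?_⟩
      change Submodule.Quotient.mk (f w) = _
      rw [Submodule.Quotient.eq, hw]
      exact ⟨-y, by change g • (-y) = _; rw [smul_neg]; abel⟩
    · rintro ⟨y, hy⟩
      obtain ⟨y, rfl⟩ := Submodule.Quotient.mk_surjective _ y
      rw [← hy]
      change Submodule.Quotient.mk (p (f y)) = 0
      rw [hfp.apply_apply_eq_zero, Submodule.Quotient.mk_zero]
  -- the connecting map
  let δ := SnakeLemma.δ' (mulg g N₁) (mulg g N₂) (mulg g N₃) f p hfp f p hfp
    (by ext x; exact map_smul f g x) (by ext x; exact map_smul p g x)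
    (LinearMap.ker (mulg g N₃)).subtype
    (by intro x; rw [← LinearMap.mem_ker]; simp)
    (LinearMap.range (mulg g N₁)).mkQ
    (LinearMap.exact_map_mkQ_range _) hp hf
  have hδ₁ : Function.Exact F₂ δ := by
    apply SnakeLemma.exact_δ'_right (ι₂ := (LinearMap.ker (mulg g N₂)).subtype)
    · intro x; rw [← LinearMap.mem_ker]; simp
    · ext x; rfl
    · exact Subtype.val_injective
  have hδ₂ : Function.Exact δ G₁ := by
    apply SnakeLemma.exact_δ'_left (π₂ := (LinearMap.range (mulg g N₂)).mkQ)
    · exact LinearMap.exact_map_mkQ_range _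
    · ext x; rfl
    · exact Submodule.mkQ_surjective _
  have e1 : kl g N₂ = kl g N₁ + Module.length A (LinearMap.range F₂) := by
    unfold kl
    rw [length_range_add F₂, hF.linearMap_ker_eq]
    congr 1
    exact (LinearEquiv.ofInjective F₁ hF₁).length_eq.symm
  have e2 : kl g N₃ = Module.length A (LinearMap.range F₂) + Module.length A (LinearMap.range δ) := by
    unfold kl
    rw [length_range_add δ, hδ₁.linearMap_ker_eq]
  have e3 : cok g N₁ = Module.length A (LinearMap.range δ) + Module.length A (LinearMap.range G₁) := by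
    unfold cok
    rw [length_range_add G₁, hδ₂.linearMap_ker_eq]
  have e4 : cok g N₂ = Module.length A (LinearMap.range G₁) + cok g N₃ := by
    unfold cok
    rw [length_range_add G₂, hG.linearMap_ker_eq, LinearMap.range_eq_top.2 hG₂s, Module.length_top]
  refine ⟨?_, ?_⟩
  · rw [e4, e3, e1, e2]
    ring
  · rw [e1, e2]
    gcongr
    exact le_self_add

end snake

section loc

variable {A : Type} [CommRing A]

/-- length of the localization at a prime -/
noncomputable def ll (p : PrimeSpectrum A) (N : Type) [AddCommGroup N] [Module A N] : ℕ∞ :=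
  Module.length (Localization.AtPrime p.asIdeal) (LocalizedModule p.asIdeal.primeCompl N)

variable {N₁ N₂ N₃ : Type} [AddCommGroup N₁] [Module A N₁] [AddCommGroup N₂] [Module A N₂]
  [AddCommGroup N₃] [Module A N₃]

theorem ll_add (p : PrimeSpectrum A) (f : N₁ →ₗ[A] N₂) (h : N₂ →ₗ[A] N₃)
    (hf : Function.Injective f) (hh : Function.Surjective h) (hfh : Function.Exact f h) :
    ll p N₂ = ll p N₁ + ll p N₃ :=
  Module.length_eq_add_of_exact (LocalizedModule.map p.asIdeal.primeCompl f)
    (LocalizedModule.map p.asIdeal.primeCompl h)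
    (LocalizedModule.map_injective _ f hf) (LocalizedModule.map_surjective _ h hh)
    (LocalizedModule.map_exact _ f h hfh)

theorem ll_congr (p : PrimeSpectrum A) (e : N₁ ≃ₗ[A] N₂) : ll p N₁ = ll p N₂ :=
  (IsLocalizedModule.mapEquiv p.asIdeal.primeCompl
    (LocalizedModule.mkLinearMap p.asIdeal.primeCompl N₁)
    (LocalizedModule.mkLinearMap p.asIdeal.primeCompl N₂)
    (Localization.AtPrime p.asIdeal) e).length_eq

theorem ll_quot_of_not_le (p : PrimeSpectrum A) {I : Ideal A} (h : ¬ I ≤ p.asIdeal) :
    ll p (A ⧸ I) = 0 := by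
  rw [ll, Module.length_eq_zero_iff, LocalizedModule.subsingleton_iff]
  obtain ⟨s, hs, hsp⟩ := SetLike.not_le_iff_exists.1 h
  intro x
  obtain ⟨x, rfl⟩ := Submodule.Quotient.mk_surjective _ x
  refine ⟨s, hsp, ?_⟩
  rw [← Submodule.Quotient.mk_smul, Submodule.Quotient.mk_eq_zero]
  exact I.mul_mem_right _ hs

theorem ll_quot_self (p : PrimeSpectrum A) : ll p (A ⧸ p.asIdeal) = 1 := by
  rw [ll, Module.length_eq_one_iff, isSimpleModule_iff_toSpanSingleton_surjective]
  constructor
  · refine ⟨⟨LocalizedModule.mk (Submodule.Quotient.mk 1) 1, 0, ?_⟩⟩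
    intro h
    rw [← LocalizedModule.zero_mk 1, LocalizedModule.mk_eq] at h
    obtain ⟨u, hu⟩ := h
    rw [smul_zero, one_smul] at hu
    have h1 : (u : A) • (Submodule.Quotient.mk 1 : A ⧸ p.asIdeal) = 0 := by
      rw [smul_zero] at hu
      exact hu
    rw [← Submodule.Quotient.mk_smul, Submodule.Quotient.mk_eq_zero, smul_eq_mul, mul_one] at h1
    exact u.2 h1
  · intro x hx y
    induction x using LocalizedModule.induction_on with | _ a s
    induction y using LocalizedModule.induction_on with | _ b t
    obtain ⟨a, rfl⟩ := Submodule.Quotient.mk_surjective _ a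
    obtain ⟨b, rfl⟩ := Submodule.Quotient.mk_surjective _ b
    have ha : a ∉ p.asIdeal := by
      intro ha
      apply hx
      rw [(Submodule.Quotient.mk_eq_zero _).2 ha, LocalizedModule.zero_mk]
    refine ⟨Localization.mk (b * s) (t * ⟨a, ha⟩), ?_⟩
    rw [LinearMap.toSpanSingleton_apply, LocalizedModule.mk_smul_mk, LocalizedModule.mk_eq]
    refine ⟨1, ?_⟩
    rw [one_smul, one_smul]
    change (t : A) • (b * s) • Submodule.Quotient.mk (p := p.asIdeal) a =
      ((t : A) * a * s) • Submodule.Quotient.mk b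
    rw [← Submodule.Quotient.mk_smul, ← Submodule.Quotient.mk_smul, ← Submodule.Quotient.mk_smul]
    congr 1
    simp only [smul_eq_mul]
    ring

end loc

section dev

variable {A : Type} [CommRing A]

theorem kl_congr (g : A) {N₁ N₂ : Type} [AddCommGroup N₁] [Module A N₁] [AddCommGroup N₂]
    [Module A N₂] (e : N₁ ≃ₗ[A] N₂) : kl g N₁ = kl g N₂ ∧ cok g N₁ = cok g N₂ := by
  have h1 := snake_add g (e : N₁ →ₗ[A] N₂) (0 : N₂ →ₗ[A] PUnit) e.injective
    (Function.surjective_to_subsingleton _) (((e : N₁ →ₗ[A] N₂).exact_zero_iff_surjective _).2 e.surjective)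
  have h2 := snake_add g (e.symm : N₂ →ₗ[A] N₁) (0 : N₁ →ₗ[A] PUnit) e.symm.injective
    (Function.surjective_to_subsingleton _)
    (((e.symm : N₂ →ₗ[A] N₁).exact_zero_iff_surjective _).2 e.symm.surjective)
  constructor
  · unfold kl
    exact (LinearEquiv.ofSubmodules e _ _ (by
      ext x
      constructor
      · rintro ⟨y, hy, rfl⟩
        change g • e y = 0
        rw [← map_smul]
        have : g • y = 0 := hy
        rw [this, map_zero]
      · intro hx
        refine ⟨e.symm x, ?_, e.apply_symm_apply x⟩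
        change g • e.symm x = 0
        rw [← map_smul]
        have : g • x = 0 := hx
        rw [this, map_zero])).length_eq
  · unfold cok
    exact (Submodule.Quotient.equiv _ _ e (by
      ext x
      constructor
      · rintro ⟨y, ⟨z, rfl⟩, rfl⟩
        exact ⟨e z, (map_smul e g z).symm⟩
      · rintro ⟨z, rfl⟩
        refine ⟨g • e.symm z, ⟨e.symm z, rfl⟩, ?_⟩
        change e (g • e.symm z) = g • z
        rw [map_smul, e.apply_symm_apply])).length_eq

variable [IsNoetherianRing A] [IsLocalRing A]

/-- the associativity formula -/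
theorem assoc_formula (I : Ideal A) (S : Finset (PrimeSpectrum A))
    (hS : ∀ p : PrimeSpectrum A, I ≤ p.asIdeal → p ∈ S ∨ p.asIdeal = maximalIdeal A)
    (hSm : ∀ p ∈ S, p.asIdeal ≠ maximalIdeal A)
    (hSa : ∀ p ∈ S, ∀ q ∈ S, p.asIdeal ≤ q.asIdeal → p = q)
    (g : A) (hg : ∀ p ∈ S, g ∉ p.asIdeal) ⦃M : Type⦄ [AddCommGroup M] [Module A M]
    (hM : Module.Finite A M) :
    I ≤ Module.annihilator A M → kl g M ≠ ⊤ ∧
      cok g M = kl g M + ∑ p ∈ S, ll p M * cok g (A ⧸ p.asIdeal) := by
  classical
  induction hM using IsNoetherianRing.induction_on_isQuotientEquivQuotientPrime A with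
  | subsingleton N =>
    intro _
    have h1 : kl g N = 0 := Module.length_eq_zero
    have h2 : cok g N = 0 := Module.length_eq_zero
    refine ⟨by rw [h1]; exact ENat.zero_ne_top, ?_⟩
    rw [h1, h2, zero_add]
    symm
    apply Finset.sum_eq_zero
    intro p _
    have h3 : ll p N = 0 := Module.length_eq_zero
    rw [h3, zero_mul]
  | quotient N q e =>
    intro hI
    have hIq : I ≤ q.asIdeal := by
      rw [e.annihilator_eq, Ideal.annihilator_quotient] at hI
      exact hI
    obtain ⟨h1, h2⟩ := kl_congr g e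
    rw [h1, h2]
    have h3 : ∀ p, ll p N = ll p (A ⧸ q.asIdeal) := fun p => ll_congr p e
    simp only [h3]
    by_cases hgq : g ∈ q.asIdeal
    · have hqm : q.asIdeal = maximalIdeal A := by
        rcases hS q hIq with h4 | h4
        · exact absurd hgq (hg q h4)
        · exact h4
      have hz : mulg g (A ⧸ q.asIdeal) = 0 := by
        ext
        change g • (Submodule.Quotient.mk 1 : A ⧸ q.asIdeal) = 0
        rw [← Submodule.Quotient.mk_smul, Submodule.Quotient.mk_eq_zero, smul_eq_mul, mul_one]
        exact hgq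
      have hl : Module.length A (A ⧸ q.asIdeal) = 1 := by
        rw [Module.length_eq_one_iff, isSimpleModule_iff_isCoatom, hqm]
        exact (maximalIdeal.isMaximal A).out
      have h4 : kl g (A ⧸ q.asIdeal) = 1 := by
        unfold kl
        rw [hz, LinearMap.ker_zero, Module.length_top, hl]
      have h5 : cok g (A ⧸ q.asIdeal) = 1 := by
        unfold cok
        rw [hz, LinearMap.range_zero, (Submodule.quotEquivOfEqBot ⊥ rfl).length_eq, hl]
      refine ⟨by rw [h4]; exact ENat.one_ne_top, ?_⟩
      rw [h4, h5]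
      have h6 : ∑ p ∈ S, ll p (A ⧸ q.asIdeal) * cok g (A ⧸ p.asIdeal) = 0 := by
        apply Finset.sum_eq_zero
        intro p hp
        rw [ll_quot_of_not_le, zero_mul]
        intro hle
        rw [hqm] at hle
        exact hSm p hp (le_antisymm (le_maximalIdeal p.2.ne_top) hle)
      rw [h6, add_zero]
    · have h4 : kl g (A ⧸ q.asIdeal) = 0 := by
        unfold kl
        rw [Module.length_eq_zero_iff, Submodule.subsingleton_iff_eq_bot, LinearMap.ker_eq_bot']
        intro x hx
        obtain ⟨x, rfl⟩ := Submodule.Quotient.mk_surjective _ x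
        change g • (Submodule.Quotient.mk x : A ⧸ q.asIdeal) = 0 at hx
        rw [← Submodule.Quotient.mk_smul, Submodule.Quotient.mk_eq_zero, smul_eq_mul] at hx
        rw [Submodule.Quotient.mk_eq_zero]
        exact (q.2.mem_or_mem hx).resolve_left hgq
      refine ⟨by rw [h4]; exact ENat.zero_ne_top, ?_⟩
      rw [h4, zero_add]
      rcases hS q hIq with hqS | hqm
      · rw [Finset.sum_eq_single q]
        · rw [ll_quot_self, one_mul]
        · intro p hp hpq
          rw [ll_quot_of_not_le, zero_mul]
          intro hle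
          exact hpq (hSa q hqS p hp hle).symm
        · intro h5; exact absurd hqS h5
      · -- `g` is a unit
        have hu : IsUnit g := by
          rw [hqm] at hgq
          exact not_not.1 (fun h => hgq ((mem_maximalIdeal g).2 h))
        have hc : ∀ J : Ideal A, cok g (A ⧸ J) = 0 := by
          intro J
          unfold cok
          rw [Module.length_eq_zero_iff, Submodule.Quotient.subsingleton_iff,
            LinearMap.range_eq_top]
          intro x
          obtain ⟨b, hb⟩ := hu.exists_right_inv
          refine ⟨b • x, ?_⟩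
          change g • b • x = x
          rw [smul_smul, hb, one_smul]
        rw [hc]
        symm
        apply Finset.sum_eq_zero
        intro p _
        rw [hc, mul_zero]
  | exact N₁ N₂ N₃ f h hf hh hfh ih₁ ih₃ =>
    intro hI
    have hI₁ : I ≤ Module.annihilator A N₁ := hI.trans (f.annihilator_le_of_injective hf)
    have hI₃ : I ≤ Module.annihilator A N₃ := hI.trans (h.annihilator_le_of_surjective hh)
    obtain ⟨k1, c1⟩ := ih₁ hI₁
    obtain ⟨k3, c3⟩ := ih₃ hI₃
    obtain ⟨e1, e2⟩ := snake_add g f h hf hh hfh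
    have hk : kl g N₁ + kl g N₃ ≠ ⊤ := by
      rw [Ne, ENat.add_eq_top, not_or]
      exact ⟨k1, k3⟩
    refine ⟨ne_top_of_le_ne_top hk e2, ?_⟩
    have hs : ∑ p ∈ S, ll p N₂ * cok g (A ⧸ p.asIdeal) =
        ∑ p ∈ S, ll p N₁ * cok g (A ⧸ p.asIdeal) + ∑ p ∈ S, ll p N₃ * cok g (A ⧸ p.asIdeal) := by
      rw [← Finset.sum_add_distrib]
      apply Finset.sum_congr rfl
      intro p _
      rw [ll_add p f h hf hh hfh, add_mul]
    rw [hs]
    rw [c1, c3] at e1
    have e3 : cok g N₂ + (kl g N₁ + kl g N₃) = (kl g N₂ +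
        (∑ p ∈ S, ll p N₁ * cok g (A ⧸ p.asIdeal) + ∑ p ∈ S, ll p N₃ * cok g (A ⧸ p.asIdeal))) +
        (kl g N₁ + kl g N₃) := by
      rw [e1]; ring
    exact le_antisymm ((ENat.add_le_add_iff_right hk).1 e3.le) ((ENat.add_le_add_iff_right hk).1 e3.ge)

end dev

end Pool.Agent.Helper341_polar
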