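import Mathlib
import Pool.Agent.Helper341_polar.Assoc

/-!
# The associativity formula for multiplicities in dimension one, relative form

The ring need not be noetherian, only the quotient by the ideal which annihilates the module.
-/

set_option autoImplicit false

namespace Pool.Agent.Helper341_polar

open IsLocalRing

variable {A : Type} [CommRing A]

/-- iterated quotient -/
theorem quot_quot_equiv (I : Ideal A) (q : Ideal (A ⧸ I)) :
    Nonempty (((A ⧸ I) ⧸ q) ≃ₗ[A] (A ⧸ q.comap (Ideal.Quotient.mk I))) := by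
  let F : A →ₗ[A] ((A ⧸ I) ⧸ q) := (q.mkQ.restrictScalars A) ∘ₗ I.mkQ
  have hF : Function.Surjective F := by
    intro y
    obtain ⟨y, rfl⟩ := Submodule.Quotient.mk_surjective _ y
    obtain ⟨y, rfl⟩ := Submodule.Quotient.mk_surjective _ y
    exact ⟨y, rfl⟩
  have hker : LinearMap.ker F = q.comap (Ideal.Quotient.mk I) := by
    ext x
    rw [LinearMap.mem_ker, Ideal.mem_comap]
    exact Submodule.Quotient.mk_eq_zero q
  exact ⟨((Submodule.quotEquivOfEq _ _ hker.symm).trans (F.quotKerEquivOfSurjective hF)).symm⟩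

variable [IsLocalRing A]

/-- the associativity formula for a module over `A ⧸ I` -/
theorem assoc_rel (I : Ideal A) [IsNoetherianRing (A ⧸ I)] (S : Finset (PrimeSpectrum A))
    (hS : ∀ p : PrimeSpectrum A, I ≤ p.asIdeal → p ∈ S ∨ p.asIdeal = maximalIdeal A)
    (hSm : ∀ p ∈ S, p.asIdeal ≠ maximalIdeal A)
    (hSa : ∀ p ∈ S, ∀ q ∈ S, p.asIdeal ≤ q.asIdeal → p = q)
    (g : A) (hg : ∀ p ∈ S, g ∉ p.asIdeal) ⦃M : Type⦄ [AddCommGroup M] [Module (A ⧸ I) M]
    (hM : Module.Finite (A ⧸ I) M) :
    ∀ (_ : Module A M) (_ : IsScalarTower A (A ⧸ I) M), kl g M ≠ ⊤ ∧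
      cok g M = kl g M + ∑ p ∈ S, ll p M * cok g (A ⧸ p.asIdeal) := by
  classical
  induction hM using IsNoetherianRing.induction_on_isQuotientEquivQuotientPrime (A ⧸ I) with
  | subsingleton N =>
    intro _ _
    have h1 : kl g N = 0 := Module.length_eq_zero
    have h2 : cok g N = 0 := Module.length_eq_zero
    refine ⟨by rw [h1]; exact ENat.zero_ne_top, ?_⟩
    rw [h1, h2, zero_add]
    symm
    apply Finset.sum_eq_zero
    intro p _
    have h3 : ll p N = 0 := Module.length_eq_zero
    rw [h3, zero_mul]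
  | quotient N q' e' =>
    intro _ _
    obtain ⟨e''⟩ := quot_quot_equiv I q'.asIdeal
    set q : PrimeSpectrum A := ⟨q'.asIdeal.comap (Ideal.Quotient.mk I), by
      have := q'.2
      exact Ideal.IsPrime.comap _⟩ with hq
    have hIq : I ≤ q.asIdeal := by
      intro x hx
      change Ideal.Quotient.mk I x ∈ q'.asIdeal
      rw [Ideal.Quotient.eq_zero_iff_mem.2 hx]
      exact Ideal.zero_mem _
    have e : N ≃ₗ[A] A ⧸ q.asIdeal := (e'.restrictScalars A).trans e''
    obtain ⟨h1, h2⟩ := kl_congr g e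
    rw [h1, h2]
    have h3 : ∀ p, ll p N = ll p (A ⧸ q.asIdeal) := fun p => ll_congr p e
    simp only [h3]
    by_cases hgq : g ∈ q.asIdeal
    · have hqm : q.asIdeal = maximalIdeal A := by
        rcases hS q hIq with h4 | h4
        · exact absurd hgq (hg q h4)
        · exact h4
      have hz : mulg g (A ⧸ q.asIdeal) = 0 := by
        ext
        change g • (Submodule.Quotient.mk 1 : A ⧸ q.asIdeal) = 0
        rw [← Submodule.Quotient.mk_smul, Submodule.Quotient.mk_eq_zero, smul_eq_mul, mul_one]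
        exact hgq
      have hl : Module.length A (A ⧸ q.asIdeal) = 1 := by
        rw [Module.length_eq_one_iff, isSimpleModule_iff_isCoatom, hqm]
        exact (maximalIdeal.isMaximal A).out
      have h4 : kl g (A ⧸ q.asIdeal) = 1 := by
        unfold kl
        rw [hz, LinearMap.ker_zero, Module.length_top, hl]
      have h5 : cok g (A ⧸ q.asIdeal) = 1 := by
        unfold cok
        rw [hz, LinearMap.range_zero, (Submodule.quotEquivOfEqBot ⊥ rfl).length_eq, hl]
      refine ⟨by rw [h4]; exact ENat.one_ne_top, ?_⟩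
      rw [h4, h5]
      have h6 : ∑ p ∈ S, ll p (A ⧸ q.asIdeal) * cok g (A ⧸ p.asIdeal) = 0 := by
        apply Finset.sum_eq_zero
        intro p hp
        rw [ll_quot_of_not_le, zero_mul]
        intro hle
        rw [hqm] at hle
        exact hSm p hp (le_antisymm (le_maximalIdeal p.2.ne_top) hle)
      rw [h6, add_zero]
    · have h4 : kl g (A ⧸ q.asIdeal) = 0 := by
        unfold kl
        rw [Module.length_eq_zero_iff, Submodule.subsingleton_iff_eq_bot, LinearMap.ker_eq_bot']
        intro x hx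
        obtain ⟨x, rfl⟩ := Submodule.Quotient.mk_surjective _ x
        change g • (Submodule.Quotient.mk x : A ⧸ q.asIdeal) = 0 at hx
        rw [← Submodule.Quotient.mk_smul, Submodule.Quotient.mk_eq_zero, smul_eq_mul] at hx
        rw [Submodule.Quotient.mk_eq_zero]
        exact (q.2.mem_or_mem hx).resolve_left hgq
      refine ⟨by rw [h4]; exact ENat.zero_ne_top, ?_⟩
      rw [h4, zero_add]
      rcases hS q hIq with hqS | hqm
      · rw [Finset.sum_eq_single q]
        · rw [ll_quot_self, one_mul]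
        · intro p hp hpq
          rw [ll_quot_of_not_le, zero_mul]
          intro hle
          exact hpq (hSa q hqS p hp hle).symm
        · intro h5; exact absurd hqS h5
      · -- `g` is a unit
        have hu : IsUnit g := by
          rw [hqm] at hgq
          exact not_not.1 (fun h => hgq ((mem_maximalIdeal g).2 h))
        have hc : ∀ J : Ideal A, cok g (A ⧸ J) = 0 := by
          intro J
          unfold cok
          rw [Module.length_eq_zero_iff, Submodule.Quotient.subsingleton_iff,
            LinearMap.range_eq_top]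
          intro x
          obtain ⟨b, hb⟩ := hu.exists_right_inv
          refine ⟨b • x, ?_⟩
          change g • b • x = x
          rw [smul_smul, hb, one_smul]
        rw [hc]
        symm
        apply Finset.sum_eq_zero
        intro p _
        rw [hc, mul_zero]
  | exact N₁ N₂ N₃ f h hf hh hfh ih₁ ih₃ =>
    intro _ _
    let _ : Module A N₁ := Module.compHom N₁ (Ideal.Quotient.mk I)
    let _ : Module A N₃ := Module.compHom N₃ (Ideal.Quotient.mk I)
    have t₁ : IsScalarTower A (A ⧸ I) N₁ := ⟨fun x y z => by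
      change (x • y) • z = Ideal.Quotient.mk I x • (y • z)
      rw [smul_smul]
      rfl⟩
    have t₃ : IsScalarTower A (A ⧸ I) N₃ := ⟨fun x y z => by
      change (x • y) • z = Ideal.Quotient.mk I x • (y • z)
      rw [smul_smul]
      rfl⟩
    obtain ⟨k1, c1⟩ := ih₁ _ t₁
    obtain ⟨k3, c3⟩ := ih₃ _ t₃
    obtain ⟨e1, e2⟩ := snake_add g (f.restrictScalars A) (h.restrictScalars A) hf hh hfh
    have hk : kl g N₁ + kl g N₃ ≠ ⊤ := by
      rw [Ne, ENat.add_eq_top, not_or]
      exact ⟨k1, k3⟩
    refine ⟨ne_top_of_le_ne_top hk e2, ?_⟩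
    have hs : ∑ p ∈ S, ll p N₂ * cok g (A ⧸ p.asIdeal) =
        ∑ p ∈ S, ll p N₁ * cok g (A ⧸ p.asIdeal) + ∑ p ∈ S, ll p N₃ * cok g (A ⧸ p.asIdeal) := by
      rw [← Finset.sum_add_distrib]
      apply Finset.sum_congr rfl
      intro p _
      rw [ll_add p (f.restrictScalars A) (h.restrictScalars A) hf hh hfh, add_mul]
    rw [hs]
    rw [c1, c3] at e1
    have e3 : cok g N₂ + (kl g N₁ + kl g N₃) = (kl g N₂ +
        (∑ p ∈ S, ll p N₁ * cok g (A ⧸ p.asIdeal) + ∑ p ∈ S, ll p N₃ * cok g (A ⧸ p.asIdeal))) +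
        (kl g N₁ + kl g N₃) := by
      rw [e1]; ring
    exact le_antisymm ((ENat.add_le_add_iff_right hk).1 e3.le) ((ENat.add_le_add_iff_right hk).1 e3.ge)

omit [IsLocalRing A] in
theorem kl_eq_zero {M : Type} [AddCommGroup M] [Module A M] {g : A} (h : IsSMulRegular M g) :
    kl g M = 0 := by
  unfold kl
  rw [Module.length_eq_zero_iff, Submodule.subsingleton_iff_eq_bot, LinearMap.ker_eq_bot']
  intro x hx
  rw [isSMulRegular_iff_right_eq_zero_of_smul] at h
  exact h x hx

/-- the associativity formula for `A ⧸ I` -/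
theorem assoc_self (I : Ideal A) [IsNoetherianRing (A ⧸ I)] (S : Finset (PrimeSpectrum A))
    (hS : ∀ p : PrimeSpectrum A, I ≤ p.asIdeal → p ∈ S ∨ p.asIdeal = maximalIdeal A)
    (hSm : ∀ p ∈ S, p.asIdeal ≠ maximalIdeal A)
    (hSa : ∀ p ∈ S, ∀ q ∈ S, p.asIdeal ≤ q.asIdeal → p = q)
    (g : A) (hg : ∀ p ∈ S, g ∉ p.asIdeal) (hreg : IsSMulRegular (A ⧸ I) g) :
    cok g (A ⧸ I) = ∑ p ∈ S, ll p (A ⧸ I) * cok g (A ⧸ p.asIdeal) := by
  have h := (assoc_rel I S hS hSm hSa g hg (M := A ⧸ I) inferInstance inferInstance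
    inferInstance).2
  rw [kl_eq_zero hreg, zero_add] at h
  exact h

end Pool.Agent.Helper341_polar
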