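import Mathlib
import Pool.Agent.TH952.HahnClosed

/-!
# Hahn series with rational exponents: Euler operator, twist, integral elements
-/

set_option autoImplicit false

namespace Pool.Agent.Helper341_polar

/-- the field of Hahn series with rational exponents and complex coefficients -/
abbrev HS : Type := HahnSeries ℚ ℂ

instance : IsAlgClosed HS := Pool.Agent.TH952.hahn_isAlgClosed ℂ

/-- Euler operator `t d/dt` -/
noncomputable def eul (x : HS) : HS where
  coeff q := (q : ℂ) * x.coeff q
  isPWO_support' := x.isPWO_support.mono (by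
    intro q hq
    simp only [Function.mem_support] at hq
    exact right_ne_zero_of_mul hq)

theorem eul_coeff (x : HS) (q : ℚ) : (eul x).coeff q = (q : ℂ) * x.coeff q := rfl

theorem eul_support (x : HS) : (eul x).support ⊆ x.support := by
  intro q hq
  rw [HahnSeries.mem_support, eul_coeff] at hq
  exact right_ne_zero_of_mul hq

theorem eul_mul (x y : HS) : eul (x * y) = x * eul y + y * eul x := by
  ext q
  rw [eul_coeff, HahnSeries.coeff_add, mul_comm y, HahnSeries.coeff_mul,
    HahnSeries.coeff_mul_right' y.isPWO_support (eul_support y),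
    HahnSeries.coeff_mul_left' x.isPWO_support (eul_support x),
    Finset.mul_sum, ← Finset.sum_add_distrib]
  apply Finset.sum_congr rfl
  rintro ⟨i, j⟩ hij
  rw [Finset.mem_antidiagonal] at hij
  obtain ⟨_, _, rfl⟩ := hij
  simp only [eul_coeff]
  push_cast
  ring

theorem eul_add (x y : HS) : eul (x + y) = eul x + eul y := by
  ext q
  rw [HahnSeries.coeff_add, eul_coeff, eul_coeff, eul_coeff, HahnSeries.coeff_add, mul_add]

theorem eul_zero : eul 0 = 0 := by
  ext q
  rw [eul_coeff]; simp

/-- the character `q ↦ exp(2 π i q)` -/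
noncomputable def chi (q : ℚ) : ℂ := Complex.exp (2 * Real.pi * Complex.I * q)

theorem chi_ne_zero (q : ℚ) : chi q ≠ 0 := Complex.exp_ne_zero _

theorem chi_zero : chi 0 = 1 := by simp [chi]

theorem chi_add (a b : ℚ) : chi (a + b) = chi a * chi b := by
  unfold chi
  rw [← Complex.exp_add]
  congr 1
  push_cast
  ring

theorem chi_eq_one_iff (q : ℚ) : chi q = 1 ↔ ∃ n : ℤ, q = n := by
  unfold chi
  rw [Complex.exp_eq_one_iff]
  constructor
  · rintro ⟨n, hn⟩
    refine ⟨n, ?_⟩
    have h2 : (2 * Real.pi * Complex.I : ℂ) ≠ 0 := by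
      simp [Real.pi_ne_zero]
    have h3 : (q : ℂ) = (n : ℂ) := by
      apply mul_left_cancel₀ h2
      rw [hn]; ring
    exact_mod_cast h3
  · rintro ⟨n, rfl⟩
    refine ⟨n, ?_⟩
    push_cast
    ring

/-- the twist `t ^ q ↦ exp(2 π i q) t ^ q` -/
noncomputable def twf (x : HS) : HS where
  coeff q := chi q * x.coeff q
  isPWO_support' := x.isPWO_support.mono (by
    intro q hq
    simp only [Function.mem_support] at hq
    exact right_ne_zero_of_mul hq)

theorem twf_coeff (x : HS) (q : ℚ) : (twf x).coeff q = chi q * x.coeff q := rfl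

theorem twf_support (x : HS) : (twf x).support = x.support := by
  ext q
  rw [HahnSeries.mem_support, HahnSeries.mem_support, twf_coeff]
  simp [chi_ne_zero]

theorem twf_mul (x y : HS) : twf (x * y) = twf x * twf y := by
  ext q
  rw [twf_coeff, HahnSeries.coeff_mul,
    HahnSeries.coeff_mul_right' y.isPWO_support (twf_support y).subset]
  have : ∀ s : Set ℚ, ∀ hs : s.IsPWO, s = x.support →
      ∑ ij ∈ Finset.antidiagonal hs y.isPWO_support q, (twf x).coeff ij.1 * (twf y).coeff ij.2 =
      ∑ ij ∈ Finset.antidiagonal x.isPWO_support y.isPWO_support q,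
        (twf x).coeff ij.1 * (twf y).coeff ij.2 := by
    rintro s hs rfl
    rfl
  rw [this _ _ (twf_support x), Finset.mul_sum]
  apply Finset.sum_congr rfl
  rintro ⟨i, j⟩ hij
  rw [Finset.mem_antidiagonal] at hij
  obtain ⟨_, _, rfl⟩ := hij
  simp only [twf_coeff, chi_add]
  ring

/-- the twist as a ring homomorphism -/
noncomputable def tw : HS →+* HS where
  toFun := twf
  map_one' := by
    ext q
    rw [twf_coeff]
    rw [HahnSeries.coeff_one]
    split_ifs with h
    · subst h; rw [chi_zero, one_mul]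
    · rw [mul_zero]
  map_mul' := twf_mul
  map_zero' := by
    ext q
    rw [twf_coeff]; simp
  map_add' x y := by
    ext q
    rw [HahnSeries.coeff_add, twf_coeff, twf_coeff, twf_coeff, HahnSeries.coeff_add, mul_add]

theorem tw_coeff (x : HS) (q : ℚ) : (tw x).coeff q = chi q * x.coeff q := rfl

/-- the embedding of the power series ring -/
noncomputable abbrev iota : PowerSeries ℂ →+* HS := HahnSeries.ofPowerSeries ℚ ℂ

theorem iota_inj : Function.Injective iota := HahnSeries.ofPowerSeries_injective

theorem iota_coeff_nat (r : PowerSeries ℂ) (n : ℕ) : (iota r).coeff (n : ℚ) = PowerSeries.coeff n r :=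
  HahnSeries.ofPowerSeries_apply_coeff _ _

theorem iota_coeff_of_not (r : PowerSeries ℂ) (q : ℚ) (hq : ¬ ∃ n : ℕ, q = n) :
    (iota r).coeff q = 0 := by
  rw [HahnSeries.ofPowerSeries_apply]
  apply HahnSeries.embDomain_of_notMem_range
  rintro ⟨n, hn⟩
  exact hq ⟨n, hn.symm⟩

theorem mem_range_iota {x : HS} (h : ∀ q, x.coeff q ≠ 0 → ∃ n : ℕ, q = n) : ∃ r, iota r = x := by
  refine ⟨PowerSeries.mk fun n => x.coeff n, ?_⟩
  ext q
  by_cases hq : ∃ n : ℕ, q = n
  · obtain ⟨n, rfl⟩ := hq
    rw [iota_coeff_nat, PowerSeries.coeff_mk]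
  · rw [iota_coeff_of_not _ _ hq]
    by_contra hne
    exact hq (h q (Ne.symm hne))

theorem tw_iota (r : PowerSeries ℂ) : tw (iota r) = iota r := by
  ext q
  rw [tw_coeff]
  by_cases hq : ∃ n : ℕ, q = n
  · obtain ⟨n, rfl⟩ := hq
    rw [(chi_eq_one_iff _).2 ⟨n, by simp⟩, one_mul]
  · rw [iota_coeff_of_not _ _ hq, mul_zero]

/-- nonnegative elements: the valuation ring of `HS` -/
noncomputable def VR : Subring HS where
  carrier := {x | ∀ q < 0, x.coeff q = 0}
  mul_mem' := by
    intro x y hx hy q hq
    rw [HahnSeries.coeff_mul]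
    apply Finset.sum_eq_zero
    rintro ⟨i, j⟩ hij
    rw [Finset.mem_antidiagonal] at hij
    obtain ⟨_, _, hs⟩ := hij
    simp only at hs ⊢
    by_cases hi : i < 0
    · rw [hx i hi, zero_mul]
    · rw [hy j (by push Not at hi; linarith), mul_zero]
  one_mem' := by
    intro q hq
    rw [HahnSeries.coeff_one, if_neg hq.ne]
  add_mem' := by
    intro x y hx hy q hq
    rw [HahnSeries.coeff_add, hx q hq, hy q hq, add_zero]
  zero_mem' := by intro q _; simp
  neg_mem' := by
    intro x hx q hq
    rw [HahnSeries.coeff_neg, hx q hq, neg_zero]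

theorem mem_VR {x : HS} : x ∈ VR ↔ ∀ q < 0, x.coeff q = 0 := Iff.rfl

theorem mem_VR_iff_order {x : HS} (hx : x ≠ 0) : x ∈ VR ↔ 0 ≤ x.order := by
  rw [mem_VR]
  constructor
  · intro h
    by_contra hcon
    push Not at hcon
    exact hx (HahnSeries.coeff_order_eq_zero.1 (h _ hcon))
  · intro h q hq
    exact HahnSeries.coeff_eq_zero_of_lt_order (lt_of_lt_of_le hq h)

theorem tw_VR {x : HS} (h : x ∈ VR) : tw x ∈ VR := by
  intro q hq
  rw [tw_coeff, h q hq, mul_zero]

theorem iota_VR (r : PowerSeries ℂ) : iota r ∈ VR := by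
  intro q hq
  apply iota_coeff_of_not
  rintro ⟨n, rfl⟩
  exact absurd hq (by simp)

/-- An element of the valuation ring which is algebraic over the power series is integral over
them. -/
theorem integral_of_VR {α : HS} (hα : α ∈ VR) (p : Polynomial (PowerSeries ℂ)) (hp : p ≠ 0)
    (hroot : p.eval₂ iota α = 0) : ∃ q : Polynomial (PowerSeries ℂ), q.Monic ∧ q.eval₂ iota α = 0 := by
  classical
  have htw : tw.comp iota = iota := by
    ext1 r
    exact tw_iota r
  -- the orbit
  have horb : ∀ k : ℕ, p.eval₂ iota (tw^[k] α) = 0 := by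
    intro k
    induction k with
    | zero => exact hroot
    | succ k ih =>
      rw [Function.iterate_succ_apply', ← htw, ← Polynomial.hom_eval₂, ih, map_zero]
  have hpm : p.map iota ≠ 0 := (Polynomial.map_ne_zero_iff iota_inj).2 hp
  have hfin : (Set.range fun k : ℕ => tw^[k] α).Finite := by
    apply ((p.map iota).roots.toFinset.finite_toSet).subset
    rintro _ ⟨k, rfl⟩
    simp only [Finset.mem_coe, Multiset.mem_toFinset]
    rw [Polynomial.mem_roots hpm, Polynomial.IsRoot.def, Polynomial.eval_map]
    exact horb k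
  set S : Finset HS := hfin.toFinset with hS
  have hmem : ∀ x, x ∈ S ↔ ∃ k : ℕ, tw^[k] α = x := by
    intro x
    rw [hS, Set.Finite.mem_toFinset, Set.mem_range]
  have hSV : ∀ x ∈ S, x ∈ VR := by
    intro x hx
    obtain ⟨k, rfl⟩ := (hmem x).1 hx
    clear hx
    induction k with
    | zero => exact hα
    | succ k ih =>
      rw [Function.iterate_succ_apply']
      exact tw_VR ih
  have hinj : Function.Injective tw := tw.injective
  have himg : S.image tw = S := by
    apply Finset.eq_of_subset_of_card_le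
    · intro x hx
      rw [Finset.mem_image] at hx
      obtain ⟨y, hy, rfl⟩ := hx
      obtain ⟨k, rfl⟩ := (hmem y).1 hy
      exact (hmem _).2 ⟨k + 1, Function.iterate_succ_apply' _ _ _⟩
    · rw [Finset.card_image_of_injective _ hinj]
  set Q : Polynomial HS := ∏ s ∈ S, (Polynomial.X - Polynomial.C s) with hQ
  have hQtw : Q.map tw = Q := by
    rw [hQ, Polynomial.map_prod]
    conv_rhs => rw [← himg]
    rw [Finset.prod_image (fun a _ b _ h => hinj h)]
    apply Finset.prod_congr rfl
    intro s _
    rw [Polynomial.map_sub, Polynomial.map_X, Polynomial.map_C]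
  have hQV : ∀ n, Q.coeff n ∈ VR := by
    have h1 : Q ∈ Polynomial.lifts VR.subtype := by
      rw [hQ]
      apply prod_mem
      intro s hs
      rw [Polynomial.lifts_iff_coeff_lifts]
      intro n
      rw [Polynomial.coeff_sub, Polynomial.coeff_X, Polynomial.coeff_C]
      have h2 := hSV s hs
      refine ⟨⟨(if 1 = n then 1 else 0) - (if n = 0 then s else 0), ?_⟩, rfl⟩
      apply VR.sub_mem
      · split_ifs
        · exact VR.one_mem
        · exact VR.zero_mem
      · split_ifs
        · exact h2
        · exact VR.zero_mem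
    intro n
    obtain ⟨y, hy⟩ := (Polynomial.lifts_iff_coeff_lifts _).1 h1 n
    rw [← hy]
    exact y.2
  have hQr : ∀ n, ∃ r, iota r = Q.coeff n := by
    intro n
    apply mem_range_iota
    intro q hq
    have h1 : tw (Q.coeff n) = Q.coeff n := by
      conv_rhs => rw [← hQtw]
      rw [Polynomial.coeff_map]
    have h2 : chi q * (Q.coeff n).coeff q = (Q.coeff n).coeff q := by
      rw [← tw_coeff, h1]
    have h3 : chi q = 1 := by
      apply mul_right_cancel₀ hq
      rw [h2, one_mul]
    obtain ⟨m, rfl⟩ := (chi_eq_one_iff q).1 h3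
    have h4 : 0 ≤ m := by
      by_contra hcon
      push Not at hcon
      exact hq (hQV n _ (by exact_mod_cast hcon))
    refine ⟨m.toNat, ?_⟩
    have : ((m.toNat : ℤ) : ℚ) = (m : ℚ) := by rw [Int.toNat_of_nonneg h4]
    rw [← this, Int.cast_natCast]
  have hlift : Q ∈ Polynomial.lifts iota := by
    rw [Polynomial.lifts_iff_coeff_lifts]
    intro n
    obtain ⟨r, hr⟩ := hQr n
    exact ⟨r, hr⟩
  have hQm : Q.Monic := Polynomial.monic_prod_of_monic _ _ fun s _ => Polynomial.monic_X_sub_C s
  obtain ⟨q, hq1, -, hq3⟩ := Polynomial.lifts_and_natDegree_eq_and_monic hlift hQm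
  refine ⟨q, hq3, ?_⟩
  rw [← Polynomial.eval_map, hq1, hQ, Polynomial.eval_prod]
  apply Finset.prod_eq_zero ((hmem α).2 ⟨0, rfl⟩)
  simp

end Pool.Agent.Helper341_polar
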