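import Mathlib

/-!
# Colengths of multiplication maps and integral dependence
-/

set_option autoImplicit false

namespace Pool.Agent.Helper341_polar

open Pointwise

variable {O : Type} [CommRing O] [Algebra ℂ O]
variable {K : Type} [AddCommGroup K] [Module O K] [Module ℂ K] [IsScalarTower ℂ O K]

theorem length_smul_quot (N : Submodule O K) {g : O} (hg : IsSMulRegular K g) :
    Module.length ℂ (K ⧸ (g • N)) =
      Module.length ℂ (K ⧸ N) + Module.length ℂ (K ⧸ (g • (⊤ : Submodule O K))) := by
  have hle : N ≤ (g • N).comap (LinearMap.lsmul O K g) := by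
    intro x hx
    rw [Submodule.mem_comap]
    exact Submodule.smul_mem_pointwise_smul _ _ _ hx
  have hle2 : g • N ≤ g • (⊤ : Submodule O K) := by
    intro x hx
    obtain ⟨y, hy, rfl⟩ := (Submodule.mem_smul_pointwise_iff_exists _ _ _).1 hx
    exact Submodule.smul_mem_pointwise_smul _ _ _ trivial
  refine Module.length_eq_add_of_exact
    ((Submodule.mapQ N (g • N) (LinearMap.lsmul O K g) hle).restrictScalars ℂ)
    ((Submodule.factor hle2).restrictScalars ℂ) ?_ ?_ ?_
  · intro a b hab
    obtain ⟨a, rfl⟩ := Submodule.Quotient.mk_surjective _ a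
    obtain ⟨b, rfl⟩ := Submodule.Quotient.mk_surjective _ b
    have h1 : Submodule.Quotient.mk (p := g • N) (g • a) = Submodule.Quotient.mk (g • b) := hab
    rw [Submodule.Quotient.eq, ← smul_sub] at h1
    rw [Submodule.Quotient.eq]
    obtain ⟨y, hy, hy2⟩ := (Submodule.mem_smul_pointwise_iff_exists _ _ _).1 h1
    rwa [hg hy2] at hy
  · exact Submodule.factor_surjective hle2
  · intro x
    obtain ⟨x, rfl⟩ := Submodule.Quotient.mk_surjective _ x
    constructor
    · intro h
      have h1 : Submodule.Quotient.mk (p := g • (⊤ : Submodule O K)) x = 0 := h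
      rw [Submodule.Quotient.mk_eq_zero] at h1
      obtain ⟨y, hy, rfl⟩ := (Submodule.mem_smul_pointwise_iff_exists _ _ _).1 h1
      exact ⟨Submodule.Quotient.mk y, rfl⟩
    · rintro ⟨y, hy⟩
      obtain ⟨y, rfl⟩ := Submodule.Quotient.mk_surjective _ y
      rw [← hy]
      change Submodule.Quotient.mk (p := g • (⊤ : Submodule O K)) (g • y) = 0
      rw [Submodule.Quotient.mk_eq_zero]
      exact Submodule.smul_mem_pointwise_smul _ _ _ trivial

theorem length_anti {N N' : Submodule O K} (h : N ≤ N') :
    Module.length ℂ (K ⧸ N') ≤ Module.length ℂ (K ⧸ N) :=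
  Module.length_le_of_surjective ((Submodule.factor h).restrictScalars ℂ)
    (Submodule.factor_surjective h)

theorem length_smul_pow {g : O} (hg : IsSMulRegular K g) (k : ℕ) :
    Module.length ℂ (K ⧸ ((g ^ k) • (⊤ : Submodule O K))) =
      k * Module.length ℂ (K ⧸ (g • (⊤ : Submodule O K))) := by
  induction k with
  | zero =>
    rw [pow_zero, one_smul, Nat.cast_zero, zero_mul, Module.length_eq_zero_iff]
    exact Submodule.Quotient.subsingleton_iff.2 rfl
  | succ k ih =>
    rw [pow_succ', mul_smul, length_smul_quot _ hg, ih]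
    push_cast
    ring

theorem length_smul_mul {g h : O} (hg : IsSMulRegular K g) :
    Module.length ℂ (K ⧸ ((g * h) • (⊤ : Submodule O K))) =
      Module.length ℂ (K ⧸ (h • (⊤ : Submodule O K))) +
      Module.length ℂ (K ⧸ (g • (⊤ : Submodule O K))) := by
  rw [mul_smul, length_smul_quot _ hg]

/-- `e` is the value of a monic binary form of positive degree at `(x, y)` -/
def MonForm (x y e : O) : Prop :=
  ∃ k : ℕ, ∃ a ∈ Ideal.span {y} * Ideal.span {x, y} ^ k, e = x ^ (k + 1) - a

omit [Algebra ℂ O] in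
theorem pow_mem_pair (x y : O) (k : ℕ) : x ^ k ∈ Ideal.span {x, y} ^ k :=
  Ideal.pow_mem_pow (Ideal.subset_span (by simp)) k

omit [Algebra ℂ O] in
theorem MonForm.mul {x y e e' : O} (h : MonForm x y e) (h' : MonForm x y e') :
    MonForm x y (e * e') := by
  obtain ⟨k, a, ha, rfl⟩ := h
  obtain ⟨l, b, hb, rfl⟩ := h'
  refine ⟨k + l + 1, x ^ (k + 1) * b + a * x ^ (l + 1) - a * b, ?_, by ring⟩
  have h1 : Ideal.span {y} * Ideal.span {x, y} ^ k ≤ Ideal.span {x, y} ^ (k + 1) := by
    rw [pow_succ']
    gcongr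
    simp
  have h2 : Ideal.span {y} * Ideal.span {x, y} ^ l ≤ Ideal.span {x, y} ^ (l + 1) := by
    rw [pow_succ']
    gcongr
    simp
  apply Ideal.sub_mem
  · apply Ideal.add_mem
    · have : Ideal.span {y} * Ideal.span {x, y} ^ (k + l + 1) =
          Ideal.span {x, y} ^ (k + 1) * (Ideal.span {y} * Ideal.span {x, y} ^ l) := by ring
      rw [this]
      exact Ideal.mul_mem_mul (pow_mem_pair _ _ _) hb
    · have : Ideal.span {y} * Ideal.span {x, y} ^ (k + l + 1) =
          (Ideal.span {y} * Ideal.span {x, y} ^ k) * Ideal.span {x, y} ^ (l + 1) := by ring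
      rw [this]
      exact Ideal.mul_mem_mul ha (pow_mem_pair _ _ _)
  · have : Ideal.span {y} * Ideal.span {x, y} ^ (k + l + 1) =
          (Ideal.span {y} * Ideal.span {x, y} ^ k) * Ideal.span {x, y} ^ (l + 1) := by ring
    rw [this]
    exact Ideal.mul_mem_mul ha (h2 hb)

omit [Algebra ℂ O] in
theorem pair_mul_le (x y : O) (k : ℕ) : Ideal.span {x} * Ideal.span {x, y} ^ k ≤
    Ideal.span {x ^ (k + 1)} ⊔ Ideal.span {y} * Ideal.span {x, y} ^ k := by
  induction k with
  | zero => simp
  | succ k ih =>
    have h0 : (Ideal.span {x, y} : Ideal O) = Ideal.span {x} ⊔ Ideal.span {y} := by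
      rw [← Ideal.span_insert]
    have h1 : (Ideal.span {x} : Ideal O) * Ideal.span {x, y} ^ (k + 1) =
        Ideal.span {x} * (Ideal.span {x} * Ideal.span {x, y} ^ k) ⊔
        Ideal.span {y} * (Ideal.span {x} * Ideal.span {x, y} ^ k) := by
      conv_lhs => rw [pow_succ', h0, Ideal.sup_mul, ← h0, Ideal.mul_sup]
      congr 1
      rw [← mul_assoc, ← mul_assoc, mul_comm (Ideal.span {x})]
    rw [h1]
    apply sup_le
    · calc Ideal.span {x} * (Ideal.span {x} * Ideal.span {x, y} ^ k) ≤
          Ideal.span {x} * (Ideal.span {x ^ (k + 1)} ⊔ Ideal.span {y} * Ideal.span {x, y} ^ k) := by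
            gcongr
        _ = Ideal.span {x ^ (k + 2)} ⊔ Ideal.span {y} * (Ideal.span {x} * Ideal.span {x, y} ^ k) := by
            rw [Ideal.mul_sup, Ideal.span_singleton_mul_span_singleton, ← pow_succ']
            congr 1
            rw [← mul_assoc, ← mul_assoc, mul_comm (Ideal.span {x})]
        _ ≤ _ := by
            gcongr
            rw [pow_succ']
            gcongr
            simp
    · apply le_sup_of_le_right
      gcongr
      rw [pow_succ']
      gcongr
      simp

/-- Integral dependence of `g` over `(g')` gives an inequality of colengths. -/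
theorem length_le_of_monForm {g g' e : O} (hg : IsSMulRegular K g) (hg' : IsSMulRegular K g')
    (h : MonForm g g' e) (he : ∀ x : K, e • x = 0)
    (hfin : Module.length ℂ (K ⧸ (g' • (⊤ : Submodule O K))) ≠ ⊤) :
    Module.length ℂ (K ⧸ (g' • (⊤ : Submodule O K))) ≤
      Module.length ℂ (K ⧸ (g • (⊤ : Submodule O K))) := by
  obtain ⟨k, a, ha, rfl⟩ := h
  set N : Submodule O K := Ideal.span {g, g'} ^ k • (⊤ : Submodule O K) with hN
  have hsm : ∀ (c : O) (N : Submodule O K), c • N = Ideal.span {c} • N := by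
    intro c N
    exact (Submodule.ideal_span_singleton_smul c N).symm
  have hkey : g • N ≤ g' • N := by
    rw [hsm, hsm, hN, ← Submodule.mul_smul, ← Submodule.mul_smul]
    refine (Submodule.smul_mono_left (pair_mul_le g g' k)).trans ?_
    rw [Submodule.sup_smul]
    apply sup_le _ le_rfl
    rw [Submodule.ideal_span_singleton_smul]
    intro x hx
    obtain ⟨y, hy, rfl⟩ := (Submodule.mem_smul_pointwise_iff_exists _ _ _).1 hx
    have h1 : g ^ (k + 1) • y = a • y := by
      have := he y
      rwa [sub_smul, sub_eq_zero] at this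
    rw [h1]
    exact Submodule.smul_mem_smul ha trivial
  have hNfin : Module.length ℂ (K ⧸ N) ≠ ⊤ := by
    have h1 : (g' ^ k) • (⊤ : Submodule O K) ≤ N := by
      rw [hsm]
      apply Submodule.smul_mono_left
      rw [Ideal.span_singleton_le_iff_mem]
      exact Ideal.pow_mem_pow (Ideal.subset_span (by simp)) k
    have h2 := length_anti h1
    rw [length_smul_pow hg'] at h2
    intro h3
    rw [h3, top_le_iff] at h2
    obtain ⟨c, hc⟩ := ENat.ne_top_iff_exists.1 hfin
    rw [← hc] at h2
    exact ENat.coe_ne_top (k * c) (by exact_mod_cast h2)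
  have h4 := length_anti hkey
  rw [length_smul_quot _ hg, length_smul_quot _ hg'] at h4
  exact (ENat.add_le_add_iff_left hNfin).1 h4

/-- additivity of colengths -/
theorem length_ses {M A : Type} [AddCommGroup M] [Module O M] [Module ℂ M] [IsScalarTower ℂ O M]
    [AddCommGroup A] [Module O A] [Module ℂ A] [IsScalarTower ℂ O A]
    (f : M →ₗ[O] A) (hf : Function.Surjective f) {g : O} (hg : IsSMulRegular A g) :
    Module.length ℂ (M ⧸ (g • (⊤ : Submodule O M))) =
      Module.length ℂ (LinearMap.ker f ⧸ (g • (⊤ : Submodule O (LinearMap.ker f)))) +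
      Module.length ℂ (A ⧸ (g • (⊤ : Submodule O A))) := by
  have hle1 : g • (⊤ : Submodule O (LinearMap.ker f)) ≤
      (g • (⊤ : Submodule O M)).comap (LinearMap.ker f).subtype := by
    intro x hx
    obtain ⟨y, hy, rfl⟩ := (Submodule.mem_smul_pointwise_iff_exists _ _ _).1 hx
    rw [Submodule.mem_comap, map_smul]
    exact Submodule.smul_mem_pointwise_smul _ _ _ trivial
  have hle2 : g • (⊤ : Submodule O M) ≤ (g • (⊤ : Submodule O A)).comap f := by
    intro x hx
    obtain ⟨y, hy, rfl⟩ := (Submodule.mem_smul_pointwise_iff_exists _ _ _).1 hx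
    rw [Submodule.mem_comap, map_smul]
    exact Submodule.smul_mem_pointwise_smul _ _ _ trivial
  refine Module.length_eq_add_of_exact
    ((Submodule.mapQ _ _ (LinearMap.ker f).subtype hle1).restrictScalars ℂ)
    ((Submodule.mapQ _ _ f hle2).restrictScalars ℂ) ?_ ?_ ?_
  · intro a b hab
    obtain ⟨a, rfl⟩ := Submodule.Quotient.mk_surjective _ a
    obtain ⟨b, rfl⟩ := Submodule.Quotient.mk_surjective _ b
    have h1 : Submodule.Quotient.mk (p := g • (⊤ : Submodule O M)) (a : M) =
      Submodule.Quotient.mk (b : M) := hab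
    rw [Submodule.Quotient.eq] at h1
    rw [Submodule.Quotient.eq]
    obtain ⟨y, hy, hy2⟩ := (Submodule.mem_smul_pointwise_iff_exists _ _ _).1 h1
    have h2 : f y = 0 := by
      apply hg
      change g • f y = g • 0
      rw [smul_zero, ← map_smul, hy2, map_sub]
      rw [LinearMap.mem_ker.1 a.2, LinearMap.mem_ker.1 b.2, sub_zero]
    refine (Submodule.mem_smul_pointwise_iff_exists _ _ _).2 ⟨⟨y, h2⟩, trivial, ?_⟩
    apply Subtype.ext
    exact hy2
  · intro a
    obtain ⟨a, rfl⟩ := Submodule.Quotient.mk_surjective _ a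
    obtain ⟨b, rfl⟩ := hf a
    exact ⟨Submodule.Quotient.mk b, rfl⟩
  · intro x
    obtain ⟨x, rfl⟩ := Submodule.Quotient.mk_surjective _ x
    constructor
    · intro h
      have h1 : Submodule.Quotient.mk (p := g • (⊤ : Submodule O A)) (f x) = 0 := h
      rw [Submodule.Quotient.mk_eq_zero] at h1
      obtain ⟨y, hy, hy2⟩ := (Submodule.mem_smul_pointwise_iff_exists _ _ _).1 h1
      obtain ⟨z, rfl⟩ := hf y
      refine ⟨Submodule.Quotient.mk ⟨x - g • z, ?_⟩, ?_⟩
      · rw [LinearMap.mem_ker, map_sub, map_smul, hy2, sub_self]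
      · change Submodule.Quotient.mk (x - g • z) = Submodule.Quotient.mk x
        rw [Submodule.Quotient.eq]
        have : x - g • z - x = g • (-z) := by rw [smul_neg]; abel
        rw [this]
        exact Submodule.smul_mem_pointwise_smul _ _ _ trivial
    · rintro ⟨y, hy⟩
      obtain ⟨y, rfl⟩ := Submodule.Quotient.mk_surjective _ y
      rw [← hy]
      change Submodule.Quotient.mk (p := g • (⊤ : Submodule O A)) (f (y : M)) = 0
      rw [LinearMap.mem_ker.1 y.2, Submodule.Quotient.mk_zero]

end Pool.Agent.Helper341_polar
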