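import Mathlib
import Pool.Agent.H364R2.NR
import Pool.Agent.H989R3.CMF.Depth

/-!
# Systems of parameters in a Cohen-Macaulay local ring are regular sequences
-/

set_option autoImplicit false

namespace Pool.Agent.Helper341_polar

open IsLocalRing RingTheory.Sequence Pool.Agent.H364R2 Pool.Agent.H989R3.CMF

variable {A : Type} [CommRing A] [IsNoetherianRing A] [IsLocalRing A]

omit [IsNoetherianRing A] [IsLocalRing A] in
theorem coheight_eq_dim' (P : PrimeSpectrum A) :
    (Order.coheight P : WithBot ℕ∞) = ringKrullDim (A ⧸ P.asIdeal) := by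
  rw [ringKrullDim_quotient, Order.coheight_eq_krullDim_Ici]
  apply Order.krullDim_eq_of_orderIso
  refine OrderIso.setCongr _ _ ?_
  ext Q
  rfl

theorem coheight_le_card (P : PrimeSpectrum A) (S : Finset A) (hS : ∀ x ∈ S, x ∈ maximalIdeal A)
    (k : ℕ) (h : maximalIdeal A ^ k ≤ P.asIdeal ⊔ Ideal.span (S : Set A)) :
    Order.coheight P ≤ S.card := by
  classical
  have hnt : Nontrivial (A ⧸ P.asIdeal) := Ideal.Quotient.nontrivial_iff.mpr P.2.ne_top
  have hloc : IsLocalRing (A ⧸ P.asIdeal) :=
    IsLocalRing.of_surjective' (Ideal.Quotient.mk P.asIdeal) Ideal.Quotient.mk_surjective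
  set S' : Finset (A ⧸ P.asIdeal) := S.image (Ideal.Quotient.mk P.asIdeal) with hS'
  have h1 : ringKrullDim (A ⧸ P.asIdeal) ≤
      ringKrullDim ((A ⧸ P.asIdeal) ⧸ Ideal.span (S' : Set (A ⧸ P.asIdeal))) + S'.card := by
    apply ringKrullDim_le_ringKrullDim_quotient_add_card
    rw [IsLocalRing.ringJacobson_eq_maximalIdeal]
    intro x hx
    rw [hS', Finset.coe_image] at hx
    obtain ⟨y, hy, rfl⟩ := hx
    have hy2 := hS y hy
    rw [SetLike.mem_coe, mem_maximalIdeal, mem_nonunits_iff]
    intro hu
    obtain ⟨b, hb⟩ := hu.exists_right_inv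
    obtain ⟨z, rfl⟩ := Ideal.Quotient.mk_surjective b
    rw [← map_mul, ← map_one (Ideal.Quotient.mk P.asIdeal), Ideal.Quotient.eq] at hb
    have hPm : P.asIdeal ≤ maximalIdeal A := le_maximalIdeal P.2.ne_top
    have h1 : y * z - (y * z - 1) ∈ maximalIdeal A :=
      Ideal.sub_mem _ (Ideal.mul_mem_right _ _ hy2) (hPm hb)
    rw [sub_sub_cancel] at h1
    exact (Ideal.ne_top_iff_one _).1 (maximalIdeal.isMaximal A).ne_top h1
  have h2 : ringKrullDim ((A ⧸ P.asIdeal) ⧸ Ideal.span (S' : Set (A ⧸ P.asIdeal))) ≤ 0 := by
    have h3 : Ring.KrullDimLE 0 ((A ⧸ P.asIdeal) ⧸ Ideal.span (S' : Set (A ⧸ P.asIdeal))) := by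
      rw [Ring.krullDimLE_zero_iff]
      intro I hI
      set φ : A →+* ((A ⧸ P.asIdeal) ⧸ Ideal.span (S' : Set (A ⧸ P.asIdeal))) :=
        (Ideal.Quotient.mk _).comp (Ideal.Quotient.mk P.asIdeal) with hφ
      have hsurj : Function.Surjective φ :=
        Ideal.Quotient.mk_surjective.comp Ideal.Quotient.mk_surjective
      have hprime : (I.comap φ).IsPrime := Ideal.IsPrime.comap φ
      have hle : P.asIdeal ⊔ Ideal.span (S : Set A) ≤ I.comap φ := by
        apply sup_le
        · intro x hx
          rw [Ideal.mem_comap, hφ, RingHom.comp_apply, Ideal.Quotient.eq_zero_iff_mem.2 hx, map_zero]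
          exact I.zero_mem
        · rw [Ideal.span_le]
          intro x hx
          rw [SetLike.mem_coe, Ideal.mem_comap, hφ, RingHom.comp_apply]
          rw [Ideal.Quotient.eq_zero_iff_mem.2]
          · exact I.zero_mem
          · apply Ideal.subset_span
            rw [hS', Finset.coe_image]
            exact ⟨x, hx, rfl⟩
      have hmax : I.comap φ = maximalIdeal A := by
        apply le_antisymm (le_maximalIdeal hprime.ne_top)
        exact hprime.le_of_pow_le (h.trans hle)
      have hmm : (I.comap φ).IsMaximal := by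
        rw [hmax]; infer_instance
      have := Ideal.map_eq_top_or_isMaximal_of_surjective φ hsurj hmm
      rw [Ideal.map_comap_of_surjective φ hsurj] at this
      exact this.resolve_left hI.ne_top
    exact (Order.krullDimLE_iff _ _).1 h3
  have h4 : (Order.coheight P : WithBot ℕ∞) ≤ (S.card : ℕ∞) := by
    rw [coheight_eq_dim']
    calc ringKrullDim (A ⧸ P.asIdeal) ≤ _ := h1
      _ ≤ 0 + (S'.card : WithBot ℕ∞) := by gcongr
      _ = (S'.card : WithBot ℕ∞) := zero_add _
      _ ≤ _ := by
        have : S'.card ≤ S.card := Finset.card_image_le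
        exact_mod_cast this
  exact_mod_cast h4

/-- a regular element in the maximal ideal, if the latter is not associated -/
theorem exists_regular_of_not_Zed {M : Type} [AddCommGroup M] [Module A M] [Module.Finite A M]
    (h : ¬ Zed A M) : ∃ c ∈ maximalIdeal A, IsSMulRegular M c := by
  by_contra hcon
  push Not at hcon
  have hsub : ((maximalIdeal A : Ideal A) : Set A) ⊆
      ⋃ i ∈ associatedPrimes A M, ((id i : Ideal A) : Set A) := by
    intro c hc
    have h2 := hcon c hc
    have h3 : c ∈ ⋃ p ∈ associatedPrimes A M, (p : Set A) := by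
      rw [biUnion_associatedPrimes_eq_compl_regular]
      exact h2
    exact h3
  obtain ⟨P, hP, hle⟩ := ((maximalIdeal A).subset_union_prime_finite
    (associatedPrimes.finite A M) (f := id) 0 0
    (fun i hi _ _ => hi.isPrime)).1 hsub
  apply h
  obtain ⟨-, z, hz⟩ := isAssociatedPrime_iff.1 hP
  have hPne : P ≠ ⊤ := hP.isPrime.ne_top
  refine ⟨z, ?_, ?_⟩
  · rintro rfl
    apply hPne
    rw [hz, Ideal.eq_top_iff_one, Submodule.mem_colon_singleton]
    simp
  · intro a ha
    have := hle ha
    simp only [id] at this
    rw [hz, Submodule.mem_colon_singleton] at this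
    simpa using this

theorem exists_extend (xs ys : List A) (hx : ∀ x ∈ xs, x ∈ maximalIdeal A)
    (hxr : IsWeaklyRegular A xs) (hy : ∀ y ∈ ys, y ∈ maximalIdeal A) (hyr : IsWeaklyRegular A ys)
    (m : ℕ) (hlen : ys.length + m ≤ xs.length) :
    ∃ zs : List A, zs.length = m ∧ (∀ z ∈ zs, z ∈ maximalIdeal A) ∧
      IsWeaklyRegular A (ys ++ zs) := by
  induction m with
  | zero => exact ⟨[], rfl, by simp, by simpa using hyr⟩
  | succ m ih =>
    obtain ⟨zs, hz1, hz2, hz3⟩ := ih (by omega)
    have h1 : ¬ Zed A (A ⧸ (Ideal.ofList (ys ++ zs) • (⊤ : Submodule A A))) := by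
      apply not_Zed_of_longer A (ys ++ zs) xs _ hx hz3 hxr
      · rw [List.length_append, hz1]; omega
      · intro a ha
        rw [List.mem_append] at ha
        rcases ha with ha | ha
        · exact hy a ha
        · exact hz2 a ha
    obtain ⟨c, hc, hcr⟩ := exists_regular_of_not_Zed h1
    refine ⟨zs ++ [c], by simp [hz1], ?_, ?_⟩
    · intro a ha
      rw [List.mem_append, List.mem_singleton] at ha
      rcases ha with ha | rfl
      · exact hz2 a ha
      · exact hc
    · rw [← List.append_assoc, isWeaklyRegular_append_iff, isWeaklyRegular_singleton_iff]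
      exact ⟨hz3, hcr⟩

/-- In a noetherian local ring with a regular sequence `xs` in the maximal ideal, all sequences `ys`
in the maximal ideal, of at most the same length, which generate a primary ideal, are regular. -/
theorem sop_regular (xs ys : List A) (hx : ∀ x ∈ xs, x ∈ maximalIdeal A)
    (hxr : IsWeaklyRegular A xs) (hy : ∀ y ∈ ys, y ∈ maximalIdeal A)
    (hlen : ys.length ≤ xs.length) (k : ℕ) (hk : maximalIdeal A ^ k ≤ Ideal.ofList ys) :
    IsWeaklyRegular A ys := by
  classical
  have key : ∀ (as bs : List A), ys = as ++ bs → IsWeaklyRegular A as := by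
    intro as
    induction as using List.reverseRecOn with
    | nil => intro bs _; exact IsWeaklyRegular.nil A A
    | append_singleton as y ih =>
      intro bs hys
      have h1 : IsWeaklyRegular A as := ih ([y] ++ bs) (by rw [hys]; simp)
      rw [isWeaklyRegular_append_iff, isWeaklyRegular_singleton_iff]
      refine ⟨h1, ?_⟩
      have hasm : ∀ a ∈ as, a ∈ maximalIdeal A := fun a ha => hy a (by rw [hys]; simp [ha])
      have hbsm : ∀ a ∈ bs, a ∈ maximalIdeal A := fun a ha => hy a (by rw [hys]; simp [ha])
      have hlen2 : ys.length = as.length + 1 + bs.length := by rw [hys]; simp; omega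
      obtain ⟨zs, hz1, hz2, hz3⟩ := exists_extend xs as hx hxr hasm h1 (bs.length + 1) (by omega)
      rw [isWeaklyRegular_append_iff] at hz3
      by_contra hnreg
      have h2 : y ∈ ⋃ p ∈ associatedPrimes A (A ⧸ (Ideal.ofList as • (⊤ : Submodule A A))),
          (p : Set A) := by
        rw [biUnion_associatedPrimes_eq_compl_regular]
        exact hnreg
      simp only [Set.mem_iUnion] at h2
      obtain ⟨P, hP, hyP⟩ := h2
      have hPp : P.IsPrime := hP.isPrime
      have h3 := length_le_coheight zs hz2 (A ⧸ (Ideal.ofList as • (⊤ : Submodule A A))) hz3.2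
        ⟨P, hPp⟩ hP
      have hasP : Ideal.ofList as ≤ P := by
        obtain ⟨-, z, hz⟩ := isAssociatedPrime_iff.1 hP
        intro a ha
        rw [hz, Submodule.mem_colon_singleton, Submodule.mem_bot]
        obtain ⟨z, rfl⟩ := Submodule.Quotient.mk_surjective _ z
        rw [← Submodule.Quotient.mk_smul, Submodule.Quotient.mk_eq_zero]
        exact Submodule.smul_mem_smul ha trivial
      have h4 := coheight_le_card ⟨P, hPp⟩ bs.toFinset (by
        intro x hx'
        exact hbsm x (List.mem_toFinset.1 hx')) k (by
        refine hk.trans ?_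
        rw [hys, Ideal.ofList_append, Ideal.ofList_append]
        apply sup_le
        · apply le_sup_of_le_left
          apply sup_le hasP
          rw [Ideal.ofList_singleton, Ideal.span_singleton_le_iff_mem]
          exact hyP
        · apply le_sup_of_le_right
          unfold Ideal.ofList
          apply Ideal.span_mono
          intro a ha
          simpa using ha)
      have h5 : (bs.toFinset.card : ℕ∞) ≤ bs.length := by
        exact_mod_cast List.toFinset_card_le bs
      have h6 : ((bs.length + 1 : ℕ) : ℕ∞) ≤ (bs.length : ℕ∞) := by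
        rw [← hz1]
        exact h3.trans (h4.trans h5)
      have h7 : bs.length + 1 ≤ bs.length := by exact_mod_cast h6
      omega
  exact key ys [] (by simp)

end Pool.Agent.Helper341_polar
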