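import Mathlib
import Pool.Agent.Helper341_polar.Len
import Pool.Agent.Helper341_polar.Sop

/-!
# Formal power series rings: the maximal ideal and its powers, colengths
-/

set_option autoImplicit false

namespace Pool.Agent.Helper341_polar

open IsLocalRing MvPowerSeries

variable {n : ℕ}

/-- formal power series in `n` variables -/
abbrev PS (n : ℕ) : Type := MvPowerSeries (Fin n) ℂ

theorem coeff_X_mul' (i : Fin n) (g : PS n) (α : Fin n →₀ ℕ) :
    coeff α (X i * g) = if 1 ≤ α i then coeff (α - Finsupp.single i 1) g else 0 := by
  rw [X, coeff_monomial_mul, one_mul]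
  simp only [Finsupp.single_le_iff]

/-- decomposition along the variables with indices in `S` -/
theorem exists_decomp (S : Finset (Fin n)) (f : PS n)
    (hf : ∀ α : Fin n →₀ ℕ, (∀ i ∈ S, α i = 0) → coeff α f = 0) (k : ℕ)
    (hk : ∀ α : Fin n →₀ ℕ, α.degree < k + 1 → coeff α f = 0) :
    ∃ g : Fin n → PS n, f = ∑ i ∈ S, X i * g i ∧
      ∀ i, ∀ α : Fin n →₀ ℕ, α.degree < k → coeff α (g i) = 0 := by
  classical
  let g : Fin n → PS n := fun i β =>
    if (∀ j ∈ S, j < i → β j = 0) then coeff (β + Finsupp.single i 1) f else 0
  have hg : ∀ i β, coeff β (g i) =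
      if (∀ j ∈ S, j < i → β j = 0) then coeff (β + Finsupp.single i 1) f else 0 := fun i β => rfl
  refine ⟨g, ?_, ?_⟩
  · ext α
    rw [map_sum]
    by_cases hα : ∀ i ∈ S, α i = 0
    · rw [hf α hα]
      symm
      apply Finset.sum_eq_zero
      intro i hi
      rw [coeff_X_mul', if_neg]
      rw [hα i hi]; omega
    · push Not at hα
      obtain ⟨i0, hi0, hmin⟩ : ∃ i ∈ S, α i ≠ 0 ∧ ∀ j ∈ S, j < i → α j = 0 := by
        have hne : (S.filter fun i => α i ≠ 0).Nonempty := by
          obtain ⟨i, hi, hi'⟩ := hα
          exact ⟨i, Finset.mem_filter.2 ⟨hi, hi'⟩⟩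
        refine ⟨(S.filter fun i => α i ≠ 0).min' hne, ?_, ?_, ?_⟩
        · exact (Finset.mem_filter.1 (Finset.min'_mem _ hne)).1
        · exact (Finset.mem_filter.1 (Finset.min'_mem _ hne)).2
        · intro j hj hlt
          by_contra hcon
          exact absurd (Finset.min'_le _ j (Finset.mem_filter.2 ⟨hj, hcon⟩)) (not_le.2 hlt)
      rw [Finset.sum_eq_single i0]
      · have h1 : 1 ≤ α i0 := Nat.one_le_iff_ne_zero.2 hmin.1
        rw [coeff_X_mul', if_pos h1, hg, if_pos]
        · congr 2
          rw [tsub_add_cancel_of_le]
          rwa [Finsupp.single_le_iff]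
        · intro j hj hlt
          rw [Finsupp.tsub_apply, hmin.2 j hj hlt]; simp
      · intro j hj hne
        rw [coeff_X_mul']
        split_ifs with h1
        · rw [hg, if_neg]
          intro h2
          rcases lt_or_gt_of_ne hne with hlt | hlt
          · have := hmin.2 j hj hlt
            omega
          · have := h2 i0 hi0 hlt
            rw [Finsupp.tsub_apply, Finsupp.single_eq_of_ne hlt.ne] at this
            exact hmin.1 (by simpa using this)
        · rfl
      · intro h; exact absurd hi0 h
  · intro i β hβ
    rw [hg]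
    split_ifs
    · apply hk
      rw [map_add, Finsupp.degree_single]
      omega
    · rfl

theorem mem_span_X_iff (S : Finset (Fin n)) (f : PS n) :
    f ∈ Ideal.span ((fun i => (X i : PS n)) '' (S : Set (Fin n))) ↔
      ∀ α : Fin n →₀ ℕ, (∀ i ∈ S, α i = 0) → coeff α f = 0 := by
  constructor
  · intro h α hα
    have : Ideal.span ((fun i => (X i : PS n)) '' (S : Set (Fin n))) ≤
        { carrier := {f : PS n | ∀ α : Fin n →₀ ℕ, (∀ i ∈ S, α i = 0) → coeff α f = 0}
          add_mem' := by
            intro a b ha hb α hα
            rw [map_add, ha α hα, hb α hα, add_zero]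
          zero_mem' := by intro α _; simp
          smul_mem' := by
            classical
            intro c f hf α hα
            rw [smul_eq_mul, coeff_mul]
            apply Finset.sum_eq_zero
            rintro ⟨p, q⟩ hpq
            rw [Finset.HasAntidiagonal.mem_antidiagonal] at hpq
            have : ∀ i ∈ S, q i = 0 := by
              intro i hi
              have h1 := hα i hi
              rw [← hpq] at h1
              exact (Nat.add_eq_zero_iff.1 h1).2
            simp only
            rw [hf q this, mul_zero] } := by
      rw [Ideal.span_le]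
      rintro _ ⟨i, hi, rfl⟩ α hα
      change coeff α (X i : PS n) = 0
      classical
      rw [coeff_X, if_neg]
      rintro rfl
      have := hα i hi
      simp at this
    exact this h α hα
  · intro h
    by_cases h0 : coeff 0 f = 0
    · obtain ⟨g, hg, -⟩ := exists_decomp S f h 0 (by
        intro α hα
        have : α = 0 := by
          have h1 : α.degree = 0 := by omega
          rwa [Finsupp.degree_eq_zero_iff] at h1
        rw [this, h0])
      rw [hg]
      apply Ideal.sum_mem
      intro i hi
      exact Ideal.mul_mem_right _ _ (Ideal.subset_span ⟨i, hi, rfl⟩)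
    · exact absurd (h 0 (by simp)) h0

theorem mem_max_iff {f : PS n} : f ∈ maximalIdeal (PS n) ↔ constantCoeff f = 0 := by
  rw [mem_maximalIdeal, mem_nonunits_iff, isUnit_iff_constantCoeff, isUnit_iff_ne_zero, not_not]

theorem X_mem_max (i : Fin n) : (X i : PS n) ∈ maximalIdeal (PS n) := by
  rw [mem_max_iff, constantCoeff_X]

theorem mem_max_pow_iff (k : ℕ) : ∀ {f : PS n}, f ∈ maximalIdeal (PS n) ^ k ↔
    ∀ α : Fin n →₀ ℕ, α.degree < k → coeff α f = 0 := by
  induction k with
  | zero => intro f; simp
  | succ k ih =>
    intro f
    constructor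
    · intro h
      rw [pow_succ'] at h
      refine Submodule.mul_induction_on h ?_ ?_
      · intro a ha b hb α hα
        classical
        rw [coeff_mul]
        apply Finset.sum_eq_zero
        rintro ⟨p, q⟩ hpq
        rw [Finset.HasAntidiagonal.mem_antidiagonal] at hpq
        simp only at hpq ⊢
        by_cases hp : p = 0
        · subst hp
          rw [coeff_zero_eq_constantCoeff_apply, mem_max_iff.1 ha, zero_mul]
        · have h1 : 0 < p.degree := by
            rw [Nat.pos_iff_ne_zero, Ne, Finsupp.degree_eq_zero_iff]
            exact hp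
          have h2 : p.degree + q.degree = α.degree := by rw [← hpq, map_add]
          rw [ih.1 hb q (by omega), mul_zero]
      · intro a b ha hb α hα
        rw [map_add, ha α hα, hb α hα, add_zero]
    · intro h
      obtain ⟨g, hg, hg2⟩ := exists_decomp Finset.univ f (by
        intro α hα
        apply h
        have : α = 0 := by ext i; exact hα i (Finset.mem_univ i)
        rw [this]; simp) k h
      rw [hg, pow_succ']
      apply Ideal.sum_mem
      intro i _
      exact Ideal.mul_mem_mul (X_mem_max i) (ih.2 (hg2 i))

theorem max_eq_span : maximalIdeal (PS n) = Ideal.span (Set.range fun i => (X i : PS n)) := by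
  have := mem_span_X_iff (Finset.univ : Finset (Fin n))
  ext f
  rw [mem_max_iff]
  rw [show (Set.range fun i => (X i : PS n)) =
    (fun i => (X i : PS n)) '' ((Finset.univ : Finset (Fin n)) : Set (Fin n)) by simp]
  rw [this f]
  constructor
  · intro h α hα
    have : α = 0 := by ext i; exact hα i (Finset.mem_univ i)
    rw [this]
    exact h
  · intro h
    exact h 0 (by simp)

/-- the list of the variables -/
noncomputable def vars (n : ℕ) : List (PS n) := (List.finRange n).map fun i => X i

theorem vars_length : (vars n).length = n := by simp [vars]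

theorem vars_mem : ∀ x ∈ vars n, x ∈ maximalIdeal (PS n) := by
  intro x hx
  unfold vars at hx
  rw [List.mem_map] at hx
  obtain ⟨i, -, rfl⟩ := hx
  exact X_mem_max i

open RingTheory.Sequence in
theorem vars_regular : IsWeaklyRegular (PS n) (vars n) := by
  rw [isWeaklyRegular_iff_Fin]
  intro k
  have hk : (k : ℕ) < n := by
    have := k.2
    simpa [vars_length] using this
  have hget : (vars n)[k] = X ⟨k, hk⟩ := by
    have h1 : (vars n)[(k : ℕ)]'k.2 = X ⟨k, hk⟩ := by
      unfold vars
      rw [List.getElem_map, List.getElem_finRange]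
      rfl
    exact h1
  rw [hget]
  set S : Finset (Fin n) := Finset.univ.filter fun i => (i : ℕ) < k with hS
  have hI : Ideal.ofList ((vars n).take k) =
      Ideal.span ((fun i => (X i : PS n)) '' (S : Set (Fin n))) := by
    unfold Ideal.ofList
    congr 1
    ext x
    simp only [vars, Set.mem_ofPred_eq, List.map_take.symm, List.mem_map, Set.mem_image]
    constructor
    · rintro ⟨i, hi, rfl⟩
      refine ⟨i, ?_, rfl⟩
      rw [hS]
      simp only [Finset.coe_filter, Finset.mem_univ, true_and, Set.mem_ofPred_eq]
      rw [List.mem_take_iff_getElem] at hi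
      obtain ⟨j, hj, hj2⟩ := hi
      rw [List.getElem_finRange] at hj2
      rw [← hj2]
      simp only [Fin.val_cast]
      omega
    · rintro ⟨i, hi, rfl⟩
      refine ⟨i, ?_, rfl⟩
      rw [hS] at hi
      simp only [Finset.coe_filter, Finset.mem_univ, true_and, Set.mem_ofPred_eq] at hi
      rw [List.mem_take_iff_getElem]
      refine ⟨i, ?_, ?_⟩
      · rw [List.length_finRange]
        have := i.2
        omega
      · simp
  rw [isSMulRegular_iff_right_eq_zero_of_smul]
  intro x hx
  obtain ⟨f, rfl⟩ := Submodule.Quotient.mk_surjective _ x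
  rw [← Submodule.Quotient.mk_smul, Submodule.Quotient.mk_eq_zero, smul_eq_mul, hI] at hx
  rw [Submodule.Quotient.mk_eq_zero, hI]
  rw [smul_eq_mul, Ideal.mul_top, mem_span_X_iff] at hx ⊢
  intro α hα
  have h1 := hx (α + Finsupp.single ⟨k, hk⟩ 1) (by
    intro i hi
    rw [Finsupp.add_apply, hα i hi, zero_add, Finsupp.single_eq_of_ne]
    rintro rfl
    rw [hS] at hi
    simp at hi)
  rw [coeff_X_mul', if_pos (by simp)] at h1
  simpa using h1

/-- systems of parameters of the power series ring are regular sequences -/
theorem sop_ps (ys : List (PS n)) (hy : ∀ y ∈ ys, y ∈ maximalIdeal (PS n)) (hlen : ys.length ≤ n)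
    (k : ℕ) (hk : maximalIdeal (PS n) ^ k ≤ Ideal.ofList ys) :
    RingTheory.Sequence.IsWeaklyRegular (PS n) ys :=
  sop_regular (vars n) ys vars_mem vars_regular hy (by rw [vars_length]; exact hlen) k hk

end Pool.Agent.Helper341_polar
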