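import Mathlib
import Pool.Agent.Helper341_polar.Ser

/-!
# Colengths of ideals of power series rings and their semicontinuity
-/

set_option autoImplicit false

namespace Pool.Agent.Helper341_polar

open IsLocalRing MvPowerSeries

variable {n : ℕ}

/-- the colength of an ideal: the dimension of the quotient over `ℂ` -/
noncomputable def colen (J : Ideal (PS n)) : ℕ∞ := Module.length ℂ (PS n ⧸ J)

theorem colen_anti {J J' : Ideal (PS n)} (h : J ≤ J') : colen J' ≤ colen J :=
  length_anti (O := PS n) (K := PS n) h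

/-- indices of the coefficients of degree `< k` -/
abbrev Idx (n k : ℕ) : Type := {α : Fin n →₀ ℕ // α.degree < k}

instance (k : ℕ) : Finite (Idx n k) := by
  have h : {α : Fin n →₀ ℕ | α.degree ≤ k}.Finite := Finsupp.finite_of_degree_le k
  exact (h.subset (fun α hα => by
    have : α.degree < k := hα
    exact this.le)).to_subtype

noncomputable instance (k : ℕ) : Fintype (Idx n k) := Fintype.ofFinite _

/-- truncation -/
noncomputable def Tr (n k : ℕ) : PS n →ₗ[ℂ] (Idx n k → ℂ) where
  toFun f α := coeff α.1 f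
  map_add' f g := by ext α; simp
  map_smul' c f := by ext α; simp

theorem Tr_apply (k : ℕ) (f : PS n) (α : Idx n k) : Tr n k f α = coeff α.1 f := rfl

theorem Tr_surj (k : ℕ) : Function.Surjective (Tr n k) := by
  classical
  intro v
  let f : PS n := fun β => if h : β.degree < k then v ⟨β, h⟩ else 0
  refine ⟨f, ?_⟩
  ext α
  change (if h : α.1.degree < k then v ⟨α.1, h⟩ else 0) = v α
  rw [dif_pos α.2]

theorem ker_Tr (k : ℕ) : LinearMap.ker (Tr n k) = (maximalIdeal (PS n) ^ k).restrictScalars ℂ := by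
  ext f
  rw [LinearMap.mem_ker, Submodule.restrictScalars_mem, mem_max_pow_iff]
  constructor
  · intro h α hα
    exact congrFun h ⟨α, hα⟩
  · intro h
    ext α
    exact h α.1 α.2

/-- colength of `J + 𝔪 ^ k` -/
theorem colen_sup (J : Ideal (PS n)) (k : ℕ) :
    colen (J ⊔ maximalIdeal (PS n) ^ k) =
      Module.length ℂ ((Idx n k → ℂ) ⧸ (J.restrictScalars ℂ).map (Tr n k)) := by
  unfold colen
  have hker : LinearMap.ker (((J.restrictScalars ℂ).map (Tr n k)).mkQ ∘ₗ Tr n k) =
      (J ⊔ maximalIdeal (PS n) ^ k).restrictScalars ℂ := by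
    rw [LinearMap.ker_comp, Submodule.ker_mkQ, Submodule.comap_map_eq, ker_Tr]
    ext f
    simp only [Submodule.mem_sup, Submodule.restrictScalars_mem]
  have e1 : (PS n ⧸ (J ⊔ maximalIdeal (PS n) ^ k)) ≃ₗ[ℂ]
      (PS n ⧸ (J ⊔ maximalIdeal (PS n) ^ k).restrictScalars ℂ) :=
    (Submodule.Quotient.restrictScalarsEquiv ℂ (J ⊔ maximalIdeal (PS n) ^ k)).symm
  have e2 : (PS n ⧸ (J ⊔ maximalIdeal (PS n) ^ k).restrictScalars ℂ) ≃ₗ[ℂ]
      ((Idx n k → ℂ) ⧸ (J.restrictScalars ℂ).map (Tr n k)) :=
    (Submodule.quotEquivOfEq _ _ hker.symm).trans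
      (LinearMap.quotKerEquivOfSurjective _
        ((Submodule.mkQ_surjective _).comp (Tr_surj k)))
  exact (e1.trans e2).length_eq

theorem colen_sup_ne_top (J : Ideal (PS n)) (k : ℕ) :
    colen (J ⊔ maximalIdeal (PS n) ^ k) ≠ ⊤ := by
  rw [colen_sup]
  exact Module.length_ne_top

theorem colen_ne_top_of_le {J : Ideal (PS n)} {k : ℕ} (h : maximalIdeal (PS n) ^ k ≤ J) :
    colen J ≠ ⊤ := by
  have := colen_sup_ne_top J k
  rwa [sup_eq_left.2 h] at this

theorem colen_succ_le {J J' : Ideal (PS n)} (h : J < J') : colen J' + 1 ≤ colen J := by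
  unfold colen
  rw [Module.length_eq_add_of_exact (LinearMap.ker ((Submodule.factor h.le).restrictScalars ℂ)).subtype
    ((Submodule.factor h.le).restrictScalars ℂ) (Submodule.subtype_injective _)
    (Submodule.factor_surjective h.le) (LinearMap.exact_subtype_ker_map _), add_comm]
  gcongr
  rw [Order.one_le_iff_pos, Module.length_pos_iff]
  obtain ⟨x, hx, hx2⟩ := SetLike.exists_of_lt h
  refine ⟨⟨⟨Submodule.Quotient.mk x, ?_⟩, 0, ?_⟩⟩
  · rw [LinearMap.mem_ker]
    change Submodule.Quotient.mk (p := J') x = 0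
    rw [Submodule.Quotient.mk_eq_zero]
    exact hx
  · intro h0
    have h1 := congrArg Subtype.val h0
    change Submodule.Quotient.mk (p := J) x = 0 at h1
    rw [Submodule.Quotient.mk_eq_zero] at h1
    exact hx2 h1

theorem nak {J : Ideal (PS n)} {j : ℕ}
    (h : maximalIdeal (PS n) ^ j ≤ J ⊔ maximalIdeal (PS n) ^ (j + 1)) :
    maximalIdeal (PS n) ^ j ≤ J := by
  apply Submodule.le_of_le_smul_of_le_jacobson_bot (I := maximalIdeal (PS n))
    (IsNoetherian.noetherian _) (IsLocalRing.maximalIdeal_le_jacobson _)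
  rw [smul_eq_mul, ← pow_succ']
  exact h

theorem pow_le_of_colen {J : Ideal (PS n)} {D : ℕ} (h : colen J ≤ D) :
    maximalIdeal (PS n) ^ D ≤ J := by
  by_contra hcon
  have key : ∀ j : ℕ, j ≤ D + 1 → (j : ℕ∞) ≤ colen (J ⊔ maximalIdeal (PS n) ^ j) := by
    intro j
    induction j with
    | zero => intro _; simp
    | succ j ih =>
      intro hj
      have h1 : J ⊔ maximalIdeal (PS n) ^ (j + 1) < J ⊔ maximalIdeal (PS n) ^ j := by
        apply lt_of_le_of_ne
        · exact sup_le_sup_left (Ideal.pow_le_pow_right (by omega)) J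
        · intro heq
          apply hcon
          have h2 : maximalIdeal (PS n) ^ j ≤ J := by
            apply nak
            rw [heq]
            exact le_sup_right
          exact (Ideal.pow_le_pow_right (by omega)).trans h2
      have h2 := colen_succ_le h1
      have h3 := ih (by omega)
      calc ((j + 1 : ℕ) : ℕ∞) = (j : ℕ∞) + 1 := by push_cast; rfl
        _ ≤ colen (J ⊔ maximalIdeal (PS n) ^ j) + 1 := by gcongr
        _ ≤ _ := h2
  have h1 := key (D + 1) le_rfl
  have h2 : colen (J ⊔ maximalIdeal (PS n) ^ (D + 1)) ≤ D := (colen_anti le_sup_left).trans h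
  have h3 : ((D + 1 : ℕ) : ℕ∞) ≤ D := h1.trans h2
  have h4 : D + 1 ≤ D := by exact_mod_cast h3
  omega

theorem colen_ne_top_iff {J : Ideal (PS n)} :
    colen J ≠ ⊤ ↔ ∃ k, maximalIdeal (PS n) ^ k ≤ J := by
  constructor
  · intro h
    obtain ⟨D, hD⟩ := ENat.ne_top_iff_exists.1 h
    exact ⟨D, pow_le_of_colen hD.symm.le⟩
  · rintro ⟨k, hk⟩
    exact colen_ne_top_of_le hk

section family

variable {T : Type*} [TopologicalSpace T]

/-- all coefficients are continuous at `t₀` -/
def CoeffCont (G : T → PS n) (t₀ : T) : Prop :=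
  ∀ α : Fin n →₀ ℕ, ContinuousAt (fun t => coeff α (G t)) t₀

theorem CoeffCont.const (f : PS n) (t₀ : T) : CoeffCont (fun _ => f) t₀ :=
  fun _ => continuousAt_const

theorem CoeffCont.add {G G' : T → PS n} {t₀ : T} (h : CoeffCont G t₀) (h' : CoeffCont G' t₀) :
    CoeffCont (fun t => G t + G' t) t₀ := by
  intro α
  simp only [map_add]
  exact (h α).add (h' α)

theorem CoeffCont.mul {G G' : T → PS n} {t₀ : T} (h : CoeffCont G t₀) (h' : CoeffCont G' t₀) :
    CoeffCont (fun t => G t * G' t) t₀ := by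
  classical
  intro α
  simp only [coeff_mul]
  exact tendsto_finsetSum _ fun p _ => (h p.1).mul (h' p.2)

theorem CoeffCont.sum {ι : Type} (s : Finset ι) {G : ι → T → PS n} {t₀ : T}
    (h : ∀ i ∈ s, CoeffCont (G i) t₀) : CoeffCont (fun t => ∑ i ∈ s, G i t) t₀ := by
  intro α
  simp only [map_sum]
  exact tendsto_finsetSum _ fun i hi => h i hi α

theorem CoeffCont.pow {G : T → PS n} {t₀ : T} (h : CoeffCont G t₀) (k : ℕ) :
    CoeffCont (fun t => G t ^ k) t₀ := by
  induction k with
  | zero => simp only [pow_zero]; exact CoeffCont.const 1 t₀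
  | succ k ih => simp only [pow_succ]; exact ih.mul h

theorem CoeffCont.sub {G G' : T → PS n} {t₀ : T} (h : CoeffCont G t₀) (h' : CoeffCont G' t₀) :
    CoeffCont (fun t => G t - G' t) t₀ := by
  intro α
  simp only [map_sub]
  exact (h α).sub (h' α)

theorem CoeffCont.pderiv {G : T → PS n} {t₀ : T} (h : CoeffCont G t₀) (i : Fin n) :
    CoeffCont (fun t => pderiv ℂ i (G t)) t₀ := by
  intro α
  simp only [coeff_pderiv]
  exact (h _).mul continuousAt_const

/-- upper semicontinuity of the colength -/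
theorem usc {ι : Type} [Fintype ι] {G : ι → T → PS n} {t₀ : T} (h : ∀ i, CoeffCont (G i) t₀)
    {D : ℕ} (hD : colen (Ideal.span (Set.range fun i => G i t₀)) ≤ D) :
    ∀ᶠ t in nhds t₀, colen (Ideal.span (Set.range fun i => G i t)) ≤ D := by
  classical
  set J : T → Ideal (PS n) := fun t => Ideal.span (Set.range fun i => G i t) with hJ
  set W : T → Submodule ℂ (Idx n (D + 1) → ℂ) := fun t => ((J t).restrictScalars ℂ).map (Tr n (D + 1))
    with hW
  have hm : maximalIdeal (PS n) ^ D ≤ J t₀ := pow_le_of_colen hD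
  -- a basis at `t₀`
  set r := Module.finrank ℂ (W t₀) with hr
  let b : Module.Basis (Fin r) ℂ (W t₀) := Module.finBasis ℂ (W t₀)
  have hb : ∀ s : Fin r, ∃ c : ι → PS n, Tr n (D + 1) (∑ i, c i * G i t₀) = b s := by
    intro s
    obtain ⟨x, hx, hx2⟩ := (b s).2
    have hx' : x ∈ Ideal.span (Set.range fun i => G i t₀) := hx
    rw [Ideal.mem_span_range_iff_exists_fun] at hx'
    obtain ⟨c, hc⟩ := hx'
    exact ⟨c, by rw [hc, hx2]⟩
  choose c hc using hb
  set w : T → Fin r → (Idx n (D + 1) → ℂ) := fun t s => Tr n (D + 1) (∑ i, c s i * G i t) with hw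
  have hcont : ContinuousAt w t₀ := by
    rw [continuousAt_pi]
    intro s
    rw [continuousAt_pi]
    intro α
    exact CoeffCont.sum Finset.univ (fun i _ => (CoeffCont.const (c s i) t₀).mul (h i)) α.1
  have hli0 : LinearIndependent ℂ (w t₀) := by
    have h1 : w t₀ = fun s => ((b s : W t₀) : Idx n (D + 1) → ℂ) := by
      ext1 s
      exact hc s
    rw [h1]
    exact b.linearIndependent.map' (W t₀).subtype (Submodule.ker_subtype _)
  have hev : ∀ᶠ t in nhds t₀, LinearIndependent ℂ (w t) :=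
    hcont.eventually (isOpen_setOfPred_linearIndependent.mem_nhds hli0)
  have hdim0 : Module.finrank ℂ ((Idx n (D + 1) → ℂ) ⧸ W t₀) ≤ D := by
    have h1 : colen (J t₀ ⊔ maximalIdeal (PS n) ^ (D + 1)) ≤ D := (colen_anti le_sup_left).trans hD
    rw [colen_sup, Module.length_eq_finrank] at h1
    exact_mod_cast h1
  filter_upwards [hev] with t ht
  have h1 : r ≤ Module.finrank ℂ (W t) := by
    have hmem : ∀ s, w t s ∈ W t := by
      intro s
      refine ⟨∑ i, c s i * G i t, ?_, rfl⟩
      change _ ∈ J t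
      apply Ideal.sum_mem
      intro i _
      exact Ideal.mul_mem_left _ _ (Ideal.subset_span ⟨i, rfl⟩)
    have h2 : LinearIndependent ℂ (fun s => (⟨w t s, hmem s⟩ : W t)) := by
      apply LinearIndependent.of_comp (W t).subtype
      exact ht
    have h3 := h2.fintype_card_le_finrank
    rwa [Fintype.card_fin] at h3
  have h2 : Module.finrank ℂ ((Idx n (D + 1) → ℂ) ⧸ W t) ≤ D := by
    have e1 := Submodule.finrank_quotient_add_finrank (W t)
    have e2 := Submodule.finrank_quotient_add_finrank (W t₀)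
    omega
  have h3 : colen (J t ⊔ maximalIdeal (PS n) ^ (D + 1)) ≤ D := by
    rw [colen_sup, Module.length_eq_finrank]
    exact_mod_cast h2
  have h4 : maximalIdeal (PS n) ^ D ≤ J t := nak (pow_le_of_colen h3)
  have h5 : J t ⊔ maximalIdeal (PS n) ^ (D + 1) = J t :=
    sup_eq_left.2 ((Ideal.pow_le_pow_right (by omega)).trans h4)
  rwa [h5] at h3

end family

end Pool.Agent.Helper341_polar
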