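import Mathlib
import Pool.Agent.Helper341_polar.Usc
import Pool.Agent.Helper341_polar.Hahn

/-!
# The valuation of a branch

For a prime `P` of the power series ring in `m + 1` variables whose quotient is one-dimensional and
finite over the power series in the first variable there is a homomorphism to the Hahn series with
kernel `P`, and the order of the image computes all colengths.
-/

set_option autoImplicit false
set_option linter.style.haveILetI false

namespace Pool.Agent.Helper341_polar

open IsLocalRing MvPowerSeries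

section precomplete

variable {R : Type} [CommRing R] (I : Ideal R) (r : ℕ)

theorem mem_smul_pi (x : Fin r → R) : x ∈ (I • ⊤ : Submodule R (Fin r → R)) ↔ ∀ i, x i ∈ I := by
  classical
  constructor
  · intro h i
    refine Submodule.smul_induction_on h ?_ ?_
    · intro a ha y _
      exact I.mul_mem_right _ ha
    · intro a b ha hb
      exact I.add_mem ha hb
  · intro h
    have : x = ∑ i, x i • (Pi.single i 1 : Fin r → R) := by
      ext j
      rw [Finset.sum_apply]
      simp [Pi.single_apply]
    rw [this]
    apply Submodule.sum_mem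
    intro i _
    exact Submodule.smul_mem_smul (h i) trivial

theorem isPrecomplete_pi [IsPrecomplete I R] : IsPrecomplete I (Fin r → R) := by
  constructor
  intro f hf
  have h1 : ∀ i, ∃ L : R, ∀ n, f n i ≡ L [SMOD (I ^ n • ⊤ : Submodule R R)] := by
    intro i
    apply IsPrecomplete.prec inferInstance
    intro m n hmn
    have := hf hmn
    rw [SModEq.sub_mem] at this ⊢
    rw [mem_smul_pi] at this
    rw [smul_eq_mul, Ideal.mul_top]
    exact this i
  choose L hL using h1
  refine ⟨L, fun n => ?_⟩
  rw [SModEq.sub_mem, mem_smul_pi]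
  intro i
  have := hL i n
  rw [SModEq.sub_mem, smul_eq_mul, Ideal.mul_top] at this
  exact this

end precomplete

variable {m : ℕ}

/-- the embedding of the power series in the first variable -/
noncomputable def jj : PowerSeries ℂ →+* PS (m + 1) :=
  (PowerSeries.toMvPowerSeries (R := ℂ) (0 : Fin (m + 1))).toRingHom

theorem jj_X : jj (PowerSeries.X) = (X 0 : PS (m + 1)) := by
  unfold jj
  exact PowerSeries.toMvPowerSeries_X _

theorem jj_C (c : ℂ) : jj (PowerSeries.C c) = (C c : PS (m + 1)) := by
  unfold jj
  exact PowerSeries.toMvPowerSeries_C _ _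

/-- a power series in the first variable which lies in a prime without the first variable is `0` -/
theorem eq_zero_of_jj_mem {P : Ideal (PS (m + 1))} (hP : P.IsPrime) (hz : (X 0 : PS (m + 1)) ∉ P)
    {r : PowerSeries ℂ} (hr : jj r ∈ P) : r = 0 := by
  by_contra hne
  obtain ⟨k, u, hu⟩ := IsDiscreteValuationRing.associated_pow_irreducible hne
    (PowerSeries.X_irreducible (R := ℂ))
  have h1 : (X 0 : PS (m + 1)) ^ k ∈ P := by
    rw [← jj_X, ← map_pow, ← hu, map_mul]
    exact P.mul_mem_right _ hr
  exact hz (hP.mem_of_pow_mem _ h1)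

/-- the homomorphism to the Hahn series belonging to a branch -/
theorem exists_phi {P : Ideal (PS (m + 1))} (hP : P.IsPrime) (hz : (X 0 : PS (m + 1)) ∉ P)
    (hfin : colen (P ⊔ Ideal.span {(X 0 : PS (m + 1))}) ≠ ⊤) :
    ∃ φ : PS (m + 1) →+* HS, RingHom.ker φ = P ∧ φ.comp jj = iota ∧
      ∀ f, ∃ q : Polynomial (PowerSeries ℂ), q.Monic ∧ q.eval₂ jj f ∈ P := by
  classical
  let A := PS (m + 1) ⧸ P
  have hdom : IsDomain A := Ideal.Quotient.isDomain P
  have hloc : IsLocalRing A :=
    IsLocalRing.of_surjective' (Ideal.Quotient.mk P) Ideal.Quotient.mk_surjective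
  let algA : Algebra (PowerSeries ℂ) A := ((Ideal.Quotient.mk P).comp jj).toAlgebra
  have halg : ∀ r, algebraMap (PowerSeries ℂ) A r = Ideal.Quotient.mk P (jj r) := fun r => rfl
  have hinj : Function.Injective (algebraMap (PowerSeries ℂ) A) := by
    rw [injective_iff_map_eq_zero]
    intro r hr
    rw [halg, Ideal.Quotient.eq_zero_iff_mem] at hr
    exact eq_zero_of_jj_mem hP hz hr
  have htf : Module.IsTorsionFree (PowerSeries ℂ) A :=
    Module.isTorsionFree_iff_algebraMap_injective.2 hinj
  -- finiteness
  set I : Ideal (PowerSeries ℂ) := Ideal.span {PowerSeries.X} with hI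
  have hmap : I.map (algebraMap (PowerSeries ℂ) A) =
      Ideal.span {Ideal.Quotient.mk P (X 0 : PS (m + 1))} := by
    rw [hI, Ideal.map_span, Set.image_singleton, halg, jj_X]
  have hne : I.map (algebraMap (PowerSeries ℂ) A) ≠ ⊤ := by
    rw [hmap, Ne, Ideal.span_singleton_eq_top]
    intro hu
    obtain ⟨b, hb⟩ := hu.exists_right_inv
    obtain ⟨z, rfl⟩ := Ideal.Quotient.mk_surjective b
    rw [← map_mul, ← map_one (Ideal.Quotient.mk P), Ideal.Quotient.eq] at hb
    have hPm : P ≤ maximalIdeal (PS (m + 1)) := le_maximalIdeal hP.ne_top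
    have h1 : (X 0 : PS (m + 1)) * z - ((X 0 : PS (m + 1)) * z - 1) ∈ maximalIdeal (PS (m + 1)) :=
      Ideal.sub_mem _ (Ideal.mul_mem_right _ _ (X_mem_max 0)) (hPm hb)
    rw [sub_sub_cancel] at h1
    exact (Ideal.ne_top_iff_one _).1 (maximalIdeal.isMaximal (PS (m + 1))).ne_top h1
  have hhaus : IsHausdorff I A := by
    rw [← IsHausdorff.map_algebraMap_iff (S := A)]
    exact IsHausdorff.of_isLocalRing _ _ hne
  have hmf : Module.Finite (PowerSeries ℂ) A := by
    have hfd : Module.Finite ℂ (PS (m + 1) ⧸ (P ⊔ Ideal.span {(X 0 : PS (m + 1))})) := by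
      unfold colen at hfin
      rw [Module.length_ne_top_iff] at hfin
      have := (isFiniteLength_iff_isNoetherian_isArtinian.1 hfin).1
      infer_instance
    obtain ⟨r, s, hs⟩ := Module.Finite.exists_fin (R := ℂ)
      (M := PS (m + 1) ⧸ (P ⊔ Ideal.span {(X 0 : PS (m + 1))}))
    have hlift : ∀ i, ∃ b : PS (m + 1), Ideal.Quotient.mk _ b = s i :=
      fun i => Ideal.Quotient.mk_surjective _
    choose b hb using hlift
    have hpre : IsPrecomplete I (Fin r → PowerSeries ℂ) := isPrecomplete_pi I r
    let F : (Fin r → PowerSeries ℂ) →ₗ[PowerSeries ℂ] A :=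
      Fintype.linearCombination (PowerSeries ℂ) (fun i => Ideal.Quotient.mk P (b i))
    have hF : Function.Surjective F := by
      apply surjective_of_mkQ_comp_surjective (I := I)
      intro y
      obtain ⟨y, rfl⟩ := Submodule.mkQ_surjective _ y
      obtain ⟨g, rfl⟩ := Ideal.Quotient.mk_surjective y
      have h1 : (Ideal.Quotient.mk (P ⊔ Ideal.span {(X 0 : PS (m + 1))}) g) ∈
          Submodule.span ℂ (Set.range s) := by
        rw [hs]; trivial
      rw [Submodule.mem_span_range_iff_exists_fun] at h1
      obtain ⟨c, hc⟩ := h1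
      have h2 : g - ∑ i, C (c i) * b i ∈ P ⊔ Ideal.span {(X 0 : PS (m + 1))} := by
        rw [← Ideal.Quotient.eq_zero_iff_mem, map_sub, ← hc, map_sum, sub_eq_zero]
        apply Finset.sum_congr rfl
        intro i _
        rw [← hb i, ← smul_eq_C_mul]
        rfl
      obtain ⟨p, hp, w, hw, hpw⟩ := Submodule.mem_sup.1 h2
      obtain ⟨v, hv⟩ := Ideal.mem_span_singleton'.1 hw
      refine ⟨fun i => PowerSeries.C (c i), ?_⟩
      rw [LinearMap.comp_apply, Submodule.mkQ_apply, Submodule.mkQ_apply, Submodule.Quotient.eq]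
      have h3 : F (fun i => PowerSeries.C (c i)) =
          Ideal.Quotient.mk P (∑ i, C (c i) * b i) := by
        change Fintype.linearCombination (PowerSeries ℂ) (fun i => Ideal.Quotient.mk P (b i)) _ = _
        rw [Fintype.linearCombination_apply, map_sum]
        apply Finset.sum_congr rfl
        intro i _
        rw [Algebra.smul_def, halg, jj_C, map_mul]
      rw [h3, ← map_sub]
      have h4 : ∑ i, C (c i) * b i - g = -p - v * X 0 := by
        rw [hv]
        linear_combination hpw
      rw [h4, map_sub, map_neg, Ideal.Quotient.eq_zero_iff_mem.2 hp, neg_zero, zero_sub, map_mul,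
        mul_comm, ← jj_X, ← halg, ← Algebra.smul_def]
      exact Submodule.neg_mem _ (Submodule.smul_mem_smul (Ideal.mem_span_singleton_self _) trivial)
    exact Module.Finite.of_surjective F hF
  have hint : Algebra.IsIntegral (PowerSeries ℂ) A := Algebra.IsIntegral.of_finite _ _
  have halgc : Algebra.IsAlgebraic (PowerSeries ℂ) A := hint.isAlgebraic
  let algH : Algebra (PowerSeries ℂ) HS := (iota).toAlgebra
  have hinjH : Module.IsTorsionFree (PowerSeries ℂ) HS :=
    Module.isTorsionFree_iff_algebraMap_injective.2 iota_inj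
  let ψ : A →ₐ[PowerSeries ℂ] HS := IsAlgClosed.lift
  refine ⟨ψ.toRingHom.comp (Ideal.Quotient.mk P), ?_, ?_, ?_⟩
  · have hψ : Function.Injective ψ := by
      rw [injective_iff_map_eq_zero]
      intro a ha
      by_contra hne0
      have h1 : RingHom.ker ψ.toRingHom ≠ ⊥ := by
        intro h0
        apply hne0
        have : a ∈ RingHom.ker ψ.toRingHom := ha
        rwa [h0, Ideal.mem_bot] at this
      have h2 := Ideal.comap_ne_bot_of_integral_mem (R := PowerSeries ℂ) (x := a) hne0
        (I := RingHom.ker ψ.toRingHom) ha (hint.isIntegral a)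
      apply h2
      rw [eq_bot_iff]
      intro r hr
      rw [Ideal.mem_comap, RingHom.mem_ker] at hr
      have h3 : iota r = 0 := by
        rw [← hr]
        exact (ψ.commutes r).symm
      rw [Ideal.mem_bot]
      exact iota_inj (by rw [h3, map_zero])
    ext f
    rw [RingHom.mem_ker, RingHom.comp_apply]
    constructor
    · intro h
      rw [← Ideal.Quotient.eq_zero_iff_mem]
      apply hψ
      rw [map_zero]
      exact h
    · intro h
      rw [Ideal.Quotient.eq_zero_iff_mem.2 h, map_zero]
  · ext1 r
    exact ψ.commutes r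
  · intro f
    obtain ⟨q, hq, hq2⟩ := hint.isIntegral (Ideal.Quotient.mk P f)
    refine ⟨q, hq, ?_⟩
    rw [← Ideal.Quotient.eq_zero_iff_mem, Polynomial.hom_eval₂]
    exact hq2

end Pool.Agent.Helper341_polar
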