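import Mathlib
import Pool.Agent.Helper341_polar.Val

/-!
# Branches: orders, chain rule, colengths
-/

set_option autoImplicit false

namespace Pool.Agent.Helper341_polar

open IsLocalRing MvPowerSeries Pointwise

/-- elements without terms below `c` -/
def Lo (c : ℚ) (x : HS) : Prop := ∀ q < c, x.coeff q = 0

theorem Lo.add {c : ℚ} {x y : HS} (hx : Lo c x) (hy : Lo c y) : Lo c (x + y) := by
  intro q hq
  rw [HahnSeries.coeff_add, hx q hq, hy q hq, add_zero]

theorem Lo.zero (c : ℚ) : Lo c (0 : HS) := by intro q _; simp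

theorem Lo.sub {c : ℚ} {x y : HS} (hx : Lo c x) (hy : Lo c y) : Lo c (x - y) := by
  intro q hq
  rw [HahnSeries.coeff_sub, hx q hq, hy q hq, sub_zero]

theorem Lo.sum {ι : Type} (s : Finset ι) {c : ℚ} {x : ι → HS} (h : ∀ i ∈ s, Lo c (x i)) :
    Lo c (∑ i ∈ s, x i) := by
  classical
  induction s using Finset.induction_on with
  | empty => simpa using Lo.zero c
  | insert a s ha ih =>
    rw [Finset.sum_insert ha]
    exact (h a (Finset.mem_insert_self a s)).add (ih fun i hi => h i (Finset.mem_insert_of_mem hi))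

theorem Lo.mul {a b : ℚ} {x y : HS} (hx : Lo a x) (hy : Lo b y) : Lo (a + b) (x * y) := by
  intro q hq
  rw [HahnSeries.coeff_mul]
  apply Finset.sum_eq_zero
  rintro ⟨i, j⟩ hij
  rw [Finset.mem_antidiagonal] at hij
  obtain ⟨_, _, hs⟩ := hij
  simp only at hs ⊢
  by_cases hi : i < a
  · rw [hx i hi, zero_mul]
  · rw [hy j (by push Not at hi; linarith), mul_zero]

theorem Lo.mono {a b : ℚ} (h : a ≤ b) {x : HS} (hx : Lo b x) : Lo a x :=
  fun q hq => hx q (lt_of_lt_of_le hq h)

theorem Lo.eul {c : ℚ} {x : HS} (hx : Lo c x) : Lo c (eul x) := by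
  intro q hq
  rw [eul_coeff, hx q hq, mul_zero]

theorem lo_iff {c : ℚ} {x : HS} (hx : x ≠ 0) : Lo c x ↔ c ≤ x.order := by
  constructor
  · intro h
    by_contra hcon
    push Not at hcon
    exact hx (HahnSeries.coeff_order_eq_zero.1 (h _ hcon))
  · intro h q hq
    exact HahnSeries.coeff_eq_zero_of_lt_order (lt_of_lt_of_le hq h)

/-- the valuation ring of the Hahn series field -/
noncomputable def VS : ValuationSubring HS where
  __ := VR
  mem_or_inv_mem' x := by
    by_cases hx : x = 0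
    · left; subst hx; exact VR.zero_mem
    have hi : x⁻¹ ≠ 0 := inv_ne_zero hx
    have h1 : x.order + x⁻¹.order = 0 := by
      rw [← HahnSeries.order_mul hx hi, mul_inv_cancel₀ hx, HahnSeries.order_one]
    rcases le_total 0 x.order with h | h
    · left; exact (mem_VR_iff_order hx).2 h
    · right; exact (mem_VR_iff_order hi).2 (by linarith)

theorem mem_VS {x : HS} : x ∈ VS ↔ x ∈ VR := Iff.rfl

/-- the valuation ring is integrally closed -/
theorem mem_VR_of_integral {x : HS} (q : Polynomial (PowerSeries ℂ)) (hq : q.Monic)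
    (h : q.eval₂ iota x = 0) : x ∈ VR := by
  have h1 : IsIntegral VS x := by
    let i' : PowerSeries ℂ →+* VS := iota.codRestrict VS.toSubring (fun r => iota_VR r)
    refine ⟨q.map i', hq.map i', ?_⟩
    rw [Polynomial.eval₂_map]
    exact h
  obtain ⟨y, hy⟩ := IsIntegrallyClosed.isIntegral_iff.1 h1
  rw [← hy]
  exact y.2

variable {m : ℕ}

/-- a branch with its homomorphism to the Hahn series -/
structure Br (P : Ideal (PS (m + 1))) (φ : PS (m + 1) →+* HS) : Prop where
  prime : P.IsPrime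
  nz : (X 0 : PS (m + 1)) ∉ P
  fin : colen (P ⊔ Ideal.span {(X 0 : PS (m + 1))}) ≠ ⊤
  ker : RingHom.ker φ = P
  comp : φ.comp jj = iota
  int : ∀ f, ∃ q : Polynomial (PowerSeries ℂ), q.Monic ∧ q.eval₂ jj f ∈ P

namespace Br

variable {P : Ideal (PS (m + 1))} {φ : PS (m + 1) →+* HS}

theorem phi_eq_zero (h : Br P φ) {f : PS (m + 1)} : φ f = 0 ↔ f ∈ P := by
  rw [← RingHom.mem_ker, h.ker]

theorem phi_ne_zero (h : Br P φ) {f : PS (m + 1)} (hf : f ∉ P) : φ f ≠ 0 :=
  fun h0 => hf (h.phi_eq_zero.1 h0)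

theorem phi_root (h : Br P φ) (f : PS (m + 1)) :
    ∃ q : Polynomial (PowerSeries ℂ), q.Monic ∧ q.eval₂ iota (φ f) = 0 := by
  obtain ⟨q, hq, hq2⟩ := h.int f
  refine ⟨q, hq, ?_⟩
  rw [← h.comp, ← Polynomial.hom_eval₂]
  exact h.phi_eq_zero.2 hq2

theorem phi_VR (h : Br P φ) (f : PS (m + 1)) : φ f ∈ VR := by
  obtain ⟨q, hq, hq2⟩ := h.phi_root f
  exact mem_VR_of_integral q hq hq2

theorem phi_lo (h : Br P φ) (f : PS (m + 1)) : Lo 0 (φ f) := h.phi_VR f

theorem phi_X0 (h : Br P φ) : φ (X 0) = HahnSeries.single 1 1 := by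
  rw [← jj_X, ← RingHom.comp_apply, h.comp]
  exact HahnSeries.ofPowerSeries_X

theorem phi_C (h : Br P φ) (c : ℂ) : φ (C c) = HahnSeries.C c := by
  rw [← jj_C, ← RingHom.comp_apply, h.comp]
  exact HahnSeries.ofPowerSeries_C c

theorem order_nonneg (h : Br P φ) {f : PS (m + 1)} (hf : f ∉ P) : 0 ≤ (φ f).order :=
  (lo_iff (h.phi_ne_zero hf)).1 (h.phi_lo f)

theorem order_X0 (h : Br P φ) : (φ (X 0)).order = 1 := by
  rw [h.phi_X0, HahnSeries.order_single one_ne_zero]

/-- a power of the maximal ideal is contained in `P + (X 0)` -/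
theorem exists_pow (h : Br P φ) :
    ∃ k, maximalIdeal (PS (m + 1)) ^ k ≤ P ⊔ Ideal.span {(X 0 : PS (m + 1))} :=
  colen_ne_top_iff.1 h.fin

theorem order_pos (h : Br P φ) {f : PS (m + 1)} (hf : f ∉ P) (hfm : constantCoeff f = 0) :
    0 < (φ f).order := by
  obtain ⟨k, hk⟩ := h.exists_pow
  have h1 : f ^ k ∈ P ⊔ Ideal.span {(X 0 : PS (m + 1))} :=
    hk (Ideal.pow_mem_pow (mem_max_iff.2 hfm) k)
  obtain ⟨p, hp, w, hw, hpw⟩ := Submodule.mem_sup.1 h1
  obtain ⟨v, hv⟩ := Ideal.mem_span_singleton'.1 hw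
  have h2 : φ f ^ k = φ v * φ (X 0) := by
    rw [← map_pow, ← hpw, map_add, h.phi_eq_zero.2 hp, zero_add, ← hv, map_mul]
  have h3 : Lo 1 (φ f ^ k) := by
    rw [h2]
    have := (h.phi_lo v).mul (Lo.mono (le_refl 1) ((lo_iff (h.phi_ne_zero h.nz)).2 h.order_X0.ge))
    rwa [zero_add] at this
  have h4 : φ f ≠ 0 := h.phi_ne_zero hf
  have h5 := (lo_iff (pow_ne_zero k h4)).1 h3
  rw [HahnSeries.order_pow] at h5
  by_contra hcon
  push Not at hcon
  have : k • (φ f).order ≤ 0 := nsmul_nonpos hcon k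
  linarith

theorem phi_mul_order (h : Br P φ) {f g : PS (m + 1)} (hf : f ∉ P) (hg : g ∉ P) :
    (φ (f * g)).order = (φ f).order + (φ g).order := by
  rw [map_mul, HahnSeries.order_mul (h.phi_ne_zero hf) (h.phi_ne_zero hg)]

/-- the chain rule -/
theorem chain (h : Br P φ) (f : PS (m + 1)) :
    eul (φ f) = ∑ j, φ (pderiv ℂ j f) * eul (φ (X j)) := by
  classical
  set D : PS (m + 1) → HS := fun f => eul (φ f) - ∑ j, φ (pderiv ℂ j f) * eul (φ (X j)) with hD
  have hadd : ∀ f g, D (f + g) = D f + D g := by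
    intro f g
    simp only [hD, map_add, eul_add, add_mul, Finset.sum_add_distrib]
    ring
  have hmul : ∀ f g, D (f * g) = φ f * D g + φ g * D f := by
    intro f g
    simp only [hD, map_mul, eul_mul, Derivation.leibniz, smul_eq_mul, map_add]
    rw [mul_sub, mul_sub, Finset.mul_sum, Finset.mul_sum]
    have : ∑ j, (φ f * φ (pderiv ℂ j g) + φ g * φ (pderiv ℂ j f)) * eul (φ (X j)) =
        ∑ j, φ f * (φ (pderiv ℂ j g) * eul (φ (X j))) + ∑ j, φ g * (φ (pderiv ℂ j f) * eul (φ (X j))) := by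
      rw [← Finset.sum_add_distrib]
      apply Finset.sum_congr rfl
      intro j _
      ring
    rw [this]
    ring
  have hC : ∀ c : ℂ, D (C c) = 0 := by
    intro c
    simp only [hD, pderiv_C, map_zero, zero_mul, Finset.sum_const_zero, sub_zero]
    rw [h.phi_C]
    ext q
    rw [eul_coeff, HahnSeries.C_apply]
    by_cases hq : q = 0
    · subst hq; simp
    · rw [HahnSeries.coeff_single_of_ne hq]; simp
  have hX : ∀ i, D (X i) = 0 := by
    intro i
    simp only [hD]
    rw [Finset.sum_eq_single i]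
    · rw [pderiv_X_self, map_one, one_mul, sub_self]
    · intro j _ hj
      rw [pderiv_X_of_ne (Ne.symm hj), map_zero, zero_mul]
    · intro h; exact absurd (Finset.mem_univ i) h
  have hsum : ∀ (s : Finset (Fin (m + 1))) (g : Fin (m + 1) → PS (m + 1)),
      D (∑ i ∈ s, g i) = ∑ i ∈ s, D (g i) := by
    intro s g
    have h0 : D 0 = 0 := by
      have := hadd 0 0
      rw [add_zero] at this
      simpa using this
    induction s using Finset.induction_on with
    | empty => simpa using h0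
    | insert a s ha ih => rw [Finset.sum_insert ha, Finset.sum_insert ha, hadd, ih]
  -- a positive lower bound for the orders of the variables
  obtain ⟨ε, hε, hεX⟩ : ∃ ε : ℚ, 0 < ε ∧ ∀ i, Lo ε (φ (X i)) := by
    have h1 : ∀ i, ∃ ε : ℚ, 0 < ε ∧ Lo ε (φ (X i)) := by
      intro i
      by_cases hi : (X i : PS (m + 1)) ∈ P
      · exact ⟨1, one_pos, by rw [h.phi_eq_zero.2 hi]; exact Lo.zero 1⟩
      · refine ⟨(φ (X i)).order, h.order_pos hi (constantCoeff_X i), ?_⟩
        exact (lo_iff (h.phi_ne_zero hi)).2 le_rfl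
    choose e he1 he2 using h1
    have hne : (Finset.univ : Finset (Fin (m + 1))).Nonempty := ⟨0, Finset.mem_univ _⟩
    refine ⟨Finset.univ.inf' hne e, ?_, ?_⟩
    · rw [Finset.lt_inf'_iff]
      intro i _
      exact he1 i
    · intro i
      exact (he2 i).mono (Finset.inf'_le _ (Finset.mem_univ i))
  have key : ∀ k : ℕ, ∀ f, Lo (k * ε) (D f) := by
    intro k
    induction k with
    | zero =>
      intro f
      rw [Nat.cast_zero, zero_mul]
      apply Lo.sub
      · exact (h.phi_lo f).eul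
      · apply Lo.sum
        intro j _
        have := (h.phi_lo (pderiv ℂ j f)).mul ((h.phi_lo (X j)).eul)
        rwa [zero_add] at this
    | succ k ih =>
      intro f
      obtain ⟨g, hg, -⟩ := exists_decomp Finset.univ (f - C (constantCoeff f)) (by
        intro α hα
        have : α = 0 := by ext i; exact hα i (Finset.mem_univ i)
        rw [this, map_sub, coeff_zero_C, coeff_zero_eq_constantCoeff_apply, sub_self]) 0 (by
        intro α hα
        have : α = 0 := by
          have h1 : α.degree = 0 := by omega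
          rwa [Finsupp.degree_eq_zero_iff] at h1
        rw [this, map_sub, coeff_zero_C, coeff_zero_eq_constantCoeff_apply, sub_self])
      have h1 : f = C (constantCoeff f) + ∑ i, X i * g i := by
        rw [← hg]; ring
      rw [h1, hadd, hC, zero_add, hsum]
      apply Lo.sum
      intro i _
      rw [hmul, hX, mul_zero, add_zero]
      have := (hεX i).mul (ih (g i))
      refine this.mono (le_of_eq ?_)
      push_cast
      ring
  have h0 : D f = 0 := by
    ext q
    obtain ⟨k, hk⟩ := exists_nat_gt (q / ε)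
    have : q < k * ε := by rwa [div_lt_iff₀ hε] at hk
    rw [key k f q this, HahnSeries.coeff_zero]
  exact sub_eq_zero.1 h0

/-- chain rule on a branch of the polar curve -/
theorem chain_polar (h : Br P φ) {f : PS (m + 1)}
    (hf : ∀ j : Fin m, pderiv ℂ j.succ f ∈ P) : φ (X 0 * pderiv ℂ 0 f) = eul (φ f) := by
  rw [h.chain f, Fin.sum_univ_succ]
  have h1 : ∑ j : Fin m, φ (pderiv ℂ j.succ f) * eul (φ (X j.succ)) = 0 := by
    apply Finset.sum_eq_zero
    intro j _
    rw [h.phi_eq_zero.2 (hf j), zero_mul]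
  rw [h1, add_zero, map_mul, mul_comm]
  congr 1
  rw [h.phi_X0]
  ext q
  rw [eul_coeff]
  by_cases hq : q = 1
  · subst hq; simp
  · rw [HahnSeries.coeff_single_of_ne hq, mul_zero]

end Br

end Pool.Agent.Helper341_polar
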