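import Mathlib
import Pool.Agent.Helper341_polar.Branch

/-!
# Colengths along a branch
-/

set_option autoImplicit false
set_option linter.style.haveILetI false

namespace Pool.Agent.Helper341_polar

open IsLocalRing MvPowerSeries Pointwise

section general

variable {n : ℕ}

/-- colength of `I + (g)` as a colength in the module `PS / I` -/
theorem colen_sup_span (I : Ideal (PS n)) (g : PS n) :
    colen (I ⊔ Ideal.span {g}) =
      Module.length ℂ ((PS n ⧸ I) ⧸ (g • (⊤ : Submodule (PS n) (PS n ⧸ I)))) := by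
  unfold colen
  have h1 : (g • (⊤ : Submodule (PS n) (PS n ⧸ I))) = Submodule.map (Submodule.mkQ I) (Ideal.span {g}) := by
    ext x
    constructor
    · intro hx
      obtain ⟨y, -, rfl⟩ := (Submodule.mem_smul_pointwise_iff_exists _ _ _).1 hx
      obtain ⟨y, rfl⟩ := Submodule.mkQ_surjective _ y
      refine ⟨g * y, Ideal.mul_mem_right _ _ (Ideal.mem_span_singleton_self g), ?_⟩
      rw [← smul_eq_mul, map_smul]
    · rintro ⟨y, hy, rfl⟩
      obtain ⟨z, rfl⟩ := Ideal.mem_span_singleton'.1 hy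
      rw [mul_comm, ← smul_eq_mul, map_smul]
      exact Submodule.smul_mem_pointwise_smul _ _ _ trivial
  rw [h1]
  exact ((Submodule.quotientQuotientEquivQuotientSup I (Ideal.span {g})).restrictScalars ℂ).symm.length_eq

theorem colen_mul {I : Ideal (PS n)} {g h : PS n} (hg : IsSMulRegular (PS n ⧸ I) g) :
    colen (I ⊔ Ideal.span {g * h}) = colen (I ⊔ Ideal.span {h}) + colen (I ⊔ Ideal.span {g}) := by
  rw [colen_sup_span, colen_sup_span, colen_sup_span, length_smul_mul hg]

theorem colen_pow {I : Ideal (PS n)} {g : PS n} (hg : IsSMulRegular (PS n ⧸ I) g) (k : ℕ) :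
    colen (I ⊔ Ideal.span {g ^ k}) = k * colen (I ⊔ Ideal.span {g}) := by
  rw [colen_sup_span, colen_sup_span, length_smul_pow hg]

theorem colen_prod {ι : Type} (s : Finset ι) {I : Ideal (PS n)} {g : ι → PS n}
    (hg : ∀ i ∈ s, IsSMulRegular (PS n ⧸ I) (g i)) :
    IsSMulRegular (PS n ⧸ I) (∏ i ∈ s, g i) ∧
    colen (I ⊔ Ideal.span {∏ i ∈ s, g i}) = ∑ i ∈ s, colen (I ⊔ Ideal.span {g i}) := by
  classical
  induction s using Finset.induction_on with
  | empty =>
    refine ⟨?_, ?_⟩
    · rw [Finset.prod_empty]; exact IsSMulRegular.one _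
    · rw [Finset.prod_empty, Finset.sum_empty]
      unfold colen
      rw [Module.length_eq_zero_iff, Ideal.span_singleton_one, sup_top_eq]
      exact Submodule.Quotient.subsingleton_iff.2 rfl
  | insert a s ha ih =>
    obtain ⟨h1, h2⟩ := ih fun i hi => hg i (Finset.mem_insert_of_mem hi)
    rw [Finset.prod_insert ha, Finset.sum_insert ha]
    have h3 := hg a (Finset.mem_insert_self a s)
    refine ⟨h3.mul h1, ?_⟩
    rw [colen_mul h3, h2, add_comm]

theorem isSMulRegular_prime {P : Ideal (PS n)} (hP : P.IsPrime) {g : PS n} (hg : g ∉ P) :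
    IsSMulRegular (PS n ⧸ P) g := by
  rw [isSMulRegular_iff_right_eq_zero_of_smul]
  intro x hx
  obtain ⟨f, rfl⟩ := Submodule.Quotient.mk_surjective _ x
  rw [← Submodule.Quotient.mk_smul, Submodule.Quotient.mk_eq_zero, smul_eq_mul] at hx
  rw [Submodule.Quotient.mk_eq_zero]
  exact (hP.mem_or_mem hx).resolve_left hg

end general

section mf

variable {O : Type} [CommRing O]

theorem MonForm.pow_mem {x y e : O} (h : MonForm x y e) :
    ∃ k : ℕ, x ^ (k + 1) ∈ Ideal.span {y} ⊔ Ideal.span {e} := by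
  obtain ⟨k, a, ha, he⟩ := h
  refine ⟨k, ?_⟩
  have h1 : a ∈ Ideal.span {y} := (Ideal.mul_le_left : Ideal.span {y} * Ideal.span {x, y} ^ k ≤ _) ha
  have h2 : x ^ (k + 1) = a + e := by rw [he]; ring
  rw [h2]
  exact Submodule.add_mem_sup h1 (Ideal.mem_span_singleton_self e)

theorem MonForm.pow {x y e : O} (h : MonForm x y e) (k : ℕ) : MonForm x y (e ^ (k + 1)) := by
  induction k with
  | zero => simpa using h
  | succ k ih => rw [pow_succ]; exact ih.mul h

theorem MonForm.prod {ι : Type} (s : Finset ι) (hs : s.Nonempty) {x y : O} {e : ι → O}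
    (h : ∀ i ∈ s, MonForm x y (e i)) : MonForm x y (∏ i ∈ s, e i) := by
  classical
  induction hs using Finset.Nonempty.cons_induction with
  | singleton a => simpa using h a (by simp)
  | cons a s ha hs ih =>
    rw [Finset.prod_cons]
    exact (h a (by simp)).mul (ih fun i hi => h i (by simp [hi]))

end mf

variable {m : ℕ} {P : Ideal (PS (m + 1))} {φ : PS (m + 1) →+* HS}

/-- an inequality of orders gives an equation of integral dependence on the branch -/
theorem Br.monForm (h : Br P φ) {g g' : PS (m + 1)} (hg' : g' ∉ P)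
    (hord : g ∈ P ∨ (φ g').order ≤ (φ g).order) : ∃ e ∈ P, MonForm g g' e := by
  classical
  by_cases hgP : g ∈ P
  · refine ⟨g, hgP, 0, 0, Submodule.zero_mem _, by ring⟩
  have hord : (φ g').order ≤ (φ g).order := hord.resolve_left hgP
  have hn := h.phi_ne_zero hg'
  have hng := h.phi_ne_zero hgP
  set α : HS := φ g * (φ g')⁻¹ with hα
  have hα0 : α ≠ 0 := mul_ne_zero hng (inv_ne_zero hn)
  have hmul : α * φ g' = φ g := by rw [hα, inv_mul_cancel_right₀ hn]
  have hαV : α ∈ VR := by
    rw [mem_VR_iff_order hα0]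
    have := HahnSeries.order_mul hα0 hn
    rw [hmul] at this
    linarith
  letI algH : Algebra (PowerSeries ℂ) HS := (iota).toAlgebra
  have halg1 : IsAlgebraic (PowerSeries ℂ) (φ g) := by
    obtain ⟨q, hq, hq2⟩ := h.phi_root g
    exact IsIntegral.isAlgebraic ⟨q, hq, hq2⟩
  have halg2 : IsAlgebraic (PowerSeries ℂ) (φ g') := by
    obtain ⟨q, hq, hq2⟩ := h.phi_root g'
    exact IsIntegral.isAlgebraic ⟨q, hq, hq2⟩
  have halg : IsAlgebraic (PowerSeries ℂ) α := halg1.mul halg2.inv
  obtain ⟨p, hp, hp2⟩ := halg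
  obtain ⟨q, hq, hq2⟩ := integral_of_VR hαV p hp hp2
  set N := q.natDegree with hN
  have hN0 : N ≠ 0 := by
    intro h0
    have : q = 1 := by
      rw [Polynomial.eq_C_of_natDegree_eq_zero (hN ▸ h0 : q.natDegree = 0)]
      have hlc := hq.coeff_natDegree
      rw [← hN, h0] at hlc
      rw [hlc, map_one]
    rw [this, Polynomial.eval₂_one] at hq2
    exact one_ne_zero hq2
  obtain ⟨k, hk⟩ := Nat.exists_eq_succ_of_ne_zero hN0
  have hk : N = k + 1 := hk
  set a : PS (m + 1) := -∑ i ∈ Finset.range (k + 1), jj (q.coeff i) * g ^ i * g' ^ (k + 1 - i) with ha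
  refine ⟨g ^ (k + 1) - a, ?_, k, a, ?_, rfl⟩
  · rw [← h.phi_eq_zero]
    have h1 : φ (g ^ (k + 1) - a) =
        ∑ i ∈ Finset.range (N + 1), iota (q.coeff i) * φ g ^ i * φ g' ^ (N - i) := by
      rw [ha, sub_neg_eq_add, map_add, map_sum, hk, Finset.sum_range_succ _ (k + 1), add_comm]
      congr 1
      · apply Finset.sum_congr rfl
        intro i _
        rw [map_mul, map_mul, map_pow, map_pow, ← RingHom.comp_apply, h.comp]
      · have hlc := hq.coeff_natDegree
        rw [← hN, hk] at hlc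
        rw [hlc, map_one, one_mul, Nat.sub_self, pow_zero, mul_one, map_pow]
    rw [h1]
    have h2 : ∑ i ∈ Finset.range (N + 1), iota (q.coeff i) * φ g ^ i * φ g' ^ (N - i) =
        (∑ i ∈ Finset.range (N + 1), iota (q.coeff i) * α ^ i) * φ g' ^ N := by
      rw [Finset.sum_mul]
      apply Finset.sum_congr rfl
      intro i hi
      have hi' : i ≤ N := by
        rw [Finset.mem_range] at hi; omega
      rw [← hmul, mul_pow]
      have : φ g' ^ N = φ g' ^ i * φ g' ^ (N - i) := by
        rw [← pow_add]; congr 1; omega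
      rw [this]
      ring
    rw [h2, ← Polynomial.eval₂_eq_sum_range, hq2, zero_mul]
  · rw [ha]
    apply Ideal.neg_mem_iff _ |>.2
    apply Ideal.sum_mem
    intro i hi
    have hi' : i ≤ k := by
      rw [Finset.mem_range] at hi; omega
    have : jj (q.coeff i) * g ^ i * g' ^ (k + 1 - i) = g' * (jj (q.coeff i) * (g ^ i * g' ^ (k - i))) := by
      rw [show k + 1 - i = (k - i) + 1 by omega, pow_succ]
      ring
    rw [this]
    apply Ideal.mul_mem_mul (Ideal.mem_span_singleton_self _)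
    apply Ideal.mul_mem_left
    have h3 : (Ideal.span {g, g'} : Ideal (PS (m + 1))) ^ k =
        Ideal.span {g, g'} ^ i * Ideal.span {g, g'} ^ (k - i) := by
      rw [← pow_add]; congr 1; omega
    rw [h3]
    exact Ideal.mul_mem_mul (Ideal.pow_mem_pow (Ideal.subset_span (by simp)) _)
      (Ideal.pow_mem_pow (Ideal.subset_span (by simp)) _)

/-- elements outside of `P` have finite colength -/
theorem Br.colen_ne_top (h : Br P φ) {g : PS (m + 1)} (hg : g ∉ P) :
    colen (P ⊔ Ideal.span {g}) ≠ ⊤ := by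
  obtain ⟨a, ha⟩ := exists_nat_ge ((φ g).order)
  have h1 : (X 0 : PS (m + 1)) ^ a ∉ P := fun h0 => h.nz (h.prime.mem_of_pow_mem _ h0)
  obtain ⟨e, he, hm⟩ := h.monForm (g := X 0 ^ a) hg (Or.inr (by
    rw [map_pow, HahnSeries.order_pow, h.order_X0]
    simpa using ha))
  obtain ⟨k, hk⟩ := hm.pow_mem
  obtain ⟨l, hl⟩ := h.exists_pow
  rw [colen_ne_top_iff]
  refine ⟨l * (a * (k + 1)), ?_⟩
  have h2 : (X 0 : PS (m + 1)) ^ (a * (k + 1)) ∈ P ⊔ Ideal.span {g} := by
    rw [pow_mul]
    have : Ideal.span {g} ⊔ Ideal.span {e} ≤ P ⊔ Ideal.span {g} := by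
      apply sup_le le_sup_right
      rw [Ideal.span_singleton_le_iff_mem]
      exact le_sup_left (α := Ideal (PS (m + 1))) he
    exact this hk
  rw [pow_mul]
  have h3 : ∀ N : ℕ, (P ⊔ Ideal.span {(X 0 : PS (m + 1))}) ^ N ≤
      P ⊔ Ideal.span {(X 0 : PS (m + 1)) ^ N} := by
    intro N
    induction N with
    | zero =>
      simp
    | succ N ih =>
      rw [pow_succ]
      calc _ ≤ (P ⊔ Ideal.span {(X 0 : PS (m + 1)) ^ N}) * (P ⊔ Ideal.span {(X 0 : PS (m + 1))}) :=
            Ideal.mul_mono_left ih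
        _ ≤ _ := by
            rw [Ideal.sup_mul]
            apply sup_le
            · exact le_trans Ideal.mul_le_left le_sup_left
            · rw [Ideal.mul_sup]
              apply sup_le
              · exact le_trans Ideal.mul_le_right le_sup_left
              · rw [Ideal.span_singleton_mul_span_singleton, ← pow_succ]
                exact le_sup_right
  calc (maximalIdeal (PS (m + 1)) ^ l) ^ (a * (k + 1)) ≤
        (P ⊔ Ideal.span {(X 0 : PS (m + 1))}) ^ (a * (k + 1)) := Ideal.pow_right_mono hl _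
    _ ≤ P ⊔ Ideal.span {(X 0 : PS (m + 1)) ^ (a * (k + 1))} := h3 _
    _ ≤ _ := by
        apply sup_le le_sup_left
        rw [Ideal.span_singleton_le_iff_mem]
        exact h2

theorem Br.colen_le (h : Br P φ) {g g' : PS (m + 1)} (hg : g ∉ P) (hg' : g' ∉ P)
    (hord : (φ g').order ≤ (φ g).order) :
    colen (P ⊔ Ideal.span {g'}) ≤ colen (P ⊔ Ideal.span {g}) := by
  obtain ⟨e, he, hm⟩ := h.monForm hg' (Or.inr hord)
  rw [colen_sup_span, colen_sup_span]
  apply length_le_of_monForm (isSMulRegular_prime h.prime hg) (isSMulRegular_prime h.prime hg') hm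
  · intro x
    obtain ⟨y, rfl⟩ := Submodule.Quotient.mk_surjective _ x
    rw [← Submodule.Quotient.mk_smul, Submodule.Quotient.mk_eq_zero, smul_eq_mul]
    exact P.mul_mem_right _ he
  · rw [← colen_sup_span]
    exact h.colen_ne_top hg'

/-- colengths as natural numbers -/
noncomputable def cl {n : ℕ} (J : Ideal (PS n)) : ℕ := (colen J).toNat

theorem coe_cl {n : ℕ} {J : Ideal (PS n)} (h : colen J ≠ ⊤) : (cl J : ℕ∞) = colen J :=
  ENat.natCast_toNat h

/-- the colength of `P + (g)` is the order of `g` on the branch times the colength of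
`P + (X 0)` -/
theorem Br.cl_eq (h : Br P φ) {g : PS (m + 1)} (hg : g ∉ P) :
    (cl (P ⊔ Ideal.span {g}) : ℚ) =
      (φ g).order * cl (P ⊔ Ideal.span {(X 0 : PS (m + 1))}) := by
  set v : ℚ := (φ g).order with hv
  have hv0 : 0 ≤ v := h.order_nonneg hg
  set a : ℕ := v.num.toNat with ha
  set b : ℕ := v.den with hb
  have hb0 : 0 < b := v.den_pos
  have hab : v * b = a := by
    have h1 : (a : ℚ) = v.num := by
      rw [ha]
      have : ((v.num.toNat : ℤ) : ℚ) = v.num := by
        rw [Int.toNat_of_nonneg (Rat.num_nonneg.2 hv0)]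
      rw [← this, Int.cast_natCast]
    rw [h1, hb]
    exact Rat.mul_den_eq_num v
  have hgb : g ^ b ∉ P := fun h0 => hg (h.prime.mem_of_pow_mem _ h0)
  have hXa : (X 0 : PS (m + 1)) ^ a ∉ P := fun h0 => h.nz (h.prime.mem_of_pow_mem _ h0)
  have ho : (φ (g ^ b)).order = (φ ((X 0 : PS (m + 1)) ^ a)).order := by
    rw [map_pow, map_pow, HahnSeries.order_pow, HahnSeries.order_pow, h.order_X0, ← hv,
      nsmul_eq_mul, nsmul_eq_mul, mul_one, ← hab, mul_comm]
  have h1 : colen (P ⊔ Ideal.span {g ^ b}) = colen (P ⊔ Ideal.span {(X 0 : PS (m + 1)) ^ a}) :=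
    le_antisymm (h.colen_le hXa hgb ho.le) (h.colen_le hgb hXa ho.ge)
  rw [colen_pow (isSMulRegular_prime h.prime hg), colen_pow (isSMulRegular_prime h.prime h.nz),
    ← coe_cl (h.colen_ne_top hg), ← coe_cl h.fin] at h1
  have h2 : b * cl (P ⊔ Ideal.span {g}) = a * cl (P ⊔ Ideal.span {(X 0 : PS (m + 1))}) := by
    exact_mod_cast h1
  have h3 : (b : ℚ) * cl (P ⊔ Ideal.span {g}) = a * cl (P ⊔ Ideal.span {(X 0 : PS (m + 1))}) := by
    exact_mod_cast h2
  have hb' : (b : ℚ) ≠ 0 := by exact_mod_cast hb0.ne'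
  apply mul_left_cancel₀ hb'
  rw [h3, ← hab]
  ring

theorem Br.cl_pos (h : Br P φ) : 0 < cl (P ⊔ Ideal.span {(X 0 : PS (m + 1))}) := by
  rw [Nat.pos_iff_ne_zero]
  intro h0
  have h1 : colen (P ⊔ Ideal.span {(X 0 : PS (m + 1))}) = 0 := by
    rw [← coe_cl h.fin, h0]; rfl
  unfold colen at h1
  rw [Module.length_eq_zero_iff, Submodule.Quotient.subsingleton_iff] at h1
  have h2 : P ⊔ Ideal.span {(X 0 : PS (m + 1))} ≤ maximalIdeal (PS (m + 1)) := by
    apply sup_le (le_maximalIdeal h.prime.ne_top)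
    rw [Ideal.span_singleton_le_iff_mem]
    exact X_mem_max 0
  rw [h1] at h2
  exact (maximalIdeal.isMaximal (PS (m + 1))).ne_top (top_le_iff.1 h2)

end Pool.Agent.Helper341_polar
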