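import Mathlib
import Pool.Agent.Helper341_polar.Ser
import Pool.Agent.Helper341_polar.AlgConv

/-!
# Splitting of power series, and a fixed point argument
-/

set_option autoImplicit false

namespace Pool.Agent.Helper341_polar

open MvPowerSeries ENNReal

section spl

variable {n : ℕ} (S : Finset (Fin n)) (K : ℕ)

/-- the coefficients of `X i ^ K` in the canonical decomposition along the variables in `S` -/
noncomputable def spl (i : Fin n) (f : PS n) : PS n := fun β =>
  if (∀ j ∈ S, j < i → β j < K) then coeff (β + Finsupp.single i K) f else 0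

/-- the part where the exponents of the variables in `S` are less than `K` -/
noncomputable def low (f : PS n) : PS n := fun β =>
  if (∀ j ∈ S, β j < K) then coeff β f else 0

theorem coeff_spl (i : Fin n) (f : PS n) (β : Fin n →₀ ℕ) : coeff β (spl S K i f) =
    if (∀ j ∈ S, j < i → β j < K) then coeff (β + Finsupp.single i K) f else 0 := rfl

theorem coeff_low (f : PS n) (β : Fin n →₀ ℕ) : coeff β (low S K f) =
    if (∀ j ∈ S, β j < K) then coeff β f else 0 := rfl

theorem coeff_X_pow_mul' (i : Fin n) (k : ℕ) (g : PS n) (α : Fin n →₀ ℕ) :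
    coeff α (X i ^ k * g) = if k ≤ α i then coeff (α - Finsupp.single i k) g else 0 := by
  classical
  rw [X_pow_eq, coeff_monomial_mul, one_mul]
  simp only [Finsupp.single_le_iff]

theorem split_eq (f : PS n) : f = low S K f + ∑ i ∈ S, X i ^ K * spl S K i f := by
  classical
  ext α
  rw [map_add, map_sum, coeff_low]
  by_cases hα : ∀ i ∈ S, α i < K
  · rw [if_pos hα]
    have : ∑ i ∈ S, coeff α (X i ^ K * spl S K i f) = 0 := by
      apply Finset.sum_eq_zero
      intro i hi
      rw [coeff_X_pow_mul', if_neg]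
      have := hα i hi
      omega
    rw [this, add_zero]
  · rw [if_neg hα, zero_add]
    push Not at hα
    obtain ⟨i0, hi0, hmin⟩ : ∃ i ∈ S, K ≤ α i ∧ ∀ j ∈ S, j < i → α j < K := by
      have hne : (S.filter fun i => K ≤ α i).Nonempty := by
        obtain ⟨i, hi, hi'⟩ := hα
        exact ⟨i, Finset.mem_filter.2 ⟨hi, hi'⟩⟩
      refine ⟨(S.filter fun i => K ≤ α i).min' hne, ?_, ?_, ?_⟩
      · exact (Finset.mem_filter.1 (Finset.min'_mem _ hne)).1
      · exact (Finset.mem_filter.1 (Finset.min'_mem _ hne)).2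
      · intro j hj hlt
        by_contra hcon
        push Not at hcon
        exact absurd (Finset.min'_le _ j (Finset.mem_filter.2 ⟨hj, hcon⟩)) (not_le.2 hlt)
    rw [Finset.sum_eq_single i0]
    · rw [coeff_X_pow_mul', if_pos hmin.1, coeff_spl, if_pos]
      · congr 2
        rw [tsub_add_cancel_of_le]
        rw [Finsupp.single_le_iff]
        exact hmin.1
      · intro j hj hlt
        rw [Finsupp.tsub_apply]
        exact lt_of_le_of_lt (Nat.sub_le _ _) (hmin.2 j hj hlt)
    · intro j hj hne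
      rw [coeff_X_pow_mul']
      split_ifs with h1
      · rw [coeff_spl, if_neg]
        intro h2
        rcases lt_or_gt_of_ne hne with hlt | hlt
        · have := hmin.2 j hj hlt
          omega
        · have := h2 i0 hi0 hlt
          rw [Finsupp.tsub_apply, Finsupp.single_eq_of_ne hlt.ne] at this
          have h3 := hmin.1
          omega
      · rfl
    · intro h; exact absurd hi0 h

theorem spl_sub (i : Fin n) (f g : PS n) : spl S K i (f - g) = spl S K i f - spl S K i g := by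
  ext β
  rw [map_sub, coeff_spl, coeff_spl, coeff_spl]
  split_ifs
  · rw [map_sub]
  · rw [sub_zero]

/-- splitting commutes with the multiplication by a variable outside of `S` -/
theorem spl_X_mul {i i₀ : Fin n} (hi : i ∈ S) (hi₀ : i₀ ∉ S) (f : PS n) :
    spl S K i (X i₀ * f) = X i₀ * spl S K i f := by
  classical
  ext β
  have hne : i ≠ i₀ := by
    rintro rfl
    exact hi₀ hi
  rw [coeff_spl, coeff_X_mul', coeff_X_mul', coeff_spl]
  have h1 : (β + Finsupp.single i K) i₀ = β i₀ := by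
    rw [Finsupp.add_apply, Finsupp.single_eq_of_ne hne.symm, add_zero]
  rw [h1]
  by_cases hb : 1 ≤ β i₀
  · rw [if_pos hb, if_pos hb]
    have h2 : (∀ j ∈ S, j < i → (β - Finsupp.single i₀ 1 : Fin n →₀ ℕ) j < K) ↔
        (∀ j ∈ S, j < i → β j < K) := by
      apply forall₂_congr
      intro j hj
      have : j ≠ i₀ := by
        rintro rfl
        exact hi₀ hj
      rw [Finsupp.tsub_apply, Finsupp.single_eq_of_ne this, Nat.sub_zero]
    have h3 : β + Finsupp.single i K - Finsupp.single i₀ 1 =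
        β - Finsupp.single i₀ 1 + Finsupp.single i K := by
      rw [tsub_add_eq_add_tsub]
      rwa [Finsupp.single_le_iff]
    rw [h3]
    by_cases h4 : ∀ j ∈ S, j < i → β j < K
    · rw [if_pos h4, if_pos (h2.2 h4)]
    · rw [if_neg h4, if_neg (fun h5 => h4 (h2.1 h5))]
  · rw [if_neg hb, if_neg hb, ite_self]

theorem spl_X_pow_mul {i i₀ : Fin n} (hi : i ∈ S) (hi₀ : i₀ ∉ S) (k : ℕ) (f : PS n) :
    spl S K i (X i₀ ^ k * f) = X i₀ ^ k * spl S K i f := by
  induction k with
  | zero => rw [pow_zero, one_mul, one_mul]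
  | succ k ih => rw [pow_succ', mul_assoc, spl_X_mul S K hi hi₀, ih, mul_assoc]

theorem wn_spl_le (ρ : Fin n → ℝ≥0∞) (i : Fin n) (f : PS n) :
    ρ i ^ K * wn ρ (spl S K i f) ≤ wn ρ f := by
  classical
  unfold wn
  rw [← ENNReal.tsum_mul_left]
  have hinj : Function.Injective (fun α : Fin n →₀ ℕ => α + Finsupp.single i K) :=
    add_left_injective _
  refine le_trans ?_ (ENNReal.tsum_comp_le_tsum_of_injective hinj (fun α => ‖coeff α f‖ₑ * wt ρ α))
  apply ENNReal.tsum_le_tsum
  intro α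
  rw [wt_add, wt_single, coeff_spl]
  split_ifs
  · apply le_of_eq
    ring
  · rw [enorm_zero, zero_mul, mul_zero]
    exact bot_le

theorem wn_low_le (ρ : Fin n → ℝ≥0∞) (f : PS n) : wn ρ (low S K f) ≤ wn ρ f := by
  unfold wn
  apply ENNReal.tsum_le_tsum
  intro α
  rw [coeff_low]
  split_ifs
  · exact le_rfl
  · rw [enorm_zero, zero_mul]
    exact bot_le

end spl

/-- membership in the ring of convergent power series by means of arbitrary radii -/
theorem mem_Cv_of_wn {n : ℕ} {ρ : Fin n → ℝ≥0∞} {f : PS n} (hρ : ∀ i, ρ i ≠ 0) (h : wn ρ f ≠ ∞) :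
    f ∈ Cv (Fin n) := by
  classical
  refine ⟨min 1 (Finset.univ.inf ρ), ?_, ?_⟩
  · apply ne_of_gt
    apply lt_min one_pos
    rw [Finset.lt_inf_iff (by exact ENNReal.zero_lt_top)]
    intro i _
    exact pos_iff_ne_zero.2 (hρ i)
  · refine ne_top_of_le_ne_top h (wn_mono (fun i => ?_) f)
    exact (min_le_right _ _).trans (Finset.inf_le (Finset.mem_univ i))

section fix

variable {m : ℕ}

/-- the variables `1, …, m` -/
def SS (m : ℕ) : Finset (Fin (m + 1)) := Finset.univ.erase 0

theorem zero_notMem_SS : (0 : Fin (m + 1)) ∉ SS m := Finset.notMem_erase _ _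

/-- the operator of the fixed point equation -/
noncomputable def TT (K : ℕ) (b : Fin (m + 1) → PS (m + 1)) (f : PS (m + 1)) : PS (m + 1) :=
  ∑ i ∈ SS m, b i * spl (SS m) K i f

theorem TT_sub (K : ℕ) (b : Fin (m + 1) → PS (m + 1)) (f g : PS (m + 1)) :
    TT K b (f - g) = TT K b f - TT K b g := by
  unfold TT
  rw [← Finset.sum_sub_distrib]
  apply Finset.sum_congr rfl
  intro i _
  rw [spl_sub, mul_sub]

theorem TT_X_pow_mul (K : ℕ) (b : Fin (m + 1) → PS (m + 1)) (k : ℕ) (f : PS (m + 1)) :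
    TT K b (X 0 ^ k * f) = X 0 ^ k * TT K b f := by
  unfold TT
  rw [Finset.mul_sum]
  apply Finset.sum_congr rfl
  intro i hi
  rw [spl_X_pow_mul _ _ hi zero_notMem_SS]
  ring

theorem exists_radii {K : ℕ} {b : Fin (m + 1) → PS (m + 1)} (hb : ∀ i, b i ∈ Cv (Fin (m + 1)))
    {x : PS (m + 1)} (hx : x ∈ Cv (Fin (m + 1))) :
    ∃ ρ : Fin (m + 1) → ℝ≥0∞, (∀ i, ρ i ≠ 0) ∧ wn ρ x ≠ ∞ ∧
      ∀ f, wn ρ (X 0 * TT K b f) ≤ wn ρ f / 2 := by
  classical
  obtain ⟨r, hr, hr1, hfin⟩ := exists_common_radius (Finset.univ : Finset (Option (Fin (m + 1))))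
    (f := fun o => o.elim x b) (by
      intro o _
      rcases o with _ | i
      · exact hx
      · exact hb i)
  have hfx : wn (cw (Fin (m + 1)) r) x ≠ ∞ := hfin none (Finset.mem_univ _)
  have hfb : ∀ i, wn (cw (Fin (m + 1)) r) (b i) ≠ ∞ := fun i => hfin (some i) (Finset.mem_univ _)
  have hrt : r ≠ ∞ := (lt_of_le_of_lt hr1 ENNReal.one_lt_top).ne
  set Λ : ℝ≥0∞ := ∑ i ∈ SS m, wn (cw (Fin (m + 1)) r) (b i) * (r ^ K)⁻¹ with hΛ
  have hΛt : Λ ≠ ∞ := by
    rw [hΛ]
    apply ENNReal.sum_ne_top.2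
    intro i _
    exact ENNReal.mul_ne_top (hfb i) (ENNReal.inv_ne_top.2 (pow_ne_zero _ hr))
  obtain ⟨s, hs0, hs1, hs⟩ := exists_small (A := Λ) (B := 1 / 2) hΛt (by norm_num)
  set ρ : Fin (m + 1) → ℝ≥0∞ := fun i => if i = 0 then s * r else r with hρ
  have hρr : ∀ i, ρ i ≤ r := by
    intro i
    rw [hρ]
    simp only
    split_ifs
    · calc s * r ≤ 1 * r := by gcongr
        _ = r := one_mul _
    · exact le_rfl
  have hle : ∀ f, wn ρ f ≤ wn (cw (Fin (m + 1)) r) f := fun f => wn_mono hρr f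
  refine ⟨ρ, ?_, ne_top_of_le_ne_top hfx (hle x), ?_⟩
  · intro i
    rw [hρ]
    simp only
    split_ifs
    · exact mul_ne_zero hs0 hr
    · exact hr
  · intro f
    have h1 : wn ρ (TT K b f) ≤ Λ * wn ρ f := by
      unfold TT
      refine (wn_sum_le _ _ _).trans ?_
      rw [hΛ, Finset.sum_mul]
      apply Finset.sum_le_sum
      intro i hi
      have hi0 : i ≠ 0 := Finset.ne_of_mem_erase hi
      have h2 : wn ρ (spl (SS m) K i f) ≤ (r ^ K)⁻¹ * wn ρ f := by
        have h3 := wn_spl_le (SS m) K ρ i f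
        have h4 : ρ i = r := by rw [hρ]; simp [hi0]
        rw [h4] at h3
        calc wn ρ (spl (SS m) K i f) = (r ^ K)⁻¹ * (r ^ K * wn ρ (spl (SS m) K i f)) := by
              rw [← mul_assoc, ENNReal.inv_mul_cancel (pow_ne_zero _ hr) (ENNReal.pow_ne_top hrt),
                one_mul]
          _ ≤ _ := by gcongr
      calc wn ρ (b i * spl (SS m) K i f) ≤ wn ρ (b i) * wn ρ (spl (SS m) K i f) := wn_mul_le _ _ _
        _ ≤ wn (cw (Fin (m + 1)) r) (b i) * ((r ^ K)⁻¹ * wn ρ f) := by
            gcongr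
            exact hle _
        _ = _ := by ring
    have hρ0 : ρ 0 = s * r := by rw [hρ]; simp
    calc wn ρ (X 0 * TT K b f) ≤ wn ρ (X 0) * wn ρ (TT K b f) := wn_mul_le _ _ _
      _ ≤ (s * r) * (Λ * wn ρ f) := by
          rw [wn_X, hρ0]
          gcongr
      _ = r * ((s * Λ) * wn ρ f) := by ring
      _ ≤ 1 * ((1 / 2) * wn ρ f) := by gcongr
      _ = wn ρ f / 2 := by rw [one_mul, one_div, mul_comm, div_eq_mul_inv]

/-- the fixed point equation has a convergent solution -/
theorem exists_fixed {K : ℕ} {b : Fin (m + 1) → PS (m + 1)} (hb : ∀ i, b i ∈ Cv (Fin (m + 1)))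
    {x : PS (m + 1)} (hx : x ∈ Cv (Fin (m + 1))) :
    ∃ y ∈ Cv (Fin (m + 1)), y = x + X 0 * TT K b y := by
  classical
  let F : ℕ → PS (m + 1) := fun N => Nat.rec 0 (fun _ v => x + X 0 * TT K b v) N
  have hF0 : F 0 = 0 := rfl
  have hFs : ∀ N, F (N + 1) = x + X 0 * TT K b (F N) := fun N => rfl
  have hdiff : ∀ N, X 0 ^ N ∣ F (N + 1) - F N := by
    intro N
    induction N with
    | zero => rw [pow_zero]; exact one_dvd _
    | succ N ih =>
      obtain ⟨g, hg⟩ := ih
      rw [hFs (N + 1), hFs N]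
      have h1 : x + X 0 * TT K b (F (N + 1)) - (x + X 0 * TT K b (F N)) =
          X 0 * TT K b (F (N + 1) - F N) := by
        rw [TT_sub]; ring
      rw [← hFs N] at h1 ⊢
      rw [hFs N, h1, hg, TT_X_pow_mul, ← mul_assoc, ← pow_succ']
      exact Dvd.intro _ rfl
  have hdiff2 : ∀ N k, X 0 ^ N ∣ F (N + k) - F N := by
    intro N k
    induction k with
    | zero => rw [add_zero, sub_self]; exact dvd_zero _
    | succ k ih =>
      have h1 : F (N + (k + 1)) - F N = (F (N + k + 1) - F (N + k)) + (F (N + k) - F N) := by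
        rw [← add_assoc]; ring
      rw [h1]
      exact dvd_add ((pow_dvd_pow _ (Nat.le_add_right N k)).trans (hdiff _)) ih
  let Y : PS (m + 1) := fun α => coeff α (F (α 0 + 1))
  have hY : ∀ α, coeff α Y = coeff α (F (α 0 + 1)) := fun α => rfl
  have hYF : ∀ α : Fin (m + 1) →₀ ℕ, ∀ N, α 0 + 1 ≤ N → coeff α (F N) = coeff α Y := by
    intro α N hN
    obtain ⟨k, rfl⟩ := Nat.exists_eq_add_of_le hN
    have h1 := (X_pow_dvd_iff.1 (hdiff2 (α 0 + 1) k)) α (Nat.lt_succ_self _)
    rw [map_sub, sub_eq_zero] at h1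
    rw [h1, hY]
  have hYd : ∀ N, X 0 ^ N ∣ Y - F N := by
    intro N
    rw [X_pow_dvd_iff]
    intro α hα
    rw [map_sub, hYF α N hα, sub_self]
  refine ⟨Y, ?_, ?_⟩
  · obtain ⟨ρ, hρ, hxf, hcon⟩ := exists_radii (K := K) hb hx
    apply mem_Cv_of_wn hρ
    have hFn : ∀ N, wn ρ (F N) ≤ 2 * wn ρ x := by
      intro N
      induction N with
      | zero => rw [hF0, wn_zero]; exact bot_le
      | succ N ih =>
        rw [hFs]
        calc wn ρ (x + X 0 * TT K b (F N)) ≤ wn ρ x + wn ρ (X 0 * TT K b (F N)) := wn_add_le _ _ _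
          _ ≤ wn ρ x + wn ρ (F N) / 2 := by gcongr; exact hcon _
          _ ≤ wn ρ x + (2 * wn ρ x) / 2 := by gcongr
          _ = 2 * wn ρ x := by
            rw [mul_comm, ENNReal.mul_div_cancel_right (by norm_num) (by norm_num)]
            ring
    exact ne_top_of_le_ne_top (ENNReal.mul_ne_top (by norm_num) hxf)
      (wn_le_of_eventually (F := F) hFn fun α => ⟨α 0 + 1, fun N hN => hYF α N hN⟩)
  · have h1 : ∀ N, X 0 ^ N ∣ Y - (x + X 0 * TT K b Y) := by
      intro N
      obtain ⟨g, hg⟩ := hYd N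
      have h2 : Y - (x + X 0 * TT K b Y) = (Y - F (N + 1)) - X 0 * TT K b (Y - F N) := by
        rw [TT_sub, hFs]; ring
      rw [h2, hg, TT_X_pow_mul]
      apply dvd_sub ((pow_dvd_pow _ (Nat.le_succ N)).trans (hYd (N + 1)))
      exact ⟨X 0 * TT K b g, by ring⟩
    rw [← sub_eq_zero]
    ext α
    rw [map_zero]
    exact X_pow_dvd_iff.1 (h1 (α 0 + 1)) α (Nat.lt_succ_self _)

end fix

end Pool.Agent.Helper341_polar
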