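import Mathlib
import Pool.Agent.Helper341_polar.Split
import Pool.Agent.Helper341_polar.Val

/-!
# Finiteness over the convergent power series in the first variable
-/

set_option autoImplicit false

namespace Pool.Agent.Helper341_polar

open MvPowerSeries ENNReal

section abs

variable {R O : Type} [CommRing R] [CommRing O] (j : R →+* O) (J : Ideal O) {ι : Type} [Fintype ι]
  (mon : ι → O)

theorem finite_of_comb (h : ∀ x, ∃ c : ι → R, x - ∑ e, j (c e) * mon e ∈ J) :
    ((Ideal.Quotient.mk J).comp j).Finite := by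
  classical
  let _ : Algebra R (O ⧸ J) := ((Ideal.Quotient.mk J).comp j).toAlgebra
  change Module.Finite R (O ⧸ J)
  refine ⟨⟨Finset.univ.image (fun e : ι => Ideal.Quotient.mk J (mon e)), ?_⟩⟩
  rw [eq_top_iff]
  intro x _
  obtain ⟨x, rfl⟩ := Ideal.Quotient.mk_surjective x
  obtain ⟨c, hc⟩ := h x
  have h1 : Ideal.Quotient.mk J x = ∑ e, (c e) • Ideal.Quotient.mk J (mon e) := by
    rw [← sub_eq_zero]
    have : ∑ e, (c e) • Ideal.Quotient.mk J (mon e) =
        Ideal.Quotient.mk J (∑ e, j (c e) * mon e) := by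
      rw [map_sum]
      apply Finset.sum_congr rfl
      intro e _
      rw [map_mul]
      rfl
    rw [this, ← map_sub, Ideal.Quotient.eq_zero_iff_mem]
    exact hc
  rw [h1]
  apply Submodule.sum_mem
  intro e _
  apply Submodule.smul_mem
  apply Submodule.subset_span
  rw [Finset.mem_coe, Finset.mem_image]
  exact ⟨e, Finset.mem_univ _, rfl⟩

theorem exists_monic_of_comb (h : ∀ x, ∃ c : ι → R, x - ∑ e, j (c e) * mon e ∈ J) (x : O) :
    ∃ q : Polynomial R, q.Monic ∧ q.eval₂ j x ∈ J := by
  obtain ⟨q, hq, hq2⟩ := (finite_of_comb j J mon h).to_isIntegral (Ideal.Quotient.mk J x)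
  refine ⟨q, hq, ?_⟩
  rw [← Ideal.Quotient.eq_zero_iff_mem, Polynomial.hom_eval₂]
  exact hq2

theorem noetherian_of_comb [IsNoetherianRing R]
    (h : ∀ x, ∃ c : ι → R, x - ∑ e, j (c e) * mon e ∈ J) : IsNoetherianRing (O ⧸ J) := by
  let _ : Algebra R (O ⧸ J) := ((Ideal.Quotient.mk J).comp j).toAlgebra
  have hf : Module.Finite R (O ⧸ J) := finite_of_comb j J mon h
  exact isNoetherian_of_tower R inferInstance

end abs

variable {m : ℕ}

/-- the convergent power series in `n` variables -/
abbrev CS (n : ℕ) : Type := ↥(Cv (Fin n))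

/-- the exponent of the first variable -/
noncomputable def em (m : ℕ) (k : ℕ) : Fin (m + 1) →₀ ℕ := Finsupp.single 0 k

theorem embDomain_punit (x : Unit →₀ ℕ) :
    Finsupp.embDomain (Function.Embedding.punit (0 : Fin (m + 1))) x = em m (x ()) := by
  have h : x = Finsupp.single () (x ()) := by
    ext
    simp
  conv_lhs => rw [h]
  rw [Finsupp.embDomain_single]
  rfl

theorem coeff_jj_em (r : MvPowerSeries Unit ℂ) (k : ℕ) :
    coeff (em m k) (jj r : PS (m + 1)) = coeff (Finsupp.single () k) r := by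
  have h := coeff_embDomain_rename (Function.Embedding.punit (0 : Fin (m + 1))) r
    (Finsupp.single () k)
  rw [embDomain_punit, Finsupp.single_eq_same] at h
  exact h

theorem coeff_jj_of_ne (r : MvPowerSeries Unit ℂ) {α : Fin (m + 1) →₀ ℕ} {i : Fin (m + 1)}
    (hi : i ≠ 0) (hα : α i ≠ 0) : coeff α (jj r : PS (m + 1)) = 0 := by
  have h : coeff α (rename (fun _ : Unit => (0 : Fin (m + 1))) r) = 0 := by
    apply coeff_rename_eq_zero
    rintro ⟨x, hx⟩
    apply hα
    rw [← hx]
    have h1 : x = Finsupp.single () (x ()) := by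
      ext
      simp
    rw [h1, Finsupp.mapDomain_single, Finsupp.single_eq_of_ne hi]
  exact h

theorem wn_jj (ρ : Fin (m + 1) → ℝ≥0∞) (r : MvPowerSeries Unit ℂ) :
    wn ρ (jj r) = wn (cw Unit (ρ 0)) r := by
  unfold wn
  have hinj : Function.Injective (fun x : Unit →₀ ℕ => em m (x ())) := by
    intro x y h
    have h1 : em m (x ()) 0 = em m (y ()) 0 := by
      have : em m (x ()) = em m (y ()) := h
      rw [this]
    rw [em, em, Finsupp.single_eq_same, Finsupp.single_eq_same] at h1
    ext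
    exact h1
  rw [← hinj.tsum_eq]
  · apply tsum_congr
    intro x
    have h : x = Finsupp.single () (x ()) := by
      ext
      simp
    rw [coeff_jj_em, ← h]
    congr 1
    conv_rhs => rw [h]
    rw [em, wt_single, wt_single]
  · intro α hα
    rw [Function.mem_support] at hα
    have h1 : ∀ i, i ≠ 0 → α i = 0 := by
      intro i hi
      by_contra hcon
      rw [coeff_jj_of_ne r hi hcon, enorm_zero, zero_mul] at hα
      exact hα rfl
    refine ⟨Finsupp.single () (α 0), ?_⟩
    ext i
    change em m ((Finsupp.single () (α 0) : Unit →₀ ℕ) ()) i = α i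
    rw [Finsupp.single_eq_same, em]
    by_cases hi : i = 0
    · rw [hi, Finsupp.single_eq_same]
    · rw [Finsupp.single_eq_of_ne hi, h1 i hi]

theorem jj_mem {r : MvPowerSeries Unit ℂ} (hr : r ∈ R1) : (jj r : PS (m + 1)) ∈ Cv (Fin (m + 1)) := by
  obtain ⟨t, ht, hfin⟩ := hr
  refine ⟨t, ht, ?_⟩
  rw [wn_jj]
  exact hfin

/-- the embedding of the convergent power series in one variable -/
noncomputable def jc : R1 →+* CS (m + 1) where
  toFun r := ⟨jj r.1, jj_mem r.2⟩
  map_one' := Subtype.ext (map_one jj)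
  map_mul' a b := Subtype.ext (map_mul jj a.1 b.1)
  map_zero' := Subtype.ext (map_zero jj)
  map_add' a b := Subtype.ext (map_add jj a.1 b.1)

theorem coe_jc (r : R1) : ((jc r : CS (m + 1)) : PS (m + 1)) = jj (r : MvPowerSeries Unit ℂ) := rfl

/-- the variables as convergent power series -/
noncomputable def xc {n : ℕ} (i : Fin n) : CS n := ⟨X i, X_mem_Cv i⟩

/-- the exponents of the monomials in the variables `1, …, m` -/
noncomputable def expo {K : ℕ} (e : Fin m → Fin K) : Fin (m + 1) →₀ ℕ :=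
  Finsupp.equivFunOnFinite.symm (Fin.cons 0 fun j => (e j : ℕ))

theorem expo_zero {K : ℕ} (e : Fin m → Fin K) : expo e 0 = 0 := rfl

theorem expo_succ {K : ℕ} (e : Fin m → Fin K) (j : Fin m) : expo e j.succ = e j := rfl

/-- the monomials -/
noncomputable def monc {K : ℕ} (e : Fin m → Fin K) : CS (m + 1) :=
  ⟨monomial (expo e) 1, monomial_mem_Cv _ _⟩

/-- the coefficient of a monomial, a power series in the first variable -/
noncomputable def cfe {K : ℕ} (e : Fin m → Fin K) (Y : PS (m + 1)) : MvPowerSeries Unit ℂ :=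
  fun u => coeff (expo e + em m (u ())) Y

theorem cfe_mem {K : ℕ} (e : Fin m → Fin K) {Y : PS (m + 1)} (hY : Y ∈ Cv (Fin (m + 1))) :
    cfe e Y ∈ R1 := by
  obtain ⟨t, ht, hfin⟩ := hY
  refine ⟨t, ht, ?_⟩
  have hinj : Function.Injective (fun x : Unit →₀ ℕ => expo e + em m (x ())) := by
    intro x y h
    have h0 : expo e + em m (x ()) = expo e + em m (y ()) := h
    have h1 := DFunLike.congr_fun h0 0
    rw [Finsupp.add_apply, Finsupp.add_apply, em, em, Finsupp.single_eq_same,
      Finsupp.single_eq_same] at h1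
    ext
    exact Nat.add_left_cancel h1
  have h1 : wt (cw (Fin (m + 1)) t) (expo e) * wn (cw Unit t) (cfe e Y) ≤
      wn (cw (Fin (m + 1)) t) Y := by
    unfold wn
    rw [← ENNReal.tsum_mul_left]
    refine le_trans ?_ (ENNReal.tsum_comp_le_tsum_of_injective hinj
      (fun α => ‖coeff α Y‖ₑ * wt (cw (Fin (m + 1)) t) α))
    apply ENNReal.tsum_le_tsum
    intro x
    have hx : x = Finsupp.single () (x ()) := by
      ext
      simp
    have h2 : wt (cw Unit t) x = wt (cw (Fin (m + 1)) t) (em m (x ())) := by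
      conv_lhs => rw [hx]
      rw [em, wt_single, wt_single]
    rw [wt_add, h2]
    apply le_of_eq
    change _ * (‖coeff (expo e + em m (x ())) Y‖ₑ * _) = _
    ring
  intro htop
  have h3 : wt (cw (Fin (m + 1)) t) (expo e) ≠ 0 := by
    unfold wt Finsupp.prod
    rw [Finset.prod_ne_zero_iff]
    intro i _
    exact pow_ne_zero _ ht
  rw [htop, ENNReal.mul_top h3, top_le_iff] at h1
  exact hfin h1

theorem coeff_term {K : ℕ} (e : Fin m → Fin K) (Y : PS (m + 1)) (α : Fin (m + 1) →₀ ℕ) :
    coeff α (jj (cfe e Y) * monomial (expo e) 1) =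
      if (∀ j : Fin m, α j.succ = e j) then coeff α Y else 0 := by
  classical
  rw [coeff_mul_monomial, mul_one]
  by_cases h : ∀ j : Fin m, α j.succ = e j
  · have h1 : α = expo e + em m (α 0) := by
      ext i
      refine Fin.cases ?_ (fun j => ?_) i
      · rw [Finsupp.add_apply, expo_zero, em, Finsupp.single_eq_same, zero_add]
      · rw [Finsupp.add_apply, expo_succ, em, Finsupp.single_eq_of_ne (Fin.succ_ne_zero j), add_zero,
          h j]
    rw [if_pos h]
    have h2 : expo e ≤ α := by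
      rw [h1]
      exact le_self_add
    rw [if_pos h2]
    have h3 : α - expo e = em m (α 0) := by
      conv_lhs => rw [h1]
      rw [add_tsub_cancel_left]
    rw [h3, coeff_jj_em]
    change coeff (expo e + em m ((Finsupp.single () (α 0)) ())) Y = _
    rw [Finsupp.single_eq_same, ← h1]
  · rw [if_neg h]
    split_ifs with h2
    · push Not at h
      obtain ⟨j, hj⟩ := h
      apply coeff_jj_of_ne _ (Fin.succ_ne_zero j)
      rw [Finsupp.tsub_apply, expo_succ]
      have h3 := h2 j.succ
      rw [expo_succ] at h3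
      omega
    · rfl

theorem low_eq {K : ℕ} (Y : PS (m + 1)) :
    low (SS m) K Y = ∑ e : Fin m → Fin K, jj (cfe e Y) * monomial (expo e) 1 := by
  classical
  ext α
  rw [map_sum, coeff_low]
  simp only [coeff_term]
  by_cases h : ∀ j ∈ SS m, α j < K
  · rw [if_pos h]
    have h1 : ∀ j : Fin m, α j.succ < K := fun j =>
      h j.succ (Finset.mem_erase.2 ⟨Fin.succ_ne_zero j, Finset.mem_univ _⟩)
    rw [Finset.sum_eq_single (fun j => (⟨α j.succ, h1 j⟩ : Fin K))]
    · rw [if_pos]
      intro j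
      rfl
    · intro e _ he
      rw [if_neg]
      intro h2
      apply he
      ext j
      exact (h2 j).symm
    · intro h2
      exact absurd (Finset.mem_univ _) h2
  · rw [if_neg h]
    symm
    apply Finset.sum_eq_zero
    intro e _
    rw [if_neg]
    intro h2
    apply h
    intro j hj
    obtain ⟨i, rfl⟩ := Fin.exists_succ_eq.2 (Finset.ne_of_mem_erase hj)
    rw [h2 i]
    exact (e i).2

/-- every convergent power series is a combination of monomials modulo `J`, with coefficients
in the convergent power series in the first variable -/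
theorem exists_comb {J : Ideal (CS (m + 1))} {K : ℕ}
    (hJ : ∀ i ∈ SS m, ∃ b : CS (m + 1), xc i ^ K - xc 0 * b ∈ J) (x : CS (m + 1)) :
    ∃ c : (Fin m → Fin K) → R1, x - ∑ e, jc (c e) * monc e ∈ J := by
  classical
  have hJ' : ∀ i : Fin (m + 1), ∃ b : CS (m + 1), i ∈ SS m → xc i ^ K - xc 0 * b ∈ J := by
    intro i
    by_cases hi : i ∈ SS m
    · obtain ⟨b, hb⟩ := hJ i hi
      exact ⟨b, fun _ => hb⟩
    · exact ⟨0, fun h => absurd h hi⟩
  choose b hb using hJ'
  obtain ⟨Y, hY, hYeq⟩ := exists_fixed (K := K) (b := fun i => (b i : PS (m + 1)))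
    (fun i => (b i).2) x.2
  obtain ⟨t, ht, hfin⟩ := hY
  have hY : Y ∈ Cv (Fin (m + 1)) := ⟨t, ht, hfin⟩
  have hsp : ∀ i, spl (SS m) K i Y ∈ Cv (Fin (m + 1)) := by
    intro i
    refine ⟨t, ht, ?_⟩
    intro htop
    have h1 := wn_spl_le (SS m) K (cw (Fin (m + 1)) t) i Y
    rw [htop, ENNReal.mul_top (pow_ne_zero _ ht), top_le_iff] at h1
    exact hfin h1
  refine ⟨fun e => ⟨cfe e Y, cfe_mem e hY⟩, ?_⟩
  have h1 : x - ∑ e, jc (⟨cfe e Y, cfe_mem e hY⟩ : R1) * monc (K := K) e =
      ∑ i ∈ SS m, (xc i ^ K - xc 0 * b i) * ⟨spl (SS m) K i Y, hsp i⟩ := by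
    apply Subtype.ext
    have h2 : ((x - ∑ e, jc (⟨cfe e Y, cfe_mem e hY⟩ : R1) * monc (K := K) e : CS (m + 1)) :
        PS (m + 1)) = (x : PS (m + 1)) - low (SS m) K Y := by
      rw [low_eq]
      push_cast
      rfl
    have h3 : ((∑ i ∈ SS m, (xc i ^ K - xc 0 * b i) * ⟨spl (SS m) K i Y, hsp i⟩ : CS (m + 1)) :
        PS (m + 1)) = ∑ i ∈ SS m, (X i ^ K - X 0 * (b i : PS (m + 1))) * spl (SS m) K i Y := by
      push_cast
      rfl
    rw [h2, h3]
    have h4 := split_eq (SS m) K Y
    have h5 : ∑ i ∈ SS m, (X i ^ K - X 0 * (b i : PS (m + 1))) * spl (SS m) K i Y =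
        ∑ i ∈ SS m, X i ^ K * spl (SS m) K i Y - X 0 * TT K (fun i => (b i : PS (m + 1))) Y := by
      unfold TT
      rw [Finset.mul_sum, ← Finset.sum_sub_distrib]
      apply Finset.sum_congr rfl
      intro i _
      ring
    rw [h5]
    linear_combination h4 - hYeq
  rw [h1]
  apply Ideal.sum_mem
  intro i hi
  exact Ideal.mul_mem_right _ _ (hb i hi)

/-- integrality -/
theorem exists_monic {J : Ideal (CS (m + 1))} {K : ℕ}
    (hJ : ∀ i ∈ SS m, ∃ b : CS (m + 1), xc i ^ K - xc 0 * b ∈ J) (x : CS (m + 1)) :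
    ∃ q : Polynomial R1, q.Monic ∧ q.eval₂ jc x ∈ J :=
  exists_monic_of_comb jc J (monc (K := K)) (exists_comb hJ) x

end Pool.Agent.Helper341_polar
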