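import Mathlib
import Pool.Agent.Helper341_polar.Usc
import Pool.Agent.Helper341_polar.FinC

/-!
# The local ring of convergent power series and its comparison with the formal one
-/

set_option autoImplicit false

namespace Pool.Agent.Helper341_polar

open MvPowerSeries ENNReal IsLocalRing

section unit

variable {σ : Type}

/-- inverses of convergent power series are convergent -/
theorem exists_inv_mem {f : MvPowerSeries σ ℂ} (hf : f ∈ Cv σ) (h0 : constantCoeff f ≠ 0) :
    ∃ g ∈ Cv σ, f * g = 1 := by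
  set c := constantCoeff f with hc
  set w : MvPowerSeries σ ℂ := 1 - C c⁻¹ * f with hw
  have hwm : w ∈ Cv σ := Subalgebra.sub_mem _ (Subalgebra.one_mem _)
    (Subalgebra.mul_mem _ (C_mem_Cv _) hf)
  have hw0 : constantCoeff w = 0 := by
    rw [hw, map_sub, map_one, map_mul, constantCoeff_C, ← hc, inv_mul_cancel₀ h0, sub_self]
  have hu : IsUnit (1 - w) := by
    rw [isUnit_iff_constantCoeff, map_sub, map_one, hw0, sub_zero]
    exact isUnit_one
  obtain ⟨v, hv⟩ := hu.exists_right_inv
  set u : MvPowerSeries σ ℂ := v - 1 with hu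
  have hv1 : v = w * v + 1 := by linear_combination hv
  have hum : u ∈ Cv σ := by
    apply mem_Cv_of_fixed (d := 1) (h := fun _ => w)
    · intro _; exact hwm
    · exact hw0
    · exact hw0
    · have h1 := congrArg constantCoeff hv1
      rw [map_add, map_mul, hw0, zero_mul, zero_add, map_one] at h1
      rw [hu, map_sub, h1, map_one, sub_self]
    · rw [Finset.sum_range_succ, Finset.sum_range_one, pow_zero, pow_one, hu]
      linear_combination hv1
  refine ⟨C c⁻¹ * v, Subalgebra.mul_mem _ (C_mem_Cv _) ?_, ?_⟩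
  · have : v = u + 1 := by rw [hu]; ring
    rw [this]
    exact Subalgebra.add_mem _ hum (Subalgebra.one_mem _)
  · have : f * (C c⁻¹ * v) = (C c⁻¹ * f) * v := by ring
    rw [this]
    have h2 : C c⁻¹ * f = 1 - w := by rw [hw]; ring
    rw [h2, hv]

theorem isUnit_Cv_iff {f : Cv σ} : IsUnit f ↔ constantCoeff (f : MvPowerSeries σ ℂ) ≠ 0 := by
  constructor
  · intro h
    have h1 : IsUnit (constantCoeff (f : MvPowerSeries σ ℂ)) :=
      (h.map (Cv σ).val).map (constantCoeff (σ := σ) (R := ℂ))
    exact h1.ne_zero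
  · intro h
    obtain ⟨g, hg, hfg⟩ := exists_inv_mem f.2 h
    exact IsUnit.of_mul_eq_one ⟨g, hg⟩ (Subtype.ext hfg)

instance : IsLocalRing (Cv σ) := by
  apply IsLocalRing.of_nonunits_add
  intro a b ha hb
  rw [mem_nonunits_iff, isUnit_Cv_iff, not_not] at ha hb ⊢
  rw [Subalgebra.coe_add, map_add, ha, hb, add_zero]

theorem mem_maxC_iff {f : Cv σ} :
    f ∈ maximalIdeal (Cv σ) ↔ constantCoeff (f : MvPowerSeries σ ℂ) = 0 := by
  rw [mem_maximalIdeal, mem_nonunits_iff, isUnit_Cv_iff, not_not]

end unit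

section pow

variable {n : ℕ}

/-- the inclusion -/
noncomputable abbrev inc (n : ℕ) : CS n →ₐ[ℂ] PS n := (Cv (Fin n)).val

theorem xc_mem_max (i : Fin n) : (xc i : CS n) ∈ maximalIdeal (CS n) := by
  rw [mem_maxC_iff]
  exact constantCoeff_X i

theorem exists_decompC (f : CS n) (h0 : constantCoeff (f : PS n) = 0) (k : ℕ)
    (hk : ∀ α : Fin n →₀ ℕ, α.degree < k + 1 → coeff α (f : PS n) = 0) :
    ∃ g : Fin n → CS n, f = ∑ i, xc i * g i ∧
      ∀ i, ∀ α : Fin n →₀ ℕ, α.degree < k → coeff α (g i : PS n) = 0 := by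
  classical
  obtain ⟨t, ht, hfin⟩ := f.2
  have hsp : ∀ i, spl Finset.univ 1 i (f : PS n) ∈ Cv (Fin n) := by
    intro i
    refine ⟨t, ht, ?_⟩
    intro htop
    have h1 := wn_spl_le Finset.univ 1 (cw (Fin n) t) i (f : PS n)
    rw [htop, ENNReal.mul_top (pow_ne_zero _ ht), top_le_iff] at h1
    exact hfin h1
  refine ⟨fun i => ⟨spl Finset.univ 1 i (f : PS n), hsp i⟩, ?_, ?_⟩
  · apply Subtype.ext
    have h1 := split_eq Finset.univ 1 (f : PS n)
    have h2 : low Finset.univ 1 (f : PS n) = 0 := by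
      ext α
      rw [coeff_low, map_zero]
      split_ifs with hα
      · have : α = 0 := by
          ext i
          have := hα i (Finset.mem_univ i)
          rw [Finsupp.zero_apply]
          omega
        rw [this, coeff_zero_eq_constantCoeff_apply, h0]
      · rfl
    rw [h2, zero_add] at h1
    conv_lhs => rw [h1]
    push_cast
    apply Finset.sum_congr rfl
    intro i _
    rw [pow_one]
    rfl
  · intro i α hα
    change coeff α (spl Finset.univ 1 i (f : PS n)) = 0
    rw [coeff_spl]
    split_ifs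
    · apply hk
      rw [map_add, Finsupp.degree_single]
      omega
    · rfl

theorem mem_maxC_pow_of (k : ℕ) : ∀ f : CS n,
    (∀ α : Fin n →₀ ℕ, α.degree < k → coeff α (f : PS n) = 0) → f ∈ maximalIdeal (CS n) ^ k := by
  induction k with
  | zero => intro f _; rw [pow_zero, Ideal.one_eq_top]; trivial
  | succ k ih =>
    intro f hf
    have h0 : constantCoeff (f : PS n) = 0 := by
      rw [← coeff_zero_eq_constantCoeff_apply]
      apply hf
      rw [map_zero]
      omega
    obtain ⟨g, hg, hg2⟩ := exists_decompC f h0 k hf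
    rw [hg, pow_succ']
    apply Ideal.sum_mem
    intro i _
    exact Ideal.mul_mem_mul (xc_mem_max i) (ih _ (hg2 i))

theorem map_maxC_le : (maximalIdeal (CS n)).map (inc n) ≤ maximalIdeal (PS n) := by
  rw [Ideal.map_le_iff_le_comap]
  intro x hx
  rw [Ideal.mem_comap, mem_max_iff]
  exact mem_maxC_iff.1 hx

theorem mem_maxC_pow_iff (k : ℕ) {f : CS n} :
    f ∈ maximalIdeal (CS n) ^ k ↔ (f : PS n) ∈ maximalIdeal (PS n) ^ k := by
  constructor
  · intro h
    have h1 : inc n f ∈ (maximalIdeal (CS n) ^ k).map (inc n) := Ideal.mem_map_of_mem _ h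
    rw [Ideal.map_pow] at h1
    exact Ideal.pow_right_mono map_maxC_le k h1
  · intro h
    exact mem_maxC_pow_of k f (mem_max_pow_iff k |>.1 h)

theorem maxC_fg : (maximalIdeal (CS n)).FG := by
  classical
  refine ⟨Finset.univ.image xc, le_antisymm ?_ ?_⟩
  · rw [Ideal.span_le]
    intro x hx
    rw [Finset.mem_coe, Finset.mem_image] at hx
    obtain ⟨i, -, rfl⟩ := hx
    exact xc_mem_max i
  · intro f hf
    rw [mem_maxC_iff] at hf
    obtain ⟨g, hg, -⟩ := exists_decompC f hf 0 (by
      intro α hα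
      have : α = 0 := by
        have h1 : α.degree = 0 := by omega
        rwa [Finsupp.degree_eq_zero_iff] at h1
      rw [this, coeff_zero_eq_constantCoeff_apply, hf])
    rw [hg]
    apply Ideal.sum_mem
    intro i _
    apply Ideal.mul_mem_right
    apply Ideal.subset_span
    rw [Finset.mem_coe, Finset.mem_image]
    exact ⟨i, Finset.mem_univ i, rfl⟩

theorem nakC {J : Ideal (CS n)} {j : ℕ}
    (h : maximalIdeal (CS n) ^ j ≤ J ⊔ maximalIdeal (CS n) ^ (j + 1)) :
    maximalIdeal (CS n) ^ j ≤ J := by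
  apply Submodule.le_of_le_smul_of_le_jacobson_bot (I := maximalIdeal (CS n))
    (maxC_fg.pow) (IsLocalRing.maximalIdeal_le_jacobson _)
  rw [smul_eq_mul, ← pow_succ']
  exact h

/-- polynomials are dense -/
theorem exists_approx (k : ℕ) (f : PS n) : ∃ g : CS n, f - g ∈ maximalIdeal (PS n) ^ k := by
  classical
  refine ⟨⟨∑ α : Idx n k, monomial α.1 (coeff α.1 f), Subalgebra.sum_mem _
    fun α _ => monomial_mem_Cv _ _⟩, ?_⟩
  rw [mem_max_pow_iff]
  intro β hβ
  rw [map_sub]
  change coeff β f - coeff β (∑ α : Idx n k, monomial α.1 (coeff α.1 f)) = 0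
  rw [map_sum, Finset.sum_eq_single (⟨β, hβ⟩ : Idx n k)]
  · rw [coeff_monomial_same, sub_self]
  · intro α _ hα
    rw [coeff_monomial_ne]
    rintro rfl
    exact hα rfl
  · intro h
    exact absurd (Finset.mem_univ _) h

/-- ideals of the form `J + 𝔪 ^ k` are contracted -/
theorem comap_sup (J : Ideal (CS n)) (k : ℕ) :
    (J.map (inc n) ⊔ maximalIdeal (PS n) ^ k).comap (inc n) = J ⊔ maximalIdeal (CS n) ^ k := by
  apply le_antisymm
  · intro x hx
    rw [Ideal.mem_comap] at hx
    obtain ⟨y, hy, w, hw, hyw⟩ := Submodule.mem_sup.1 hx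
    -- approximate `y` by an element of `J`
    have h1 : ∀ y ∈ J.map (inc n), ∃ z ∈ J, y - (z : PS n) ∈ maximalIdeal (PS n) ^ k := by
      intro y hy
      refine Submodule.span_induction (p := fun y _ => ∃ z ∈ J, y - (z : PS n) ∈
        maximalIdeal (PS n) ^ k) ?_ ?_ ?_ ?_ hy
      · rintro _ ⟨z, hz, rfl⟩
        refine ⟨z, hz, ?_⟩
        change inc n z - inc n z ∈ _
        rw [sub_self]
        exact Ideal.zero_mem _
      · exact ⟨0, J.zero_mem, by simp⟩
      · rintro a b - - ⟨z, hz, h1⟩ ⟨z', hz', h2⟩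
        refine ⟨z + z', J.add_mem hz hz', ?_⟩
        have : a + b - ((z + z' : CS n) : PS n) = (a - z) + (b - z') := by
          push_cast; ring
        rw [this]
        exact Ideal.add_mem _ h1 h2
      · rintro a b - ⟨z, hz, h1⟩
        obtain ⟨c, hc⟩ := exists_approx k a
        refine ⟨c * z, J.mul_mem_left c hz, ?_⟩
        have : a • b - ((c * z : CS n) : PS n) = a * (b - z) + (a - c) * z := by
          push_cast
          rw [smul_eq_mul]
          ring
        rw [this]
        exact Ideal.add_mem _ (Ideal.mul_mem_left _ _ h1) (Ideal.mul_mem_right _ _ hc)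
    obtain ⟨z, hz, hyz⟩ := h1 y hy
    have h2 : x - z ∈ maximalIdeal (CS n) ^ k := by
      rw [mem_maxC_pow_iff]
      have : ((x - z : CS n) : PS n) = (y - z) + w := by
        have h3 : (x : PS n) = y + w := hyw.symm
        push_cast
        rw [h3]
        ring
      rw [this]
      exact Ideal.add_mem _ hyz hw
    have : x = z + (x - z) := by ring
    rw [this]
    exact Submodule.add_mem_sup hz h2
  · apply sup_le
    · intro x hx
      exact Ideal.mem_sup_left (Ideal.mem_map_of_mem _ hx)
    · intro x hx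
      exact Ideal.mem_sup_right ((mem_maxC_pow_iff k).1 hx)

/-- the colength of an ideal of convergent power series -/
noncomputable def colenC (J : Ideal (CS n)) : ℕ∞ := Module.length ℂ (CS n ⧸ J)

theorem colenC_anti {J J' : Ideal (CS n)} (h : J ≤ J') : colenC J' ≤ colenC J :=
  length_anti (O := CS n) (K := CS n) h

theorem colenC_sup (J : Ideal (CS n)) (k : ℕ) :
    colenC (J ⊔ maximalIdeal (CS n) ^ k) = colen (J.map (inc n) ⊔ maximalIdeal (PS n) ^ k) := by
  unfold colenC colen
  let F : CS n →ₐ[ℂ] (PS n ⧸ (J.map (inc n) ⊔ maximalIdeal (PS n) ^ k)) :=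
    (Ideal.Quotient.mkₐ ℂ _).comp (inc n)
  have hF : Function.Surjective F := by
    intro y
    obtain ⟨y, rfl⟩ := Ideal.Quotient.mk_surjective y
    obtain ⟨g, hg⟩ := exists_approx k y
    refine ⟨g, ?_⟩
    change Ideal.Quotient.mk _ (g : PS n) = Ideal.Quotient.mk _ y
    rw [eq_comm, Ideal.Quotient.eq]
    exact Ideal.mem_sup_right hg
  have hker : RingHom.ker F = J ⊔ maximalIdeal (CS n) ^ k := by
    rw [← comap_sup]
    ext x
    rw [RingHom.mem_ker, Ideal.mem_comap]
    exact Ideal.Quotient.eq_zero_iff_mem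
  exact ((Ideal.quotientEquivAlgOfEq ℂ hker).symm.trans
    (Ideal.quotientKerAlgEquivOfSurjective hF)).toLinearEquiv.length_eq

theorem pow_le_iff {J : Ideal (CS n)} {k : ℕ} :
    maximalIdeal (CS n) ^ k ≤ J ↔ maximalIdeal (PS n) ^ k ≤ J.map (inc n) := by
  constructor
  · intro h
    apply nak
    intro y hy
    obtain ⟨g, hg⟩ := exists_approx (k + 1) y
    have h1 : (g : PS n) ∈ maximalIdeal (PS n) ^ k := by
      have : (g : PS n) = y - (y - g) := by ring
      rw [this]
      exact Ideal.sub_mem _ hy (Ideal.pow_le_pow_right (Nat.le_succ k) hg)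
    have h2 : y = g + (y - g) := by ring
    rw [h2]
    exact Submodule.add_mem_sup (Ideal.mem_map_of_mem (inc n) (h ((mem_maxC_pow_iff k).2 h1))) hg
  · intro h
    apply nakC
    intro x hx
    rw [← comap_sup, Ideal.mem_comap]
    exact Ideal.mem_sup_left (h ((mem_maxC_pow_iff k).1 hx))

/-- the colength can be computed in the ring of formal power series -/
theorem colenC_eq (J : Ideal (CS n)) : colenC J = colen (J.map (inc n)) := by
  have key : ∀ D : ℕ, (∀ k, colen (J.map (inc n) ⊔ maximalIdeal (PS n) ^ k) ≤ D) →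
      colenC J = colen (J.map (inc n)) := by
    intro D hD
    have h1 : maximalIdeal (PS n) ^ D ≤ J.map (inc n) := nak (pow_le_of_colen (hD (D + 1)))
    have h2 : maximalIdeal (CS n) ^ D ≤ J := pow_le_iff.2 h1
    have h3 := colenC_sup J D
    rwa [sup_eq_left.2 h1, sup_eq_left.2 h2] at h3
  by_cases h1 : colen (J.map (inc n)) = ⊤
  · by_cases h2 : colenC J = ⊤
    · rw [h1, h2]
    · obtain ⟨D, hD⟩ := ENat.ne_top_iff_exists.1 h2
      apply key D
      intro k
      rw [← colenC_sup, hD]
      exact colenC_anti le_sup_left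
  · obtain ⟨D, hD⟩ := ENat.ne_top_iff_exists.1 h1
    apply key D
    intro k
    rw [hD]
    exact colen_anti le_sup_left

theorem colenC_ne_top_iff {J : Ideal (CS n)} :
    colenC J ≠ ⊤ ↔ ∃ k, maximalIdeal (CS n) ^ k ≤ J := by
  rw [colenC_eq, colen_ne_top_iff]
  simp only [pow_le_iff]

end pow

end Pool.Agent.Helper341_polar
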