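import Mathlib
import Pool.Agent.Helper341_polar.Hahn
import Pool.Agent.Helper341_polar.CsRing

/-!
# Convergent power series in one variable: discrete valuation ring, integral elements of the
field of Hahn series
-/

set_option autoImplicit false

namespace Pool.Agent.Helper341_polar

open MvPowerSeries IsLocalRing

/-- the variable -/
noncomputable def x1 : R1 := ⟨X (), X_mem_Cv ()⟩

theorem exists_x1_pow {w : R1} (hw : w ≠ 0) : ∃ n : ℕ, Associated (x1 ^ n) w := by
  have hw' : (w : MvPowerSeries Unit ℂ) ≠ 0 := by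
    intro h
    exact hw (Subtype.ext h)
  obtain ⟨e, v, hv, hv0⟩ := exists_X_pow_mul hw'
  have hvm : v ∈ R1 := Cv_of_X_pow_mul (i := ()) (k := e) (by rw [← hv]; exact w.2)
  have hu : IsUnit (⟨v, hvm⟩ : R1) := isUnit_Cv_iff.2 hv0
  refine ⟨e, hu.unit, ?_⟩
  apply Subtype.ext
  rw [hv]
  rfl

theorem x1_not_unit : ¬ IsUnit x1 := by
  rw [isUnit_Cv_iff, not_not]
  exact constantCoeff_X ()

theorem x1_ne_zero : x1 ≠ 0 := by
  intro h
  have h1 : (X () : MvPowerSeries Unit ℂ) = 0 := congrArg Subtype.val h
  have h2 := congrArg (coeff (Finsupp.single () 1)) h1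
  rw [map_zero] at h2
  have h3 : coeff (Finsupp.single () 1) (X () : MvPowerSeries Unit ℂ) = 1 := by
    classical
    rw [coeff_X, if_pos rfl]
  rw [h3] at h2
  exact one_ne_zero h2

theorem x1_irreducible : Irreducible x1 := by
  refine ⟨x1_not_unit, ?_⟩
  intro a b hab
  by_contra hcon
  push Not at hcon
  rw [isUnit_Cv_iff, isUnit_Cv_iff, not_not, not_not] at hcon
  have h1 : (X () : MvPowerSeries Unit ℂ) = (a : MvPowerSeries Unit ℂ) * b :=
    congrArg Subtype.val hab
  have h2 : ((2 : ℕ) : ℕ∞) ≤ (X () : MvPowerSeries Unit ℂ).order := by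
    rw [h1]
    refine le_trans ?_ le_order_mul
    have h3 := one_le_order_iff_constCoeff_eq_zero.2 hcon.1
    have h4 := one_le_order_iff_constCoeff_eq_zero.2 hcon.2
    calc ((2 : ℕ) : ℕ∞) = 1 + 1 := by norm_num
      _ ≤ _ := add_le_add h3 h4
  have h3 : coeff (Finsupp.single () 1) (X () : MvPowerSeries Unit ℂ) = 0 := by
    apply coeff_of_lt_order
    refine lt_of_lt_of_le ?_ h2
    rw [Finsupp.degree_single]
    exact_mod_cast one_lt_two
  have h4 : coeff (Finsupp.single () 1) (X () : MvPowerSeries Unit ℂ) = 1 := by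
    classical
    rw [coeff_X, if_pos rfl]
  rw [h4] at h3
  exact one_ne_zero h3

instance : IsDiscreteValuationRing R1 :=
  IsDiscreteValuationRing.ofHasUnitMulPowIrreducibleFactorization
    ⟨x1, x1_irreducible, fun {_} hw => exists_x1_pow hw⟩

/-- the inclusion in the ring of formal power series -/
noncomputable abbrev inc1 : R1 →+* PowerSeries ℂ := algebraMap R1 (MvPowerSeries Unit ℂ)

theorem inc1_inj : Function.Injective inc1 := Subtype.val_injective

/-- the embedding in the field of Hahn series -/
noncomputable abbrev iotac : R1 →+* HS := iota.comp inc1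

theorem iotac_inj : Function.Injective iotac := iota_inj.comp inc1_inj

/-- an element of the valuation ring which is algebraic over the convergent power series is
integral over them -/
theorem integral_of_VR_conv {α : HS} (hα : α ∈ VR) (p : Polynomial R1) (hp : p ≠ 0)
    (hroot : p.eval₂ iotac α = 0) : ∃ q : Polynomial R1, q.Monic ∧ q.eval₂ iotac α = 0 := by
  classical
  have htw : tw.comp iotac = iotac := by
    ext1 r
    exact tw_iota (inc1 r)
  -- the orbit
  have horb : ∀ k : ℕ, p.eval₂ iotac (tw^[k] α) = 0 := by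
    intro k
    induction k with
    | zero => exact hroot
    | succ k ih =>
      rw [Function.iterate_succ_apply', ← htw, ← Polynomial.hom_eval₂, ih, map_zero]
  have hpm : p.map iotac ≠ 0 := (Polynomial.map_ne_zero_iff iotac_inj).2 hp
  have hfin : (Set.range fun k : ℕ => tw^[k] α).Finite := by
    apply ((p.map iotac).roots.toFinset.finite_toSet).subset
    rintro _ ⟨k, rfl⟩
    simp only [Finset.mem_coe, Multiset.mem_toFinset]
    rw [Polynomial.mem_roots hpm, Polynomial.IsRoot.def, Polynomial.eval_map]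
    exact horb k
  set S : Finset HS := hfin.toFinset with hS
  have hmem : ∀ x, x ∈ S ↔ ∃ k : ℕ, tw^[k] α = x := by
    intro x
    rw [hS, Set.Finite.mem_toFinset, Set.mem_range]
  have hSV : ∀ x ∈ S, x ∈ VR := by
    intro x hx
    obtain ⟨k, rfl⟩ := (hmem x).1 hx
    clear hx
    induction k with
    | zero => exact hα
    | succ k ih =>
      rw [Function.iterate_succ_apply']
      exact tw_VR ih
  have hinj : Function.Injective tw := tw.injective
  have himg : S.image tw = S := by
    apply Finset.eq_of_subset_of_card_le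
    · intro x hx
      rw [Finset.mem_image] at hx
      obtain ⟨y, hy, rfl⟩ := hx
      obtain ⟨k, rfl⟩ := (hmem y).1 hy
      exact (hmem _).2 ⟨k + 1, Function.iterate_succ_apply' _ _ _⟩
    · rw [Finset.card_image_of_injective _ hinj]
  set Q : Polynomial HS := ∏ s ∈ S, (Polynomial.X - Polynomial.C s) with hQ
  have hQtw : Q.map tw = Q := by
    rw [hQ, Polynomial.map_prod]
    conv_rhs => rw [← himg]
    rw [Finset.prod_image (fun a _ b _ h => hinj h)]
    apply Finset.prod_congr rfl
    intro s _
    rw [Polynomial.map_sub, Polynomial.map_X, Polynomial.map_C]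
  -- subrings which contain the orbit contain the coefficients
  have hsub : ∀ B : Subring HS, (∀ s ∈ S, s ∈ B) → ∀ n, Q.coeff n ∈ B := by
    intro B hB
    have h1 : Q ∈ Polynomial.lifts B.subtype := by
      rw [hQ]
      apply prod_mem
      intro s hs
      rw [Polynomial.lifts_iff_coeff_lifts]
      intro n
      rw [Polynomial.coeff_sub, Polynomial.coeff_X, Polynomial.coeff_C]
      have h2 := hB s hs
      refine ⟨⟨(if 1 = n then 1 else 0) - (if n = 0 then s else 0), ?_⟩, rfl⟩
      apply B.sub_mem
      · split_ifs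
        · exact B.one_mem
        · exact B.zero_mem
      · split_ifs
        · exact h2
        · exact B.zero_mem
    intro n
    obtain ⟨y, hy⟩ := (Polynomial.lifts_iff_coeff_lifts _).1 h1 n
    rw [← hy]
    exact y.2
  have hQV : ∀ n, Q.coeff n ∈ VR := hsub VR hSV
  have hQr : ∀ n, ∃ r, iota r = Q.coeff n := by
    intro n
    apply mem_range_iota
    intro q hq
    have h1 : tw (Q.coeff n) = Q.coeff n := by
      conv_rhs => rw [← hQtw]
      rw [Polynomial.coeff_map]
    have h2 : chi q * (Q.coeff n).coeff q = (Q.coeff n).coeff q := by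
      rw [← tw_coeff, h1]
    have h3 : chi q = 1 := by
      apply mul_right_cancel₀ hq
      rw [h2, one_mul]
    obtain ⟨m, rfl⟩ := (chi_eq_one_iff q).1 h3
    have h4 : 0 ≤ m := by
      by_contra hcon
      push Not at hcon
      exact hq (hQV n _ (by exact_mod_cast hcon))
    refine ⟨m.toNat, ?_⟩
    have : ((m.toNat : ℤ) : ℚ) = (m : ℚ) := by rw [Int.toNat_of_nonneg h4]
    rw [← this, Int.cast_natCast]
  let _ : Algebra R1 HS := iotac.toAlgebra
  have hQa : ∀ n, IsAlgebraic R1 (Q.coeff n) := by
    intro n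
    exact hsub (Subalgebra.algebraicClosure R1 HS).toSubring (by
      intro s hs
      obtain ⟨k, rfl⟩ := (hmem s).1 hs
      exact ⟨p, hp, horb k⟩) n
  have hQc : ∀ n, ∃ r : R1, iotac r = Q.coeff n := by
    intro n
    obtain ⟨r, hr⟩ := hQr n
    obtain ⟨g, hg, hg2⟩ := hQa n
    have h1 : g.eval₂ iotac (iota r) = 0 := by
      rw [hr]
      exact hg2
    rw [← Polynomial.hom_eval₂] at h1
    have h2 : g.eval₂ inc1 r = 0 := iota_inj (by rw [h1, map_zero])
    have h3 : r ∈ R1 := mem_R1_of_root hg (by rw [Polynomial.eval_map]; exact h2)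
    exact ⟨⟨r, h3⟩, hr⟩
  have hlift : Q ∈ Polynomial.lifts iotac := by
    rw [Polynomial.lifts_iff_coeff_lifts]
    intro n
    obtain ⟨r, hr⟩ := hQc n
    exact ⟨r, hr⟩
  have hQm : Q.Monic := Polynomial.monic_prod_of_monic _ _ fun s _ => Polynomial.monic_X_sub_C s
  obtain ⟨q, hq1, -, hq3⟩ := Polynomial.lifts_and_natDegree_eq_and_monic hlift hQm
  refine ⟨q, hq3, ?_⟩
  rw [← Polynomial.eval_map, hq1, hQ, Polynomial.eval_prod]
  apply Finset.prod_eq_zero ((hmem α).2 ⟨0, rfl⟩)
  simp

end Pool.Agent.Helper341_polar
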