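import Mathlib
import Pool.Agent.Helper341_polar.Colen
import Pool.Agent.Helper341_polar.ConvHahn

/-!
# Branches of curves defined by convergent power series
-/

set_option autoImplicit false

namespace Pool.Agent.Helper341_polar

open IsLocalRing MvPowerSeries Pointwise

section general

variable {O : Type} [CommRing O] [Algebra ℂ O]

theorem len_sup_span (I : Ideal O) (g : O) :
    Module.length ℂ (O ⧸ (I ⊔ Ideal.span {g})) =
      Module.length ℂ ((O ⧸ I) ⧸ (g • (⊤ : Submodule O (O ⧸ I)))) := by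
  have h1 : (g • (⊤ : Submodule O (O ⧸ I))) = Submodule.map (Submodule.mkQ I) (Ideal.span {g}) := by
    ext x
    constructor
    · intro hx
      obtain ⟨y, -, rfl⟩ := (Submodule.mem_smul_pointwise_iff_exists _ _ _).1 hx
      obtain ⟨y, rfl⟩ := Submodule.mkQ_surjective _ y
      refine ⟨g * y, Ideal.mul_mem_right _ _ (Ideal.mem_span_singleton_self g), ?_⟩
      rw [← smul_eq_mul, map_smul]
    · rintro ⟨y, hy, rfl⟩
      obtain ⟨z, rfl⟩ := Ideal.mem_span_singleton'.1 hy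
      rw [mul_comm, ← smul_eq_mul, map_smul]
      exact Submodule.smul_mem_pointwise_smul _ _ _ trivial
  rw [h1]
  exact ((Submodule.quotientQuotientEquivQuotientSup I (Ideal.span {g})).restrictScalars ℂ).symm.length_eq

theorem regular_of_prime {P : Ideal O} (hP : P.IsPrime) {g : O} (hg : g ∉ P) :
    IsSMulRegular (O ⧸ P) g := by
  rw [isSMulRegular_iff_right_eq_zero_of_smul]
  intro x hx
  obtain ⟨f, rfl⟩ := Submodule.Quotient.mk_surjective _ x
  rw [← Submodule.Quotient.mk_smul, Submodule.Quotient.mk_eq_zero, smul_eq_mul] at hx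
  rw [Submodule.Quotient.mk_eq_zero]
  exact (hP.mem_or_mem hx).resolve_left hg

theorem len_pow_prime {P : Ideal O} (hP : P.IsPrime) {g : O} (hg : g ∉ P) (k : ℕ) :
    Module.length ℂ (O ⧸ (P ⊔ Ideal.span {g ^ k})) =
      k * Module.length ℂ (O ⧸ (P ⊔ Ideal.span {g})) := by
  rw [len_sup_span, len_sup_span, length_smul_pow (regular_of_prime hP hg)]

theorem len_le_of_monForm_prime {P : Ideal O} (hP : P.IsPrime) {g g' e : O} (hg : g ∉ P)
    (hg' : g' ∉ P) (he : e ∈ P) (hm : MonForm g g' e)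
    (hfin : Module.length ℂ (O ⧸ (P ⊔ Ideal.span {g'})) ≠ ⊤) :
    Module.length ℂ (O ⧸ (P ⊔ Ideal.span {g'})) ≤ Module.length ℂ (O ⧸ (P ⊔ Ideal.span {g})) := by
  rw [len_sup_span] at hfin
  rw [len_sup_span, len_sup_span]
  apply length_le_of_monForm (regular_of_prime hP hg) (regular_of_prime hP hg') hm _ hfin
  intro x
  obtain ⟨y, rfl⟩ := Submodule.Quotient.mk_surjective _ x
  rw [← Submodule.Quotient.mk_smul, Submodule.Quotient.mk_eq_zero, smul_eq_mul]
  exact P.mul_mem_right _ he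

theorem sup_span_pow_le (P : Ideal O) (x : O) (N : ℕ) :
    (P ⊔ Ideal.span {x}) ^ N ≤ P ⊔ Ideal.span {x ^ N} := by
  induction N with
  | zero =>
    simp
  | succ N ih =>
    rw [pow_succ]
    calc _ ≤ (P ⊔ Ideal.span {x ^ N}) * (P ⊔ Ideal.span {x}) := Ideal.mul_mono_left ih
      _ ≤ _ := by
          rw [Ideal.sup_mul]
          apply sup_le
          · exact le_trans Ideal.mul_le_left le_sup_left
          · rw [Ideal.mul_sup]
            apply sup_le
            · exact le_trans Ideal.mul_le_right le_sup_left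
            · rw [Ideal.span_singleton_mul_span_singleton, ← pow_succ]
              exact le_sup_right

end general

variable {m : ℕ}

/-- integrality modulo an ideal such that the quotient modulo the first variable is finite -/
theorem exists_monic_of_fin {J : Ideal (CS (m + 1))}
    (hfin : colenC (J ⊔ Ideal.span {(xc 0 : CS (m + 1))}) ≠ ⊤) (x : CS (m + 1)) :
    ∃ q : Polynomial R1, q.Monic ∧ q.eval₂ jc x ∈ J := by
  obtain ⟨K, hK⟩ := colenC_ne_top_iff.1 hfin
  apply exists_monic (K := K)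
  intro i _
  have h1 := hK (Ideal.pow_mem_pow (xc_mem_max i) K)
  obtain ⟨a, ha, w, hw, haw⟩ := Submodule.mem_sup.1 h1
  obtain ⟨v, rfl⟩ := Ideal.mem_span_singleton'.1 hw
  refine ⟨v, ?_⟩
  have : xc i ^ K - xc 0 * v = a := by
    rw [← haw]; ring
  rw [this]
  exact ha

/-- a branch of an analytic curve with its homomorphism to the Hahn series -/
structure BrC (P : Ideal (CS (m + 1))) (ψ : CS (m + 1) →+* HS) : Prop where
  prime : P.IsPrime
  nz : (xc 0 : CS (m + 1)) ∉ P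
  fin : colenC (P ⊔ Ideal.span {(xc 0 : CS (m + 1))}) ≠ ⊤
  ker : RingHom.ker ψ = P
  comp : ψ.comp jc = iotac
  lo : ∀ f, ψ f ∈ VR
  ordX : (ψ (xc 0)).order = 1

theorem Br.toC {Q : Ideal (PS (m + 1))} {φ : PS (m + 1) →+* HS} (h : Br Q φ)
    (hfin : colenC (Q.comap (inc (m + 1)) ⊔ Ideal.span {(xc 0 : CS (m + 1))}) ≠ ⊤) :
    BrC (Q.comap (inc (m + 1))) (φ.comp (inc (m + 1)).toRingHom) where
  prime := by
    have := h.prime
    exact Ideal.IsPrime.comap _
  nz := fun h0 => h.nz h0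
  fin := hfin
  ker := by
    ext x
    rw [RingHom.mem_ker, Ideal.mem_comap]
    exact h.phi_eq_zero
  comp := by
    ext1 r
    have := congrArg (fun F : PowerSeries ℂ →+* HS => F (inc1 r)) h.comp
    exact this
  lo f := h.phi_VR _
  ordX := h.order_X0

namespace BrC

variable {P : Ideal (CS (m + 1))} {ψ : CS (m + 1) →+* HS}

theorem psi_eq_zero (h : BrC P ψ) {f : CS (m + 1)} : ψ f = 0 ↔ f ∈ P := by
  rw [← RingHom.mem_ker, h.ker]

theorem psi_ne_zero (h : BrC P ψ) {f : CS (m + 1)} (hf : f ∉ P) : ψ f ≠ 0 :=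
  fun h0 => hf (h.psi_eq_zero.1 h0)

theorem psi_root (h : BrC P ψ) (f : CS (m + 1)) :
    ∃ q : Polynomial R1, q.Monic ∧ q.eval₂ iotac (ψ f) = 0 := by
  obtain ⟨q, hq, hq2⟩ := exists_monic_of_fin h.fin f
  refine ⟨q, hq, ?_⟩
  rw [← h.comp, ← Polynomial.hom_eval₂]
  exact h.psi_eq_zero.2 hq2

theorem exists_pow (h : BrC P ψ) :
    ∃ k, maximalIdeal (CS (m + 1)) ^ k ≤ P ⊔ Ideal.span {(xc 0 : CS (m + 1))} :=
  colenC_ne_top_iff.1 h.fin

theorem monForm (h : BrC P ψ) {g g' : CS (m + 1)} (hg' : g' ∉ P)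
    (hord : g ∈ P ∨ (ψ g').order ≤ (ψ g).order) : ∃ e ∈ P, MonForm g g' e := by
  classical
  by_cases hgP : g ∈ P
  · refine ⟨g, hgP, 0, 0, Submodule.zero_mem _, by ring⟩
  have hord : (ψ g').order ≤ (ψ g).order := hord.resolve_left hgP
  have hn := h.psi_ne_zero hg'
  have hng := h.psi_ne_zero hgP
  set α : HS := ψ g * (ψ g')⁻¹ with hα
  have hα0 : α ≠ 0 := mul_ne_zero hng (inv_ne_zero hn)
  have hmul : α * ψ g' = ψ g := by rw [hα, inv_mul_cancel_right₀ hn]
  have hαV : α ∈ VR := by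
    rw [mem_VR_iff_order hα0]
    have := HahnSeries.order_mul hα0 hn
    rw [hmul] at this
    linarith
  let _ : Algebra R1 HS := iotac.toAlgebra
  have halg1 : IsAlgebraic R1 (ψ g) := by
    obtain ⟨q, hq, hq2⟩ := h.psi_root g
    exact IsIntegral.isAlgebraic ⟨q, hq, hq2⟩
  have halg2 : IsAlgebraic R1 (ψ g') := by
    obtain ⟨q, hq, hq2⟩ := h.psi_root g'
    exact IsIntegral.isAlgebraic ⟨q, hq, hq2⟩
  have halg : IsAlgebraic R1 α := halg1.mul halg2.inv
  obtain ⟨p, hp, hp2⟩ := halg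
  obtain ⟨q, hq, hq2⟩ := integral_of_VR_conv hαV p hp hp2
  set N := q.natDegree with hN
  have hN0 : N ≠ 0 := by
    intro h0
    have : q = 1 := by
      rw [Polynomial.eq_C_of_natDegree_eq_zero (hN ▸ h0 : q.natDegree = 0)]
      have hlc := hq.coeff_natDegree
      rw [← hN, h0] at hlc
      rw [hlc, map_one]
    rw [this, Polynomial.eval₂_one] at hq2
    exact one_ne_zero hq2
  obtain ⟨k, hk⟩ := Nat.exists_eq_succ_of_ne_zero hN0
  have hk : N = k + 1 := hk
  set a : CS (m + 1) := -∑ i ∈ Finset.range (k + 1), jc (q.coeff i) * g ^ i * g' ^ (k + 1 - i) with ha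
  refine ⟨g ^ (k + 1) - a, ?_, k, a, ?_, rfl⟩
  · rw [← h.psi_eq_zero]
    have h1 : ψ (g ^ (k + 1) - a) =
        ∑ i ∈ Finset.range (N + 1), iotac (q.coeff i) * ψ g ^ i * ψ g' ^ (N - i) := by
      rw [ha, sub_neg_eq_add, map_add, map_sum, hk, Finset.sum_range_succ _ (k + 1), add_comm]
      congr 1
      · apply Finset.sum_congr rfl
        intro i _
        rw [map_mul, map_mul, map_pow, map_pow, ← RingHom.comp_apply, h.comp]
      · have hlc := hq.coeff_natDegree
        rw [← hN, hk] at hlc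
        rw [hlc, map_one, one_mul, Nat.sub_self, pow_zero, mul_one, map_pow]
    rw [h1]
    have h2 : ∑ i ∈ Finset.range (N + 1), iotac (q.coeff i) * ψ g ^ i * ψ g' ^ (N - i) =
        (∑ i ∈ Finset.range (N + 1), iotac (q.coeff i) * α ^ i) * ψ g' ^ N := by
      rw [Finset.sum_mul]
      apply Finset.sum_congr rfl
      intro i hi
      have hi' : i ≤ N := by
        rw [Finset.mem_range] at hi; omega
      rw [← hmul, mul_pow]
      have : ψ g' ^ N = ψ g' ^ i * ψ g' ^ (N - i) := by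
        rw [← pow_add]; congr 1; omega
      rw [this]
      ring
    rw [h2, ← Polynomial.eval₂_eq_sum_range, hq2, zero_mul]
  · rw [ha]
    apply Ideal.neg_mem_iff _ |>.2
    apply Ideal.sum_mem
    intro i hi
    have hi' : i ≤ k := by
      rw [Finset.mem_range] at hi; omega
    have : jc (q.coeff i) * g ^ i * g' ^ (k + 1 - i) = g' * (jc (q.coeff i) * (g ^ i * g' ^ (k - i))) := by
      rw [show k + 1 - i = (k - i) + 1 by omega, pow_succ]
      ring
    rw [this]
    apply Ideal.mul_mem_mul (Ideal.mem_span_singleton_self _)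
    apply Ideal.mul_mem_left
    have h3 : (Ideal.span {g, g'} : Ideal (CS (m + 1))) ^ k =
        Ideal.span {g, g'} ^ i * Ideal.span {g, g'} ^ (k - i) := by
      rw [← pow_add]; congr 1; omega
    rw [h3]
    exact Ideal.mul_mem_mul (Ideal.pow_mem_pow (Ideal.subset_span (by simp)) _)
      (Ideal.pow_mem_pow (Ideal.subset_span (by simp)) _)

theorem colenC_ne_top (h : BrC P ψ) {g : CS (m + 1)} (hg : g ∉ P) :
    colenC (P ⊔ Ideal.span {g}) ≠ ⊤ := by
  obtain ⟨a, ha⟩ := exists_nat_ge ((ψ g).order)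
  have h1 : (xc 0 : CS (m + 1)) ^ a ∉ P := fun h0 => h.nz (h.prime.mem_of_pow_mem _ h0)
  obtain ⟨e, he, hm⟩ := h.monForm (g := xc 0 ^ a) hg (Or.inr (by
    rw [map_pow, HahnSeries.order_pow, h.ordX]
    simpa using ha))
  obtain ⟨k, hk⟩ := hm.pow_mem
  obtain ⟨l, hl⟩ := h.exists_pow
  rw [colenC_ne_top_iff]
  refine ⟨l * (a * (k + 1)), ?_⟩
  have h2 : (xc 0 : CS (m + 1)) ^ (a * (k + 1)) ∈ P ⊔ Ideal.span {g} := by
    rw [pow_mul]
    have : Ideal.span {g} ⊔ Ideal.span {e} ≤ P ⊔ Ideal.span {g} := by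
      apply sup_le le_sup_right
      rw [Ideal.span_singleton_le_iff_mem]
      exact le_sup_left (α := Ideal (CS (m + 1))) he
    exact this hk
  rw [pow_mul]
  calc (maximalIdeal (CS (m + 1)) ^ l) ^ (a * (k + 1)) ≤
        (P ⊔ Ideal.span {(xc 0 : CS (m + 1))}) ^ (a * (k + 1)) := Ideal.pow_right_mono hl _
    _ ≤ P ⊔ Ideal.span {(xc 0 : CS (m + 1)) ^ (a * (k + 1))} := sup_span_pow_le _ _ _
    _ ≤ _ := by
        apply sup_le le_sup_left
        rw [Ideal.span_singleton_le_iff_mem]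
        exact h2

theorem colenC_le (h : BrC P ψ) {g g' : CS (m + 1)} (hg : g ∉ P) (hg' : g' ∉ P)
    (hord : (ψ g').order ≤ (ψ g).order) :
    colenC (P ⊔ Ideal.span {g'}) ≤ colenC (P ⊔ Ideal.span {g}) := by
  obtain ⟨e, he, hm⟩ := h.monForm hg' (Or.inr hord)
  exact len_le_of_monForm_prime h.prime hg hg' he hm (h.colenC_ne_top hg')

end BrC

/-- colengths as natural numbers -/
noncomputable def clC {n : ℕ} (J : Ideal (CS n)) : ℕ := (colenC J).toNat

theorem coe_clC {n : ℕ} {J : Ideal (CS n)} (h : colenC J ≠ ⊤) : (clC J : ℕ∞) = colenC J :=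
  ENat.natCast_toNat h

namespace BrC

variable {P : Ideal (CS (m + 1))} {ψ : CS (m + 1) →+* HS}

theorem order_nonneg (h : BrC P ψ) {g : CS (m + 1)} (hg : g ∉ P) : 0 ≤ (ψ g).order :=
  (mem_VR_iff_order (h.psi_ne_zero hg)).1 (h.lo g)

theorem clC_eq (h : BrC P ψ) {g : CS (m + 1)} (hg : g ∉ P) :
    (clC (P ⊔ Ideal.span {g}) : ℚ) =
      (ψ g).order * clC (P ⊔ Ideal.span {(xc 0 : CS (m + 1))}) := by
  set v : ℚ := (ψ g).order with hv
  have hv0 : 0 ≤ v := h.order_nonneg hg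
  set a : ℕ := v.num.toNat with ha
  set b : ℕ := v.den with hb
  have hb0 : 0 < b := v.den_pos
  have hab : v * b = a := by
    have h1 : (a : ℚ) = v.num := by
      rw [ha]
      have : ((v.num.toNat : ℤ) : ℚ) = v.num := by
        rw [Int.toNat_of_nonneg (Rat.num_nonneg.2 hv0)]
      rw [← this, Int.cast_natCast]
    rw [h1, hb]
    exact Rat.mul_den_eq_num v
  have hgb : g ^ b ∉ P := fun h0 => hg (h.prime.mem_of_pow_mem _ h0)
  have hXa : (xc 0 : CS (m + 1)) ^ a ∉ P := fun h0 => h.nz (h.prime.mem_of_pow_mem _ h0)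
  have ho : (ψ (g ^ b)).order = (ψ ((xc 0 : CS (m + 1)) ^ a)).order := by
    rw [map_pow, map_pow, HahnSeries.order_pow, HahnSeries.order_pow, h.ordX, ← hv,
      nsmul_eq_mul, nsmul_eq_mul, mul_one, ← hab, mul_comm]
  have h1 : colenC (P ⊔ Ideal.span {g ^ b}) = colenC (P ⊔ Ideal.span {(xc 0 : CS (m + 1)) ^ a}) :=
    le_antisymm (h.colenC_le hXa hgb ho.le) (h.colenC_le hgb hXa ho.ge)
  have e1 : colenC (P ⊔ Ideal.span {g ^ b}) = b * colenC (P ⊔ Ideal.span {g}) :=
    len_pow_prime h.prime hg b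
  have e2 : colenC (P ⊔ Ideal.span {(xc 0 : CS (m + 1)) ^ a}) =
      a * colenC (P ⊔ Ideal.span {(xc 0 : CS (m + 1))}) := len_pow_prime h.prime h.nz a
  rw [e1, e2, ← coe_clC (h.colenC_ne_top hg), ← coe_clC h.fin] at h1
  have h2 : b * clC (P ⊔ Ideal.span {g}) = a * clC (P ⊔ Ideal.span {(xc 0 : CS (m + 1))}) := by
    exact_mod_cast h1
  have h3 : (b : ℚ) * clC (P ⊔ Ideal.span {g}) = a * clC (P ⊔ Ideal.span {(xc 0 : CS (m + 1))}) := by
    exact_mod_cast h2
  have hb' : (b : ℚ) ≠ 0 := by exact_mod_cast hb0.ne'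
  apply mul_left_cancel₀ hb'
  rw [h3, ← hab]
  ring

theorem clC_pos (h : BrC P ψ) : 0 < clC (P ⊔ Ideal.span {(xc 0 : CS (m + 1))}) := by
  rw [Nat.pos_iff_ne_zero]
  intro h0
  have h1 : colenC (P ⊔ Ideal.span {(xc 0 : CS (m + 1))}) = 0 := by
    rw [← coe_clC h.fin, h0]; rfl
  unfold colenC at h1
  rw [Module.length_eq_zero_iff, Submodule.Quotient.subsingleton_iff] at h1
  have h2 : P ⊔ Ideal.span {(xc 0 : CS (m + 1))} ≤ maximalIdeal (CS (m + 1)) := by
    apply sup_le (le_maximalIdeal h.prime.ne_top)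
    rw [Ideal.span_singleton_le_iff_mem]
    exact xc_mem_max 0
  rw [h1] at h2
  exact (maximalIdeal.isMaximal (CS (m + 1))).ne_top (top_le_iff.1 h2)

end BrC

end Pool.Agent.Helper341_polar
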