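import Mathlib
import Pool.Agent.Helper341_polar.Colen

/-!
# One-dimensional complete intersections: colengths and orders on the branches
-/

set_option autoImplicit false

namespace Pool.Agent.Helper341_polar

open IsLocalRing MvPowerSeries Pointwise

variable {m : ℕ} {I : Ideal (PS (m + 1))}

/-- ideals of the power series ring in `m + 1` variables generated by `m` elements -/
def CI (I : Ideal (PS (m + 1))) : Prop := ∃ gs : Fin m → PS (m + 1), I = Ideal.span (Set.range gs)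

open RingTheory.Sequence in
theorem CI.regular (hI : CI I) {g : PS (m + 1)} (hg : colen (I ⊔ Ideal.span {g}) ≠ ⊤) :
    IsSMulRegular (PS (m + 1) ⧸ I) g := by
  obtain ⟨gs, hgs⟩ := hI
  by_cases htop : I = ⊤
  · have : Subsingleton (PS (m + 1) ⧸ I) := Submodule.Quotient.subsingleton_iff.2 htop
    intro a b _
    exact Subsingleton.elim a b
  by_cases hgu : IsUnit g
  · exact hgu.isSMulRegular _
  have hIm : I ≤ maximalIdeal (PS (m + 1)) := le_maximalIdeal htop
  have hof : Ideal.ofList (List.ofFn gs) = I := by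
    rw [hgs]
    unfold Ideal.ofList
    congr 1
    ext x
    constructor
    · intro hx
      have : x ∈ List.ofFn gs := hx
      rwa [List.mem_ofFn] at this
    · intro hx
      have : x ∈ List.ofFn gs := by rwa [List.mem_ofFn]
      exact this
  obtain ⟨k, hk⟩ := colen_ne_top_iff.1 hg
  have h1 : IsWeaklyRegular (PS (m + 1)) (List.ofFn gs ++ [g]) := by
    apply sop_ps _ _ _ k
    · rw [Ideal.ofList_append, hof, Ideal.ofList_singleton]
      exact hk
    · intro y hy
      rw [List.mem_append, List.mem_singleton] at hy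
      rcases hy with hy | rfl
      · rw [List.mem_ofFn] at hy
        apply hIm
        rw [hgs]
        exact Ideal.subset_span hy
      · exact (mem_maximalIdeal _).2 hgu
    · simp
  rw [isWeaklyRegular_append_iff, isWeaklyRegular_singleton_iff, hof, smul_eq_mul,
    Ideal.mul_top] at h1
  exact h1.2

theorem notMem_of_regular {P : Ideal (PS (m + 1))} (hP : P ∈ I.minimalPrimes) {g : PS (m + 1)}
    (hg : IsSMulRegular (PS (m + 1) ⧸ I) g) : g ∉ P := by
  intro hgP
  obtain ⟨y, hy, hgy⟩ := Ideal.exists_mul_mem_of_mem_minimalPrimes hP hgP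
  apply hy
  rw [isSMulRegular_iff_right_eq_zero_of_smul] at hg
  have := hg (Submodule.Quotient.mk y) (by
    rw [← Submodule.Quotient.mk_smul, Submodule.Quotient.mk_eq_zero]
    exact hgy)
  rwa [Submodule.Quotient.mk_eq_zero] at this

theorem exists_br {P : Ideal (PS (m + 1))} (hI : CI I)
    (hX : colen (I ⊔ Ideal.span {(X 0 : PS (m + 1))}) ≠ ⊤) (hP : P ∈ I.minimalPrimes) :
    ∃ φ : PS (m + 1) →+* HS, Br P φ := by
  have hnz : (X 0 : PS (m + 1)) ∉ P := notMem_of_regular hP (hI.regular hX)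
  have hfin : colen (P ⊔ Ideal.span {(X 0 : PS (m + 1))}) ≠ ⊤ := by
    apply ne_top_of_le_ne_top hX
    exact colen_anti (sup_le_sup_right hP.1.2 _)
  obtain ⟨φ, h1, h2, h3⟩ := exists_phi hP.1.1 hnz hfin
  exact ⟨φ, hP.1.1, hnz, hfin, h1, h2, h3⟩

theorem exists_monForm_of {g g' : PS (m + 1)}
    (h : ∀ P ∈ I.minimalPrimes, ∃ e ∈ P, MonForm g g' e) : ∃ e ∈ I, MonForm g g' e := by
  classical
  have hfin : I.minimalPrimes.Finite := Ideal.finite_minimalPrimes_of_isNoetherianRing _ I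
  by_cases hne : I.minimalPrimes = ∅
  · rw [Ideal.minimalPrimes_eq_empty_iff] at hne
    exact ⟨g, by rw [hne]; trivial, 0, 0, Submodule.zero_mem _, by ring⟩
  choose! e he hm using h
  have hS : hfin.toFinset.Nonempty := by
    rw [Set.Finite.toFinset_nonempty]
    exact Set.nonempty_iff_ne_empty.2 hne
  set E := ∏ P ∈ hfin.toFinset, e P with hE
  have hEm : MonForm g g' E := MonForm.prod _ hS fun P hP => hm P (hfin.mem_toFinset.1 hP)
  have hErad : E ∈ I.radical := by
    rw [← Ideal.sInf_minimalPrimes, Submodule.mem_sInf]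
    intro P hP
    rw [hE, ← Finset.mul_prod_erase _ _ (hfin.mem_toFinset.2 hP)]
    exact Ideal.mul_mem_right _ _ (he P hP)
  obtain ⟨s, hs⟩ := Ideal.mem_radical_iff.1 hErad
  exact ⟨E ^ (s + 1), by rw [pow_succ]; exact I.mul_mem_right _ hs, hEm.pow s⟩

theorem colen_ne_top_of_monForm {g e : PS (m + 1)} {a : ℕ} (he : e ∈ I)
    (hm : MonForm ((X 0 : PS (m + 1)) ^ a) g e)
    (hX : colen (I ⊔ Ideal.span {(X 0 : PS (m + 1))}) ≠ ⊤) : colen (I ⊔ Ideal.span {g}) ≠ ⊤ := by
  obtain ⟨k, hk⟩ := hm.pow_mem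
  obtain ⟨l, hl⟩ := colen_ne_top_iff.1 hX
  rw [colen_ne_top_iff]
  refine ⟨l * (a * (k + 1)), ?_⟩
  have h2 : (X 0 : PS (m + 1)) ^ (a * (k + 1)) ∈ I ⊔ Ideal.span {g} := by
    rw [pow_mul]
    have : Ideal.span {g} ⊔ Ideal.span {e} ≤ I ⊔ Ideal.span {g} := by
      apply sup_le le_sup_right
      rw [Ideal.span_singleton_le_iff_mem]
      exact le_sup_left (α := Ideal (PS (m + 1))) he
    exact this hk
  rw [pow_mul]
  have h3 : ∀ N : ℕ, (I ⊔ Ideal.span {(X 0 : PS (m + 1))}) ^ N ≤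
      I ⊔ Ideal.span {(X 0 : PS (m + 1)) ^ N} := by
    intro N
    induction N with
    | zero =>
      simp
    | succ N ih =>
      rw [pow_succ]
      calc _ ≤ (I ⊔ Ideal.span {(X 0 : PS (m + 1)) ^ N}) * (I ⊔ Ideal.span {(X 0 : PS (m + 1))}) :=
            Ideal.mul_mono_left ih
        _ ≤ _ := by
            rw [Ideal.sup_mul]
            apply sup_le
            · exact le_trans Ideal.mul_le_left le_sup_left
            · rw [Ideal.mul_sup]
              apply sup_le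
              · exact le_trans Ideal.mul_le_right le_sup_left
              · rw [Ideal.span_singleton_mul_span_singleton, ← pow_succ]
                exact le_sup_right
  calc (maximalIdeal (PS (m + 1)) ^ l) ^ (a * (k + 1)) ≤
        (I ⊔ Ideal.span {(X 0 : PS (m + 1))}) ^ (a * (k + 1)) := Ideal.pow_right_mono hl _
    _ ≤ I ⊔ Ideal.span {(X 0 : PS (m + 1)) ^ (a * (k + 1))} := h3 _
    _ ≤ _ := by
        apply sup_le le_sup_left
        rw [Ideal.span_singleton_le_iff_mem]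
        exact h2

/-- finite colength of the elements outside of the minimal primes -/
theorem fin_of_notMem (hI : CI I) (hX : colen (I ⊔ Ideal.span {(X 0 : PS (m + 1))}) ≠ ⊤)
    {g : PS (m + 1)} (hg : ∀ P ∈ I.minimalPrimes, g ∉ P) : colen (I ⊔ Ideal.span {g}) ≠ ⊤ := by
  classical
  have hfin : I.minimalPrimes.Finite := Ideal.finite_minimalPrimes_of_isNoetherianRing _ I
  have h1 : ∀ P ∈ I.minimalPrimes, ∃ a0 : ℕ, ∀ a ≥ a0,
      ∃ e ∈ P, MonForm ((X 0 : PS (m + 1)) ^ a) g e := by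
    intro P hP
    obtain ⟨φ, hφ⟩ := exists_br hI hX hP
    obtain ⟨a0, ha0⟩ := exists_nat_ge ((φ g).order)
    refine ⟨a0, fun a ha => ?_⟩
    apply hφ.monForm (hg P hP)
    right
    rw [map_pow, HahnSeries.order_pow, hφ.order_X0]
    have : (a0 : ℚ) ≤ a := by exact_mod_cast ha
    simpa using ha0.trans this
  choose! a0 ha0 using h1
  obtain ⟨e, he, hm⟩ := exists_monForm_of (I := I)
    (g := (X 0 : PS (m + 1)) ^ (hfin.toFinset.sup a0)) (g' := g) (by
      intro P hP
      exact ha0 P hP _ (Finset.le_sup (hfin.mem_toFinset.2 hP)))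
  exact colen_ne_top_of_monForm he hm hX

theorem exists_monForm_orders (hI : CI I)
    (hX : colen (I ⊔ Ideal.span {(X 0 : PS (m + 1))}) ≠ ⊤) {g g' : PS (m + 1)}
    (hg' : colen (I ⊔ Ideal.span {g'}) ≠ ⊤)
    (hord : ∀ P ∈ I.minimalPrimes, ∀ φ, Br P φ → (φ g').order ≤ (φ g).order) :
    ∃ e ∈ I, MonForm g g' e := by
  apply exists_monForm_of
  intro P hP
  obtain ⟨φ, hφ⟩ := exists_br hI hX hP
  exact hφ.monForm (notMem_of_regular hP (hI.regular hg')) (Or.inr (hord P hP φ hφ))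

theorem colen_le_of_orders (hI : CI I) (hX : colen (I ⊔ Ideal.span {(X 0 : PS (m + 1))}) ≠ ⊤)
    {g g' : PS (m + 1)} (hg : colen (I ⊔ Ideal.span {g}) ≠ ⊤)
    (hg' : colen (I ⊔ Ideal.span {g'}) ≠ ⊤)
    (hord : ∀ P ∈ I.minimalPrimes, ∀ φ, Br P φ → (φ g').order ≤ (φ g).order) :
    colen (I ⊔ Ideal.span {g'}) ≤ colen (I ⊔ Ideal.span {g}) := by
  obtain ⟨e, he, hm⟩ := exists_monForm_orders hI hX hg' hord
  rw [colen_sup_span, colen_sup_span]
  apply length_le_of_monForm (hI.regular hg) (hI.regular hg') hm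
  · intro x
    obtain ⟨y, rfl⟩ := Submodule.Quotient.mk_surjective _ x
    rw [← Submodule.Quotient.mk_smul, Submodule.Quotient.mk_eq_zero, smul_eq_mul]
    exact I.mul_mem_right _ he
  · rw [← colen_sup_span]
    exact hg'

theorem colen_eq_of_orders (hI : CI I) (hX : colen (I ⊔ Ideal.span {(X 0 : PS (m + 1))}) ≠ ⊤)
    {g g' : PS (m + 1)} (hg : colen (I ⊔ Ideal.span {g}) ≠ ⊤)
    (hg' : colen (I ⊔ Ideal.span {g'}) ≠ ⊤)
    (hord : ∀ P ∈ I.minimalPrimes, ∀ φ, Br P φ → (φ g').order = (φ g).order) :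
    colen (I ⊔ Ideal.span {g'}) = colen (I ⊔ Ideal.span {g}) :=
  le_antisymm (colen_le_of_orders hI hX hg hg' fun P hP φ hφ => (hord P hP φ hφ).le)
    (colen_le_of_orders hI hX hg' hg fun P hP φ hφ => (hord P hP φ hφ).ge)

theorem colen_lt_of_orders (hI : CI I) (hX : colen (I ⊔ Ideal.span {(X 0 : PS (m + 1))}) ≠ ⊤)
    {g g' : PS (m + 1)} (hg : colen (I ⊔ Ideal.span {g}) ≠ ⊤)
    (hg' : colen (I ⊔ Ideal.span {g'}) ≠ ⊤)
    (hord : ∀ P ∈ I.minimalPrimes, ∀ φ, Br P φ → (φ g').order ≤ (φ g).order)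
    {P₀ : Ideal (PS (m + 1))} (hP₀ : P₀ ∈ I.minimalPrimes) {φ₀ : PS (m + 1) →+* HS}
    (hφ₀ : Br P₀ φ₀) (hlt : (φ₀ g').order < (φ₀ g).order) :
    colen (I ⊔ Ideal.span {g'}) < colen (I ⊔ Ideal.span {g}) := by
  obtain ⟨e, he, hm⟩ := exists_monForm_orders hI hX hg' hord
  have hle : I ≤ P₀ := hP₀.1.2
  have hgP : g ∉ P₀ := notMem_of_regular hP₀ (hI.regular hg)
  have hgP' : g' ∉ P₀ := notMem_of_regular hP₀ (hI.regular hg')
  let F : (PS (m + 1) ⧸ I) →ₗ[PS (m + 1)] (PS (m + 1) ⧸ P₀) := Submodule.factor hle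
  have hF : Function.Surjective F := Submodule.factor_surjective hle
  have h1 := length_ses F hF (isSMulRegular_prime hφ₀.prime hgP)
  have h2 := length_ses F hF (isSMulRegular_prime hφ₀.prime hgP')
  rw [← colen_sup_span, ← colen_sup_span] at h1 h2
  have h3 : Module.length ℂ (LinearMap.ker F ⧸
      (g' • (⊤ : Submodule (PS (m + 1)) (LinearMap.ker F)))) ≠ ⊤ := by
    intro h0
    rw [h0, top_add] at h2
    exact hg' h2
  have h4 : Module.length ℂ (LinearMap.ker F ⧸
      (g' • (⊤ : Submodule (PS (m + 1)) (LinearMap.ker F)))) ≤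
      Module.length ℂ (LinearMap.ker F ⧸
      (g • (⊤ : Submodule (PS (m + 1)) (LinearMap.ker F)))) := by
    apply length_le_of_monForm _ _ hm _ h3
    · exact (hI.regular hg).submodule _ _
    · exact (hI.regular hg').submodule _ _
    · rintro ⟨x, hx⟩
      apply Subtype.ext
      change e • x = 0
      obtain ⟨y, rfl⟩ := Submodule.Quotient.mk_surjective _ x
      rw [← Submodule.Quotient.mk_smul, Submodule.Quotient.mk_eq_zero, smul_eq_mul]
      exact I.mul_mem_right _ he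
  have h5 : colen (P₀ ⊔ Ideal.span {g'}) < colen (P₀ ⊔ Ideal.span {g}) := by
    rw [← coe_cl (hφ₀.colen_ne_top hgP), ← coe_cl (hφ₀.colen_ne_top hgP')]
    have h6 := hφ₀.cl_eq hgP
    have h7 := hφ₀.cl_eq hgP'
    have h8 : (0 : ℚ) < cl (P₀ ⊔ Ideal.span {(X 0 : PS (m + 1))}) := by exact_mod_cast hφ₀.cl_pos
    have h9 : (cl (P₀ ⊔ Ideal.span {g'}) : ℚ) < cl (P₀ ⊔ Ideal.span {g}) := by
      rw [h6, h7]
      exact mul_lt_mul_of_pos_right hlt h8
    exact_mod_cast h9
  rw [h1, h2]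
  exact ENat.add_lt_add_of_le_of_lt h3 h4 h5

end Pool.Agent.Helper341_polar
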