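import Mathlib
import Pool.Agent.Helper341_polar.Point

/-!
# Polar curves: the polar quotients are detected by colengths
-/

set_option autoImplicit false
set_option linter.unusedVariables false

namespace Pool.Agent.Helper341_polar

open IsLocalRing MvPowerSeries Pointwise

variable {m : ℕ}

/-- the ideal of the polar curve of `f` with respect to the hyperplane `z₀ = 0` -/
noncomputable def pol (f : PS (m + 1)) : Ideal (PS (m + 1)) :=
  Ideal.span (Set.range fun j : Fin m => pderiv ℂ j.succ f)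

theorem pol_ci (f : PS (m + 1)) : CI (pol f) := ⟨_, rfl⟩

/-- the quotients `(Γ · X) / (Γ · H)`, `Γ` a branch of the polar curve -/
def Lam (f : PS (m + 1)) : Set ℚ :=
  {q | ∃ P ∈ (pol f).minimalPrimes,
    q = (cl (P ⊔ Ideal.span {f}) : ℚ) / cl (P ⊔ Ideal.span {(X 0 : PS (m + 1))})}

/-- the test function -/
noncomputable def GG (L : ℕ) (lam : ℚ) (f : PS (m + 1)) : PS (m + 1) :=
  (X 0 * pderiv ℂ 0 f - C (lam : ℂ) * f) ^ L + X 0 * f ^ L

/-- standing assumptions on `f` -/
structure Good (f : PS (m + 1)) : Prop where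
  c0 : constantCoeff f = 0
  hX : colen (pol f ⊔ Ideal.span {(X 0 : PS (m + 1))}) ≠ ⊤
  hf : colen (pol f ⊔ Ideal.span {f}) ≠ ⊤

namespace Good

variable {f : PS (m + 1)}

theorem f_notMem (h : Good f) {P : Ideal (PS (m + 1))} (hP : P ∈ (pol f).minimalPrimes) : f ∉ P :=
  notMem_of_regular hP ((pol_ci f).regular h.hf)

theorem order_eq (h : Good f) {P : Ideal (PS (m + 1))} (hP : P ∈ (pol f).minimalPrimes)
    {φ : PS (m + 1) →+* HS} (hφ : Br P φ) :
    (φ f).order = (cl (P ⊔ Ideal.span {f}) : ℚ) / cl (P ⊔ Ideal.span {(X 0 : PS (m + 1))}) := by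
  rw [eq_div_iff (by exact_mod_cast hφ.cl_pos.ne'), ← hφ.cl_eq (h.f_notMem hP)]

theorem mem_Lam (h : Good f) {P : Ideal (PS (m + 1))} (hP : P ∈ (pol f).minimalPrimes)
    {φ : PS (m + 1) →+* HS} (hφ : Br P φ) : (φ f).order ∈ Lam f := ⟨P, hP, h.order_eq hP hφ⟩

theorem phi_u (h : Good f) {P : Ideal (PS (m + 1))} (hP : P ∈ (pol f).minimalPrimes)
    {φ : PS (m + 1) →+* HS} (hφ : Br P φ) (lam : ℚ) (q : ℚ) :
    (φ (X 0 * pderiv ℂ 0 f - C (lam : ℂ) * f)).coeff q = (q - lam : ℂ) * (φ f).coeff q := by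
  have hmem : ∀ j : Fin m, pderiv ℂ j.succ f ∈ P := fun j =>
    hP.1.2 (Ideal.subset_span ⟨j, rfl⟩)
  rw [map_sub, hφ.chain_polar hmem, map_mul, hφ.phi_C, HahnSeries.coeff_sub, eul_coeff,
    HahnSeries.C_mul_eq_smul, HahnSeries.coeff_smul, smul_eq_mul]
  ring

end Good

theorem order_add_eq {x y : HS} {a b : ℚ} (hx : x ≠ 0) (hxa : x.order = a) (hy : Lo b y)
    (hab : a < b) : x + y ≠ 0 ∧ (x + y).order = a := by
  have h1 : (x + y).coeff a ≠ 0 := by
    rw [HahnSeries.coeff_add, hy a hab, add_zero, ← hxa]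
    exact HahnSeries.coeff_order_eq_zero.not.2 hx
  have h2 : x + y ≠ 0 := by
    intro h0
    rw [h0] at h1
    exact h1 (HahnSeries.coeff_zero)
  refine ⟨h2, le_antisymm (HahnSeries.order_le_of_coeff_ne_zero h1) ?_⟩
  apply (lo_iff h2).1
  exact ((lo_iff hx).2 hxa.ge).add (hy.mono hab.le)

theorem Lo.pow {c : ℚ} {x : HS} (hx : Lo c x) (k : ℕ) : Lo (k * c) (x ^ k) := by
  induction k with
  | zero =>
    rw [pow_zero, Nat.cast_zero, zero_mul]
    intro q hq
    rw [HahnSeries.coeff_one, if_neg hq.ne]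
  | succ k ih =>
    rw [pow_succ]
    exact (ih.mul hx).mono (by push_cast; linarith)

namespace Good

variable {f : PS (m + 1)}

/-- order of the test function along a branch -/
theorem order_GG (h : Good f) {P : Ideal (PS (m + 1))} (hP : P ∈ (pol f).minimalPrimes)
    {φ : PS (m + 1) →+* HS} (hφ : Br P φ) (lam : ℚ) {L : ℕ}
    (hL : cl (pol f ⊔ Ideal.span {(X 0 : PS (m + 1))}) < L) :
    GG L lam f ∉ P ∧
    (φ (GG L lam f)).order = L * (φ f).order + (if lam = (φ f).order then 1 else 0) := by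
  have hfP := h.f_notMem hP
  have hf0 : φ f ≠ 0 := hφ.phi_ne_zero hfP
  set k := (φ f).order with hk
  set u : PS (m + 1) := X 0 * pderiv ℂ 0 f - C (lam : ℂ) * f with hu
  have hLpos : 0 < L := by omega
  have hLo : Lo (L * k + 1) (φ (X 0 * f ^ L)) := by
    rw [map_mul, map_pow]
    have h1 : Lo 1 (φ (X 0)) := (lo_iff (hφ.phi_ne_zero hφ.nz)).2 hφ.order_X0.ge
    have h2 : Lo (L * k) (φ f ^ L) := Lo.pow ((lo_iff hf0).2 le_rfl) L
    exact (h1.mul h2).mono (by linarith)
  have hXf : X 0 * f ^ L ∉ P := by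
    intro h0
    rcases hφ.prime.mem_or_mem h0 with h1 | h1
    · exact hφ.nz h1
    · exact hfP (hφ.prime.mem_of_pow_mem _ h1)
  have hXford : (φ (X 0 * f ^ L)).order = L * k + 1 := by
    rw [hφ.phi_mul_order hφ.nz (fun h1 => hfP (hφ.prime.mem_of_pow_mem _ h1)), hφ.order_X0,
      map_pow, HahnSeries.order_pow, nsmul_eq_mul, add_comm]
  by_cases hlam : lam = k
  · rw [if_pos hlam]
    -- `u` has larger order
    have hulo : Lo k (φ u) := by
      intro q hq
      rw [hu, h.phi_u hP hφ, HahnSeries.coeff_eq_zero_of_lt_order hq, mul_zero]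
    have hcoef : (φ u).coeff k = 0 := by
      rw [hu, h.phi_u hP hφ, hlam, sub_self, zero_mul]
    have hbig : ∃ b : ℚ, L * k + 1 < b ∧ Lo b (φ (u ^ L)) := by
      by_cases huP : u ∈ P
      · refine ⟨L * k + 2, by linarith, ?_⟩
        rw [map_pow, hφ.phi_eq_zero.2 huP, zero_pow hLpos.ne']
        exact Lo.zero _
      · have hu0 : φ u ≠ 0 := hφ.phi_ne_zero huP
        have h1 : k < (φ u).order := by
          apply lt_of_le_of_ne ((lo_iff hu0).1 hulo)
          intro h0
          rw [h0] at hcoef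
          exact hu0 (HahnSeries.coeff_order_eq_zero.1 hcoef)
        set M := cl (P ⊔ Ideal.span {(X 0 : PS (m + 1))}) with hM
        have hMpos : 0 < M := hφ.cl_pos
        have hML : M < L := by
          refine lt_of_le_of_lt ?_ hL
          have : colen (P ⊔ Ideal.span {(X 0 : PS (m + 1))}) ≤
              colen (pol f ⊔ Ideal.span {(X 0 : PS (m + 1))}) :=
            colen_anti (sup_le_sup_right hP.1.2 _)
          rw [← coe_cl hφ.fin, ← coe_cl h.hX] at this
          exact_mod_cast this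
        have h2 := hφ.cl_eq huP
        have h3 := hφ.cl_eq hfP
        rw [← hM] at h2 h3
        rw [← hk] at h3
        have hMq : (0 : ℚ) < M := by exact_mod_cast hMpos
        have h4 : (cl (P ⊔ Ideal.span {f}) : ℚ) < cl (P ⊔ Ideal.span {u}) := by
          rw [h2, h3]
          exact mul_lt_mul_of_pos_right h1 hMq
        have h5 : cl (P ⊔ Ideal.span {f}) + 1 ≤ cl (P ⊔ Ideal.span {u}) := by exact_mod_cast h4
        have h6 : (cl (P ⊔ Ideal.span {f}) : ℚ) + 1 ≤ cl (P ⊔ Ideal.span {u}) := by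
          exact_mod_cast h5
        rw [h2, h3] at h6
        -- `k M + 1 ≤ (order u) M`
        have h7 : (M : ℚ) < L := by exact_mod_cast hML
        refine ⟨L * (φ u).order, ?_, ?_⟩
        · have h8 : 1 ≤ ((φ u).order - k) * M := by linarith
          have h9 : ((φ u).order - k) * M < ((φ u).order - k) * L :=
            mul_lt_mul_of_pos_left h7 (by linarith)
          linarith
        · rw [map_pow]
          exact Lo.pow ((lo_iff hu0).2 le_rfl) L
    obtain ⟨b, hb1, hb2⟩ := hbig
    have h10 := order_add_eq (hφ.phi_ne_zero hXf) hXford hb2 hb1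
    have h11 : φ (GG L lam f) = φ (X 0 * f ^ L) + φ (u ^ L) := by
      rw [GG, map_add, add_comm]
    rw [← h11] at h10
    refine ⟨?_, h10.2⟩
    intro h0
    exact h10.1 (hφ.phi_eq_zero.2 h0)
  · rw [if_neg hlam, add_zero]
    have hcoef : (φ u).coeff k ≠ 0 := by
      rw [hu, h.phi_u hP hφ]
      apply mul_ne_zero
      · rw [sub_ne_zero]
        intro h0
        apply hlam
        exact_mod_cast h0.symm
      · exact HahnSeries.coeff_order_eq_zero.not.2 hf0
    have hu0 : φ u ≠ 0 := by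
      intro h0
      rw [h0] at hcoef
      exact hcoef HahnSeries.coeff_zero
    have hulo : Lo k (φ u) := by
      intro q hq
      rw [hu, h.phi_u hP hφ, HahnSeries.coeff_eq_zero_of_lt_order hq, mul_zero]
    have huord : (φ u).order = k :=
      le_antisymm (HahnSeries.order_le_of_coeff_ne_zero hcoef) ((lo_iff hu0).1 hulo)
    have huL : (φ (u ^ L)).order = L * k := by
      rw [map_pow, HahnSeries.order_pow, huord, nsmul_eq_mul]
    have huL0 : φ (u ^ L) ≠ 0 := by
      rw [map_pow]; exact pow_ne_zero _ hu0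
    have h10 := order_add_eq huL0 huL hLo (by linarith)
    have h11 : φ (GG L lam f) = φ (u ^ L) + φ (X 0 * f ^ L) := by
      rw [GG, map_add]
    rw [← h11] at h10
    refine ⟨?_, h10.2⟩
    intro h0
    exact h10.1 (hφ.phi_eq_zero.2 h0)

theorem fin_GG (h : Good f) (lam : ℚ) {L : ℕ}
    (hL : cl (pol f ⊔ Ideal.span {(X 0 : PS (m + 1))}) < L) :
    colen (pol f ⊔ Ideal.span {GG L lam f}) ≠ ⊤ := by
  apply fin_of_notMem (pol_ci f) h.hX
  intro P hP
  obtain ⟨φ, hφ⟩ := exists_br (pol_ci f) h.hX hP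
  exact (h.order_GG hP hφ lam hL).1

theorem reg_f (h : Good f) : IsSMulRegular (PS (m + 1) ⧸ pol f) f := (pol_ci f).regular h.hf

theorem reg_X (h : Good f) : IsSMulRegular (PS (m + 1) ⧸ pol f) (X 0 : PS (m + 1)) :=
  (pol_ci f).regular h.hX

theorem colen_fL (h : Good f) (L : ℕ) :
    colen (pol f ⊔ Ideal.span {f ^ L}) = ((L * cl (pol f ⊔ Ideal.span {f}) : ℕ) : ℕ∞) := by
  rw [colen_pow h.reg_f, ← coe_cl h.hf]
  push_cast
  rfl

/-- the colength of the test function detects the polar quotients -/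
theorem detect (h : Good f) (lam : ℚ) {L : ℕ}
    (hL : cl (pol f ⊔ Ideal.span {(X 0 : PS (m + 1))}) < L) :
    L * cl (pol f ⊔ Ideal.span {f}) ≤ cl (pol f ⊔ Ideal.span {GG L lam f}) ∧
    (L * cl (pol f ⊔ Ideal.span {f}) < cl (pol f ⊔ Ideal.span {GG L lam f}) ↔ lam ∈ Lam f) := by
  have hfin := h.fin_GG lam hL
  have hfinL : colen (pol f ⊔ Ideal.span {f ^ L}) ≠ ⊤ := by
    rw [h.colen_fL]; exact ENat.natCast_ne_top _
  have hordL : ∀ P ∈ (pol f).minimalPrimes, ∀ φ, Br P φ →
      (φ (f ^ L)).order ≤ (φ (GG L lam f)).order := by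
    intro P hP φ hφ
    rw [(h.order_GG hP hφ lam hL).2, map_pow, HahnSeries.order_pow, nsmul_eq_mul]
    split_ifs <;> linarith
  have hle := colen_le_of_orders (pol_ci f) h.hX hfin hfinL hordL
  rw [h.colen_fL, ← coe_cl hfin] at hle
  refine ⟨by exact_mod_cast hle, ?_, ?_⟩
  · intro hlt
    by_contra hcon
    have heq := colen_eq_of_orders (pol_ci f) h.hX hfin hfinL (by
      intro P hP φ hφ
      rw [(h.order_GG hP hφ lam hL).2, map_pow, HahnSeries.order_pow, nsmul_eq_mul, if_neg, add_zero]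
      intro h0
      exact hcon (by rw [h0]; exact h.mem_Lam hP hφ))
    rw [h.colen_fL, ← coe_cl hfin] at heq
    have : L * cl (pol f ⊔ Ideal.span {f}) = cl (pol f ⊔ Ideal.span {GG L lam f}) := by
      exact_mod_cast heq
    omega
  · rintro ⟨P, hP, hq⟩
    obtain ⟨φ, hφ⟩ := exists_br (pol_ci f) h.hX hP
    have hlt := colen_lt_of_orders (pol_ci f) h.hX hfin hfinL hordL hP hφ (by
      rw [(h.order_GG hP hφ lam hL).2, map_pow, HahnSeries.order_pow, nsmul_eq_mul, if_pos]
      · linarith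
      · rw [hq, h.order_eq hP hφ])
    rw [h.colen_fL, ← coe_cl hfin] at hlt
    exact_mod_cast hlt

/-- the total excess -/
theorem total (h : Good f) {L : ℕ} (hL : cl (pol f ⊔ Ideal.span {(X 0 : PS (m + 1))}) < L)
    (S : Finset ℚ) (hS : Lam f ⊆ S) :
    ∑ lam ∈ S, cl (pol f ⊔ Ideal.span {GG L lam f}) =
      S.card * (L * cl (pol f ⊔ Ideal.span {f})) + cl (pol f ⊔ Ideal.span {(X 0 : PS (m + 1))}) := by
  classical
  have hreg : ∀ lam ∈ S, IsSMulRegular (PS (m + 1) ⧸ pol f) (GG L lam f) := fun lam _ =>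
    (pol_ci f).regular (h.fin_GG lam hL)
  obtain ⟨h1, h2⟩ := colen_prod S hreg
  have hfin1 : colen (pol f ⊔ Ideal.span {∏ lam ∈ S, GG L lam f}) ≠ ⊤ := by
    rw [h2]
    have : ∑ lam ∈ S, colen (pol f ⊔ Ideal.span {GG L lam f}) =
        ((∑ lam ∈ S, cl (pol f ⊔ Ideal.span {GG L lam f}) : ℕ) : ℕ∞) := by
      push_cast
      apply Finset.sum_congr rfl
      intro lam _
      exact (coe_cl (h.fin_GG lam hL)).symm
    rw [this]
    exact ENat.natCast_ne_top _
  have h3 : colen (pol f ⊔ Ideal.span {X 0 * f ^ (S.card * L)}) =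
      ((S.card * (L * cl (pol f ⊔ Ideal.span {f})) +
        cl (pol f ⊔ Ideal.span {(X 0 : PS (m + 1))}) : ℕ) : ℕ∞) := by
    rw [colen_mul h.reg_X, h.colen_fL, ← coe_cl h.hX]
    push_cast
    ring
  have hfin3 : colen (pol f ⊔ Ideal.span {X 0 * f ^ (S.card * L)}) ≠ ⊤ := by
    rw [h3]; exact ENat.natCast_ne_top _
  have h4 := colen_eq_of_orders (pol_ci f) h.hX hfin1 hfin3 (by
    intro P hP φ hφ
    have hfP := h.f_notMem hP
    have hprod : ∀ s : Finset ℚ, (∏ lam ∈ s, GG L lam f ∉ P) ∧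
        (φ (∏ lam ∈ s, GG L lam f)).order =
          s.card * (L * (φ f).order) + (if (φ f).order ∈ s then 1 else 0) := by
      intro s
      induction s using Finset.induction_on with
      | empty =>
        refine ⟨?_, ?_⟩
        · rw [Finset.prod_empty]
          exact (Ideal.ne_top_iff_one P).1 hφ.prime.ne_top
        · rw [Finset.prod_empty, map_one, HahnSeries.order_one]
          simp
      | insert a s ha ih =>
        obtain ⟨ih1, ih2⟩ := ih
        obtain ⟨g1, g2⟩ := h.order_GG hP hφ a hL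
        refine ⟨?_, ?_⟩
        · rw [Finset.prod_insert ha]
          intro h0
          rcases hφ.prime.mem_or_mem h0 with h0 | h0
          · exact g1 h0
          · exact ih1 h0
        · rw [Finset.prod_insert ha, hφ.phi_mul_order g1 ih1, g2, ih2, Finset.card_insert_of_notMem ha]
          by_cases hak : a = (φ f).order
          · have : (φ f).order ∉ s := by rw [← hak]; exact ha
            rw [if_pos hak, if_neg this, if_pos (by rw [← hak]; exact Finset.mem_insert_self a s)]
            push_cast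
            ring
          · rw [if_neg hak]
            have : ((φ f).order ∈ insert a s) ↔ (φ f).order ∈ s := by
              rw [Finset.mem_insert]
              constructor
              · rintro (h0 | h0)
                · exact absurd h0.symm hak
                · exact h0
              · exact Or.inr
            simp only [this]
            push_cast
            ring
    have hmemS : (φ f).order ∈ S := hS (h.mem_Lam hP hφ)
    rw [(hprod S).2, if_pos hmemS,
      hφ.phi_mul_order hφ.nz (fun h1 => hfP (hφ.prime.mem_of_pow_mem _ h1)), hφ.order_X0,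
      map_pow, HahnSeries.order_pow, nsmul_eq_mul]
    push_cast
    ring)
  rw [h2, h3] at h4
  have h5 : ∑ lam ∈ S, colen (pol f ⊔ Ideal.span {GG L lam f}) =
      ((∑ lam ∈ S, cl (pol f ⊔ Ideal.span {GG L lam f}) : ℕ) : ℕ∞) := by
    push_cast
    apply Finset.sum_congr rfl
    intro lam _
    exact (coe_cl (h.fin_GG lam hL)).symm
  rw [h5] at h4
  exact_mod_cast h4.symm

end Good

end Pool.Agent.Helper341_polar
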