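import Mathlib
import Pool.Agent.Helper341_polar.Polar

/-!
# Families: the polar quotients are locally constant
-/

set_option autoImplicit false

namespace Pool.Agent.Helper341_polar

open IsLocalRing MvPowerSeries Pointwise

variable {m : ℕ}

/-- the jacobian ideal -/
noncomputable def jac {n : ℕ} (f : PS n) : Ideal (PS n) :=
  Ideal.span (Set.range fun j : Fin n => pderiv ℂ j f)

theorem pol_sup (f g : PS (m + 1)) : pol f ⊔ Ideal.span {g} =
    Ideal.span (Set.range (Fin.cons g (fun j : Fin m => pderiv ℂ j.succ f) : Fin (m + 1) → PS (m + 1))) := by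
  rw [pol, ← Ideal.span_union]
  congr 1
  ext x
  constructor
  · rintro (⟨j, rfl⟩ | hx)
    · exact ⟨j.succ, by simp⟩
    · rw [Set.mem_singleton_iff] at hx
      exact ⟨0, by simp [hx]⟩
  · rintro ⟨j, rfl⟩
    refine Fin.cases ?_ (fun j => ?_) j
    · right; simp
    · left; exact ⟨j, by simp⟩

theorem jac_eq (f : PS (m + 1)) : jac f = pol f ⊔ Ideal.span {pderiv ℂ 0 f} := by
  rw [pol_sup, jac]
  congr 1
  ext x
  constructor
  · rintro ⟨j, rfl⟩
    refine ⟨j, ?_⟩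
    refine Fin.cases ?_ (fun j => ?_) j
    · simp
    · simp
  · rintro ⟨j, rfl⟩
    refine ⟨j, ?_⟩
    refine Fin.cases ?_ (fun j => ?_) j
    · simp
    · simp

/-- order of `X 0 * ∂₀ f` -/
theorem order_X_pd {f : PS (m + 1)} (hc : constantCoeff f = 0) {P : Ideal (PS (m + 1))}
    (hP : P ∈ (pol f).minimalPrimes) {φ : PS (m + 1) →+* HS} (hφ : Br P φ) (hf : f ∉ P) :
    X 0 * pderiv ℂ 0 f ∉ P ∧ (φ (X 0 * pderiv ℂ 0 f)).order = (φ f).order := by
  have hmem : ∀ j : Fin m, pderiv ℂ j.succ f ∈ P := fun j =>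
    hP.1.2 (Ideal.subset_span ⟨j, rfl⟩)
  have h1 := hφ.chain_polar hmem
  have hf0 : φ f ≠ 0 := hφ.phi_ne_zero hf
  have hpos := hφ.order_pos hf hc
  have hcoef : (eul (φ f)).coeff (φ f).order ≠ 0 := by
    rw [eul_coeff]
    apply mul_ne_zero
    · exact_mod_cast hpos.ne'
    · exact HahnSeries.coeff_order_eq_zero.not.2 hf0
  have hne : eul (φ f) ≠ 0 := by
    intro h0
    rw [h0] at hcoef
    exact hcoef HahnSeries.coeff_zero
  rw [h1]
  refine ⟨?_, le_antisymm (HahnSeries.order_le_of_coeff_ne_zero hcoef) ?_⟩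
  · intro h0
    rw [← hφ.phi_eq_zero, h1] at h0
    exact hne h0
  · exact (lo_iff hne).1 (((lo_iff hf0).2 le_rfl).eul)

theorem Good.fin_jac {f : PS (m + 1)} (h : Good f) : colen (jac f) ≠ ⊤ := by
  rw [jac_eq]
  apply fin_of_notMem (pol_ci f) h.hX
  intro P hP h0
  obtain ⟨φ, hφ⟩ := exists_br (pol_ci f) h.hX hP
  exact (order_X_pd h.c0 hP hφ (h.f_notMem hP)).1 (P.mul_mem_left _ h0)

/-- the formula `(Γ · X) = μ + μ'` -/
theorem Good.teissier {f : PS (m + 1)} (h : Good f) :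
    cl (pol f ⊔ Ideal.span {f}) = cl (jac f) + cl (pol f ⊔ Ideal.span {(X 0 : PS (m + 1))}) := by
  have h1 : colen (pol f ⊔ Ideal.span {X 0 * pderiv ℂ 0 f}) =
      ((cl (jac f) + cl (pol f ⊔ Ideal.span {(X 0 : PS (m + 1))}) : ℕ) : ℕ∞) := by
    rw [colen_mul h.reg_X, ← jac_eq, ← coe_cl h.fin_jac, ← coe_cl h.hX]
    push_cast
    rfl
  have h2 : colen (pol f ⊔ Ideal.span {X 0 * pderiv ℂ 0 f}) ≠ ⊤ := by
    rw [h1]; exact ENat.natCast_ne_top _
  have h3 := colen_eq_of_orders (pol_ci f) h.hX h2 h.hf (by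
    intro P hP φ hφ
    exact (order_X_pd h.c0 hP hφ (h.f_notMem hP)).2.symm)
  rw [h1, ← coe_cl h.hf] at h3
  exact_mod_cast h3

theorem good_of_jac {f : PS (m + 1)} (hc : constantCoeff f = 0)
    (hX : colen (pol f ⊔ Ideal.span {(X 0 : PS (m + 1))}) ≠ ⊤) (hj : colen (jac f) ≠ ⊤) : Good f := by
  refine ⟨hc, hX, ?_⟩
  apply fin_of_notMem (pol_ci f) hX
  intro P hP h0
  obtain ⟨φ, hφ⟩ := exists_br (pol_ci f) hX hP
  have hmem : ∀ j : Fin m, pderiv ℂ j.succ f ∈ P := fun j =>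
    hP.1.2 (Ideal.subset_span ⟨j, rfl⟩)
  have h1 := hφ.chain_polar hmem
  rw [hφ.phi_eq_zero.2 h0, eul_zero] at h1
  rw [jac_eq] at hj
  have h2 := notMem_of_regular hP ((pol_ci f).regular hj)
  rcases hφ.prime.mem_or_mem (hφ.phi_eq_zero.1 h1) with h3 | h3
  · exact hφ.nz h3
  · exact h2 h3

theorem CoeffCont.GG {T : Type*} [TopologicalSpace T] {f : T → PS (m + 1)} {t₀ : T}
    (h : CoeffCont f t₀) (L : ℕ) (lam : ℚ) : CoeffCont (fun t => GG L lam (f t)) t₀ := by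
  unfold Pool.Agent.Helper341_polar.GG
  exact ((((CoeffCont.const (X 0) t₀).mul (h.pderiv 0)).sub
    ((CoeffCont.const (C (lam : ℂ)) t₀).mul h)).pow L).add
    ((CoeffCont.const (X 0) t₀).mul (h.pow L))

/-- upper semicontinuity for the ideals `pol f + (g)` -/
theorem usc_pol {T : Type*} [TopologicalSpace T] {f g : T → PS (m + 1)} {t₀ : T}
    (hf : CoeffCont f t₀) (hg : CoeffCont g t₀) (hfin : colen (pol (f t₀) ⊔ Ideal.span {g t₀}) ≠ ⊤) :
    ∀ᶠ t in nhds t₀, colen (pol (f t) ⊔ Ideal.span {g t}) ≠ ⊤ ∧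
      cl (pol (f t) ⊔ Ideal.span {g t}) ≤ cl (pol (f t₀) ⊔ Ideal.span {g t₀}) := by
  have h1 := usc (T := T) (t₀ := t₀)
    (G := fun (i : Fin (m + 1)) t => (Fin.cons (g t) (fun j : Fin m => pderiv ℂ j.succ (f t)) :
      Fin (m + 1) → PS (m + 1)) i)
    (D := cl (pol (f t₀) ⊔ Ideal.span {g t₀})) (by
      intro i
      refine Fin.cases ?_ (fun j => ?_) i
      · simpa using hg
      · simpa using hf.pderiv j.succ) (by
      rw [← pol_sup, coe_cl hfin])
  filter_upwards [h1] with t ht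
  rw [← pol_sup] at ht
  have h2 : colen (pol (f t) ⊔ Ideal.span {g t}) ≠ ⊤ := ne_top_of_le_ne_top (ENat.natCast_ne_top _) ht
  refine ⟨h2, ?_⟩
  rw [← coe_cl h2] at ht
  exact_mod_cast ht

/-- candidates for the polar quotients -/
noncomputable def cand (d M : ℕ) : Finset ℚ :=
  ((Finset.range (d + 1)) ×ˢ (Finset.range (M + 1))).image fun p => (p.1 : ℚ) / p.2

theorem Good.Lam_subset {f : PS (m + 1)} (h : Good f) :
    Lam f ⊆ cand (cl (pol f ⊔ Ideal.span {f})) (cl (pol f ⊔ Ideal.span {(X 0 : PS (m + 1))})) := by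
  rintro q ⟨P, hP, rfl⟩
  obtain ⟨φ, hφ⟩ := exists_br (pol_ci f) h.hX hP
  have h1 : cl (P ⊔ Ideal.span {f}) ≤ cl (pol f ⊔ Ideal.span {f}) := by
    have : colen (P ⊔ Ideal.span {f}) ≤ colen (pol f ⊔ Ideal.span {f}) :=
      colen_anti (sup_le_sup_right hP.1.2 _)
    rw [← coe_cl (hφ.colen_ne_top (h.f_notMem hP)), ← coe_cl h.hf] at this
    exact_mod_cast this
  have h2 : cl (P ⊔ Ideal.span {(X 0 : PS (m + 1))}) ≤
      cl (pol f ⊔ Ideal.span {(X 0 : PS (m + 1))}) := by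
    have : colen (P ⊔ Ideal.span {(X 0 : PS (m + 1))}) ≤
        colen (pol f ⊔ Ideal.span {(X 0 : PS (m + 1))}) := colen_anti (sup_le_sup_right hP.1.2 _)
    rw [← coe_cl hφ.fin, ← coe_cl h.hX] at this
    exact_mod_cast this
  rw [Finset.mem_coe, cand, Finset.mem_image]
  refine ⟨(cl (P ⊔ Ideal.span {f}), cl (P ⊔ Ideal.span {(X 0 : PS (m + 1))})), ?_, rfl⟩
  rw [Finset.mem_product, Finset.mem_range, Finset.mem_range]
  exact ⟨by simpa using Nat.lt_succ_of_le h1, by simpa using Nat.lt_succ_of_le h2⟩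

/-- **Local constancy of the polar quotients.** -/
theorem family_const {T : Type*} [TopologicalSpace T] {f : T → PS (m + 1)} {t₀ : T}
    (hc : CoeffCont f t₀) (h0 : ∀ᶠ t in nhds t₀, constantCoeff (f t) = 0) (hg : Good (f t₀))
    (hd : ∀ᶠ t in nhds t₀, cl (pol (f t) ⊔ Ideal.span {f t}) = cl (pol (f t₀) ⊔ Ideal.span {f t₀})) :
    ∀ᶠ t in nhds t₀, Good (f t) ∧ Lam (f t) = Lam (f t₀) ∧
      cl (pol (f t) ⊔ Ideal.span {(X 0 : PS (m + 1))}) =
        cl (pol (f t₀) ⊔ Ideal.span {(X 0 : PS (m + 1))}) ∧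
      cl (jac (f t)) = cl (jac (f t₀)) ∧
      ∀ lam : ℚ, ∀ L, cl (pol (f t₀) ⊔ Ideal.span {(X 0 : PS (m + 1))}) < L →
        lam ∈ cand (cl (pol (f t₀) ⊔ Ideal.span {f t₀}))
          (cl (pol (f t₀) ⊔ Ideal.span {(X 0 : PS (m + 1))})) →
        L = cl (pol (f t₀) ⊔ Ideal.span {(X 0 : PS (m + 1))}) + 1 →
        cl (pol (f t) ⊔ Ideal.span {GG L lam (f t)}) =
          cl (pol (f t₀) ⊔ Ideal.span {GG L lam (f t₀)}) := by
  classical
  set M := cl (pol (f t₀) ⊔ Ideal.span {(X 0 : PS (m + 1))}) with hM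
  set d := cl (pol (f t₀) ⊔ Ideal.span {f t₀}) with hdd
  set S := cand d M with hS
  have hX := usc_pol hc (CoeffCont.const (X 0) t₀) hg.hX
  have hfe := usc_pol hc hc hg.hf
  have hj := usc_pol hc (hc.pderiv 0) (by rw [← jac_eq]; exact hg.fin_jac)
  have hGG : ∀ᶠ t in nhds t₀, ∀ lam ∈ S,
      colen (pol (f t) ⊔ Ideal.span {GG (M + 1) lam (f t)}) ≠ ⊤ ∧
      cl (pol (f t) ⊔ Ideal.span {GG (M + 1) lam (f t)}) ≤
        cl (pol (f t₀) ⊔ Ideal.span {GG (M + 1) lam (f t₀)}) := by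
    rw [Filter.eventually_all_finset]
    intro lam _
    exact usc_pol hc (hc.GG (M + 1) lam) (hg.fin_GG lam (Nat.lt_succ_self _))
  filter_upwards [h0, hX, hfe, hj, hGG, hd] with t ht0 htX htf htj htG htd
  have hgt : Good (f t) := ⟨ht0, htX.1, htf.1⟩
  have h1 := hgt.teissier
  have h2 := hg.teissier
  rw [← jac_eq, ← jac_eq] at htj
  have h3 : cl (pol (f t) ⊔ Ideal.span {(X 0 : PS (m + 1))}) = M := by
    have := htX.2
    have := htj.2
    omega
  have h4 : cl (jac (f t)) = cl (jac (f t₀)) := by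
    have := htX.2
    have := htj.2
    omega
  have hSt : Lam (f t) ⊆ S := by
    have := hgt.Lam_subset
    rwa [htd, h3] at this
  have hS0 : Lam (f t₀) ⊆ S := hg.Lam_subset
  have htot := hgt.total (L := M + 1) (by rw [h3]; exact Nat.lt_succ_self _) S hSt
  have htot0 := hg.total (L := M + 1) (Nat.lt_succ_self _) S hS0
  rw [htd, h3, ← htot0] at htot
  have heq : ∀ lam ∈ S, cl (pol (f t) ⊔ Ideal.span {GG (M + 1) lam (f t)}) =
        cl (pol (f t₀) ⊔ Ideal.span {GG (M + 1) lam (f t₀)}) :=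
    (Finset.sum_eq_sum_iff_of_le fun lam hlam => (htG lam hlam).2).1 htot
  refine ⟨hgt, ?_, h3, h4, ?_⟩
  · ext lam
    by_cases hlam : lam ∈ S
    · rw [← (hgt.detect lam (L := M + 1) (by rw [h3]; exact Nat.lt_succ_self _)).2,
        ← (hg.detect lam (L := M + 1) (Nat.lt_succ_self _)).2, htd, heq lam hlam]
    · exact ⟨fun h => absurd (hSt h) hlam, fun h => absurd (hS0 h) hlam⟩
  · intro lam L _ hlam hL
    rw [hL]
    exact heq lam hlam

end Pool.Agent.Helper341_polar
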