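import Mathlib
import Pool.Agent.Helper341_polar.Family

/-!
# Linear sections
-/

set_option autoImplicit false

namespace Pool.Agent.Helper341_polar

open IsLocalRing MvPowerSeries

section res

variable {m : ℕ}

/-- restriction to the hyperplane `z₀ = 0` -/
noncomputable def res : PS (m + 1) →ₐ[ℂ] PS m := killCompl (Fin.succEmb m)

theorem coeff_res (g : PS (m + 1)) (e : Fin m →₀ ℕ) :
    coeff e (res g) = coeff (Finsupp.embDomain (Fin.succEmb m) e) g := rfl

theorem res_surjective : Function.Surjective (res : PS (m + 1) →ₐ[ℂ] PS m) := fun p =>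
  ⟨rename (Fin.succEmb m) p, killCompl_rename_app p⟩

theorem res_X_succ (j : Fin m) : res (X j.succ : PS (m + 1)) = X j := killCompl_X (e := Fin.succEmb m) j

theorem res_X_zero : res (X 0 : PS (m + 1)) = 0 := by
  apply killCompl_X_eq_zero
  rintro ⟨j, hj⟩
  exact Fin.succ_ne_zero j hj

theorem res_C (c : ℂ) : res (C c : PS (m + 1)) = C c := killCompl_C c

theorem embDomain_apply_zero (e : Fin m →₀ ℕ) : Finsupp.embDomain (Fin.succEmb m) e 0 = 0 := by
  apply Finsupp.embDomain_of_notMem_range
  rintro ⟨j, hj⟩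
  exact Fin.succ_ne_zero j hj

theorem embDomain_apply_succ (e : Fin m →₀ ℕ) (j : Fin m) :
    Finsupp.embDomain (Fin.succEmb m) e j.succ = e j :=
  Finsupp.embDomain_apply_self (Fin.succEmb m) e j

theorem res_pderiv (g : PS (m + 1)) (j : Fin m) : res (pderiv ℂ j.succ g) = pderiv ℂ j (res g) := by
  ext e
  rw [coeff_res, coeff_pderiv, coeff_pderiv, coeff_res, embDomain_apply_succ,
    Finsupp.embDomain_add, Finsupp.embDomain_single]
  rfl

theorem ker_res : RingHom.ker (res : PS (m + 1) →ₐ[ℂ] PS m) = Ideal.span {(X 0 : PS (m + 1))} := by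
  ext g
  rw [RingHom.mem_ker, Ideal.mem_span_singleton]
  constructor
  · intro h
    rw [X_dvd_iff]
    intro d hd
    have h1 : ∃ e, Finsupp.embDomain (Fin.succEmb m) e = d := by
      refine ⟨Finsupp.comapDomain Fin.succ d (Fin.succ_injective m).injOn, ?_⟩
      ext i
      refine Fin.cases ?_ (fun j => ?_) i
      · rw [embDomain_apply_zero, hd]
      · rw [embDomain_apply_succ, Finsupp.comapDomain_apply]
    obtain ⟨e, rfl⟩ := h1
    rw [← coeff_res, h, map_zero]
  · rintro ⟨w, rfl⟩
    rw [map_mul, res_X_zero, zero_mul]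

theorem map_res_pol (g : PS (m + 1)) : (pol g).map (res : PS (m + 1) →ₐ[ℂ] PS m) = jac (res g) := by
  rw [pol, jac, Ideal.map_span]
  congr 1
  rw [← Set.range_comp]
  congr 1
  ext1 j
  exact res_pderiv g j

/-- the colength of `pol g + (X 0)` is the Milnor number of the hyperplane section -/
theorem colen_res (g : PS (m + 1)) :
    colen (pol g ⊔ Ideal.span {(X 0 : PS (m + 1))}) = colen (jac (res g)) := by
  unfold colen
  let F : PS (m + 1) →ₐ[ℂ] (PS m ⧸ jac (res g)) := (Ideal.Quotient.mkₐ ℂ (jac (res g))).comp res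
  have hF : Function.Surjective F := (Ideal.Quotient.mkₐ_surjective ℂ _).comp res_surjective
  have hker : RingHom.ker F = pol g ⊔ Ideal.span {(X 0 : PS (m + 1))} := by
    rw [← ker_res, RingHom.ker_eq_comap_bot (res : PS (m + 1) →ₐ[ℂ] PS m),
      ← Ideal.comap_map_of_surjective (res : PS (m + 1) →ₐ[ℂ] PS m) res_surjective, map_res_pol]
    ext x
    rw [RingHom.mem_ker, Ideal.mem_comap]
    exact Ideal.Quotient.eq_zero_iff_mem
  have e1 := (Ideal.quotientEquivAlgOfEq ℂ hker).symm.trans (Ideal.quotientKerAlgEquivOfSurjective hF)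
  exact e1.toLinearEquiv.length_eq

end res

section sub

variable {n i : ℕ}

/-- the linear forms with the rows of `A` as coefficients -/
noncomputable def lin (A : Matrix (Fin n) (Fin i) ℂ) : Fin n → PS i :=
  fun j => ∑ k, C (A j k) * X k

theorem constantCoeff_lin (A : Matrix (Fin n) (Fin i) ℂ) (j : Fin n) :
    constantCoeff (lin A j) = 0 := by
  unfold lin
  simp

theorem hasSubst_lin (A : Matrix (Fin n) (Fin i) ℂ) : HasSubst (lin A) :=
  hasSubst_of_constantCoeff_zero (constantCoeff_lin A)

/-- pull back under the linear map `A` -/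
noncomputable def sub (A : Matrix (Fin n) (Fin i) ℂ) (f : PS n) : PS i := f.subst (lin A)

/-- multiindices of degree at most `k` -/
noncomputable def degLe (n k : ℕ) : Finset (Fin n →₀ ℕ) :=
  (Finsupp.finite_of_degree_le (σ := Fin n) k).toFinset

theorem mem_degLe {k : ℕ} {d : Fin n →₀ ℕ} : d ∈ degLe n k ↔ d.degree ≤ k := by
  unfold degLe
  rw [Set.Finite.mem_toFinset]
  rfl

theorem le_order_lin_prod (A : Matrix (Fin n) (Fin i) ℂ) (d : Fin n →₀ ℕ) :
    (d.degree : ℕ∞) ≤ (d.prod fun s k => lin A s ^ k).order := by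
  rw [Finsupp.prod]
  refine le_trans ?_ (le_order_prod _ _)
  rw [Finsupp.degree_apply, Nat.cast_sum]
  apply Finset.sum_le_sum
  intro s _
  exact le_order_pow_of_constantCoeff_eq_zero _ (constantCoeff_lin A s)

theorem coeff_sub (A : Matrix (Fin n) (Fin i) ℂ) (f : PS n) (e : Fin i →₀ ℕ) :
    coeff e (sub A f) =
      ∑ d ∈ degLe n e.degree, coeff d f * coeff e (d.prod fun s k => lin A s ^ k) := by
  unfold sub
  rw [coeff_subst (hasSubst_lin A)]
  simp only [smul_eq_mul]
  apply finsum_eq_sum_of_support_subset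
  intro d hd
  rw [Function.mem_support] at hd
  rw [Finset.mem_coe, mem_degLe]
  by_contra hcon
  push Not at hcon
  apply hd
  have h1 : coeff e (d.prod fun s k => lin A s ^ k) = 0 := by
    apply coeff_of_lt_order
    refine lt_of_lt_of_le ?_ (le_order_lin_prod A d)
    exact_mod_cast hcon
  rw [h1, mul_zero]

theorem constantCoeff_sub (A : Matrix (Fin n) (Fin i) ℂ) {f : PS n} (hf : constantCoeff f = 0) :
    constantCoeff (sub A f) = 0 :=
  constantCoeff_subst_eq_zero (hasSubst_lin A) (constantCoeff_lin A) hf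

theorem res_lin {m : ℕ} (A : Matrix (Fin n) (Fin (m + 1)) ℂ) (j : Fin n) :
    res (lin A j) = lin (A.submatrix id Fin.succ) j := by
  unfold lin
  rw [map_sum, Fin.sum_univ_succ, map_mul, res_X_zero, mul_zero, zero_add]
  apply Finset.sum_congr rfl
  intro k _
  rw [map_mul, res_C, res_X_succ, Matrix.submatrix_apply, id]

/-- restricting to the hyperplane means deleting the first column -/
theorem res_sub {m : ℕ} (A : Matrix (Fin n) (Fin (m + 1)) ℂ) (f : PS n) :
    res (sub A f) = sub (A.submatrix id Fin.succ) f := by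
  ext e
  rw [coeff_res, coeff_sub, coeff_sub]
  have h1 : (Finsupp.embDomain (Fin.succEmb m) e).degree = e.degree := by
    rw [Finsupp.degree_eq_sum, Finsupp.degree_eq_sum, Fin.sum_univ_succ, embDomain_apply_zero,
      zero_add]
    apply Finset.sum_congr rfl
    intro j _
    rw [embDomain_apply_succ]
  rw [h1]
  apply Finset.sum_congr rfl
  intro d _
  rw [← coeff_res]
  congr 2
  rw [Finsupp.prod, map_prod, Finsupp.prod]
  apply Finset.prod_congr rfl
  intro s _
  rw [map_pow, res_lin]

end sub

end Pool.Agent.Helper341_polar
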