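import Mathlib
import Pool.Agent.Helper341_polar.Sect

/-!
# Generic matrices and generic linear sections
-/

set_option autoImplicit false

namespace Pool.Agent.Helper341_polar

open IsLocalRing MvPowerSeries

section gen

variable {n i : ℕ}

/-- value of a polynomial at the entries of a matrix -/
noncomputable def ev (Q : MvPolynomial (Fin n × Fin i) ℂ) (A : Matrix (Fin n) (Fin i) ℂ) : ℂ :=
  MvPolynomial.eval (fun x : Fin n × Fin i => A x.1 x.2) Q

/-- a property holds for generic matrices -/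
def Gen (p : Matrix (Fin n) (Fin i) ℂ → Prop) : Prop :=
  ∃ Q : MvPolynomial (Fin n × Fin i) ℂ, Q ≠ 0 ∧ ∀ A, ev Q A ≠ 0 → p A

theorem exists_ev_ne {Q : MvPolynomial (Fin n × Fin i) ℂ} (hQ : Q ≠ 0) : ∃ A, ev Q A ≠ 0 := by
  by_contra hcon
  push Not at hcon
  apply hQ
  apply MvPolynomial.funext
  intro x
  rw [map_zero]
  have := hcon (fun a b => x (a, b))
  exact this

theorem Gen.exists {p : Matrix (Fin n) (Fin i) ℂ → Prop} (h : Gen p) : ∃ A, p A := by
  obtain ⟨Q, hQ, hQ2⟩ := h
  obtain ⟨A, hA⟩ := exists_ev_ne hQ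
  exact ⟨A, hQ2 A hA⟩

theorem Gen.mono {p q : Matrix (Fin n) (Fin i) ℂ → Prop} (h : Gen p) (hpq : ∀ A, p A → q A) :
    Gen q := by
  obtain ⟨Q, hQ, hQ2⟩ := h
  exact ⟨Q, hQ, fun A hA => hpq A (hQ2 A hA)⟩

theorem Gen.and {p q : Matrix (Fin n) (Fin i) ℂ → Prop} (hp : Gen p) (hq : Gen q) :
    Gen (fun A => p A ∧ q A) := by
  obtain ⟨Q, hQ, hQ2⟩ := hp
  obtain ⟨R, hR, hR2⟩ := hq
  refine ⟨Q * R, mul_ne_zero hQ hR, fun A hA => ?_⟩
  rw [ev, map_mul] at hA
  exact ⟨hQ2 A (left_ne_zero_of_mul hA), hR2 A (right_ne_zero_of_mul hA)⟩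

/-- pull back under the deletion of the first column -/
theorem Gen.succ {m : ℕ} {p : Matrix (Fin n) (Fin m) ℂ → Prop} (h : Gen p) :
    Gen (fun A : Matrix (Fin n) (Fin (m + 1)) ℂ => p (A.submatrix id Fin.succ)) := by
  obtain ⟨Q, hQ, hQ2⟩ := h
  refine ⟨MvPolynomial.rename (Prod.map id Fin.succ) Q, ?_, fun A hA => hQ2 _ ?_⟩
  · intro h0
    apply hQ
    apply MvPolynomial.rename_injective (Prod.map id Fin.succ)
      (Function.injective_id.prodMap (Fin.succ_injective m))
    rw [h0, map_zero]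
  · rw [ev, MvPolynomial.eval_rename] at hA
    exact hA

/-- the line through two matrices -/
noncomputable def seg (A B : Matrix (Fin n) (Fin i) ℂ) (z : ℂ) : Matrix (Fin n) (Fin i) ℂ :=
  A + z • (B - A)

theorem seg_zero (A B : Matrix (Fin n) (Fin i) ℂ) : seg A B 0 = A := by simp [seg]

theorem seg_one (A B : Matrix (Fin n) (Fin i) ℂ) : seg A B 1 = B := by simp [seg]

theorem continuous_seg (A B : Matrix (Fin n) (Fin i) ℂ) : Continuous (seg A B) := by
  unfold seg
  fun_prop

/-- a polynomial on a line has finitely many zeros -/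
theorem seg_finite (Q : MvPolynomial (Fin n × Fin i) ℂ) (A B : Matrix (Fin n) (Fin i) ℂ)
    (hB : ev Q B ≠ 0) : {z : ℂ | ev Q (seg A B z) = 0}.Finite := by
  let q : Polynomial ℂ := MvPolynomial.eval₂ Polynomial.C
    (fun x : Fin n × Fin i => Polynomial.C (A x.1 x.2) + Polynomial.X * Polynomial.C (B x.1 x.2 - A x.1 x.2)) Q
  have hq : ∀ z, q.eval z = ev Q (seg A B z) := by
    intro z
    have h1 : q.eval z = (Polynomial.evalRingHom z) q := rfl
    rw [h1]
    change (Polynomial.evalRingHom z) (MvPolynomial.eval₂ _ _ _) = _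
    rw [MvPolynomial.hom_eval₂]
    have h2 : (Polynomial.evalRingHom z).comp Polynomial.C = RingHom.id ℂ := by
      ext1 c
      simp
    rw [h2, ev, MvPolynomial.eval, MvPolynomial.coe_eval₂Hom]
    congr 1
    ext1 x
    simp [seg]
  have hq0 : q ≠ 0 := by
    intro h0
    apply hB
    rw [← seg_one A B, ← hq, h0, Polynomial.eval_zero]
  apply (q.rootSet_finite ℂ).subset
  intro z hz
  rw [Polynomial.mem_rootSet]
  refine ⟨hq0, ?_⟩
  rw [Polynomial.coe_aeval_eq_eval, hq]
  exact hz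

/-- generic matrices are dense -/
theorem Gen.exists_mem {p : Matrix (Fin n) (Fin i) ℂ → Prop} (h : Gen p)
    {A₀ : Matrix (Fin n) (Fin i) ℂ} {V : Set (Matrix (Fin n) (Fin i) ℂ)} (hV : V ∈ nhds A₀) :
    ∃ A ∈ V, p A := by
  obtain ⟨Q, hQ, hQ2⟩ := h
  obtain ⟨B, hB⟩ := exists_ev_ne hQ
  have h1 : (seg A₀ B) ⁻¹' V ∈ nhds (0 : ℂ) := by
    apply (continuous_seg A₀ B).continuousAt
    rw [seg_zero]
    exact hV
  have h2 : Dense ({z : ℂ | ev Q (seg A₀ B z) = 0}ᶜ) := (seg_finite Q A₀ B hB).countable.dense_compl ℂ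
  obtain ⟨z, hz1, hz2⟩ := h2.inter_nhds_nonempty h1
  exact ⟨seg A₀ B z, hz2, hQ2 _ hz1⟩

/-- locally constant functions on generic matrices are constant -/
theorem gen_const {β : Type} {Q : MvPolynomial (Fin n × Fin i) ℂ}
    {F : Matrix (Fin n) (Fin i) ℂ → β}
    (hF : ∀ A, ev Q A ≠ 0 → ∀ᶠ B in nhds A, F B = F A) {A B : Matrix (Fin n) (Fin i) ℂ}
    (hA : ev Q A ≠ 0) (hB : ev Q B ≠ 0) : F A = F B := by
  set W : Set ℂ := {z : ℂ | ev Q (seg A B z) = 0}ᶜ with hW
  have hconn : IsPreconnected W := by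
    have h1 : (1 : Cardinal) < Module.rank ℝ ℂ := by
      rw [Complex.rank_real_complex]
      exact Nat.one_lt_ofNat
    exact ((seg_finite Q A B hB).countable.isPathConnected_compl_of_one_lt_rank h1).isConnected.isPreconnected
  have hpc : PreconnectedSpace W := isPreconnected_iff_preconnectedSpace.1 hconn
  have hlc : IsLocallyConstant (fun z : W => F (seg A B z.1)) := by
    rw [IsLocallyConstant.iff_eventually_eq]
    intro z
    have h1 := hF (seg A B z.1) z.2
    have h2 : Continuous fun z : W => seg A B z.1 := (continuous_seg A B).comp continuous_subtype_val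
    exact h2.continuousAt.eventually h1
  have h0 : (0 : ℂ) ∈ W := by
    rw [hW, Set.mem_compl_iff]
    intro h
    apply hA
    have : ev Q (seg A B 0) = 0 := h
    rwa [seg_zero] at this
  have h1 : (1 : ℂ) ∈ W := by
    rw [hW, Set.mem_compl_iff]
    intro h
    apply hB
    have : ev Q (seg A B 1) = 0 := h
    rwa [seg_one] at this
  have h2 := hlc.apply_eq_of_preconnectedSpace ⟨0, h0⟩ ⟨1, h1⟩
  simp only [seg_zero, seg_one] at h2
  exact h2

end gen

section cont

variable {T : Type*} [TopologicalSpace T] {n i : ℕ}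

theorem CoeffCont.C {φ : T → ℂ} {t₀ : T} (h : ContinuousAt φ t₀) :
    CoeffCont (fun t => (MvPowerSeries.C (φ t) : PS n)) t₀ := by
  classical
  intro α
  simp only [coeff_C]
  by_cases h0 : α = 0
  · simp only [h0, if_true]
    exact h
  · simp only [h0, if_false]
    exact continuousAt_const

theorem CoeffCont.prod {ι : Type} (s : Finset ι) {G : ι → T → PS n} {t₀ : T}
    (h : ∀ i ∈ s, CoeffCont (G i) t₀) : CoeffCont (fun t => ∏ i ∈ s, G i t) t₀ := by
  classical
  induction s using Finset.induction_on with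
  | empty =>
    simp only [Finset.prod_empty]
    exact CoeffCont.const 1 t₀
  | insert a s ha ih =>
    simp only [Finset.prod_insert ha]
    exact (h a (Finset.mem_insert_self a s)).mul (ih fun i hi => h i (Finset.mem_insert_of_mem hi))

theorem CoeffCont.lin {A : T → Matrix (Fin n) (Fin i) ℂ} {t₀ : T} (hA : ContinuousAt A t₀)
    (j : Fin n) : CoeffCont (fun t => lin (A t) j) t₀ := by
  unfold Pool.Agent.Helper341_polar.lin
  apply CoeffCont.sum
  intro k _
  apply CoeffCont.mul _ (CoeffCont.const _ _)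
  apply CoeffCont.C
  exact (continuous_id.matrix_elem j k).continuousAt.comp hA

theorem CoeffCont.sect {A : T → Matrix (Fin n) (Fin i) ℂ} {f : T → PS n} {t₀ : T}
    (hA : ContinuousAt A t₀) (hf : CoeffCont f t₀) :
    CoeffCont (fun t => Pool.Agent.Helper341_polar.sub (A t) (f t)) t₀ := by
  intro e
  simp only [coeff_sub]
  apply tendsto_finsetSum
  intro d _
  apply (hf d).mul
  simp only [Finsupp.prod]
  exact (CoeffCont.prod d.support fun s _ => (CoeffCont.lin hA s).pow (d s)) e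

end cont

end Pool.Agent.Helper341_polar
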