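import Mathlib
import Pool.Agent.Helper341_polar.Generic

/-!
# Local constancy for a fixed hyperplane and for generic sections
-/

set_option autoImplicit false

namespace Pool.Agent.Helper341_polar

open IsLocalRing MvPowerSeries

section mult

variable {m : ℕ}

/-- the multiplicity of the slope `lam` -/
noncomputable def mult (f : PS (m + 1)) (lam : ℚ) : ℕ :=
  cl (pol f ⊔ Ideal.span {GG (cl (pol f ⊔ Ideal.span {(X 0 : PS (m + 1))}) + 1) lam f}) -
    (cl (pol f ⊔ Ideal.span {(X 0 : PS (m + 1))}) + 1) * cl (pol f ⊔ Ideal.span {f})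

theorem Good.mult_ne_zero_iff {f : PS (m + 1)} (h : Good f) (lam : ℚ) :
    mult f lam ≠ 0 ↔ lam ∈ Lam f := by
  obtain ⟨h1, h2⟩ := h.detect lam (Nat.lt_succ_self _)
  rw [← h2, mult]
  constructor
  · intro h3
    exact Nat.lt_of_sub_ne_zero h3
  · intro h3
    exact (Nat.sub_pos_of_lt h3).ne'

theorem Good.Lam_eq {f : PS (m + 1)} (h : Good f) : Lam f = {lam | mult f lam ≠ 0} := by
  ext lam
  exact (h.mult_ne_zero_iff lam).symm

/-- local constancy in terms of Milnor numbers -/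
theorem family_mu {T : Type*} [TopologicalSpace T] {f : T → PS (m + 1)} {t₀ : T}
    (hc : CoeffCont f t₀) (h0 : ∀ᶠ t in nhds t₀, constantCoeff (f t) = 0) {a : ℕ}
    (h : ∀ᶠ t in nhds t₀, colen (jac (f t)) + colen (jac (res (f t))) = a) :
    ∀ᶠ t in nhds t₀, Good (f t) ∧ mult (f t) = mult (f t₀) ∧
      colen (jac (f t)) = colen (jac (f t₀)) ∧
      colen (jac (res (f t))) = colen (jac (res (f t₀))) := by
  have hfin : ∀ t, colen (jac (f t)) + colen (jac (res (f t))) = a →
      colen (jac (f t)) ≠ ⊤ ∧ colen (jac (res (f t))) ≠ ⊤ := by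
    intro t ht
    constructor
    · intro h1
      rw [h1, top_add] at ht
      exact ENat.top_ne_natCast a ht
    · intro h1
      rw [h1, add_top] at ht
      exact ENat.top_ne_natCast a ht
  have hgood : ∀ t, constantCoeff (f t) = 0 → colen (jac (f t)) + colen (jac (res (f t))) = a →
      Good (f t) ∧ cl (pol (f t) ⊔ Ideal.span {f t}) = a := by
    intro t ht0 ht
    obtain ⟨h1, h2⟩ := hfin t ht
    rw [← colen_res] at h2
    have hg := good_of_jac ht0 h2 h1
    refine ⟨hg, ?_⟩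
    rw [hg.teissier]
    rw [← colen_res, ← coe_cl h1, ← coe_cl h2] at ht
    exact_mod_cast ht
  have h00 := h0.self_of_nhds
  have ha0 := h.self_of_nhds
  obtain ⟨hg0, hd0⟩ := hgood t₀ h00 ha0
  have hd : ∀ᶠ t in nhds t₀, cl (pol (f t) ⊔ Ideal.span {f t}) =
      cl (pol (f t₀) ⊔ Ideal.span {f t₀}) := by
    filter_upwards [h0, h] with t ht0 ht
    rw [hd0]
    exact (hgood t ht0 ht).2
  have key := family_const hc h0 hg0 hd
  filter_upwards [key, hd] with t ht htd
  obtain ⟨hgt, hLam, hX, hj, hG⟩ := ht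
  refine ⟨hgt, ?_, ?_, ?_⟩
  · ext1 lam
    by_cases hlam : lam ∈ cand (cl (pol (f t₀) ⊔ Ideal.span {f t₀}))
          (cl (pol (f t₀) ⊔ Ideal.span {(X 0 : PS (m + 1))}))
    · have := hG lam _ (Nat.lt_succ_self _) hlam rfl
      rw [mult, mult, hX, htd, this]
    · have h1 : lam ∉ Lam (f t₀) := fun h1 => hlam (hg0.Lam_subset h1)
      have h2 : lam ∉ Lam (f t) := by rw [hLam]; exact h1
      rw [← hg0.mult_ne_zero_iff, not_not] at h1
      rw [← hgt.mult_ne_zero_iff, not_not] at h2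
      rw [h1, h2]
  · rw [← coe_cl hgt.fin_jac, hj, coe_cl hg0.fin_jac]
  · rw [← colen_res, ← colen_res, ← coe_cl hgt.hX, hX, coe_cl hg0.hX]

end mult

section generic

variable {n : ℕ}

/-- `x` is the Milnor number of the section by a generic `i`-plane -/
def Mu (f : PS n) (i x : ℕ) : Prop :=
  Gen (fun A : Matrix (Fin n) (Fin i) ℂ => colen (jac (sub A f)) = x)

/-- upper semicontinuity of the Milnor number -/
theorem usc_jac {T : Type*} [TopologicalSpace T] {f : T → PS n} {t₀ : T}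
    (hf : CoeffCont f t₀) {D : ℕ} (hD : colen (jac (f t₀)) ≤ D) :
    ∀ᶠ t in nhds t₀, colen (jac (f t)) ≤ D :=
  usc (T := T) (t₀ := t₀) (G := fun (j : Fin n) t => pderiv ℂ j (f t)) (fun j => hf.pderiv j) hD

/-- the generic value is the minimal one -/
theorem Mu.le {f : PS n} {i x : ℕ} (h : Mu f i x) (A : Matrix (Fin n) (Fin i) ℂ) :
    (x : ℕ∞) ≤ colen (jac (sub A f)) := by
  by_cases htop : colen (jac (sub A f)) = ⊤
  · rw [htop]; exact le_top
  have h1 : ∀ᶠ B in nhds A, colen (jac (sub B f)) ≤ cl (jac (sub A f)) :=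
    usc_jac (T := Matrix (Fin n) (Fin i) ℂ) (t₀ := A) (f := fun B => sub B f)
      (CoeffCont.sect continuousAt_id (CoeffCont.const f A)) (by rw [coe_cl htop])
  obtain ⟨B, hB1, hB2⟩ := Gen.exists_mem h h1
  rw [← hB2, ← coe_cl htop]
  exact hB1

/-- `R` is the generic multiplicity function of the slopes -/
def Pg {m : ℕ} (f : PS n) (R : ℚ → ℕ) : Prop :=
  Gen (fun A : Matrix (Fin n) (Fin (m + 1)) ℂ => Good (sub A f) ∧ mult (sub A f) = R)

theorem generic_main {m : ℕ} {T : Type*} [TopologicalSpace T] {f : T → PS n} {t₀ : T}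
    (hc : CoeffCont f t₀) (h0 : ∀ᶠ t in nhds t₀, constantCoeff (f t) = 0) {a : ℕ}
    (h : ∀ᶠ t in nhds t₀, ∃ x y : ℕ, Mu (f t) (m + 1) x ∧ Mu (f t) m y ∧ x + y = a) :
    ∃ (R : ℚ → ℕ) (x y : ℕ), ∀ᶠ t in nhds t₀, Pg (m := m) (f t) R ∧
      Mu (f t) (m + 1) x ∧ Mu (f t) m y := by
  obtain ⟨x₀, y₀, hx₀, hy₀, hxy⟩ := h.self_of_nhds
  obtain ⟨A₀, hA1, hA2⟩ := (hx₀.and hy₀.succ).exists
  have hcF : CoeffCont (fun p : T × Matrix (Fin n) (Fin (m + 1)) ℂ => sub p.2 (f p.1)) (t₀, A₀) := by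
    apply CoeffCont.sect continuousAt_snd
    intro α
    exact ContinuousAt.comp_of_eq (g := fun t => coeff α (f t)) (hc α) continuousAt_fst rfl
  have hcF' : CoeffCont (fun p : T × Matrix (Fin n) (Fin (m + 1)) ℂ =>
      sub (p.2.submatrix id Fin.succ) (f p.1)) (t₀, A₀) := by
    apply CoeffCont.sect
    · exact (Continuous.matrix_submatrix continuous_snd id Fin.succ).continuousAt
    · intro α
      exact ContinuousAt.comp_of_eq (g := fun t => coeff α (f t)) (hc α) continuousAt_fst rfl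
  have hu1 := usc_jac hcF hA1.le
  have hu2 := usc_jac hcF' hA2.le
  -- the generic values are constant
  have hval : ∀ᶠ t in nhds t₀, Mu (f t) (m + 1) x₀ ∧ Mu (f t) m y₀ := by
    have hu := hu1.and hu2
    rw [nhds_prod_eq, Filter.eventually_prod_iff] at hu
    obtain ⟨pa, hpa, pb, hpb, hab⟩ := hu
    filter_upwards [hpa, h] with t hta ⟨x, y, hx, hy, hs⟩
    obtain ⟨A, hA, hA3, hA4⟩ := Gen.exists_mem (hx.and hy.succ) hpb
    obtain ⟨h3, h4⟩ := hab hta hA
    rw [hA3] at h3
    rw [hA4] at h4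
    have h5 : x ≤ x₀ := by exact_mod_cast h3
    have h6 : y ≤ y₀ := by exact_mod_cast h4
    have h7 : x = x₀ := by omega
    have h8 : y = y₀ := by omega
    rw [← h7, ← h8]
    exact ⟨hx, hy⟩
  -- constant Milnor numbers near `(t₀, A₀)`
  have hconst : ∀ᶠ p in nhds (t₀, A₀), colen (jac (sub p.2 (f p.1))) +
      colen (jac (res (sub p.2 (f p.1)))) = a := by
    have h1 : ∀ᶠ p : T × Matrix (Fin n) (Fin (m + 1)) ℂ in nhds (t₀, A₀),
        Mu (f p.1) (m + 1) x₀ ∧ Mu (f p.1) m y₀ :=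
      continuousAt_fst.eventually (p := fun t => Mu (f t) (m + 1) x₀ ∧ Mu (f t) m y₀) hval
    filter_upwards [hu1, hu2, h1] with p hp1 hp2 ⟨hp3, hp4⟩
    rw [le_antisymm hp1 (hp3.le p.2), res_sub, le_antisymm hp2 (hp4.le _), ← hxy]
    push_cast
    rfl
  have h0' : ∀ᶠ p : T × Matrix (Fin n) (Fin (m + 1)) ℂ in nhds (t₀, A₀),
      constantCoeff (sub p.2 (f p.1)) = 0 := by
    have h1 : ∀ᶠ p : T × Matrix (Fin n) (Fin (m + 1)) ℂ in nhds (t₀, A₀),
        constantCoeff (f p.1) = 0 :=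
      continuousAt_fst.eventually (p := fun t => constantCoeff (f t) = 0) h0
    filter_upwards [h1] with p hp
    exact constantCoeff_sub p.2 hp
  have hfam := family_mu hcF h0' hconst
  refine ⟨mult (sub A₀ (f t₀)), x₀, y₀, ?_⟩
  rw [nhds_prod_eq, Filter.eventually_prod_iff] at hfam
  obtain ⟨pa, hpa, pb, hpb, hab⟩ := hfam
  filter_upwards [hpa, hval, h0] with t hta ⟨htx, hty⟩ ht0
  refine ⟨?_, htx, hty⟩
  obtain ⟨Q, hQ, hQ2⟩ := htx.and hty.succ
  -- local constancy on generic matrices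
  have hloc : ∀ A, ev Q A ≠ 0 → ∀ᶠ B in nhds A, mult (sub B (f t)) = mult (sub A (f t)) ∧
      Good (sub B (f t)) := by
    intro A hA
    have hopen : ∀ᶠ B in nhds A, ev Q B ≠ 0 := by
      have hcont : Continuous (ev Q) := by
        unfold ev
        apply (MvPolynomial.continuous_eval Q).comp
        apply continuous_pi
        intro x
        exact continuous_id.matrix_elem x.1 x.2
      exact hcont.continuousAt.eventually_ne hA
    have h1 := family_mu (T := Matrix (Fin n) (Fin (m + 1)) ℂ) (t₀ := A) (f := fun B => sub B (f t))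
      (CoeffCont.sect continuousAt_id (CoeffCont.const (f t) A))
      (Filter.Eventually.of_forall fun B => constantCoeff_sub B ht0) (a := a) (by
        filter_upwards [hopen] with B hB
        rw [(hQ2 B hB).1, res_sub, (hQ2 B hB).2, ← hxy]
        push_cast
        rfl)
    filter_upwards [h1] with B hB
    exact ⟨hB.2.1, hB.1⟩
  refine ⟨Q, hQ, fun A hA => ?_⟩
  have hg : Good (sub A (f t)) := (hloc A hA).self_of_nhds.2
  refine ⟨hg, ?_⟩
  obtain ⟨B, hB1, hB2⟩ := Gen.exists_mem (p := fun B => ev Q B ≠ 0) ⟨Q, hQ, fun _ h => h⟩ hpb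
  have h1 := gen_const (F := fun B => mult (sub B (f t))) (fun A hA => (hloc A hA).mono fun _ h => h.1)
    hA hB2
  have h2 : mult (sub A (f t)) = mult (sub B (f t)) := h1
  rw [h2]
  exact (hab hta hB1).2.1

end generic

end Pool.Agent.Helper341_polar
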