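import Mathlib
import Pool.Agent.Helper341_polar.Main
import Pool.Agent.Helper341_polar.Assoc

/-!
# Multiplicities of the slopes
-/

set_option autoImplicit false

namespace Pool.Agent.Helper341_polar

open IsLocalRing MvPowerSeries

section conv

variable {n : ℕ}

theorem exists_socle {J : Ideal (PS n)} (hJ : J ≠ ⊤) (hfin : colen J ≠ ⊤) :
    ∃ x, x ∉ J ∧ ∀ y ∈ maximalIdeal (PS n), y * x ∈ J := by
  classical
  obtain ⟨k, hk⟩ := colen_ne_top_iff.1 hfin
  have hex : ∃ k, maximalIdeal (PS n) ^ k ≤ J := ⟨k, hk⟩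
  have hk0 : Nat.find hex ≠ 0 := by
    intro h0
    have h1 := Nat.find_spec hex
    rw [h0, pow_zero, Ideal.one_eq_top, top_le_iff] at h1
    exact hJ h1
  obtain ⟨j, hj⟩ := Nat.exists_eq_succ_of_ne_zero hk0
  have h1 : ¬ maximalIdeal (PS n) ^ j ≤ J := Nat.find_min hex (by omega)
  obtain ⟨x, hx, hxJ⟩ := SetLike.not_le_iff_exists.1 h1
  refine ⟨x, hxJ, fun y hy => ?_⟩
  have h2 := Nat.find_spec hex
  rw [hj] at h2
  apply h2
  rw [pow_succ']
  exact Ideal.mul_mem_mul hy hx

theorem length_residue : Module.length ℂ (PS n ⧸ maximalIdeal (PS n)) = 1 := by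
  have e : (PS n ⧸ maximalIdeal (PS n)) ≃ₗ[ℂ] ℂ := by
    let F : PS n →ₐ[ℂ] ℂ := { (constantCoeff : PS n →+* ℂ) with commutes' := fun c => constantCoeff_C c }
    have hF : Function.Surjective F := fun c => ⟨C c, constantCoeff_C c⟩
    have hker : RingHom.ker F = maximalIdeal (PS n) := by
      ext x
      rw [RingHom.mem_ker, mem_max_iff]
      exact Iff.rfl
    exact ((Ideal.quotientEquivAlgOfEq ℂ hker).symm.trans
      (Ideal.quotientKerAlgEquivOfSurjective hF)).toLinearEquiv
  rw [e.length_eq, Module.length_eq_one_iff]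
  infer_instance

theorem lenA_eq {J : Ideal (PS n)} (hfin : colen J ≠ ⊤) :
    Module.length (PS n) (PS n ⧸ J) = colen J := by
  obtain ⟨D, hD⟩ := ENat.ne_top_iff_exists.1 hfin
  clear hfin
  induction D using Nat.strong_induction_on generalizing J with
  | _ D ih =>
    by_cases hJ : J = ⊤
    · subst hJ
      unfold colen
      have : Subsingleton (PS n ⧸ (⊤ : Ideal (PS n))) := Submodule.Quotient.subsingleton_iff.2 rfl
      rw [Module.length_eq_zero, Module.length_eq_zero]
    have hfin : colen J ≠ ⊤ := by rw [← hD]; exact ENat.natCast_ne_top _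
    obtain ⟨x, hx, hxJ⟩ := exists_socle hJ hfin
    set J' : Ideal (PS n) := J ⊔ Ideal.span {x} with hJ'
    have hlt : J < J' := by
      apply lt_of_le_of_ne le_sup_left
      intro h0
      apply hx
      rw [h0]
      exact Ideal.mem_sup_right (Ideal.mem_span_singleton_self x)
    have hle : maximalIdeal (PS n) ≤ (Submodule.comap (LinearMap.mulRight (PS n) x) J) := by
      intro y hy
      exact hxJ y hy
    let F : (PS n ⧸ maximalIdeal (PS n)) →ₗ[PS n] (PS n ⧸ J) :=
      Submodule.mapQ _ _ (LinearMap.mulRight (PS n) x) hle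
    let G : (PS n ⧸ J) →ₗ[PS n] (PS n ⧸ J') := Submodule.factor hlt.le
    have hF : Function.Injective F := by
      rw [← LinearMap.ker_eq_bot, LinearMap.ker_eq_bot']
      intro y hy
      obtain ⟨y, rfl⟩ := Submodule.Quotient.mk_surjective _ y
      have h1 : Submodule.Quotient.mk (p := J) (y * x) = 0 := hy
      rw [Submodule.Quotient.mk_eq_zero] at h1
      rw [Submodule.Quotient.mk_eq_zero]
      by_contra hcon
      have hu : IsUnit y := by
        by_contra hu
        exact hcon ((mem_maximalIdeal y).2 hu)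
      obtain ⟨b, hb⟩ := hu.exists_left_inv
      apply hx
      have h2 : b * (y * x) ∈ J := J.mul_mem_left b h1
      rwa [← mul_assoc, hb, one_mul] at h2
    have hG : Function.Surjective G := Submodule.factor_surjective hlt.le
    have hFG : Function.Exact F G := by
      intro y
      obtain ⟨y, rfl⟩ := Submodule.Quotient.mk_surjective _ y
      constructor
      · intro h
        have h1 : Submodule.Quotient.mk (p := J') y = 0 := h
        rw [Submodule.Quotient.mk_eq_zero, hJ', Submodule.mem_sup] at h1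
        obtain ⟨a, ha, w, hw, haw⟩ := h1
        obtain ⟨v, rfl⟩ := Ideal.mem_span_singleton'.1 hw
        refine ⟨Submodule.Quotient.mk v, ?_⟩
        change Submodule.Quotient.mk (p := J) (v * x) = Submodule.Quotient.mk y
        rw [Submodule.Quotient.eq, ← haw]
        have : v * x - (a + v * x) = -a := by ring
        rw [this]
        exact J.neg_mem ha
      · rintro ⟨z, hz⟩
        obtain ⟨z, rfl⟩ := Submodule.Quotient.mk_surjective _ z
        rw [← hz]
        change Submodule.Quotient.mk (p := J') (z * x) = 0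
        rw [Submodule.Quotient.mk_eq_zero, hJ']
        exact Ideal.mem_sup_right (Ideal.mul_mem_left _ _ (Ideal.mem_span_singleton_self x))
    have h1 := Module.length_eq_add_of_exact F G hF hG hFG
    have h2 := Module.length_eq_add_of_exact (F.restrictScalars ℂ) (G.restrictScalars ℂ) hF hG hFG
    have h3 : colen J = 1 + colen J' := by
      unfold colen
      rw [h2, length_residue]
    have h4 : Module.length (PS n) (PS n ⧸ maximalIdeal (PS n)) = 1 := by
      rw [Module.length_eq_one_iff, isSimpleModule_iff_isCoatom]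
      exact (maximalIdeal.isMaximal (PS n)).out
    rw [h1, h4, h3]
    congr 1
    have hfin' : colen J' ≠ ⊤ := ne_top_of_le_ne_top hfin (colen_anti hlt.le)
    obtain ⟨D', hD'⟩ := ENat.ne_top_iff_exists.1 hfin'
    apply ih D' _ hD'
    rw [← hD, ← hD'] at h3
    have h5 : D = 1 + D' := by exact_mod_cast h3
    omega

theorem cok_eq {I : Ideal (PS n)} {g : PS n} (hfin : colen (I ⊔ Ideal.span {g}) ≠ ⊤) :
    cok g (PS n ⧸ I) = colen (I ⊔ Ideal.span {g}) := by
  rw [← lenA_eq hfin]
  unfold cok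
  have h1 : LinearMap.range (mulg g (PS n ⧸ I)) = Submodule.map (Submodule.mkQ I) (Ideal.span {g}) := by
    ext x
    constructor
    · rintro ⟨y, rfl⟩
      obtain ⟨y, rfl⟩ := Submodule.mkQ_surjective _ y
      refine ⟨g * y, Ideal.mul_mem_right _ _ (Ideal.mem_span_singleton_self g), ?_⟩
      rw [← smul_eq_mul, map_smul]
      rfl
    · rintro ⟨y, hy, rfl⟩
      obtain ⟨z, rfl⟩ := Ideal.mem_span_singleton'.1 hy
      rw [mul_comm, ← smul_eq_mul, map_smul]
      exact ⟨_, rfl⟩
  rw [h1]
  exact (Submodule.quotientQuotientEquivQuotientSup I (Ideal.span {g})).length_eq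

end conv

section formula

variable {m : ℕ}

/-- the minimal primes as a finite set of points of the spectrum -/
noncomputable def minP (I : Ideal (PS (m + 1))) : Finset (PrimeSpectrum (PS (m + 1))) :=
  ((Ideal.finite_minimalPrimes_of_isNoetherianRing _ I).preimage
    (f := PrimeSpectrum.asIdeal) (fun _ _ _ _ h => PrimeSpectrum.ext h)).toFinset

theorem mem_minP {I : Ideal (PS (m + 1))} {p : PrimeSpectrum (PS (m + 1))} :
    p ∈ minP I ↔ p.asIdeal ∈ I.minimalPrimes := by
  unfold minP
  rw [Set.Finite.mem_toFinset]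
  rfl

theorem colen_assoc {I : Ideal (PS (m + 1))} (hI : CI I)
    (hX : colen (I ⊔ Ideal.span {(X 0 : PS (m + 1))}) ≠ ⊤)
    {g : PS (m + 1)} (hg : colen (I ⊔ Ideal.span {g}) ≠ ⊤) :
    colen (I ⊔ Ideal.span {g}) =
      ∑ p ∈ minP I, ll p (PS (m + 1) ⧸ I) * colen (p.asIdeal ⊔ Ideal.span {g}) := by
  classical
  have hgreg := hI.regular hg
  obtain ⟨-, h1⟩ := assoc_formula I (minP I) (by
    intro p hp
    by_cases hmin : p.asIdeal ∈ I.minimalPrimes
    · exact Or.inl (mem_minP.2 hmin)
    · right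
      obtain ⟨P, hP, hle⟩ := Ideal.exists_minimalPrimes_le hp
      have hne : P ≠ p.asIdeal := by
        rintro rfl
        exact hmin hP
      obtain ⟨y, hy, hyP⟩ := SetLike.exists_of_lt (lt_of_le_of_ne hle hne)
      obtain ⟨φ, hφ⟩ := exists_br hI hX hP
      obtain ⟨k, hk⟩ := colen_ne_top_iff.1 (hφ.colen_ne_top hyP)
      apply le_antisymm (le_maximalIdeal p.2.ne_top)
      apply p.2.le_of_pow_le (hk.trans _)
      apply sup_le hle
      rw [Ideal.span_singleton_le_iff_mem]
      exact hy) (by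
    intro p hp h0
    have h2 : (X 0 : PS (m + 1)) ∉ p.asIdeal := notMem_of_regular (mem_minP.1 hp) (hI.regular hX)
    rw [h0] at h2
    exact h2 (X_mem_max 0)) (by
    intro p hp q hq hle
    apply PrimeSpectrum.ext
    exact le_antisymm hle ((mem_minP.1 hq).2 (mem_minP.1 hp).1 hle)) g (by
    intro p hp
    exact notMem_of_regular (mem_minP.1 hp) hgreg) (M := PS (m + 1) ⧸ I) inferInstance (by
    rw [Ideal.annihilator_quotient])
  have h2 : kl g (PS (m + 1) ⧸ I) = 0 := by
    unfold kl
    rw [Module.length_eq_zero_iff, Submodule.subsingleton_iff_eq_bot, LinearMap.ker_eq_bot']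
    intro x hx
    rw [isSMulRegular_iff_right_eq_zero_of_smul] at hgreg
    exact hgreg x hx
  rw [h2, zero_add, cok_eq hg] at h1
  rw [h1]
  apply Finset.sum_congr rfl
  intro p hp
  rw [cok_eq]
  exact ne_top_of_le_ne_top hg (colen_anti (sup_le_sup_right (mem_minP.1 hp).1.2 _))

/-- multiplicity of a component -/
noncomputable def ell (I : Ideal (PS (m + 1))) (p : PrimeSpectrum (PS (m + 1))) : ℕ :=
  (ll p (PS (m + 1) ⧸ I)).toNat

theorem coe_ell {I : Ideal (PS (m + 1))} (hI : CI I)
    (hX : colen (I ⊔ Ideal.span {(X 0 : PS (m + 1))}) ≠ ⊤) {p : PrimeSpectrum (PS (m + 1))}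
    (hp : p ∈ minP I) : (ell I p : ℕ∞) = ll p (PS (m + 1) ⧸ I) := by
  apply ENat.natCast_toNat
  intro h0
  have h1 := colen_assoc hI hX hX
  apply hX
  rw [h1, ENat.sum_eq_top]
  refine ⟨p, hp, ?_⟩
  obtain ⟨φ, hφ⟩ := exists_br hI hX (mem_minP.1 hp)
  rw [h0]
  apply ENat.top_mul
  rw [← coe_cl hφ.fin]
  exact_mod_cast hφ.cl_pos.ne'

theorem cl_assoc {I : Ideal (PS (m + 1))} (hI : CI I)
    (hX : colen (I ⊔ Ideal.span {(X 0 : PS (m + 1))}) ≠ ⊤)
    {g : PS (m + 1)} (hg : colen (I ⊔ Ideal.span {g}) ≠ ⊤) :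
    cl (I ⊔ Ideal.span {g}) = ∑ p ∈ minP I, ell I p * cl (p.asIdeal ⊔ Ideal.span {g}) := by
  have h1 := colen_assoc hI hX hg
  rw [← coe_cl hg] at h1
  have h2 : ∑ p ∈ minP I, ll p (PS (m + 1) ⧸ I) * colen (p.asIdeal ⊔ Ideal.span {g}) =
      ((∑ p ∈ minP I, ell I p * cl (p.asIdeal ⊔ Ideal.span {g}) : ℕ) : ℕ∞) := by
    push_cast
    apply Finset.sum_congr rfl
    intro p hp
    rw [coe_ell hI hX hp, coe_cl]
    exact ne_top_of_le_ne_top hg (colen_anti (sup_le_sup_right (mem_minP.1 hp).1.2 _))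
  rw [h2] at h1
  exact_mod_cast h1

/-- the slope of a component -/
noncomputable def slope (f : PS (m + 1)) (p : PrimeSpectrum (PS (m + 1))) : ℚ :=
  (cl (p.asIdeal ⊔ Ideal.span {f}) : ℚ) / cl (p.asIdeal ⊔ Ideal.span {(X 0 : PS (m + 1))})

open Classical in
theorem Good.mult_eq {f : PS (m + 1)} (h : Good f) (lam : ℚ) :
    mult f lam = ∑ p ∈ (minP (pol f)).filter (fun p => slope f p = lam),
      ell (pol f) p * cl (p.asIdeal ⊔ Ideal.span {(X 0 : PS (m + 1))}) := by
  set L := cl (pol f ⊔ Ideal.span {(X 0 : PS (m + 1))}) + 1 with hL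
  have hLt : cl (pol f ⊔ Ideal.span {(X 0 : PS (m + 1))}) < L := Nat.lt_succ_self _
  have h1 : cl (pol f ⊔ Ideal.span {GG L lam f}) = L * cl (pol f ⊔ Ideal.span {f}) +
      ∑ p ∈ (minP (pol f)).filter (fun p => slope f p = lam),
      ell (pol f) p * cl (p.asIdeal ⊔ Ideal.span {(X 0 : PS (m + 1))}) := by
    rw [cl_assoc (pol_ci f) h.hX (h.fin_GG lam hLt), cl_assoc (pol_ci f) h.hX h.hf,
      Finset.mul_sum, Finset.sum_filter, ← Finset.sum_add_distrib]
    apply Finset.sum_congr rfl
    intro p hp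
    obtain ⟨φ, hφ⟩ := exists_br (pol_ci f) h.hX (mem_minP.1 hp)
    obtain ⟨g1, g2⟩ := h.order_GG (mem_minP.1 hp) hφ lam hLt
    have e1 := hφ.cl_eq g1
    have e2 := hφ.cl_eq (h.f_notMem (mem_minP.1 hp))
    have e3 : slope f p = (φ f).order := (h.order_eq (mem_minP.1 hp) hφ).symm
    rw [g2, ← e3] at e1
    rw [← e3] at e2
    have e4 : (cl (p.asIdeal ⊔ Ideal.span {GG L lam f}) : ℚ) =
        L * cl (p.asIdeal ⊔ Ideal.span {f}) +
          (if slope f p = lam then (cl (p.asIdeal ⊔ Ideal.span {(X 0 : PS (m + 1))}) : ℚ) else 0) := by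
      rw [e1, e2]
      by_cases hc : slope f p = lam
      · rw [if_pos hc, if_pos hc.symm]
        ring
      · rw [if_neg hc, if_neg (Ne.symm hc)]
        ring
    have e5 : cl (p.asIdeal ⊔ Ideal.span {GG L lam f}) =
        L * cl (p.asIdeal ⊔ Ideal.span {f}) +
          (if slope f p = lam then cl (p.asIdeal ⊔ Ideal.span {(X 0 : PS (m + 1))}) else 0) := by
      split_ifs at e4 ⊢ with hc
      · exact_mod_cast e4
      · rw [add_zero] at e4 ⊢
        exact_mod_cast e4
    rw [e5]
    split_ifs with hc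
    · ring
    · ring
  rw [mult, ← hL, h1, Nat.add_sub_cancel_left]

end formula

end Pool.Agent.Helper341_polar
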