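import Mathlib
import Pool.Agent.Helper341_polar.Mult
import Pool.Agent.Helper341_polar.Defs

/-!
# Comparison with the definitions of the statements
-/

set_option autoImplicit false

namespace Pool.Agent.Helper341_polar

open IsLocalRing MvPowerSeries

variable {m : ℕ}

theorem milnor_eq {n : ℕ} (f : PS n) : St.milnor f = colen (jac f) := rfl

theorem restrict_eq (f : PS (m + 1)) : St.restrict f = res f := rfl

theorem polarIdeal_eq (f : PS (m + 1)) : St.polarIdeal f = pol f := rfl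

theorem inter_eq {n : ℕ} (p : PrimeSpectrum (PS n)) (h : PS n) :
    St.inter p h = colen (p.asIdeal ⊔ Ideal.span {h}) := rfl

/-- the branches are one-dimensional -/
theorem Br.dim {P : Ideal (PS (m + 1))} {φ : PS (m + 1) →+* HS} (h : Br P φ) :
    ringKrullDim (PS (m + 1) ⧸ P) = 1 := by
  classical
  set p : PrimeSpectrum (PS (m + 1)) := ⟨P, h.prime⟩ with hp
  have h1 : (Order.coheight p : WithBot ℕ∞) = ringKrullDim (PS (m + 1) ⧸ P) := coheight_eq_dim' p
  rw [← h1]
  obtain ⟨k, hk⟩ := h.exists_pow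
  have h2 : Order.coheight p ≤ 1 := by
    have h3 := coheight_le_card p {(X 0 : PS (m + 1))} (by
      intro x hx
      rw [Finset.mem_singleton] at hx
      rw [hx]
      exact X_mem_max 0) k (by simpa using hk)
    simpa using h3
  have h3 : Order.coheight p ≠ 0 := by
    rw [Ne, Order.coheight_eq_zero]
    intro hmax
    have h4 : p ≤ ⟨maximalIdeal (PS (m + 1)), (maximalIdeal.isMaximal _).isPrime⟩ :=
      le_maximalIdeal h.prime.ne_top
    have h5 := hmax h4
    exact h.nz (h5 (X_mem_max 0))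
  have h4 : Order.coheight p = 1 := le_antisymm h2 (Order.one_le_iff_ne_zero.2 h3)
  rw [h4]
  rfl

theorem slope_cast {k l : ℕ} (hk : 0 < k) (r : ℚ) : r = ((l : ℚ) - k) / k ↔ (l : ℚ) / k = r + 1 := by
  have hk' : (k : ℚ) ≠ 0 := by exact_mod_cast hk.ne'
  rw [sub_div, div_self hk', eq_sub_iff_add_eq, eq_comm]

theorem Good.hasQuotient_iff {f : PS (m + 1)} (h : Good f) (p : PrimeSpectrum (PS (m + 1))) (r : ℚ) :
    St.HasQuotient f p r ↔ p ∈ minP (pol f) ∧ slope f p = r + 1 := by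
  constructor
  · rintro ⟨hp, -, k, l, hk, hk2, hl, hr⟩
    have hp : p.asIdeal ∈ (pol f).minimalPrimes := hp
    refine ⟨mem_minP.2 hp, ?_⟩
    rw [inter_eq] at hk2 hl
    rw [slope_cast hk] at hr
    rw [slope, ← hr, cl, cl, hk2, hl]
    rfl
  · rintro ⟨hp, hs⟩
    obtain ⟨φ, hφ⟩ := exists_br (pol_ci f) h.hX (mem_minP.1 hp)
    refine ⟨mem_minP.1 hp, hφ.dim, cl (p.asIdeal ⊔ Ideal.span {(X 0 : PS (m + 1))}),
      cl (p.asIdeal ⊔ Ideal.span {f}), hφ.cl_pos, (coe_cl hφ.fin).symm,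
      (coe_cl (hφ.colen_ne_top (h.f_notMem (mem_minP.1 hp)))).symm, ?_⟩
    rw [slope_cast hφ.cl_pos]
    exact hs

theorem Good.polygon_eq {f : PS (m + 1)} (h : Good f) (r : ℚ) :
    St.polygon f r = (mult f (r + 1) : ℕ) := by
  classical
  rw [h.mult_eq, St.polygon]
  have h1 : ∀ p : PrimeSpectrum (PS (m + 1)),
      (∑ᶠ (_ : St.HasQuotient f p r), St.compMult f p * St.inter p (X 0)) =
      if p ∈ (minP (pol f)).filter (fun p => slope f p = r + 1) then
        ((ell (pol f) p * cl (p.asIdeal ⊔ Ideal.span {(X 0 : PS (m + 1))}) : ℕ) : ℕ∞) else 0 := by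
    intro p
    by_cases hp : St.HasQuotient f p r
    · rw [finsum_eq_if, if_pos hp, if_pos (by
        rw [Finset.mem_filter]
        exact (h.hasQuotient_iff p r).1 hp)]
      obtain ⟨hp1, hp2⟩ := (h.hasQuotient_iff p r).1 hp
      obtain ⟨φ, hφ⟩ := exists_br (pol_ci f) h.hX (mem_minP.1 hp1)
      push_cast
      rw [coe_ell (pol_ci f) h.hX hp1, coe_cl hφ.fin]
      rfl
    · rw [finsum_eq_if, if_neg hp, if_neg (by
        rw [Finset.mem_filter]
        exact fun h' => hp ((h.hasQuotient_iff p r).2 h'))]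
  rw [finsum_congr h1, finsum_eq_sum_of_support_subset (s := (minP (pol f)).filter
    (fun p => slope f p = r + 1))]
  · rw [Nat.cast_sum]
    apply Finset.sum_congr rfl
    intro p hp
    rw [if_pos hp]
  · intro p hp
    rw [Function.mem_support] at hp
    by_contra hcon
    exact hp (if_neg hcon)

theorem Good.mem_polarQuotients {f : PS (m + 1)} (h : Good f) (r : ℚ) :
    r ∈ St.polarQuotients f ↔ mult f (r + 1) ≠ 0 := by
  rw [h.mult_ne_zero_iff]
  constructor
  · rintro ⟨p, hp⟩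
    obtain ⟨hp1, hp2⟩ := (h.hasQuotient_iff p r).1 hp
    exact ⟨p.asIdeal, mem_minP.1 hp1, hp2.symm⟩
  · rintro ⟨P, hP, hr⟩
    exact ⟨⟨P, hP.1.1⟩, (h.hasQuotient_iff _ r).2 ⟨mem_minP.2 hP, hr.symm⟩⟩

theorem polarQuotients_congr {f g : PS (m + 1)} (hf : Good f) (hg : Good g) (h : mult f = mult g) :
    St.polarQuotients f = St.polarQuotients g := by
  ext r
  rw [hf.mem_polarQuotients, hg.mem_polarQuotients, h]

theorem polygon_congr {f g : PS (m + 1)} (hf : Good f) (hg : Good g) (h : mult f = mult g) :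
    St.polygon f = St.polygon g := by
  ext1 r
  rw [hf.polygon_eq, hg.polygon_eq, h]

/-- the polygon determines `mult` -/
theorem mult_congr {f g : PS (m + 1)} (hf : Good f) (hg : Good g)
    (h : St.polygon f = St.polygon g) : mult f = mult g := by
  ext1 r
  have h1 := congrFun h (r - 1)
  rw [hf.polygon_eq, hg.polygon_eq, sub_add_cancel] at h1
  exact_mod_cast h1

open Classical in
/-- the polygon determines the intersection number with the hypersurface -/
theorem Good.sum_mult {f : PS (m + 1)} (h : Good f) (F : Finset ℚ) (hF : Lam f ⊆ F) :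
    ∑ lam ∈ F, lam * (mult f lam : ℚ) = cl (pol f ⊔ Ideal.span {f}) := by
  have h1 : ∀ lam ∈ F, lam * (mult f lam : ℚ) =
      ∑ p ∈ (minP (pol f)).filter (fun p => slope f p = lam),
        (ell (pol f) p * cl (p.asIdeal ⊔ Ideal.span {f}) : ℚ) := by
    intro lam _
    rw [h.mult_eq, Nat.cast_sum, Finset.mul_sum]
    apply Finset.sum_congr rfl
    intro p hp
    rw [Finset.mem_filter] at hp
    obtain ⟨φ, hφ⟩ := exists_br (pol_ci f) h.hX (mem_minP.1 hp.1)
    have h2 : (cl (p.asIdeal ⊔ Ideal.span {(X 0 : PS (m + 1))}) : ℚ) ≠ 0 := by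
      exact_mod_cast hφ.cl_pos.ne'
    have h3 : (cl (p.asIdeal ⊔ Ideal.span {f}) : ℚ) =
        lam * cl (p.asIdeal ⊔ Ideal.span {(X 0 : PS (m + 1))}) := by
      rw [← hp.2, slope, div_mul_cancel₀ _ h2]
    rw [h3]
    push_cast
    ring
  rw [Finset.sum_congr rfl h1, Finset.sum_fiberwise_of_maps_to (g := fun p => slope f p)
    (f := fun p => (ell (pol f) p * cl (p.asIdeal ⊔ Ideal.span {f}) : ℚ)),
    cl_assoc (pol_ci f) h.hX h.hf]
  · push_cast
    rfl
  · intro p hp
    exact hF ⟨p.asIdeal, mem_minP.1 hp, rfl⟩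

theorem cl_f_congr {f g : PS (m + 1)} (hf : Good f) (hg : Good g) (h : mult f = mult g) :
    cl (pol f ⊔ Ideal.span {f}) = cl (pol g ⊔ Ideal.span {g}) := by
  have h1 : Lam f = Lam g := by rw [hf.Lam_eq, hg.Lam_eq, h]
  have e1 := hf.sum_mult _ hf.Lam_subset
  have e2 := hg.sum_mult _ (h1 ▸ hf.Lam_subset)
  rw [h] at e1
  rw [e1] at e2
  exact_mod_cast e2

end Pool.Agent.Helper341_polar
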