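import Mathlib
import Pool.Agent.Helper341_polar.Point
import Pool.Agent.Helper341_polar.BranchC

/-!
# Minimal primes of an ideal of convergent power series and of its extension
-/

set_option autoImplicit false

namespace Pool.Agent.Helper341_polar

open IsLocalRing MvPowerSeries

section abs

variable {O : Type} [CommRing O]

theorem dim_one [IsLocalRing O] {P : Ideal O} (hP : P.IsPrime) {x : O} (hx : x ∈ maximalIdeal O)
    (hxP : x ∉ P) (h : ∀ g, g ∉ P → ∃ k, maximalIdeal O ^ k ≤ P ⊔ Ideal.span {g}) :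
    ringKrullDim (O ⧸ P) = 1 := by
  have hdom : IsDomain (O ⧸ P) := Ideal.Quotient.isDomain P
  have hloc : IsLocalRing (O ⧸ P) :=
    IsLocalRing.of_surjective' (Ideal.Quotient.mk P) Ideal.Quotient.mk_surjective
  have hunit : ∀ y ∈ maximalIdeal O, ¬ IsUnit (Ideal.Quotient.mk P y) := by
    intro y hy hu
    obtain ⟨b, hb⟩ := hu.exists_right_inv
    obtain ⟨z, rfl⟩ := Ideal.Quotient.mk_surjective b
    rw [← map_mul, ← map_one (Ideal.Quotient.mk P), Ideal.Quotient.eq] at hb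
    have h1 : y * z - (y * z - 1) ∈ maximalIdeal O :=
      Ideal.sub_mem _ (Ideal.mul_mem_right _ _ hy) (le_maximalIdeal hP.ne_top hb)
    rw [sub_sub_cancel] at h1
    exact (Ideal.ne_top_iff_one _).1 (maximalIdeal.isMaximal O).ne_top h1
  rw [ringKrullDim_eq_one_iff_of_isLocalRing_isDomain]
  constructor
  · intro hf
    have h1 : Ideal.Quotient.mk P x ≠ 0 := by
      intro h0
      exact hxP (Ideal.Quotient.eq_zero_iff_mem.1 h0)
    obtain ⟨b, hb⟩ := hf.mul_inv_cancel h1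
    exact hunit x hx (IsUnit.of_mul_eq_one b hb)
  · intro y hy z hz
    obtain ⟨y, rfl⟩ := Ideal.Quotient.mk_surjective y
    obtain ⟨z, rfl⟩ := Ideal.Quotient.mk_surjective z
    have hyP : y ∉ P := fun h0 => hy (Ideal.Quotient.eq_zero_iff_mem.2 h0)
    have hzm : z ∈ maximalIdeal O := by
      rw [mem_maximalIdeal, mem_nonunits_iff]
      intro hu
      rw [mem_maximalIdeal, mem_nonunits_iff] at hz
      exact hz (hu.map _)
    obtain ⟨k, hk⟩ := h y hyP
    obtain ⟨a, ha, w, hw, haw⟩ := Submodule.mem_sup.1 (hk (Ideal.pow_mem_pow hzm k))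
    obtain ⟨v, rfl⟩ := Ideal.mem_span_singleton'.1 hw
    rw [Ideal.mem_radical_iff]
    refine ⟨k, ?_⟩
    rw [← map_pow, ← haw, map_add, Ideal.Quotient.eq_zero_iff_mem.2 ha, zero_add, map_mul]
    exact Ideal.mul_mem_left _ _ (Ideal.mem_span_singleton_self _)

theorem krull_inter [IsLocalRing O] {I : Ideal O} (hI : I ≠ ⊤) (hN : IsNoetherianRing (O ⧸ I))
    {x : O} (hx : ∀ k, x ∈ I ⊔ maximalIdeal O ^ k) : x ∈ I := by
  have hnt : Nontrivial (O ⧸ I) := Ideal.Quotient.nontrivial_iff.mpr hI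
  have hloc : IsLocalRing (O ⧸ I) :=
    IsLocalRing.of_surjective' (Ideal.Quotient.mk I) Ideal.Quotient.mk_surjective
  set M : Ideal (O ⧸ I) := (maximalIdeal O).map (Ideal.Quotient.mk I) with hM
  have hMne : M ≠ ⊤ := by
    intro h0
    have h1 : (1 : O ⧸ I) ∈ M := by rw [h0]; trivial
    rw [hM, Ideal.mem_map_iff_of_surjective _ Ideal.Quotient.mk_surjective] at h1
    obtain ⟨y, hy, hy2⟩ := h1
    rw [← map_one (Ideal.Quotient.mk I), Ideal.Quotient.eq] at hy2
    have h2 : y - (y - 1) ∈ maximalIdeal O := Ideal.sub_mem _ hy (le_maximalIdeal hI hy2)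
    rw [sub_sub_cancel] at h2
    exact (Ideal.ne_top_iff_one _).1 (maximalIdeal.isMaximal O).ne_top h2
  have h1 := Ideal.iInf_pow_eq_bot_of_isLocalRing M hMne
  have h2 : Ideal.Quotient.mk I x ∈ (⨅ i : ℕ, M ^ i) := by
    rw [Submodule.mem_iInf]
    intro k
    obtain ⟨a, ha, w, hw, haw⟩ := Submodule.mem_sup.1 (hx k)
    rw [← haw, map_add, Ideal.Quotient.eq_zero_iff_mem.2 ha, zero_add, hM, ← Ideal.map_pow]
    exact Ideal.mem_map_of_mem _ hw
  rw [h1] at h2
  exact Ideal.Quotient.eq_zero_iff_mem.1 h2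

/-- reduction to a nonzero constant coefficient -/
theorem exists_coeff_zero_ne {R : Type} [CommRing R] (j : R →+* O) {P : Ideal O} (hP : P.IsPrime)
    {y : O} (hy : y ∉ P) {q : Polynomial R} (hq : q ≠ 0) (hq2 : q.eval₂ j y ∈ P) :
    ∃ r : Polynomial R, r.coeff 0 ≠ 0 ∧ r.eval₂ j y ∈ P := by
  obtain ⟨d, hd⟩ : ∃ d, q.natDegree = d := ⟨_, rfl⟩
  induction d using Nat.strong_induction_on generalizing q with
  | _ d ih =>
    by_cases h0 : q.coeff 0 = 0
    · obtain ⟨q', rfl⟩ := Polynomial.X_dvd_iff.2 h0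
      have hq' : q' ≠ 0 := by
        rintro rfl
        exact hq (mul_zero _)
      rw [Polynomial.eval₂_mul, Polynomial.eval₂_X] at hq2
      have h1 := (hP.mem_or_mem hq2).resolve_left hy
      have hnt : Nontrivial R := by
        by_contra hcon
        rw [not_nontrivial_iff_subsingleton] at hcon
        exact hq' (Subsingleton.elim _ _)
      have h2 : (Polynomial.X * q').natDegree = q'.natDegree + 1 := by
        rw [mul_comm, Polynomial.natDegree_mul_X hq']
      exact ih q'.natDegree (by omega) hq' h1 rfl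
    · exact ⟨q, h0, hq2⟩

theorem const_mem {R : Type} [CommRing R] (j : R →+* O) {P : Ideal O} {y : O} (hy : y ∈ P)
    {r : Polynomial R} (hr : r.eval₂ j y ∈ P) : j (r.coeff 0) ∈ P := by
  have h1 : r.eval₂ j y = y * (r.divX.eval₂ j y) + j (r.coeff 0) := by
    conv_lhs => rw [← Polynomial.X_mul_divX_add r]
    rw [Polynomial.eval₂_add, Polynomial.eval₂_mul, Polynomial.eval₂_X, Polynomial.eval₂_C]
  have h2 : j (r.coeff 0) = r.eval₂ j y - y * (r.divX.eval₂ j y) := by rw [h1]; ring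
  rw [h2]
  exact P.sub_mem hr (P.mul_mem_right _ hy)

end abs

variable {m : ℕ} {I : Ideal (CS (m + 1))}

theorem xc_mem_of_jc_mem {P : Ideal (CS (m + 1))} (hP : P.IsPrime) {c : R1} (hc : c ≠ 0)
    (h : jc c ∈ P) : (xc 0 : CS (m + 1)) ∈ P := by
  obtain ⟨n, u, hu⟩ := exists_x1_pow hc
  rw [← hu, map_mul, map_pow] at h
  have h1 : (jc x1 : CS (m + 1)) = xc 0 := by
    apply Subtype.ext
    exact jj_X
  rcases hP.mem_or_mem h with h2 | h2
  · rw [h1] at h2
    exact hP.mem_of_pow_mem _ h2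
  · exact absurd (Ideal.eq_top_of_isUnit_mem _ h2 (u.isUnit.map jc)) hP.ne_top

theorem map_sup_span (I : Ideal (CS (m + 1))) (g : CS (m + 1)) :
    (I ⊔ Ideal.span {g}).map (inc (m + 1)) =
      I.map (inc (m + 1)) ⊔ Ideal.span {(g : PS (m + 1))} := by
  rw [Ideal.map_sup, Ideal.map_span, Set.image_singleton]
  rfl

theorem fin_of_formal
    (hX : colen (I.map (inc (m + 1)) ⊔ Ideal.span {(X 0 : PS (m + 1))}) ≠ ⊤) :
    colenC (I ⊔ Ideal.span {(xc 0 : CS (m + 1))}) ≠ ⊤ := by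
  rw [colenC_eq, map_sup_span]
  exact hX

theorem fin_of_le (hX : colenC (I ⊔ Ideal.span {(xc 0 : CS (m + 1))}) ≠ ⊤)
    {P : Ideal (CS (m + 1))} (hP : I ≤ P) :
    colenC (P ⊔ Ideal.span {(xc 0 : CS (m + 1))}) ≠ ⊤ :=
  ne_top_of_le_ne_top hX (colenC_anti (sup_le_sup_right hP _))

theorem comap_map_eq (hX : colenC (I ⊔ Ideal.span {(xc 0 : CS (m + 1))}) ≠ ⊤) :
    (I.map (inc (m + 1))).comap (inc (m + 1)) = I := by
  apply le_antisymm _ Ideal.le_comap_map
  intro x hx
  by_cases htop : I = ⊤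
  · rw [htop]; trivial
  · apply krull_inter htop
    · obtain ⟨K, hK⟩ := colenC_ne_top_iff.1 hX
      apply noetherian_of_comb jc I (monc (K := K))
      apply exists_comb
      intro i _
      obtain ⟨a, ha, w, hw, haw⟩ := Submodule.mem_sup.1 (hK (Ideal.pow_mem_pow (xc_mem_max i) K))
      obtain ⟨v, rfl⟩ := Ideal.mem_span_singleton'.1 hw
      refine ⟨v, ?_⟩
      have : xc i ^ K - xc 0 * v = a := by
        rw [← haw]; ring
      rw [this]
      exact ha
    · intro k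
      rw [← comap_sup, Ideal.mem_comap]
      exact Ideal.mem_sup_left hx

/-- contraction of the minimal primes -/
theorem comap_minimal (hX : colenC (I ⊔ Ideal.span {(xc 0 : CS (m + 1))}) ≠ ⊤)
    {Q : Ideal (PS (m + 1))} (hQ : Q ∈ (I.map (inc (m + 1))).minimalPrimes)
    (hQX : (X 0 : PS (m + 1)) ∉ Q) : Q.comap (inc (m + 1)) ∈ I.minimalPrimes := by
  have hQp : Q.IsPrime := hQ.1.1
  refine ⟨⟨Ideal.IsPrime.comap _, ?_⟩, ?_⟩
  · exact Ideal.map_le_iff_le_comap.1 hQ.1.2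
  · rintro P' ⟨hP'p, hIP'⟩ hle y hy
    by_contra hyP'
    obtain ⟨q, hq, hq2⟩ := exists_monic_of_fin (fin_of_le hX hIP') y
    obtain ⟨r, hr, hr2⟩ := exists_coeff_zero_ne jc hP'p hyP' hq.ne_zero hq2
    have h1 := const_mem jc hy (hle hr2)
    have hp : (Q.comap (inc (m + 1))).IsPrime := Ideal.IsPrime.comap _
    exact hQX (xc_mem_of_jc_mem hp hr h1)

/-- every minimal prime is a contraction -/
theorem exists_minimal (hX : colenC (I ⊔ Ideal.span {(xc 0 : CS (m + 1))}) ≠ ⊤)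
    {P : Ideal (CS (m + 1))} (hP : P ∈ I.minimalPrimes) :
    ∃ Q ∈ (I.map (inc (m + 1))).minimalPrimes, Q.comap (inc (m + 1)) = P := by
  classical
  have hPp : P.IsPrime := hP.1.1
  have hfin : (I.map (inc (m + 1))).minimalPrimes.Finite :=
    Ideal.finite_minimalPrimes_of_isNoetherianRing _ _
  by_contra hcon
  push Not at hcon
  have h1 : ∀ Q : Ideal (PS (m + 1)), ∃ x : CS (m + 1), Q ∈ (I.map (inc (m + 1))).minimalPrimes →
      (x : PS (m + 1)) ∈ Q ∧ x ∉ P := by
    intro Q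
    by_cases hQ : Q ∈ (I.map (inc (m + 1))).minimalPrimes
    · have hQp : Q.IsPrime := hQ.1.1
      have h2 : ¬ Q.comap (inc (m + 1)) ≤ P := by
        intro hle
        apply hcon Q hQ
        apply le_antisymm hle
        exact hP.2 ⟨Ideal.IsPrime.comap _, Ideal.map_le_iff_le_comap.1 hQ.1.2⟩ hle
      obtain ⟨x, hx, hxP⟩ := SetLike.not_le_iff_exists.1 h2
      exact ⟨x, fun _ => ⟨hx, hxP⟩⟩
    · exact ⟨0, fun h => absurd h hQ⟩
  choose x hx using h1
  set y : CS (m + 1) := ∏ Q ∈ hfin.toFinset, x Q with hy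
  have hyP : y ∉ P := by
    intro h2
    rw [hy, hPp.prod_mem_iff] at h2
    obtain ⟨Q, hQ, hQ2⟩ := h2
    exact (hx Q (hfin.mem_toFinset.1 hQ)).2 hQ2
  have hyr : inc (m + 1) y ∈ (I.map (inc (m + 1))).radical := by
    rw [← Ideal.sInf_minimalPrimes, Submodule.mem_sInf]
    intro Q hQ
    rw [hy, ← Finset.mul_prod_erase _ _ (hfin.mem_toFinset.2 hQ), map_mul]
    exact Ideal.mul_mem_right _ _ (hx Q hQ).1
  obtain ⟨s, hs⟩ := Ideal.mem_radical_iff.1 hyr
  rw [← map_pow] at hs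
  have h2 : y ^ s ∈ I := by
    rw [← comap_map_eq hX]
    exact hs
  exact hyP (hPp.mem_of_pow_mem _ (hP.1.2 h2))

theorem BrC.dim {P : Ideal (CS (m + 1))} {ψ : CS (m + 1) →+* HS} (h : BrC P ψ) :
    ringKrullDim (CS (m + 1) ⧸ P) = 1 :=
  dim_one h.prime (xc_mem_max 0) h.nz fun _ hg => colenC_ne_top_iff.1 (h.colenC_ne_top hg)

end Pool.Agent.Helper341_polar
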