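import Mathlib
import Pool.Agent.Helper341_polar.Sect
import Pool.Agent.Helper341_polar.MinC

/-!
# Derivatives and linear substitutions of convergent power series
-/

set_option autoImplicit false

namespace Pool.Agent.Helper341_polar

open MvPowerSeries ENNReal

theorem wt_cw {n : ℕ} (r : ℝ≥0∞) (α : Fin n →₀ ℕ) : wt (cw (Fin n) r) α = r ^ α.degree := by
  unfold wt
  rw [Finsupp.prod_pow, Finset.prod_pow_eq_pow_sum]
  congr 1
  rw [Finsupp.degree_eq_sum]

/-- absolute convergence at `(r, …, r)` -/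
def IsConv {n : ℕ} (f : PS n) : Prop :=
  ∃ r : ℝ, 0 < r ∧ Summable fun α : Fin n →₀ ℕ => ‖coeff α f‖ * r ^ α.degree

theorem isConv_iff {n : ℕ} (f : PS n) : IsConv f ↔ f ∈ Cv (Fin n) := by
  constructor
  · rintro ⟨r, hr, hs⟩
    refine ⟨ENNReal.ofReal r, by rwa [Ne, ENNReal.ofReal_eq_zero, not_le], ?_⟩
    unfold wn
    have h1 : ∀ α : Fin n →₀ ℕ, ‖coeff α f‖ₑ * wt (cw (Fin n) (ENNReal.ofReal r)) α =
        ENNReal.ofReal (‖coeff α f‖ * r ^ α.degree) := by
      intro α
      rw [wt_cw, ENNReal.ofReal_mul (norm_nonneg _), ENNReal.ofReal_pow hr.le, ofReal_norm]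
    rw [tsum_congr h1]
    exact hs.tsum_ofReal_ne_top
  · rintro ⟨r, hr, hfin⟩
    -- a finite positive radius
    set s : ℝ≥0∞ := min r 1 with hs
    have hs0 : s ≠ 0 := (lt_min (pos_iff_ne_zero.2 hr) one_pos).ne'
    have hst : s ≠ ∞ := (lt_of_le_of_lt (min_le_right _ _) ENNReal.one_lt_top).ne
    have hfin2 : wn (cw (Fin n) s) f ≠ ∞ :=
      ne_top_of_le_ne_top hfin (wn_mono (fun _ => min_le_left _ _) _)
    refine ⟨s.toReal, ENNReal.toReal_pos hs0 hst, ?_⟩
    have h1 := ENNReal.summable_toReal hfin2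
    refine h1.congr fun α => ?_
    rw [wt_cw, ENNReal.toReal_mul, ENNReal.toReal_pow, toReal_enorm]

theorem pderiv_mem {n : ℕ} {f : PS n} (hf : f ∈ Cv (Fin n)) (j : Fin n) :
    pderiv ℂ j f ∈ Cv (Fin n) := by
  classical
  obtain ⟨r, hr, hfin⟩ := hf
  set s : ℝ≥0∞ := min r 1 with hs
  have hs0 : s ≠ 0 := (lt_min (pos_iff_ne_zero.2 hr) one_pos).ne'
  have hst : s ≠ ∞ := (lt_of_le_of_lt (min_le_right _ _) ENNReal.one_lt_top).ne
  have hfin2 : wn (cw (Fin n) s) f ≠ ∞ :=
    ne_top_of_le_ne_top hfin (wn_mono (fun _ => min_le_left _ _) _)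
  refine ⟨s / 2, (ENNReal.div_pos hs0 (by norm_num)).ne', ?_⟩
  have hinj : Function.Injective (fun α : Fin n →₀ ℕ => α + Finsupp.single j 1) :=
    add_left_injective _
  have h1 : s * wn (cw (Fin n) (s / 2)) (pderiv ℂ j f) ≤ wn (cw (Fin n) s) f := by
    unfold wn
    rw [← ENNReal.tsum_mul_left]
    refine le_trans ?_ (ENNReal.tsum_comp_le_tsum_of_injective hinj
      (fun α => ‖coeff α f‖ₑ * wt (cw (Fin n) s) α))
    apply ENNReal.tsum_le_tsum
    intro α
    rw [coeff_pderiv, wt_add, wt_single, pow_one, wt_cw, wt_cw, enorm_mul]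
    have h2 : ‖((α j : ℂ) + 1)‖ₑ ≤ 2 ^ α.degree := by
      have h3 : ‖((α j : ℂ) + 1)‖ₑ = ((α j + 1 : ℕ) : ℝ≥0∞) := by
        have : ((α j : ℂ) + 1) = ((α j + 1 : ℕ) : ℂ) := by push_cast; rfl
        rw [this, ← ofReal_norm, Complex.norm_natCast, ENNReal.ofReal_natCast]
      rw [h3]
      have h4 : α j + 1 ≤ 2 ^ α.degree := by
        have h5 : α j ≤ α.degree := by
          rw [Finsupp.degree_eq_sum]
          exact Finset.single_le_sum (f := fun i => α i) (fun _ _ => Nat.zero_le _) (Finset.mem_univ j)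
        calc α j + 1 ≤ α.degree + 1 := by omega
          _ ≤ 2 ^ α.degree := Nat.lt_two_pow_self
      exact_mod_cast h4
    have h6 : ‖((α j : ℂ) + 1)‖ₑ * (s / 2) ^ α.degree ≤ s ^ α.degree := by
      calc ‖((α j : ℂ) + 1)‖ₑ * (s / 2) ^ α.degree ≤ 2 ^ α.degree * (s / 2) ^ α.degree := by gcongr
        _ = s ^ α.degree := by
          rw [← mul_pow, ENNReal.mul_div_cancel (by norm_num) (by norm_num)]
    calc s * (‖coeff (α + Finsupp.single j 1) f‖ₑ * ‖((α j : ℂ) + 1)‖ₑ * (s / 2) ^ α.degree)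
        = s * ‖coeff (α + Finsupp.single j 1) f‖ₑ * (‖((α j : ℂ) + 1)‖ₑ * (s / 2) ^ α.degree) := by ring
      _ ≤ s * ‖coeff (α + Finsupp.single j 1) f‖ₑ * s ^ α.degree := by gcongr
      _ = ‖coeff (α + Finsupp.single j 1) f‖ₑ * (s ^ α.degree * s) := by ring
  intro htop
  rw [htop, ENNReal.mul_top hs0, top_le_iff] at h1
  exact hfin2 h1

theorem sub_mem_Cv {n i : ℕ} (A : Matrix (Fin n) (Fin i) ℂ) {f : PS n} (hf : f ∈ Cv (Fin n)) :
    sub A f ∈ Cv (Fin i) := by
  classical
  obtain ⟨r, hr, hfin⟩ := hf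
  set B : ℝ≥0∞ := ∑ j, ∑ k, ‖A j k‖ₑ with hB
  have hBt : B ≠ ∞ := by
    rw [hB]
    apply ENNReal.sum_ne_top.2
    intro j _
    apply ENNReal.sum_ne_top.2
    intro k _
    exact enorm_ne_top
  obtain ⟨s, hs0, -, hs⟩ := exists_small (A := B) (B := r) hBt hr
  refine ⟨s, hs0, ?_⟩
  have hlin : ∀ j, wn (cw (Fin i) s) (lin A j) ≤ r := by
    intro j
    unfold lin
    refine (wn_sum_le _ _ _).trans ?_
    calc ∑ k, wn (cw (Fin i) s) (C (A j k) * X k) ≤ ∑ k, s * ‖A j k‖ₑ := by
          apply Finset.sum_le_sum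
          intro k _
          refine (wn_mul_le _ _ _).trans ?_
          rw [wn_C, wn_X, mul_comm]
      _ = s * ∑ k, ‖A j k‖ₑ := by rw [Finset.mul_sum]
      _ ≤ s * B := by
          gcongr
          rw [hB]
          exact Finset.single_le_sum (f := fun j => ∑ k, ‖A j k‖ₑ) (fun _ _ => bot_le)
            (Finset.mem_univ j)
      _ ≤ r := hs
  have hprod : ∀ d : Fin n →₀ ℕ, wn (cw (Fin i) s) (d.prod fun t k => lin A t ^ k) ≤
      wt (cw (Fin n) r) d := by
    intro d
    unfold wt Finsupp.prod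
    have h1 : ∀ u : Finset (Fin n), wn (cw (Fin i) s) (∏ t ∈ u, lin A t ^ d t) ≤
        ∏ t ∈ u, cw (Fin n) r t ^ d t := by
      intro u
      induction u using Finset.induction_on with
      | empty => rw [Finset.prod_empty, Finset.prod_empty, wn_one]
      | insert a u ha ih =>
        rw [Finset.prod_insert ha, Finset.prod_insert ha]
        refine (wn_mul_le _ _ _).trans ?_
        gcongr
        exact (wn_pow_le _ _ _).trans (pow_le_pow_left' (hlin a) _)
    exact h1 _
  refine ne_top_of_le_ne_top hfin ?_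
  calc wn (cw (Fin i) s) (sub A f)
      ≤ ∑' e, ∑' d, ‖coeff d f‖ₑ * (‖coeff e (d.prod fun t k => lin A t ^ k)‖ₑ *
          wt (cw (Fin i) s) e) := by
        unfold wn
        apply ENNReal.tsum_le_tsum
        intro e
        rw [coeff_sub]
        calc ‖∑ d ∈ degLe n e.degree, coeff d f * coeff e (d.prod fun t k => lin A t ^ k)‖ₑ *
              wt (cw (Fin i) s) e
            ≤ (∑ d ∈ degLe n e.degree, ‖coeff d f * coeff e (d.prod fun t k => lin A t ^ k)‖ₑ) *
              wt (cw (Fin i) s) e := by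
              gcongr
              exact enorm_sum_le _ _
          _ = ∑ d ∈ degLe n e.degree, ‖coeff d f‖ₑ *
              (‖coeff e (d.prod fun t k => lin A t ^ k)‖ₑ * wt (cw (Fin i) s) e) := by
              rw [Finset.sum_mul]
              apply Finset.sum_congr rfl
              intro d _
              rw [enorm_mul]
              ring
          _ ≤ _ := ENNReal.sum_le_tsum _
    _ = ∑' d, ‖coeff d f‖ₑ * wn (cw (Fin i) s) (d.prod fun t k => lin A t ^ k) := by
        rw [ENNReal.tsum_comm]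
        simp_rw [ENNReal.tsum_mul_left]
        rfl
    _ ≤ ∑' d, ‖coeff d f‖ₑ * wt (cw (Fin n) r) d := by
        apply ENNReal.tsum_le_tsum
        intro d
        gcongr
        exact hprod d
    _ = wn (cw (Fin n) r) f := rfl

end Pool.Agent.Helper341_polar
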