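import Mathlib
import Pool.Agent.Helper341_polar.CvOps

/-!
# The restriction of a convergent power series to a coordinate hyperplane
-/

set_option autoImplicit false

namespace Pool.Agent.Helper341_polar

open MvPowerSeries ENNReal

theorem res_mem {m : ℕ} {f : PS (m + 1)} (hf : f ∈ Cv (Fin (m + 1))) : res f ∈ Cv (Fin m) := by
  obtain ⟨r, hr, hfin⟩ := hf
  refine ⟨r, hr, ?_⟩
  have hinj : Function.Injective (Finsupp.embDomain (M := ℕ) (Fin.succEmb m)) :=
    Finsupp.embDomain_injective _
  have h1 : wn (cw (Fin m) r) (res f) ≤ wn (cw (Fin (m + 1)) r) f := by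
    unfold wn
    refine le_trans ?_ (ENNReal.tsum_comp_le_tsum_of_injective hinj
      (fun α => ‖coeff α f‖ₑ * wt (cw (Fin (m + 1)) r) α))
    apply ENNReal.tsum_le_tsum
    intro α
    rw [coeff_res, wt_cw, wt_cw]
    apply le_of_eq
    congr 2
    rw [Finsupp.degree_eq_sum, Finsupp.degree_eq_sum, Fin.sum_univ_succ, embDomain_apply_zero,
      zero_add]
    apply Finset.sum_congr rfl
    intro j _
    rw [embDomain_apply_succ]
  exact ne_top_of_le_ne_top hfin h1

end Pool.Agent.Helper341_polar
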