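import Mathlib
import Pool.Agent.Helper341_polar.Defs
import Pool.Agent.Helper341_polar.CvRes

/-!
# Definitions used in the statements on polar quotients: convergent power series

Germs are convergent power series over `ℂ`.
-/

set_option autoImplicit false

namespace Pool.Agent.Helper341_polar.StC

open MvPowerSeries Pool.Agent.Helper341_polar

/-- a power series converges: it is absolutely summable at the point `(r, …, r)` for some
`r > 0` -/
def Converges {n : ℕ} (f : MvPowerSeries (Fin n) ℂ) : Prop :=
  ∃ r : ℝ, 0 < r ∧ Summable fun α : Fin n →₀ ℕ => ‖coeff α f‖ * r ^ α.degree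

theorem converges_iff {n : ℕ} {f : MvPowerSeries (Fin n) ℂ} : Converges f ↔ f ∈ Cv (Fin n) :=
  isConv_iff f

/-- the ring `ℂ{z_0, …, z_(n-1)}` of convergent power series -/
def Germ (n : ℕ) : Subalgebra ℂ (MvPowerSeries (Fin n) ℂ) where
  carrier := {f | Converges f}
  mul_mem' hf hg := converges_iff.2 ((Cv (Fin n)).mul_mem (converges_iff.1 hf) (converges_iff.1 hg))
  add_mem' hf hg := converges_iff.2 ((Cv (Fin n)).add_mem (converges_iff.1 hf) (converges_iff.1 hg))
  algebraMap_mem' c := converges_iff.2 ((Cv (Fin n)).algebraMap_mem c)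

theorem mem_germ {n : ℕ} {f : MvPowerSeries (Fin n) ℂ} : f ∈ Germ n ↔ f ∈ Cv (Fin n) :=
  converges_iff

variable {n m i : ℕ}

/-- the partial derivative with respect to `z_j` -/
noncomputable def deriv (j : Fin n) (f : Germ n) : Germ n :=
  ⟨pderiv ℂ j (f : MvPowerSeries (Fin n) ℂ), mem_germ.2 (pderiv_mem (mem_germ.1 f.2) j)⟩

/-- the variable `z_j` -/
noncomputable def coord (j : Fin n) : Germ n := ⟨X j, mem_germ.2 (X_mem_Cv j)⟩

/-- the ideal of all partial derivatives of `f` -/
noncomputable def jacobian (f : Germ n) : Ideal (Germ n) :=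
  Ideal.span (Set.range fun j : Fin n => deriv j f)

/-- the Milnor number of `f`: the dimension of the quotient by the jacobian ideal, `⊤` if it is
infinite -/
noncomputable def milnor (f : Germ n) : ℕ∞ := Module.length ℂ (Germ n ⧸ jacobian f)

/-- the restriction of `f` to the hyperplane `z_0 = 0`: put `z_0 = 0` and rename `z_(j+1)` to
`z_j` -/
noncomputable def restrict (f : Germ (m + 1)) : Germ m :=
  ⟨killCompl (Fin.succEmb m) (f : MvPowerSeries (Fin (m + 1)) ℂ), mem_germ.2 (res_mem (mem_germ.1 f.2))⟩

/-- the ideal of the polar curve of `f` with respect to the hyperplane `z_0 = 0`: it is generated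
by the partial derivatives of `f` with respect to `z_1, …, z_m` -/
noncomputable def polarIdeal (f : Germ (m + 1)) : Ideal (Germ (m + 1)) :=
  Ideal.span (Set.range fun j : Fin m => deriv j.succ f)

/-- the intersection multiplicity at `0` of the curve of a prime ideal with the hypersurface
`h = 0` -/
noncomputable def inter (p : PrimeSpectrum (Germ n)) (h : Germ n) : ℕ∞ :=
  Module.length ℂ (Germ n ⧸ (p.asIdeal ⊔ Ideal.span {h}))

/-- `p` is the ideal of a one-dimensional irreducible component `Γ` of the polar curve, with
`(Γ · H) = k > 0` and `(Γ · X) = l` finite, and the quotient `e / m = (l - k) / k` is `r`; here `H`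
is the hyperplane `z_0 = 0` and `X` is the hypersurface `f = 0` -/
def HasQuotient (f : Germ (m + 1)) (p : PrimeSpectrum (Germ (m + 1))) (r : ℚ) : Prop :=
  p.asIdeal ∈ (polarIdeal f).minimalPrimes ∧ ringKrullDim (Germ (m + 1) ⧸ p.asIdeal) = 1 ∧
    ∃ k l : ℕ, 0 < k ∧ inter p (coord 0) = k ∧ inter p f = l ∧ r = ((l : ℚ) - k) / k

/-- the set of the polar quotients of `f` with respect to the hyperplane `z_0 = 0` -/
def polarQuotients (f : Germ (m + 1)) : Set ℚ := {r | ∃ p, HasQuotient f p r}

/-- the multiplicity of a component in the polar curve: the length of the local ring of the scheme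
defined by the polar ideal at the generic point of the component -/
noncomputable def compMult (f : Germ (m + 1)) (p : PrimeSpectrum (Germ (m + 1))) : ℕ∞ :=
  Module.length (Localization.AtPrime p.asIdeal)
    (LocalizedModule p.asIdeal.primeCompl (Germ (m + 1) ⧸ polarIdeal f))

/-- the jacobian Newton polygon of `f` with respect to the hyperplane `z_0 = 0`, given as the
function which maps a rational number `r` to the sum, over the components `Γ` of the polar curve
with quotient `r`, of the multiplicity of `Γ` times `(Γ · H)` -/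
noncomputable def polygon (f : Germ (m + 1)) (r : ℚ) : ℕ∞ :=
  ∑ᶠ (p : PrimeSpectrum (Germ (m + 1))) (_ : HasQuotient f p r),
    compMult f p * inter p (coord 0)

/-- the pull back of `f` under the linear map with matrix `A` -/
noncomputable def pull (A : Matrix (Fin n) (Fin i) ℂ) (f : Germ n) : Germ i :=
  ⟨(f : MvPowerSeries (Fin n) ℂ).subst fun j => ∑ k, C (A j k) * X k,
    mem_germ.2 (sub_mem_Cv A (mem_germ.1 f.2))⟩

/-- a property holds for generic matrices: for all matrices outside of the zero set of some
nonzero polynomial in the entries -/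
def Generic (P : Matrix (Fin n) (Fin i) ℂ → Prop) : Prop :=
  ∃ Q : MvPolynomial (Fin n × Fin i) ℂ, Q ≠ 0 ∧
    ∀ A : Matrix (Fin n) (Fin i) ℂ, MvPolynomial.eval (fun x => A x.1 x.2) Q ≠ 0 → P A

/-- `x` is the Milnor number of the section of `f` by a generic `i`-dimensional linear subspace -/
def IsMu (f : Germ n) (i x : ℕ) : Prop :=
  Generic fun A : Matrix (Fin n) (Fin i) ℂ => milnor (pull A f) = x

/-- `R` is the polar invariant `F^(i)` of `f` -/
def IsF (f : Germ n) : ℕ → Set ℚ → Prop
  | 0, R => R = {1}
  | 1, R => ∃ x : ℕ, IsMu f 1 x ∧ R = {(x : ℚ)}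
  | m + 2, R => Generic fun A : Matrix (Fin n) (Fin (m + 2)) ℂ => polarQuotients (pull A f) = R

/-- `N` is the jacobian Newton polygon of the section of `f` by a generic linear subspace of
dimension `i = m + 1` with respect to a generic hyperplane of it -/
def IsPolygon (f : Germ n) (m : ℕ) (N : ℚ → ℕ∞) : Prop :=
  Generic fun A : Matrix (Fin n) (Fin (m + 1)) ℂ => polygon (pull A f) = N

end Pool.Agent.Helper341_polar.StC
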