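import Mathlib
import Pool.Agent.Helper341_polar.Bridge
import Pool.Agent.Helper341_polar.DefsC

/-!
# Comparison of the invariants of convergent power series with those of formal power series
-/

set_option autoImplicit false

namespace Pool.Agent.Helper341_polar

open IsLocalRing MvPowerSeries

section transfer

variable {n m : ℕ}

/-- the ideal of `S` spanned by the elements of `S` in a set of power series -/
noncomputable def spanG (S : Subalgebra ℂ (PS n)) (s : Set (PS n)) : Ideal S :=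
  Ideal.span {x : S | (x : PS n) ∈ s}

theorem spanG_map {s : Set (PS n)} (hs : ∀ x ∈ s, x ∈ Cv (Fin n)) :
    (spanG (Cv (Fin n)) s).map (inc n) = Ideal.span s := by
  rw [spanG, Ideal.map_span]
  congr 1
  ext x
  constructor
  · rintro ⟨y, hy, rfl⟩
    exact hy
  · intro hx
    exact ⟨⟨x, hs x hx⟩, hx, rfl⟩

theorem spanG_singleton (S : Subalgebra ℂ (PS n)) (x : S) :
    spanG S {(x : PS n)} = Ideal.span {x} := by
  unfold spanG
  congr 1
  ext y
  constructor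
  · intro hy
    exact Subtype.ext hy
  · intro hy
    have : y = x := hy
    rw [this]
    rfl

/-- existence of a quotient, in a ring of power series -/
def HQ (S : Subalgebra ℂ (PS (m + 1))) (f : PS (m + 1)) (p : PrimeSpectrum S) (r : ℚ) : Prop :=
  p.asIdeal ∈ (spanG S (Set.range fun j : Fin m => pderiv ℂ j.succ f)).minimalPrimes ∧
    ringKrullDim (S ⧸ p.asIdeal) = 1 ∧
    ∃ k l : ℕ, 0 < k ∧ Module.length ℂ (S ⧸ (p.asIdeal ⊔ spanG S {X 0})) = k ∧
      Module.length ℂ (S ⧸ (p.asIdeal ⊔ spanG S {f})) = l ∧ r = ((l : ℚ) - k) / k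

theorem polC_map {f : PS (m + 1)} (hf : f ∈ Cv (Fin (m + 1))) :
    (spanG (Cv (Fin (m + 1))) (Set.range fun j : Fin m => pderiv ℂ j.succ f)).map
      (inc (m + 1)) = pol f := by
  rw [spanG_map]
  · rfl
  · rintro _ ⟨j, rfl⟩
    exact pderiv_mem hf _

theorem jacC_map {f : PS n} (hf : f ∈ Cv (Fin n)) :
    (spanG (Cv (Fin n)) (Set.range fun j : Fin n => pderiv ℂ j f)).map (inc n) = jac f := by
  rw [spanG_map]
  · rfl
  · rintro _ ⟨j, rfl⟩
    exact pderiv_mem hf _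

theorem Good.finC {f : PS (m + 1)} (h : Good f) (hf : f ∈ Cv (Fin (m + 1))) :
    colenC (spanG (Cv (Fin (m + 1))) (Set.range fun j : Fin m => pderiv ℂ j.succ f) ⊔
      Ideal.span {(xc 0 : CS (m + 1))}) ≠ ⊤ := by
  apply fin_of_formal
  rw [polC_map hf]
  exact h.hX

theorem Good.HQ_iff {f : PS (m + 1)} (h : Good f) (hf : f ∈ Cv (Fin (m + 1)))
    {Q : PrimeSpectrum (PS (m + 1))} (hQ : Q.asIdeal ∈ (pol f).minimalPrimes)
    {p : PrimeSpectrum (CS (m + 1))} (hp : Q.asIdeal.comap (inc (m + 1)) = p.asIdeal) (r : ℚ) :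
    HQ (Cv (Fin (m + 1))) f p r ↔ slope f Q = r + 1 := by
  obtain ⟨φ, hφ⟩ := exists_br (pol_ci f) h.hX hQ
  have hQ' : Q.asIdeal ∈ ((spanG (Cv (Fin (m + 1)))
      (Set.range fun j : Fin m => pderiv ℂ j.succ f)).map (inc (m + 1))).minimalPrimes := by
    rw [polC_map hf]
    exact hQ
  have hmin := comap_minimal (h.finC hf) hQ' hφ.nz
  have hψ := hφ.toC (fin_of_le (h.finC hf) hmin.1.2)
  rw [hp] at hmin hψ
  set ψ := φ.comp (inc (m + 1)).toRingHom with hψ2
  have hfp : (⟨f, hf⟩ : CS (m + 1)) ∉ p.asIdeal := by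
    rw [← hp]
    exact h.f_notMem hQ
  have e1 : p.asIdeal ⊔ spanG (Cv (Fin (m + 1))) {X 0} =
      p.asIdeal ⊔ Ideal.span {(xc 0 : CS (m + 1))} := by
    rw [← spanG_singleton]
    rfl
  have e2 : p.asIdeal ⊔ spanG (Cv (Fin (m + 1))) {f} =
      p.asIdeal ⊔ Ideal.span {(⟨f, hf⟩ : CS (m + 1))} := by
    rw [← spanG_singleton]
  have hs : slope f Q = (clC (p.asIdeal ⊔ Ideal.span {(⟨f, hf⟩ : CS (m + 1))}) : ℚ) /
      clC (p.asIdeal ⊔ Ideal.span {(xc 0 : CS (m + 1))}) := by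
    have h1 : slope f Q = (φ f).order := (h.order_eq hQ hφ).symm
    have h2 := hψ.clC_eq hfp
    have h3 : (clC (p.asIdeal ⊔ Ideal.span {(xc 0 : CS (m + 1))}) : ℚ) ≠ 0 := by
      exact_mod_cast hψ.clC_pos.ne'
    rw [h1, eq_div_iff h3, h2]
    rfl
  constructor
  · rintro ⟨-, -, k, l, hk, hk2, hl, hr⟩
    rw [slope_cast hk] at hr
    rw [hs, ← hr, clC, clC, colenC, colenC, ← e1, ← e2, hk2, hl]
    rfl
  · intro hr
    refine ⟨hmin, hψ.dim, clC (p.asIdeal ⊔ Ideal.span {(xc 0 : CS (m + 1))}),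
      clC (p.asIdeal ⊔ Ideal.span {(⟨f, hf⟩ : CS (m + 1))}), hψ.clC_pos, ?_, ?_, ?_⟩
    · rw [e1]
      exact (coe_clC hψ.fin).symm
    · rw [e2]
      exact (coe_clC (hψ.colenC_ne_top hfp)).symm
    · rw [slope_cast hψ.clC_pos, ← hs]
      exact hr

theorem Good.exists_HQ_iff {f : PS (m + 1)} (h : Good f) (hf : f ∈ Cv (Fin (m + 1))) (r : ℚ) :
    (∃ p, HQ (Cv (Fin (m + 1))) f p r) ↔ r ∈ St.polarQuotients f := by
  constructor
  · rintro ⟨p, hp⟩
    obtain ⟨Q, hQ, hQp⟩ := exists_minimal (h.finC hf) hp.1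
    rw [polC_map hf] at hQ
    have hQprime : Q.IsPrime := hQ.1.1
    refine ⟨⟨Q, hQprime⟩, (h.hasQuotient_iff _ r).2 ⟨mem_minP.2 hQ, ?_⟩⟩
    exact (h.HQ_iff hf (Q := ⟨Q, hQprime⟩) hQ hQp r).1 hp
  · rintro ⟨Q, hQ⟩
    obtain ⟨h1, h2⟩ := (h.hasQuotient_iff Q r).1 hQ
    have hQprime := Q.2
    refine ⟨⟨Q.asIdeal.comap (inc (m + 1)), Ideal.IsPrime.comap _⟩, ?_⟩
    exact (h.HQ_iff hf (mem_minP.1 h1) rfl r).2 h2

/-- transfer to an arbitrary equal subalgebra -/
theorem Good.exists_HQ_iff' {S : Subalgebra ℂ (PS (m + 1))} (hS : S = Cv (Fin (m + 1)))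
    {f : PS (m + 1)} (h : Good f) (hf : f ∈ S) (r : ℚ) :
    (∃ p, HQ S f p r) ↔ r ∈ St.polarQuotients f := by
  subst hS
  exact h.exists_HQ_iff hf r

theorem length_jacG {S : Subalgebra ℂ (PS n)} (hS : S = Cv (Fin n)) {f : PS n} (hf : f ∈ S) :
    Module.length ℂ (S ⧸ spanG S (Set.range fun j : Fin n => pderiv ℂ j f)) = colen (jac f) := by
  subst hS
  rw [← jacC_map hf]
  exact colenC_eq _

end transfer

section statement

variable {n m i : ℕ}

theorem germ_eq (n : ℕ) : StC.Germ n = Cv (Fin n) := by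
  ext f
  exact StC.mem_germ

theorem StC.jacobian_eq (f : StC.Germ n) : StC.jacobian f =
    spanG (StC.Germ n) (Set.range fun j : Fin n => pderiv ℂ j (f : PS n)) := by
  unfold StC.jacobian spanG
  congr 1
  ext x
  constructor
  · rintro ⟨j, rfl⟩
    exact ⟨j, rfl⟩
  · rintro ⟨j, hj⟩
    exact ⟨j, Subtype.ext hj⟩

theorem StC.polarIdeal_eq (f : StC.Germ (m + 1)) : StC.polarIdeal f =
    spanG (StC.Germ (m + 1)) (Set.range fun j : Fin m => pderiv ℂ j.succ (f : PS (m + 1))) := by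
  unfold StC.polarIdeal spanG
  congr 1
  ext x
  constructor
  · rintro ⟨j, rfl⟩
    exact ⟨j, rfl⟩
  · rintro ⟨j, hj⟩
    exact ⟨j, Subtype.ext hj⟩

theorem StC.milnor_eq (f : StC.Germ n) : StC.milnor f = St.milnor (f : PS n) := by
  unfold StC.milnor
  rw [StC.jacobian_eq]
  exact length_jacG (germ_eq n) f.2

theorem StC.hasQuotient_iff (f : StC.Germ (m + 1)) (p : PrimeSpectrum (StC.Germ (m + 1))) (r : ℚ) :
    StC.HasQuotient f p r ↔ HQ (StC.Germ (m + 1)) f p r := by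
  unfold StC.HasQuotient HQ StC.inter
  rw [StC.polarIdeal_eq, ← spanG_singleton, ← spanG_singleton]
  rfl

theorem StC.polarQuotients_eq {f : StC.Germ (m + 1)} (h : Good (f : PS (m + 1))) :
    StC.polarQuotients f = St.polarQuotients (f : PS (m + 1)) := by
  ext r
  rw [← h.exists_HQ_iff' (germ_eq (m + 1)) f.2 r]
  exact exists_congr fun p => StC.hasQuotient_iff f p r

end statement

end Pool.Agent.Helper341_polar
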