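import Mathlib
import Pool.Agent.Helper341_polar.AssocC
import Pool.Agent.Helper341_polar.BridgeC

/-!
# Lengths over the ring of convergent power series and the associativity formula
-/

set_option autoImplicit false

namespace Pool.Agent.Helper341_polar

open IsLocalRing MvPowerSeries

section general

variable {O : Type} [CommRing O] [IsLocalRing O] [Algebra ℂ O]

omit [Algebra ℂ O] in
theorem exists_socle_gen {J : Ideal O} (hJ : J ≠ ⊤) {k : ℕ} (hk : maximalIdeal O ^ k ≤ J) :
    ∃ x, x ∉ J ∧ ∀ y ∈ maximalIdeal O, y * x ∈ J := by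
  classical
  have hex : ∃ k, maximalIdeal O ^ k ≤ J := ⟨k, hk⟩
  have hk0 : Nat.find hex ≠ 0 := by
    intro h0
    have h1 := Nat.find_spec hex
    rw [h0, pow_zero, Ideal.one_eq_top, top_le_iff] at h1
    exact hJ h1
  obtain ⟨j, hj⟩ := Nat.exists_eq_succ_of_ne_zero hk0
  have h1 : ¬ maximalIdeal O ^ j ≤ J := Nat.find_min hex (by omega)
  obtain ⟨x, hx, hxJ⟩ := SetLike.not_le_iff_exists.1 h1
  refine ⟨x, hxJ, fun y hy => ?_⟩
  have h2 := Nat.find_spec hex
  rw [hj] at h2
  apply h2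
  rw [pow_succ']
  exact Ideal.mul_mem_mul hy hx

theorem lenA_gen (hres : Module.length ℂ (O ⧸ maximalIdeal O) = 1) {J : Ideal O} {k : ℕ}
    (hk : maximalIdeal O ^ k ≤ J) (hfin : Module.length ℂ (O ⧸ J) ≠ ⊤) :
    Module.length O (O ⧸ J) = Module.length ℂ (O ⧸ J) := by
  obtain ⟨D, hD⟩ := ENat.ne_top_iff_exists.1 hfin
  clear hfin
  induction D using Nat.strong_induction_on generalizing J with
  | _ D ih =>
    by_cases hJ : J = ⊤
    · subst hJ
      have : Subsingleton (O ⧸ (⊤ : Ideal O)) := Submodule.Quotient.subsingleton_iff.2 rfl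
      rw [Module.length_eq_zero, Module.length_eq_zero]
    have hfin : Module.length ℂ (O ⧸ J) ≠ ⊤ := by rw [← hD]; exact ENat.natCast_ne_top _
    obtain ⟨x, hx, hxJ⟩ := exists_socle_gen hJ hk
    set J' : Ideal O := J ⊔ Ideal.span {x} with hJ'
    have hlt : J < J' := by
      apply lt_of_le_of_ne le_sup_left
      intro h0
      apply hx
      rw [h0]
      exact Ideal.mem_sup_right (Ideal.mem_span_singleton_self x)
    have hle : maximalIdeal O ≤ (Submodule.comap (LinearMap.mulRight O x) J) := by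
      intro y hy
      exact hxJ y hy
    let F : (O ⧸ maximalIdeal O) →ₗ[O] (O ⧸ J) :=
      Submodule.mapQ _ _ (LinearMap.mulRight O x) hle
    let G : (O ⧸ J) →ₗ[O] (O ⧸ J') := Submodule.factor hlt.le
    have hF : Function.Injective F := by
      rw [← LinearMap.ker_eq_bot, LinearMap.ker_eq_bot']
      intro y hy
      obtain ⟨y, rfl⟩ := Submodule.Quotient.mk_surjective _ y
      have h1 : Submodule.Quotient.mk (p := J) (y * x) = 0 := hy
      rw [Submodule.Quotient.mk_eq_zero] at h1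
      rw [Submodule.Quotient.mk_eq_zero]
      by_contra hcon
      have hu : IsUnit y := by
        by_contra hu
        exact hcon ((mem_maximalIdeal y).2 hu)
      obtain ⟨b, hb⟩ := hu.exists_left_inv
      apply hx
      have h2 : b * (y * x) ∈ J := J.mul_mem_left b h1
      rwa [← mul_assoc, hb, one_mul] at h2
    have hG : Function.Surjective G := Submodule.factor_surjective hlt.le
    have hFG : Function.Exact F G := by
      intro y
      obtain ⟨y, rfl⟩ := Submodule.Quotient.mk_surjective _ y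
      constructor
      · intro h
        have h1 : Submodule.Quotient.mk (p := J') y = 0 := h
        rw [Submodule.Quotient.mk_eq_zero, hJ', Submodule.mem_sup] at h1
        obtain ⟨a, ha, w, hw, haw⟩ := h1
        obtain ⟨v, rfl⟩ := Ideal.mem_span_singleton'.1 hw
        refine ⟨Submodule.Quotient.mk v, ?_⟩
        change Submodule.Quotient.mk (p := J) (v * x) = Submodule.Quotient.mk y
        rw [Submodule.Quotient.eq, ← haw]
        have : v * x - (a + v * x) = -a := by ring
        rw [this]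
        exact J.neg_mem ha
      · rintro ⟨z, hz⟩
        obtain ⟨z, rfl⟩ := Submodule.Quotient.mk_surjective _ z
        rw [← hz]
        change Submodule.Quotient.mk (p := J') (z * x) = 0
        rw [Submodule.Quotient.mk_eq_zero, hJ']
        exact Ideal.mem_sup_right (Ideal.mul_mem_left _ _ (Ideal.mem_span_singleton_self x))
    have h1 := Module.length_eq_add_of_exact F G hF hG hFG
    have h2 := Module.length_eq_add_of_exact (F.restrictScalars ℂ) (G.restrictScalars ℂ) hF hG hFG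
    have h3 : Module.length ℂ (O ⧸ J) = 1 + Module.length ℂ (O ⧸ J') := by
      rw [h2, hres]
    have h4 : Module.length O (O ⧸ maximalIdeal O) = 1 := by
      rw [Module.length_eq_one_iff, isSimpleModule_iff_isCoatom]
      exact (maximalIdeal.isMaximal O).out
    rw [h1, h4, h3]
    congr 1
    have hfin' : Module.length ℂ (O ⧸ J') ≠ ⊤ :=
      ne_top_of_le_ne_top hfin (length_anti (O := O) (K := O) hlt.le)
    obtain ⟨D', hD'⟩ := ENat.ne_top_iff_exists.1 hfin'
    apply ih D' _ (hk.trans hlt.le) hD'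
    rw [← hD, ← hD'] at h3
    have h5 : D = 1 + D' := by exact_mod_cast h3
    omega

end general

variable {n m : ℕ}

/-- shortcut instance -/
noncomputable instance instModQ (J : Ideal (CS n)) : Module (CS n) (CS n ⧸ J) :=
  Submodule.Quotient.module J

theorem length_residueC : Module.length ℂ (CS n ⧸ maximalIdeal (CS n)) = 1 := by
  have e : (CS n ⧸ maximalIdeal (CS n)) ≃ₗ[ℂ] ℂ := by
    let F0 : PS n →ₐ[ℂ] ℂ :=
      { (constantCoeff : PS n →+* ℂ) with commutes' := fun c => constantCoeff_C c }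
    let F : CS n →ₐ[ℂ] ℂ := F0.comp (inc n)
    have hF : Function.Surjective F := by
      intro c
      refine ⟨⟨C c, C_mem_Cv c⟩, ?_⟩
      change constantCoeff (C c : PS n) = c
      exact constantCoeff_C c
    have hker : RingHom.ker F = maximalIdeal (CS n) := by
      ext x
      rw [RingHom.mem_ker, mem_maxC_iff]
      exact Iff.rfl
    exact ((Ideal.quotientEquivAlgOfEq ℂ hker).symm.trans
      (Ideal.quotientKerAlgEquivOfSurjective hF)).toLinearEquiv
  rw [e.length_eq, Module.length_eq_one_iff]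
  infer_instance

theorem lenC_eq {J : Ideal (CS n)} (hfin : colenC J ≠ ⊤) :
    Module.length (CS n) (CS n ⧸ J) = colenC J := by
  obtain ⟨k, hk⟩ := colenC_ne_top_iff.1 hfin
  exact lenA_gen length_residueC hk hfin

theorem cokC_eq {I : Ideal (CS n)} {g : CS n} (hfin : colenC (I ⊔ Ideal.span {g}) ≠ ⊤) :
    cok g (CS n ⧸ I) = colenC (I ⊔ Ideal.span {g}) := by
  rw [← lenC_eq hfin]
  unfold cok
  have h1 : LinearMap.range (mulg g (CS n ⧸ I)) = Submodule.map (Submodule.mkQ I) (Ideal.span {g}) := by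
    ext x
    constructor
    · rintro ⟨y, rfl⟩
      obtain ⟨y, rfl⟩ := Submodule.mkQ_surjective _ y
      refine ⟨g * y, Ideal.mul_mem_right _ _ (Ideal.mem_span_singleton_self g), ?_⟩
      rw [← smul_eq_mul, map_smul]
      rfl
    · rintro ⟨y, hy, rfl⟩
      obtain ⟨z, rfl⟩ := Ideal.mem_span_singleton'.1 hy
      rw [mul_comm, ← smul_eq_mul, map_smul]
      exact ⟨_, rfl⟩
  rw [h1]
  exact (Submodule.quotientQuotientEquivQuotientSup I (Ideal.span {g})).length_eq

theorem noethC {I : Ideal (CS (m + 1))}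
    (hX : colenC (I ⊔ Ideal.span {(xc 0 : CS (m + 1))}) ≠ ⊤) :
    IsNoetherianRing (CS (m + 1) ⧸ I) := by
  obtain ⟨K, hK⟩ := colenC_ne_top_iff.1 hX
  apply noetherian_of_comb jc I (monc (K := K))
  apply exists_comb
  intro i _
  obtain ⟨a, ha, w, hw, haw⟩ := Submodule.mem_sup.1 (hK (Ideal.pow_mem_pow (xc_mem_max i) K))
  obtain ⟨v, rfl⟩ := Ideal.mem_span_singleton'.1 hw
  refine ⟨v, ?_⟩
  have : xc i ^ K - xc 0 * v = a := by
    rw [← haw]; ring
  rw [this]
  exact ha

/-- finiteness of the set of the minimal primes -/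
theorem finite_minC {I : Ideal (CS (m + 1))}
    (hX : colenC (I ⊔ Ideal.span {(xc 0 : CS (m + 1))}) ≠ ⊤) : I.minimalPrimes.Finite := by
  have hfin : (I.map (inc (m + 1))).minimalPrimes.Finite :=
    Ideal.finite_minimalPrimes_of_isNoetherianRing _ _
  apply (hfin.image fun Q => Q.comap (inc (m + 1))).subset
  intro P hP
  obtain ⟨Q, hQ, hQP⟩ := exists_minimal hX hP
  exact ⟨Q, hQ, hQP⟩

open Classical in
/-- the minimal primes as a finite set of points of the spectrum -/
noncomputable def minPC (I : Ideal (CS (m + 1))) : Finset (PrimeSpectrum (CS (m + 1))) :=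
  if h : I.minimalPrimes.Finite then
    (h.preimage (f := PrimeSpectrum.asIdeal) (fun _ _ _ _ h => PrimeSpectrum.ext h)).toFinset
  else ∅

theorem mem_minPC {I : Ideal (CS (m + 1))}
    (hX : colenC (I ⊔ Ideal.span {(xc 0 : CS (m + 1))}) ≠ ⊤) {p : PrimeSpectrum (CS (m + 1))} :
    p ∈ minPC I ↔ p.asIdeal ∈ I.minimalPrimes := by
  unfold minPC
  rw [dif_pos (finite_minC hX), Set.Finite.mem_toFinset]
  rfl

/-- contraction of ideals generated by few elements -/
theorem regularC {I : Ideal (CS (m + 1))} (hI : CI (I.map (inc (m + 1))))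
    (hX : colenC (I ⊔ Ideal.span {(xc 0 : CS (m + 1))}) ≠ ⊤) {g : CS (m + 1)}
    (hg : colenC (I ⊔ Ideal.span {g}) ≠ ⊤) : IsSMulRegular (CS (m + 1) ⧸ I) g := by
  have h1 : colen (I.map (inc (m + 1)) ⊔ Ideal.span {(g : PS (m + 1))}) ≠ ⊤ := by
    rw [← map_sup_span, ← colenC_eq]
    exact hg
  have h2 := hI.regular h1
  rw [isSMulRegular_iff_right_eq_zero_of_smul] at h2 ⊢
  intro x hx
  obtain ⟨x, rfl⟩ := Submodule.Quotient.mk_surjective _ x
  rw [← Submodule.Quotient.mk_smul, Submodule.Quotient.mk_eq_zero, smul_eq_mul] at hx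
  rw [Submodule.Quotient.mk_eq_zero]
  have h3 := h2 (Submodule.Quotient.mk (x : PS (m + 1))) (by
    rw [← Submodule.Quotient.mk_smul, Submodule.Quotient.mk_eq_zero, smul_eq_mul]
    exact Ideal.mem_map_of_mem (inc (m + 1)) hx)
  rw [Submodule.Quotient.mk_eq_zero] at h3
  rw [← comap_map_eq hX]
  exact h3

theorem exists_brC {I : Ideal (CS (m + 1))} (hI : CI (I.map (inc (m + 1))))
    (hX : colenC (I ⊔ Ideal.span {(xc 0 : CS (m + 1))}) ≠ ⊤) {P : Ideal (CS (m + 1))}
    (hP : P ∈ I.minimalPrimes) :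
    ∃ (Q : Ideal (PS (m + 1))) (φ : PS (m + 1) →+* HS), Q ∈ (I.map (inc (m + 1))).minimalPrimes ∧
      Q.comap (inc (m + 1)) = P ∧ Br Q φ ∧ BrC P (φ.comp (inc (m + 1)).toRingHom) := by
  have hX' : colen (I.map (inc (m + 1)) ⊔ Ideal.span {(X 0 : PS (m + 1))}) ≠ ⊤ := by
    have h1 : colen ((I ⊔ Ideal.span {(xc 0 : CS (m + 1))}).map (inc (m + 1))) ≠ ⊤ := by
      rw [← colenC_eq]
      exact hX
    rw [map_sup_span] at h1
    exact h1
  obtain ⟨Q, hQ, hQP⟩ := exists_minimal hX hP
  obtain ⟨φ, hφ⟩ := exists_br hI hX' hQ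
  refine ⟨Q, φ, hQ, hQP, hφ, ?_⟩
  rw [← hQP]
  apply hφ.toC
  rw [hQP]
  exact fin_of_le hX hP.1.2

theorem colenC_assoc {I : Ideal (CS (m + 1))} (hI : CI (I.map (inc (m + 1))))
    (hX : colenC (I ⊔ Ideal.span {(xc 0 : CS (m + 1))}) ≠ ⊤)
    {g : CS (m + 1)} (hg : colenC (I ⊔ Ideal.span {g}) ≠ ⊤) :
    colenC (I ⊔ Ideal.span {g}) =
      ∑ p ∈ minPC I, ll p (CS (m + 1) ⧸ I) * colenC (p.asIdeal ⊔ Ideal.span {g}) := by
  classical
  have hN := noethC hX
  have hgreg := regularC hI hX hg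
  have hXreg := regularC hI hX hX
  have hnot : ∀ p ∈ minPC I, ∀ g : CS (m + 1), colenC (I ⊔ Ideal.span {g}) ≠ ⊤ → g ∉ p.asIdeal := by
    intro p hp g hg hgp
    obtain ⟨Q, φ, hQ, hQP, hφ, -⟩ := exists_brC hI hX ((mem_minPC hX).1 hp)
    have h1 : colen (I.map (inc (m + 1)) ⊔ Ideal.span {(g : PS (m + 1))}) ≠ ⊤ := by
      rw [← map_sup_span, ← colenC_eq]
      exact hg
    have h2 := notMem_of_regular hQ (hI.regular h1)
    rw [← hQP] at hgp
    exact h2 hgp
  have h1 := assoc_self I (minPC I) (by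
    intro p hp
    by_cases hmin : p.asIdeal ∈ I.minimalPrimes
    · exact Or.inl ((mem_minPC hX).2 hmin)
    · right
      obtain ⟨P, hP, hle⟩ := Ideal.exists_minimalPrimes_le hp
      have hne : P ≠ p.asIdeal := by
        rintro rfl
        exact hmin hP
      obtain ⟨y, hy, hyP⟩ := SetLike.exists_of_lt (lt_of_le_of_ne hle hne)
      obtain ⟨Q, φ, -, -, -, hφ⟩ := exists_brC hI hX hP
      obtain ⟨k, hk⟩ := colenC_ne_top_iff.1 (hφ.colenC_ne_top hyP)
      apply le_antisymm (le_maximalIdeal p.2.ne_top)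
      apply p.2.le_of_pow_le (hk.trans _)
      apply sup_le hle
      rw [Ideal.span_singleton_le_iff_mem]
      exact hy) (by
    intro p hp h0
    have h2 := hnot p hp (xc 0) hX
    rw [h0] at h2
    exact h2 (xc_mem_max 0)) (by
    intro p hp q hq hle
    apply PrimeSpectrum.ext
    exact le_antisymm hle (((mem_minPC hX).1 hq).2 ((mem_minPC hX).1 hp).1 hle)) g (by
    intro p hp
    exact hnot p hp g hg) hgreg
  rw [cokC_eq hg] at h1
  rw [h1]
  apply Finset.sum_congr rfl
  intro p hp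
  rw [cokC_eq]
  exact ne_top_of_le_ne_top hg (colenC_anti (sup_le_sup_right ((mem_minPC hX).1 hp).1.2 _))

/-- multiplicity of a component -/
noncomputable def ellC (I : Ideal (CS (m + 1))) (p : PrimeSpectrum (CS (m + 1))) : ℕ :=
  (ll p (CS (m + 1) ⧸ I)).toNat

theorem coe_ellC {I : Ideal (CS (m + 1))} (hI : CI (I.map (inc (m + 1))))
    (hX : colenC (I ⊔ Ideal.span {(xc 0 : CS (m + 1))}) ≠ ⊤) {p : PrimeSpectrum (CS (m + 1))}
    (hp : p ∈ minPC I) : (ellC I p : ℕ∞) = ll p (CS (m + 1) ⧸ I) := by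
  apply ENat.natCast_toNat
  intro h0
  have h1 := colenC_assoc hI hX hX
  apply hX
  rw [h1, ENat.sum_eq_top]
  refine ⟨p, hp, ?_⟩
  obtain ⟨Q, φ, -, -, -, hφ⟩ := exists_brC hI hX ((mem_minPC hX).1 hp)
  rw [h0]
  apply ENat.top_mul
  rw [← coe_clC hφ.fin]
  exact_mod_cast hφ.clC_pos.ne'

theorem clC_assoc {I : Ideal (CS (m + 1))} (hI : CI (I.map (inc (m + 1))))
    (hX : colenC (I ⊔ Ideal.span {(xc 0 : CS (m + 1))}) ≠ ⊤)
    {g : CS (m + 1)} (hg : colenC (I ⊔ Ideal.span {g}) ≠ ⊤) :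
    clC (I ⊔ Ideal.span {g}) = ∑ p ∈ minPC I, ellC I p * clC (p.asIdeal ⊔ Ideal.span {g}) := by
  have h1 := colenC_assoc hI hX hg
  rw [← coe_clC hg] at h1
  have h2 : ∑ p ∈ minPC I, ll p (CS (m + 1) ⧸ I) * colenC (p.asIdeal ⊔ Ideal.span {g}) =
      ((∑ p ∈ minPC I, ellC I p * clC (p.asIdeal ⊔ Ideal.span {g}) : ℕ) : ℕ∞) := by
    push_cast
    apply Finset.sum_congr rfl
    intro p hp
    rw [coe_ellC hI hX hp, coe_clC]
    exact ne_top_of_le_ne_top hg (colenC_anti (sup_le_sup_right ((mem_minPC hX).1 hp).1.2 _))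
  rw [h2] at h1
  exact_mod_cast h1

end Pool.Agent.Helper341_polar
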