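import Mathlib
import Pool.Agent.Helper341_polar.LenC

/-!
# The jacobian Newton polygon in the ring of convergent power series
-/

set_option autoImplicit false

namespace Pool.Agent.Helper341_polar

open IsLocalRing MvPowerSeries

variable {n m : ℕ}

theorem clC_eq_cl (J : Ideal (CS n)) : clC J = cl (J.map (inc n)) := by
  unfold clC cl
  rw [colenC_eq]

/-- the polar ideal -/
noncomputable def polC (f : PS (m + 1)) : Ideal (CS (m + 1)) :=
  spanG (Cv (Fin (m + 1))) (Set.range fun j : Fin m => pderiv ℂ j.succ f)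

theorem polC_ci {f : PS (m + 1)} (hf : f ∈ Cv (Fin (m + 1))) :
    CI ((polC f).map (inc (m + 1))) := by
  rw [polC, polC_map hf]
  exact pol_ci f

/-- the slope of a component -/
noncomputable def slopeC (f : CS (m + 1)) (p : PrimeSpectrum (CS (m + 1))) : ℚ :=
  (clC (p.asIdeal ⊔ Ideal.span {f}) : ℚ) / clC (p.asIdeal ⊔ Ideal.span {(xc 0 : CS (m + 1))})

theorem GG_mem {f : PS (m + 1)} (hf : f ∈ Cv (Fin (m + 1))) (L : ℕ) (lam : ℚ) :
    GG L lam f ∈ Cv (Fin (m + 1)) := by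
  unfold GG
  apply Subalgebra.add_mem
  · apply Subalgebra.pow_mem
    apply Subalgebra.sub_mem
    · exact Subalgebra.mul_mem _ (X_mem_Cv 0) (pderiv_mem hf 0)
    · exact Subalgebra.mul_mem _ (C_mem_Cv _) hf
  · exact Subalgebra.mul_mem _ (X_mem_Cv 0) (Subalgebra.pow_mem _ hf L)

theorem sup_span_clC {f g : PS (m + 1)} (hf : f ∈ Cv (Fin (m + 1))) (hg : g ∈ Cv (Fin (m + 1))) :
    colenC (polC f ⊔ Ideal.span {(⟨g, hg⟩ : CS (m + 1))}) = colen (pol f ⊔ Ideal.span {g}) := by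
  rw [colenC_eq, map_sup_span, polC, polC_map hf]

open Classical in
theorem Good.multC_eq {f : PS (m + 1)} (h : Good f) (hf : f ∈ Cv (Fin (m + 1))) (lam : ℚ) :
    mult f lam = ∑ p ∈ (minPC (polC f)).filter (fun p => slopeC ⟨f, hf⟩ p = lam),
      ellC (polC f) p * clC (p.asIdeal ⊔ Ideal.span {(xc 0 : CS (m + 1))}) := by
  set L := cl (pol f ⊔ Ideal.span {(X 0 : PS (m + 1))}) + 1 with hL
  have hLt : cl (pol f ⊔ Ideal.span {(X 0 : PS (m + 1))}) < L := Nat.lt_succ_self _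
  have hX : colenC (polC f ⊔ Ideal.span {(xc 0 : CS (m + 1))}) ≠ ⊤ := h.finC hf
  have hG : colenC (polC f ⊔ Ideal.span {(⟨GG L lam f, GG_mem hf L lam⟩ : CS (m + 1))}) ≠ ⊤ := by
    rw [sup_span_clC hf]
    exact h.fin_GG lam hLt
  have hF : colenC (polC f ⊔ Ideal.span {(⟨f, hf⟩ : CS (m + 1))}) ≠ ⊤ := by
    rw [sup_span_clC hf]
    exact h.hf
  have e1 : cl (pol f ⊔ Ideal.span {GG L lam f}) =
      clC (polC f ⊔ Ideal.span {(⟨GG L lam f, GG_mem hf L lam⟩ : CS (m + 1))}) := by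
    unfold cl clC
    rw [sup_span_clC hf]
  have e2 : cl (pol f ⊔ Ideal.span {f}) = clC (polC f ⊔ Ideal.span {(⟨f, hf⟩ : CS (m + 1))}) := by
    unfold cl clC
    rw [sup_span_clC hf]
  have h1 : cl (pol f ⊔ Ideal.span {GG L lam f}) = L * cl (pol f ⊔ Ideal.span {f}) +
      ∑ p ∈ (minPC (polC f)).filter (fun p => slopeC ⟨f, hf⟩ p = lam),
      ellC (polC f) p * clC (p.asIdeal ⊔ Ideal.span {(xc 0 : CS (m + 1))}) := by
    rw [e1, e2, clC_assoc (polC_ci hf) hX hG, clC_assoc (polC_ci hf) hX hF,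
      Finset.mul_sum, Finset.sum_filter, ← Finset.sum_add_distrib]
    apply Finset.sum_congr rfl
    intro p hp
    obtain ⟨Q, φ, hQ, hQP, hφ, hψ⟩ := exists_brC (polC_ci hf) hX ((mem_minPC hX).1 hp)
    rw [polC, polC_map hf] at hQ
    obtain ⟨g1, g2⟩ := h.order_GG hQ hφ lam hLt
    have g1' : (⟨GG L lam f, GG_mem hf L lam⟩ : CS (m + 1)) ∉ p.asIdeal := by
      rw [← hQP]
      exact g1
    have f1' : (⟨f, hf⟩ : CS (m + 1)) ∉ p.asIdeal := by
      rw [← hQP]
      exact h.f_notMem hQ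
    have e3 := hψ.clC_eq g1'
    have e4 := hψ.clC_eq f1'
    have e5 : slopeC ⟨f, hf⟩ p = (φ f).order := by
      have h3 : (clC (p.asIdeal ⊔ Ideal.span {(xc 0 : CS (m + 1))}) : ℚ) ≠ 0 := by
        exact_mod_cast hψ.clC_pos.ne'
      rw [slopeC, div_eq_iff h3, e4]
      rfl
    have e6 : (clC (p.asIdeal ⊔ Ideal.span {(⟨GG L lam f, GG_mem hf L lam⟩ : CS (m + 1))}) : ℚ) =
        L * clC (p.asIdeal ⊔ Ideal.span {(⟨f, hf⟩ : CS (m + 1))}) +
          (if slopeC ⟨f, hf⟩ p = lam then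
            (clC (p.asIdeal ⊔ Ideal.span {(xc 0 : CS (m + 1))}) : ℚ) else 0) := by
      rw [e3, e4]
      have g3 : (φ.comp (inc (m + 1)).toRingHom)
          (⟨GG L lam f, GG_mem hf L lam⟩ : CS (m + 1)) = φ (GG L lam f) := rfl
      have g4 : (φ.comp (inc (m + 1)).toRingHom) (⟨f, hf⟩ : CS (m + 1)) = φ f := rfl
      rw [g3, g4, g2, ← e5]
      by_cases hc : slopeC ⟨f, hf⟩ p = lam
      · rw [if_pos hc, if_pos hc.symm]
        ring
      · rw [if_neg hc, if_neg (Ne.symm hc)]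
        ring
    have e7 : clC (p.asIdeal ⊔ Ideal.span {(⟨GG L lam f, GG_mem hf L lam⟩ : CS (m + 1))}) =
        L * clC (p.asIdeal ⊔ Ideal.span {(⟨f, hf⟩ : CS (m + 1))}) +
          (if slopeC ⟨f, hf⟩ p = lam then
            clC (p.asIdeal ⊔ Ideal.span {(xc 0 : CS (m + 1))}) else 0) := by
      split_ifs at e6 ⊢ with hc
      · exact_mod_cast e6
      · rw [add_zero] at e6 ⊢
        exact_mod_cast e6
    rw [e7]
    split_ifs with hc
    · ring
    · ring
  rw [mult, ← hL, h1, Nat.add_sub_cancel_left]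

/-- the polygon in a ring of power series -/
noncomputable def polygonG (S : Subalgebra ℂ (PS (m + 1))) (f : PS (m + 1)) (r : ℚ) : ℕ∞ :=
  ∑ᶠ (p : PrimeSpectrum S) (_ : HQ S f p r),
    Module.length (Localization.AtPrime p.asIdeal)
      (LocalizedModule p.asIdeal.primeCompl
        (S ⧸ spanG S (Set.range fun j : Fin m => pderiv ℂ j.succ f))) *
    Module.length ℂ (S ⧸ (p.asIdeal ⊔ spanG S {X 0}))

theorem Good.HQ_iff_slopeC {f : PS (m + 1)} (h : Good f) (hf : f ∈ Cv (Fin (m + 1)))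
    (p : PrimeSpectrum (CS (m + 1))) (r : ℚ) :
    HQ (Cv (Fin (m + 1))) f p r ↔ p ∈ minPC (polC f) ∧ slopeC ⟨f, hf⟩ p = r + 1 := by
  have hX : colenC (polC f ⊔ Ideal.span {(xc 0 : CS (m + 1))}) ≠ ⊤ := h.finC hf
  have key : p.asIdeal ∈ (polC f).minimalPrimes →
      (HQ (Cv (Fin (m + 1))) f p r ↔ slopeC ⟨f, hf⟩ p = r + 1) := by
    intro hp
    obtain ⟨Q, φ, hQ, hQP, hφ, hψ⟩ := exists_brC (polC_ci hf) hX hp
    rw [polC, polC_map hf] at hQ
    have f1' : (⟨f, hf⟩ : CS (m + 1)) ∉ p.asIdeal := by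
      rw [← hQP]
      exact h.f_notMem hQ
    have e5 : slopeC ⟨f, hf⟩ p = (φ f).order := by
      have h3 : (clC (p.asIdeal ⊔ Ideal.span {(xc 0 : CS (m + 1))}) : ℚ) ≠ 0 := by
        exact_mod_cast hψ.clC_pos.ne'
      rw [slopeC, div_eq_iff h3, hψ.clC_eq f1']
      rfl
    have e6 : slope f ⟨Q, hQ.1.1⟩ = (φ f).order := (h.order_eq hQ hφ).symm
    rw [h.HQ_iff hf (Q := ⟨Q, hQ.1.1⟩) hQ hQP r, e5, e6]
  constructor
  · intro hp
    exact ⟨(mem_minPC hX).2 hp.1, (key hp.1).1 hp⟩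
  · rintro ⟨hp, hs⟩
    exact (key ((mem_minPC hX).1 hp)).2 hs

theorem Good.polygonG_eq {f : PS (m + 1)} (h : Good f) (hf : f ∈ Cv (Fin (m + 1))) (r : ℚ) :
    polygonG (Cv (Fin (m + 1))) f r = (mult f (r + 1) : ℕ) := by
  classical
  have hX : colenC (polC f ⊔ Ideal.span {(xc 0 : CS (m + 1))}) ≠ ⊤ := h.finC hf
  rw [h.multC_eq hf, polygonG]
  have h1 : ∀ p : PrimeSpectrum (CS (m + 1)),
      (∑ᶠ (_ : HQ (Cv (Fin (m + 1))) f p r),
        Module.length (Localization.AtPrime p.asIdeal)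
          (LocalizedModule p.asIdeal.primeCompl
            (CS (m + 1) ⧸ spanG (Cv (Fin (m + 1))) (Set.range fun j : Fin m => pderiv ℂ j.succ f))) *
        Module.length ℂ (CS (m + 1) ⧸ (p.asIdeal ⊔ spanG (Cv (Fin (m + 1))) {X 0}))) =
      if p ∈ (minPC (polC f)).filter (fun p => slopeC ⟨f, hf⟩ p = r + 1) then
        ((ellC (polC f) p * clC (p.asIdeal ⊔ Ideal.span {(xc 0 : CS (m + 1))}) : ℕ) : ℕ∞)
      else 0 := by
    intro p
    by_cases hp : HQ (Cv (Fin (m + 1))) f p r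
    · rw [finsum_eq_if, if_pos hp, if_pos (by
        rw [Finset.mem_filter]
        exact (h.HQ_iff_slopeC hf p r).1 hp)]
      obtain ⟨hp1, hp2⟩ := (h.HQ_iff_slopeC hf p r).1 hp
      obtain ⟨Q, φ, -, -, -, hψ⟩ := exists_brC (polC_ci hf) hX ((mem_minPC hX).1 hp1)
      push_cast
      rw [coe_ellC (polC_ci hf) hX hp1, coe_clC hψ.fin]
      have e1 : p.asIdeal ⊔ spanG (Cv (Fin (m + 1))) {X 0} =
          p.asIdeal ⊔ Ideal.span {(xc 0 : CS (m + 1))} := by
        rw [← spanG_singleton]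
        rfl
      rw [e1]
      rfl
    · rw [finsum_eq_if, if_neg hp, if_neg (by
        rw [Finset.mem_filter]
        exact fun h' => hp ((h.HQ_iff_slopeC hf p r).2 h'))]
  rw [finsum_congr h1, finsum_eq_sum_of_support_subset (s := (minPC (polC f)).filter
    (fun p => slopeC ⟨f, hf⟩ p = r + 1))]
  · rw [Nat.cast_sum]
    apply Finset.sum_congr rfl
    intro p hp
    rw [if_pos hp]
  · intro p hp
    rw [Function.mem_support] at hp
    by_contra hcon
    exact hp (if_neg hcon)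

theorem Good.polygonG_eq' {S : Subalgebra ℂ (PS (m + 1))} (hS : S = Cv (Fin (m + 1)))
    {f : PS (m + 1)} (h : Good f) (hf : f ∈ S) (r : ℚ) :
    polygonG S f r = (mult f (r + 1) : ℕ) := by
  subst hS
  exact h.polygonG_eq hf r

theorem StC.polygon_eq {f : StC.Germ (m + 1)} (h : Good (f : PS (m + 1))) :
    StC.polygon f = St.polygon (f : PS (m + 1)) := by
  ext1 r
  rw [h.polygon_eq, ← h.polygonG_eq' (germ_eq (m + 1)) f.2 r]
  unfold StC.polygon polygonG
  apply finsum_congr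
  intro p
  have h1 : StC.inter p (StC.coord 0) =
      Module.length ℂ (StC.Germ (m + 1) ⧸ (p.asIdeal ⊔ spanG (StC.Germ (m + 1)) {X 0})) := by
    unfold StC.inter
    rw [← spanG_singleton]
    rfl
  have h2 : StC.compMult f p = Module.length (Localization.AtPrime p.asIdeal)
      (LocalizedModule p.asIdeal.primeCompl (StC.Germ (m + 1) ⧸ spanG (StC.Germ (m + 1))
        (Set.range fun j : Fin m => pderiv ℂ j.succ (f : PS (m + 1))))) := by
    unfold StC.compMult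
    rw [StC.polarIdeal_eq]
  rw [h1, h2]
  exact finsum_congr_Prop (propext (StC.hasQuotient_iff f p r)) fun _ => rfl

end Pool.Agent.Helper341_polar
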