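import Mathlib
import Pool.Agent.Helper341_polar.PolyC

/-!
# The main theorems in both categories
-/

set_option autoImplicit false

namespace Pool.Agent.Helper341_polar

open IsLocalRing MvPowerSeries Filter

variable {n m : ℕ}

theorem milnor_sum {g : PS (m + 1)} (hg : Good g) : St.milnor g + St.milnor (St.restrict g) =
    ((cl (jac g) + cl (pol g ⊔ Ideal.span {(X 0 : PS (m + 1))}) : ℕ) : ℕ∞) := by
  have h3 : St.milnor g + St.milnor (St.restrict g) = colen (jac g) + colen (jac (res g)) := rfl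
  rw [h3, ← colen_res, ← coe_cl hg.hX, ← coe_cl hg.fin_jac]
  push_cast
  rfl

/-- a fixed hyperplane -/
theorem fixed_iff {T : Type*} [TopologicalSpace T] {t₀ : T} {m : ℕ} {f : T → PS (m + 1)}
    (hc : CoeffCont f t₀) (h0 : ∀ t, constantCoeff (f t) = 0)
    (hfin : colen (jac (f t₀)) ≠ ⊤) (hfin' : colen (jac (res (f t₀))) ≠ ⊤) :
    (∀ᶠ t in nhds t₀, Good (f t)) ∧ Good (f t₀) ∧
    ((∀ᶠ t in nhds t₀, colen (jac (f t)) + colen (jac (res (f t))) =
      colen (jac (f t₀)) + colen (jac (res (f t₀)))) ↔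
    ∀ᶠ t in nhds t₀, mult (f t) = mult (f t₀)) := by
  have hfin2 : colen (pol (f t₀) ⊔ Ideal.span {(X 0 : PS (m + 1))}) ≠ ⊤ := by
    rw [colen_res]
    exact hfin'
  have hg0 : Good (f t₀) := good_of_jac (h0 t₀) hfin2 hfin
  have hgood : ∀ᶠ t in nhds t₀, Good (f t) := by
    filter_upwards [usc_pol hc (CoeffCont.const (X 0) t₀) hg0.hX, usc_pol hc hc hg0.hf]
      with t h1 h2
    exact ⟨h0 t, h1.1, h2.1⟩
  refine ⟨hgood, hg0, ?_⟩
  constructor
  · intro h
    have h1 := family_mu hc (Eventually.of_forall h0)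
      (a := cl (jac (f t₀)) + cl (pol (f t₀) ⊔ Ideal.span {(X 0 : PS (m + 1))})) (by
        filter_upwards [h] with t ht
        rw [ht, ← colen_res, ← coe_cl hg0.hX, ← coe_cl hg0.fin_jac]
        push_cast
        rfl)
    filter_upwards [h1] with t ht
    exact ht.2.1
  · intro h
    filter_upwards [h, hgood] with t ht hgt
    have h1 := cl_f_congr hgt hg0 ht
    rw [hgt.teissier, hg0.teissier] at h1
    have h2 := milnor_sum hgt
    have h3 := milnor_sum hg0
    rw [h1, ← h3] at h2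
    exact h2

theorem good_gen {f : PS n} (h0 : constantCoeff f = 0) {x y : ℕ} (hx : Mu f (m + 1) x)
    (hy : Mu f m y) : Gen (fun A : Matrix (Fin n) (Fin (m + 1)) ℂ => Good (sub A f) ∧
      cl (pol (sub A f) ⊔ Ideal.span {sub A f}) = x + y) := by
  apply (hx.and hy.succ).mono
  rintro A ⟨h1, h2⟩
  have e2 : colen (pol (sub A f) ⊔ Ideal.span {(X 0 : PS (m + 1))}) = y := by
    rw [colen_res, res_sub, h2]
  have hg : Good (sub A f) := good_of_jac (constantCoeff_sub A h0) (by
    rw [e2]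
    exact ENat.natCast_ne_top _) (by
    rw [h1]
    exact ENat.natCast_ne_top _)
  refine ⟨hg, ?_⟩
  rw [hg.teissier]
  congr 1
  · unfold cl
    rw [h1]
    rfl
  · unfold cl
    rw [e2]
    rfl

/-- the generic polygon determines the sum of the Milnor numbers -/
theorem sum_congr_of_mult {f g : PS n} (hf0 : constantCoeff f = 0) (hg0 : constantCoeff g = 0)
    {x y x' y' : ℕ} (hx : Mu f (m + 1) x) (hy : Mu f m y) (hx' : Mu g (m + 1) x')
    (hy' : Mu g m y')
    (h : Gen fun A : Matrix (Fin n) (Fin (m + 1)) ℂ => mult (sub A f) = mult (sub A g)) :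
    x + y = x' + y' := by
  obtain ⟨A, ⟨⟨h1, h2⟩, ⟨h3, h4⟩⟩, h5⟩ :=
    (((good_gen hf0 hx hy).and (good_gen hg0 hx' hy')).and h).exists
  rw [← h2, ← h4]
  exact cl_f_congr h1 h3 h5

/-- the generic polygon determines the sum of the Milnor numbers, formal version -/
theorem sum_congr_of_polygon {f g : PS n} (hf0 : constantCoeff f = 0) (hg0 : constantCoeff g = 0)
    {x y x' y' : ℕ} (hx : Mu f (m + 1) x) (hy : Mu f m y) (hx' : Mu g (m + 1) x')
    (hy' : Mu g m y') {N : ℚ → ℕ∞}
    (h : Gen fun A : Matrix (Fin n) (Fin (m + 1)) ℂ => Good (sub A f) → St.polygon (sub A f) = N)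
    (h' : Gen fun A : Matrix (Fin n) (Fin (m + 1)) ℂ => Good (sub A g) →
      St.polygon (sub A g) = N) :
    x + y = x' + y' := by
  apply sum_congr_of_mult hf0 hg0 hx hy hx' hy'
  apply (((good_gen hf0 hx hy).and (good_gen hg0 hx' hy')).and (h.and h')).mono
  rintro A ⟨⟨⟨h1, -⟩, ⟨h3, -⟩⟩, h5, h6⟩
  exact mult_congr h1 h3 ((h5 h1).trans (h6 h3).symm)

end Pool.Agent.Helper341_polar
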